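import Pool.Agent.H24.Bg

/-! Algebra of the face functions. -/

open Complex Filter Topology
open scoped ContDiff

namespace Pool.Agent.H24

/-- real-affine complex valued functions -/
noncomputable def aff (a b c : ℂ) (x : ℂ) : ℂ := a + b * x + c * starRingEnd ℂ x

noncomputable def cs (N : ℕ) : ℂ := (ea N + (ea N)⁻¹) / 2
noncomputable def c2 (N : ℕ) : ℂ := (ea N ^ 2 + ((ea N)⁻¹) ^ 2) / 2
/-- value at the hinge `m` -/
noncomputable def hm (N : ℕ) : ℂ := (1 + (rho N) ^ 2 * ea N ^ 2) / 4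
noncomputable def gm (N : ℕ) : ℂ := 2 * hm N / mm N ^ 2 - 1

noncomputable def BD (N : ℕ) : ℂ := ((rho N) ^ 2 - c2 N) / (2 * (rho N - cs N))
noncomputable def lD (N : ℕ) : ℂ → ℂ :=
  aff (ea N ^ 2 * ((rho N) ^ 2 / 2 - rho N * BD N)) (ea N * (BD N + cs N) / 2)
    (ea N ^ 3 * (BD N - cs N) / 2)

noncomputable def mr (N : ℕ) : ℂ := (1 + rho N * cs N) / 2
noncomputable def numU (N : ℕ) : ℂ :=
  (1 - (rho N) ^ 2 * c2 N) / 4 + I * rho N * cs N * mr N * tt N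
noncomputable def denU (N : ℕ) : ℂ :=
  (rho N * cs N - 1) / 2 - I * rho N * c2 N * tt N / (2 * cs N) - mr N * (tt N) ^ 2
noncomputable def cU (N : ℕ) : ℂ := numU N / denU N
noncomputable def GU (N : ℕ) : ℂ := (rho N) ^ 2 / 2 - I * cU N * rho N * tt N / (2 * cs N)
noncomputable def gq (N : ℕ) : ℂ := 2 * GU N * kap N ^ 2 / (rho N) ^ 2 - 1
noncomputable def kapc (N : ℕ) : ℂ := 1 + I * tt N

noncomputable def lU (N : ℕ) : ℂ → ℂ :=
  aff (GU N * c2 N + cU N * rho N * cs N) (GU N * cs N * kap N / rho N - cU N * kap N / 2)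
    (-(GU N * cs N * kapc N / rho N) - cU N * kapc N / 2)

/-- the background Airy function -/
noncomputable def Qh (N : ℕ) (x : ℂ) : ℂ :=
  x ^ 2 / 2 * (1 + bg N (gm N) (starRingEnd ℂ (gm N)) (gq N) x)

lemma norm_ea (N : ℕ) : ‖ea N‖ = 1 := by
  have : ea N = exp ((Real.pi / N : ℝ) * I) := by
    rw [ea]; congr 1; push_cast; ring
  rw [this, Complex.norm_exp_ofReal_mul_I]

lemma ea_ne (N : ℕ) : ea N ≠ 0 := exp_ne_zero _

lemma ea_sq (N : ℕ) : ea N ^ 2 = ep N := by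
  rw [ea, ep, ← Complex.exp_nat_mul]
  congr 1
  push_cast
  ring

lemma conj_ea (N : ℕ) : starRingEnd ℂ (ea N) = (ea N)⁻¹ := by
  rw [Complex.inv_def, Complex.normSq_eq_norm_sq, norm_ea]
  simp

lemma conj_ep (N : ℕ) : starRingEnd ℂ (ep N) = (ep N)⁻¹ := by
  rw [← ea_sq, map_pow, conj_ea, inv_pow]

lemma rho_pos (N : ℕ) : 0 < rho N := by unfold rho; positivity

lemma conj_mm (N : ℕ) : starRingEnd ℂ (mm N) = (1 + rho N * (ea N)⁻¹) / 2 := by
  rw [mm, qt, map_div₀, map_add, map_mul, map_one, conj_ea, Complex.conj_ofReal, map_ofNat]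

lemma conj_kap (N : ℕ) : starRingEnd ℂ (kap N) = kapc N := by
  rw [kap, kapc, map_sub, map_mul, map_one, Complex.conj_I, Complex.conj_ofReal]
  ring

lemma kap_ne (N : ℕ) : kap N ≠ 0 := by
  intro h
  have := congrArg Complex.re h
  simp [kap] at this

lemma kapc_ne (N : ℕ) : kapc N ≠ 0 := by
  intro h
  have := congrArg Complex.re h
  simp [kapc] at this

lemma conj_qq (N : ℕ) : starRingEnd ℂ (qq N) = rho N * (ea N)⁻¹ / kapc N := by
  rw [qq, qt, map_div₀, map_mul, conj_ea, Complex.conj_ofReal, conj_kap]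

lemma aff_apply (a b c x : ℂ) : aff a b c x = a + b * x + c * starRingEnd ℂ x := rfl

/-- values of `lD` -/
lemma lD_one {N : ℕ} (h : (rho N : ℂ) - cs N ≠ 0) : lD N 1 = 1 / 2 := by
  have he := ea_ne N
  simp only [lD, aff_apply, map_one]
  have hB : BD N * (rho N - cs N) = ((rho N) ^ 2 - c2 N) / 2 := by
    rw [BD]; field_simp
  have e1 : ea N ^ 2 * ((rho N) ^ 2 / 2 - rho N * BD N) + ea N * (BD N + cs N) / 2 * 1
      + ea N ^ 3 * (BD N - cs N) / 2 * 1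
      = ea N ^ 2 * ((rho N) ^ 2 / 2 - BD N * (rho N - cs N)) 
        + (ea N * (BD N + cs N) / 2 + ea N ^ 3 * (BD N - cs N) / 2 - ea N ^ 2 * BD N * cs N) := by
    ring
  rw [e1, hB]
  have e2 : ea N * (BD N + cs N) / 2 + ea N ^ 3 * (BD N - cs N) / 2 - ea N ^ 2 * BD N * cs N
      = ea N * cs N / 2 - ea N ^ 3 * cs N / 2 := by
    rw [cs]; field_simp; ring
  rw [e2, cs, c2]
  field_simp
  ring

lemma lD_ep {N : ℕ} (h : (rho N : ℂ) - cs N ≠ 0) : lD N (ep N) = ep N ^ 2 / 2 := by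
  have he := ea_ne N
  simp only [lD, aff_apply, conj_ep]
  rw [← ea_sq]
  have hB : BD N * (rho N - cs N) = ((rho N) ^ 2 - c2 N) / 2 := by
    rw [BD]; field_simp
  have e1 : ea N ^ 2 * ((rho N) ^ 2 / 2 - rho N * BD N) + ea N * (BD N + cs N) / 2 * ea N ^ 2
      + ea N ^ 3 * (BD N - cs N) / 2 * (ea N ^ 2)⁻¹
      = ea N ^ 2 * ((rho N) ^ 2 / 2 - BD N * (rho N - cs N)) 
        + (ea N ^ 3 * (BD N + cs N) / 2 + ea N * (BD N - cs N) / 2 - ea N ^ 2 * BD N * cs N) := by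
    field_simp; ring
  rw [e1, hB]
  have e2 : ea N ^ 3 * (BD N + cs N) / 2 + ea N * (BD N - cs N) / 2 - ea N ^ 2 * BD N * cs N
      = ea N ^ 3 * cs N / 2 - ea N * cs N / 2 := by
    rw [cs]; field_simp; ring
  rw [e2, cs, c2]
  field_simp
  ring

lemma lD_qt {N : ℕ} : lD N (qt N) = (rho N) ^ 2 * ea N ^ 2 / 2 := by
  have he := ea_ne N
  simp only [lD, aff_apply, qt, map_mul, conj_ea, Complex.conj_ofReal]
  field_simp
  ring

lemma aff_mid (a b c x y : ℂ) : aff a b c ((x + y) / 2) = (aff a b c x + aff a b c y) / 2 := by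
  simp only [aff_apply, map_div₀, map_add, map_ofNat]
  ring

lemma lD_mm {N : ℕ} (h : (rho N : ℂ) - cs N ≠ 0) : lD N (mm N) = hm N := by
  rw [mm, lD, aff_mid]
  have h1 := lD_one h
  have h2 := lD_qt (N := N)
  rw [lD] at h1 h2
  rw [h1, h2, hm]
  ring

lemma conj_hm (N : ℕ) : starRingEnd ℂ (hm N) = (1 + (rho N) ^ 2 * ((ea N)⁻¹) ^ 2) / 4 := by
  rw [hm, map_div₀, map_add, map_mul, map_pow, map_pow, conj_ea, Complex.conj_ofReal, map_one,
    map_ofNat]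

lemma lD_mc {N : ℕ} (h : (rho N : ℂ) - cs N ≠ 0) :
    lD N (ep N * starRingEnd ℂ (mm N)) = ep N ^ 2 * starRingEnd ℂ (hm N) := by
  have he := ea_ne N
  have e : ep N * starRingEnd ℂ (mm N) = (ep N + qt N) / 2 := by
    rw [conj_mm, ← ea_sq, qt]; field_simp
  rw [e, lD, aff_mid]
  have h1 := lD_ep h
  have h2 := lD_qt (N := N)
  rw [lD] at h1 h2
  rw [h1, h2, conj_hm, ← ea_sq]
  field_simp
  ring

/-- values of `lU` -/
lemma lU_qq {N : ℕ} : lU N (qq N) = GU N * ea N ^ 2 := by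
  have he := ea_ne N
  have hk := kap_ne N
  have hkc := kapc_ne N
  have hr : (rho N : ℂ) ≠ 0 := by exact_mod_cast (rho_pos N).ne'
  simp only [lU, aff_apply, conj_qq]
  simp only [qq, qt]
  rw [cs, c2]
  field_simp
  ring

lemma lU_qq' {N : ℕ} : lU N (qq N / ep N) = GU N * ((ea N)⁻¹) ^ 2 := by
  have he := ea_ne N
  have hk := kap_ne N
  have hkc := kapc_ne N
  have hr : (rho N : ℂ) ≠ 0 := by exact_mod_cast (rho_pos N).ne'
  simp only [lU, aff_apply, map_div₀, conj_qq, conj_ep]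
  simp only [qq, qt]
  rw [← ea_sq, cs, c2]
  field_simp
  ring

lemma lU_key (e f s d r t C : ℂ) (hs : s ≠ 0) (hr : r ≠ 0) (hf : f = 2 * s - e) :
    (((r ^ 2 / 2 - I * C * r * t / (2 * s)) * d + C * r * s) +
      ((r ^ 2 / 2 - I * C * r * t / (2 * s)) * s * (1 - I * t) / r - C * (1 - I * t) / 2) *
        ((1 + r * e) / 2) +
      (-((r ^ 2 / 2 - I * C * r * t / (2 * s)) * s * (1 + I * t) / r) - C * (1 + I * t) / 2) *
        ((1 + r * f) / 2)) =
    r ^ 2 / 2 * (d + s * (e - f) / 2) - I * r * t * s * ((1 + r * s) / 2) +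
      C * ((r * s - 1) / 2 - I * r * d * t / (2 * s) - (1 + r * s) / 2 * t ^ 2) := by
  subst hf
  have hI : I ^ 2 = -1 := Complex.I_sq
  field_simp
  ring_nf
  simp only [hI]
  ring

lemma lU_mm {N : ℕ} (hc : cs N ≠ 0) (hd : denU N ≠ 0) : lU N (mm N) = hm N := by
  have he := ea_ne N
  have hr : (rho N : ℂ) ≠ 0 := by exact_mod_cast (rho_pos N).ne'
  have h1 : cU N * denU N = numU N := by rw [cU]; field_simp
  have h2 : (ea N)⁻¹ = 2 * cs N - ea N := by rw [cs]; ring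
  have h3 := lU_key (ea N) (ea N)⁻¹ (cs N) (c2 N) (rho N) (tt N) (cU N) hc hr h2
  simp only [lU, aff_apply, conj_mm]
  simp only [mm, qt, kap, kapc, GU]
  rw [h3]
  rw [denU, numU, mr] at h1
  rw [h1, hm, c2, cs]
  field_simp
  ring

lemma lU_mc {N : ℕ} (hc : cs N ≠ 0) (hd : denU N ≠ 0) :
    lU N (starRingEnd ℂ (mm N)) = starRingEnd ℂ (hm N) := by
  have he := ea_ne N
  have hr : (rho N : ℂ) ≠ 0 := by exact_mod_cast (rho_pos N).ne'
  have h1 : cU N * denU N = numU N := by rw [cU]; field_simp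
  have h2 : ea N = 2 * cs N - (ea N)⁻¹ := by rw [cs]; ring
  have h3 := lU_key (ea N)⁻¹ (ea N) (cs N) (c2 N) (rho N) (tt N) (cU N) hc hr h2
  simp only [lU, aff_apply, Complex.conj_conj]
  rw [conj_mm]
  simp only [mm, qt, kap, kapc, GU]
  rw [h3]
  rw [denU, numU, mr] at h1
  rw [h1, conj_hm, c2, cs]
  field_simp
  ring

/-- values of the background -/
lemma Qh_p {N : ℕ} (G : Good N) {x : ℂ} (hx : x ^ N = 1) : Qh N x = x ^ 2 / 2 := by
  rw [Qh, G.bg_p hx]; ring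

lemma Qh_mm {N : ℕ} (G : Good N) : Qh N (mm N) = hm N := by
  have := G.mm_ne
  rw [Qh, G.bg_m rfl, gm]
  field_simp
  ring

lemma Qh_rot {N : ℕ} (hN : 1 ≤ N) (x : ℂ) (k : ℕ) :
    Qh N (x / ep N ^ k) = Qh N x / (ep N ^ k) ^ 2 := by
  rw [Qh, bg_rot hN, Qh]
  ring

lemma Qh_mc {N : ℕ} (G : Good N) : Qh N (starRingEnd ℂ (mm N)) = starRingEnd ℂ (hm N) := by
  have h0 := G.mm_ne
  have h1 : starRingEnd ℂ (mm N) ≠ 0 := by
    rw [Ne, map_eq_zero]; exact h0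
  rw [Qh, G.bg_mc rfl]
  have : starRingEnd ℂ (gm N) = 2 * starRingEnd ℂ (hm N) / starRingEnd ℂ (mm N) ^ 2 - 1 := by
    rw [gm, map_sub, map_div₀, map_mul, map_pow, map_one, map_ofNat]
  rw [this]
  field_simp
  ring

lemma Qh_qq {N : ℕ} (G : Good N) : Qh N (qq N) = GU N * ea N ^ 2 := by
  have he := ea_ne N
  have hk := kap_ne N
  have hr : (rho N : ℂ) ≠ 0 := by exact_mod_cast (rho_pos N).ne'
  rw [Qh, G.bg_q rfl, gq, qq, qt]
  field_simp
  ring

lemma Qh_qq' {N : ℕ} (G : Good N) : Qh N (qq N / ep N) = GU N * ((ea N)⁻¹) ^ 2 := by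
  have he := ea_ne N
  have := Qh_rot G.N1 (qq N) 1
  rw [pow_one] at this
  rw [this, Qh_qq G, ← ea_sq]
  field_simp

lemma Qh_ep_mc {N : ℕ} (G : Good N) :
    Qh N (ep N * starRingEnd ℂ (mm N)) = ep N ^ 2 * starRingEnd ℂ (hm N) := by
  have he := ep_ne_zero N
  have := Qh_rot G.N1 (ep N * starRingEnd ℂ (mm N)) 1
  rw [pow_one, mul_div_cancel_left₀ _ he, Qh_mc G] at this
  rw [this]
  field_simp

end Pool.Agent.H24
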