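import Mathlib

set_option autoImplicit false
open Filter Topology Polynomial

namespace Pool.Agent.H24

/-- The closed unit disc minus an open cone around the positive real axis. -/
def coneSet (c : ℝ) : Set ℂ := {w : ℂ | ‖w‖ ≤ 1 ∧ w.re ≤ c * ‖w‖}

lemma isCompact_coneSet (c : ℝ) : IsCompact (coneSet c) := by
  apply Metric.isCompact_of_isClosed_isBounded
  · exact (isClosed_le continuous_norm continuous_const).inter
      (isClosed_le Complex.continuous_re (continuous_const.mul continuous_norm))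
  · refine (Metric.isBounded_closedBall (x := (0:ℂ)) (r := 1)).subset ?_
    intro w hw
    simpa using hw.1

lemma isPreconnected_compl_coneSet {c : ℝ} (hc0 : 0 ≤ c) (hc1 : c < 1) :
    IsPreconnected (coneSet c)ᶜ := by
  have h1 : IsPreconnected {w : ℂ | 1 < ‖w‖} := by
    have : {w : ℂ | 1 < ‖w‖} = (fun p : ℝ × ℝ => (p.1 : ℂ) * Complex.exp (p.2 * Complex.I)) ''
        (Set.Ioi 1 ×ˢ Set.univ) := by
      ext w
      constructor
      · intro hw
        refine ⟨(‖w‖, w.arg), ⟨hw, trivial⟩, ?_⟩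
        simp [Complex.norm_mul_exp_arg_mul_I]
      · rintro ⟨⟨r, t⟩, ⟨hr, -⟩, rfl⟩
        have hr' : (1:ℝ) < r := hr
        simp only [Set.mem_setOf_eq, norm_mul, Complex.norm_exp_ofReal_mul_I, mul_one,
          Complex.norm_real, Real.norm_eq_abs]
        rw [abs_of_pos (by linarith)]
        exact hr'
    rw [this]
    apply IsPreconnected.image
    · exact (isPreconnected_Ioi).prod isPreconnected_univ
    · fun_prop
  have h2 : IsPreconnected {w : ℂ | c * ‖w‖ < w.re} := by
    apply Convex.isPreconnected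
    intro x hx y hy a b ha hb hab
    simp only [Set.mem_setOf_eq] at hx hy ⊢
    have hn : ‖a • x + b • y‖ ≤ a * ‖x‖ + b * ‖y‖ := by
      refine (norm_add_le _ _).trans ?_
      rw [norm_smul, norm_smul, Real.norm_of_nonneg ha, Real.norm_of_nonneg hb]
    have hre : (a • x + b • y).re = a * x.re + b * y.re := by simp
    rw [hre]
    calc c * ‖a • x + b • y‖ ≤ c * (a * ‖x‖ + b * ‖y‖) := mul_le_mul_of_nonneg_left hn hc0
      _ = a * (c * ‖x‖) + b * (c * ‖y‖) := by ring
      _ < a * x.re + b * y.re := by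
          rcases eq_or_lt_of_le ha with h | h
          · have hb1 : b = 1 := by linarith
            subst hb1; rw [← h]; simpa using hy
          · have := mul_lt_mul_of_pos_left hx h
            have := mul_le_mul_of_nonneg_left hy.le hb
            linarith
  have h3 : (coneSet c)ᶜ = {w : ℂ | 1 < ‖w‖} ∪ {w : ℂ | c * ‖w‖ < w.re} := by
    ext w
    simp only [coneSet, Set.mem_compl_iff, Set.mem_setOf_eq, not_and_or, not_le, Set.mem_union]
  rw [h3]
  refine IsPreconnected.union (2:ℂ) ?_ ?_ h1 h2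
  · simp
  · simp only [Set.mem_setOf_eq, Complex.norm_ofNat, Complex.re_ofNat]; linarith

/-- Runge's theorem in the special case needed: a simple pole off `coneSet c` can be
approximated by polynomials. -/
lemma runge_cone {c : ℝ} (hc0 : 0 ≤ c) (hc1 : c < 1) {a : ℂ} (ha : a ∉ coneSet c)
    {η : ℝ} (hη : 0 < η) :
    ∃ Q : ℂ[X], ∀ w ∈ coneSet c, ‖Q.eval w - (a - w)⁻¹‖ ≤ η := by
  classical
  haveI : CompactSpace (coneSet c) := isCompact_iff_compactSpace.mp (isCompact_coneSet c)
  let K := coneSet c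
  let S : Subalgebra ℂ C(K, ℂ) := (polynomialFunctions K).topologicalClosure
  haveI hS : IsClosed (S : Set C(K, ℂ)) := Subalgebra.isClosed_topologicalClosure _
  let f : C(K, ℂ) := Polynomial.toContinuousMapOn (X : ℂ[X]) K
  have hf : f ∈ S := by
    apply Subalgebra.le_topologicalClosure
    exact ⟨X, by simp, rfl⟩
  let x : S := ⟨f, hf⟩
  have hspecA : spectrum ℂ (x : C(K, ℂ)) = K := by
    rw [ContinuousMap.spectrum_eq_range]
    ext w
    constructor
    · rintro ⟨y, rfl⟩
      simp [x, f]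
    · intro hw
      exact ⟨⟨w, hw⟩, by simp [x, f]⟩
  have hspec : spectrum ℂ x = K := by
    have := Subalgebra.spectrum_eq_of_isPreconnected_compl S x
      (by rw [hspecA]; exact isPreconnected_compl_coneSet hc0 hc1)
    rw [this, hspecA]
  have ha' : a ∉ spectrum ℂ x := by rw [hspec]; exact ha
  rw [spectrum.notMem_iff] at ha'
  obtain ⟨u, hu⟩ := ha'
  let y : S := (u⁻¹ : Sˣ)
  have hy : (algebraMap ℂ S a - x) * y = 1 := by
    rw [← hu]; exact u.mul_inv
  have hyv : ∀ w : K, (y : C(K, ℂ)) w = (a - w)⁻¹ := by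
    intro w
    have h1 := congrArg (fun z : S => (z : C(K, ℂ)) w) hy
    simp only [MulMemClass.coe_mul, ContinuousMap.mul_apply] at h1
    have h2 : ((algebraMap ℂ S a - x : S) : C(K, ℂ)) w = a - w := by
      simp [x, f]
    rw [h2] at h1
    simp only [OneMemClass.coe_one, ContinuousMap.one_apply] at h1
    exact eq_inv_of_mul_eq_one_right h1
  have hymem : (y : C(K, ℂ)) ∈ closure ((polynomialFunctions K : Subalgebra ℂ C(K, ℂ)) : Set C(K, ℂ)) := y.2
  rw [Metric.mem_closure_iff] at hymem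
  obtain ⟨p, hp, hpd⟩ := hymem η hη
  obtain ⟨Q, -, rfl⟩ := hp
  refine ⟨Q, fun w hw => ?_⟩
  rw [← hyv ⟨w, hw⟩]
  have h4 := ContinuousMap.dist_apply_le_dist (f := (y : C(K, ℂ)))
    (g := ((Polynomial.toContinuousMapOnAlgHom K : ℂ[X] →ₐ[ℂ] C(K, ℂ)) : ℂ[X] →+* C(K, ℂ)) Q)
    (⟨w, hw⟩ : K)
  rw [dist_comm, dist_eq_norm] at h4
  refine le_trans (le_of_eq ?_) (h4.trans hpd.le)
  simp

end Pool.Agent.H24
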