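import Mathlib
import Pool.Agent.H24.Runge

set_option autoImplicit false
open Filter Topology Polynomial

namespace Pool.Agent.H24

/-- distance from a positive real to a point of the cone complement -/
lemma norm_sub_ge_max {c : ℝ} (hc0 : 0 ≤ c) (hc1 : c < 1) {a : ℝ} (ha : 0 < a) {w : ℂ}
    (hw : w.re ≤ c * ‖w‖) :
    Real.sqrt (1 - c ^ 2) * max a ‖w‖ ≤ ‖(a : ℂ) - w‖ := by
  have hc2 : 0 ≤ 1 - c ^ 2 := by nlinarith
  have hn : 0 ≤ ‖w‖ := norm_nonneg w
  have hsq : ‖(a : ℂ) - w‖ ^ 2 = a ^ 2 - 2 * a * w.re + ‖w‖ ^ 2 := by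
    rw [← Complex.normSq_eq_norm_sq, ← Complex.normSq_eq_norm_sq, Complex.normSq_apply,
      Complex.normSq_apply]
    simp
    ring
  have hle : (Real.sqrt (1 - c ^ 2) * max a ‖w‖) ^ 2 ≤ ‖(a : ℂ) - w‖ ^ 2 := by
    rw [mul_pow, Real.sq_sqrt hc2, hsq]
    rcases le_total a ‖w‖ with h | h
    · rw [max_eq_right h]
      nlinarith [sq_nonneg (a - c * ‖w‖), mul_le_mul_of_nonneg_left hw ha.le]
    · rw [max_eq_left h]
      nlinarith [sq_nonneg (‖w‖ - c * a), mul_le_mul_of_nonneg_left hw ha.le]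
  exact le_of_sq_le_sq hle (norm_nonneg _)
where
  le_of_sq_le_sq {x y : ℝ} (h : x ^ 2 ≤ y ^ 2) (hy : 0 ≤ y) : x ≤ y := by
    exact le_trans (le_abs_self x) (abs_le_of_sq_le_sq h hy)

lemma sum_min_le (t : ℝ) (ht : 0 < t) (L : ℕ) :
    ∑ l ∈ Finset.range L, min (t * 2 ^ l) (1 / (t * 2 ^ l)) ≤ 6 := by
  have key : ∀ u : ℝ, 0 < u → min u (1 / u) ≤ 6 * (2 * u / (1 + 2 * u) - u / (1 + u)) := by
    intro u hu
    have h1 : 2 * u / (1 + 2 * u) - u / (1 + u) = u / ((1 + 2 * u) * (1 + u)) := by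
      field_simp
      ring
    rw [h1]
    rcases le_total u 1 with h | h
    · refine (min_le_left _ _).trans ?_
      rw [← mul_div_assoc, le_div_iff₀ (by positivity)]
      nlinarith [mul_pos hu hu]
    · refine (min_le_right _ _).trans ?_
      rw [← mul_div_assoc, div_le_div_iff₀ hu (by positivity)]
      nlinarith [mul_pos hu hu]
  have hsum : ∀ L : ℕ, ∑ l ∈ Finset.range L, min (t * 2 ^ l) (1 / (t * 2 ^ l)) ≤
      6 * (t * 2 ^ L / (1 + t * 2 ^ L) - t / (1 + t)) := by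
    intro L
    induction L with
    | zero => simp
    | succ n ih =>
      rw [Finset.sum_range_succ]
      have := key (t * 2 ^ n) (by positivity)
      have h2 : 2 * (t * 2 ^ n) = t * 2 ^ (n + 1) := by ring
      rw [h2] at this
      linarith
  refine (hsum L).trans ?_
  have h3 : t * 2 ^ L / (1 + t * 2 ^ L) ≤ 1 := by
    rw [div_le_one (by positivity)]; linarith
  have h4 : 0 ≤ t / (1 + t) := by positivity
  linarith

/-- The basic polynomial: small at the origin, close to `1` on the circle off a small arc, and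
close to `[0,1]` along all radii off a small arc. -/
lemma exists_psi {c : ℝ} (hc0 : 0 ≤ c) (hc1 : c < 1) {ε : ℝ} (hε : 0 < ε) :
    ∃ ψ : ℂ[X], ψ.coeff 0 = 0 ∧
      (∀ w ∈ coneSet c, ∃ φ : ℝ, 0 ≤ φ ∧ φ ≤ 1 ∧ ‖ψ.eval w - (φ : ℂ)‖ ≤ ε) ∧
      (∀ w ∈ coneSet c, ‖w‖ = 1 → ‖ψ.eval w - 1‖ ≤ ε) := by
  classical
  set s : ℝ := Real.sqrt (1 - c ^ 2) with hs
  have hs0 : 0 < s := Real.sqrt_pos.mpr (by nlinarith)
  -- number of poles
  obtain ⟨L, hL⟩ := exists_nat_gt (12 / (s * ε))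
  have hLpos : (0:ℝ) < L := lt_trans (by positivity) hL
  have hL0 : 0 < L := by exact_mod_cast hLpos
  let a : ℕ → ℝ := fun l => ((1:ℝ) / 2) ^ (l + 1)
  have ha : ∀ l, 0 < a l := fun l => by positivity
  have ha1 : ∀ l, a l < 1 := fun l => by
    have : ((1:ℝ) / 2) ^ (l + 1) < 1 := pow_lt_one₀ (by norm_num) (by norm_num) (by omega)
    exact this
  have hanot : ∀ l, ((a l : ℝ) : ℂ) ∉ coneSet c := by
    intro l h
    have h2 := h.2
    rw [Complex.ofReal_re, Complex.norm_real, Real.norm_of_nonneg (ha l).le] at h2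
    nlinarith [ha l]
  choose Q hQ using fun l => runge_cone hc0 hc1 (hanot l) (η := ε / 4) (by positivity)
  -- normalised approximants
  let ψ : ℂ[X] := C ((1:ℂ) / L) * ∑ l ∈ Finset.range L, C ((a l : ℝ) : ℂ) * (C ((Q l).eval 0) - Q l)
  have hzero : (0:ℂ) ∈ coneSet c := by simp [coneSet]
  have hmain : ∀ w ∈ coneSet c,
      ‖ψ.eval w - (1 - (1 / L : ℂ) * ∑ l ∈ Finset.range L, (a l : ℂ) * ((a l : ℂ) - w)⁻¹)‖
        ≤ ε / 2 := by
    intro w hw
    have h1 : ψ.eval w - (1 - (1 / L : ℂ) * ∑ l ∈ Finset.range L, (a l : ℂ) * ((a l : ℂ) - w)⁻¹)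
        = (1 / L : ℂ) * ∑ l ∈ Finset.range L, (a l : ℂ) *
          (((Q l).eval 0 - ((a l : ℂ) - 0)⁻¹) - ((Q l).eval w - ((a l : ℂ) - w)⁻¹)) := by
      have hLc : (L : ℂ) ≠ 0 := by exact_mod_cast hL0.ne'
      have h2 : (1 : ℂ) = (1 / L : ℂ) * ∑ l ∈ Finset.range L, (a l : ℂ) * ((a l : ℂ) - 0)⁻¹ := by
        have : ∀ l ∈ Finset.range L, (a l : ℂ) * ((a l : ℂ) - 0)⁻¹ = 1 := by
          intro l _
          rw [sub_zero]
          exact mul_inv_cancel₀ (by exact_mod_cast (ha l).ne')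
        rw [Finset.sum_congr rfl this]
        simp [hLc]
      have h3 : ∑ l ∈ Finset.range L, (a l : ℂ) *
          (((Q l).eval 0 - ((a l : ℂ) - 0)⁻¹) - ((Q l).eval w - ((a l : ℂ) - w)⁻¹)) =
          ∑ l ∈ Finset.range L, (a l : ℂ) * ((Q l).eval 0 - (Q l).eval w)
          - ∑ l ∈ Finset.range L, (a l : ℂ) * ((a l : ℂ) - 0)⁻¹
          + ∑ l ∈ Finset.range L, (a l : ℂ) * ((a l : ℂ) - w)⁻¹ := by
        rw [← Finset.sum_sub_distrib, ← Finset.sum_add_distrib]
        apply Finset.sum_congr rfl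
        intro l _
        ring
      rw [h3, mul_add, mul_sub, ← h2]
      simp only [ψ, eval_mul, eval_C, eval_finsetSum, eval_sub]
      ring
    rw [h1, norm_mul]
    have h3 : ‖∑ l ∈ Finset.range L, (a l : ℂ) *
          (((Q l).eval 0 - ((a l : ℂ) - 0)⁻¹) - ((Q l).eval w - ((a l : ℂ) - w)⁻¹))‖
          ≤ ∑ l ∈ Finset.range L, ε / 2 := by
      refine (norm_sum_le _ _).trans (Finset.sum_le_sum fun l _ => ?_)
      rw [norm_mul, Complex.norm_real, Real.norm_of_nonneg (ha l).le]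
      have h5 := norm_sub_le ((Q l).eval 0 - ((a l : ℂ) - 0)⁻¹) ((Q l).eval w - ((a l : ℂ) - w)⁻¹)
      have h6 := hQ l 0 hzero
      have h7 := hQ l w hw
      have h8 : ‖((Q l).eval 0 - ((a l : ℂ) - 0)⁻¹) - ((Q l).eval w - ((a l : ℂ) - w)⁻¹)‖ ≤ ε / 2 := by
        linarith
      calc a l * _ ≤ 1 * (ε / 2) := mul_le_mul (ha1 l).le h8 (norm_nonneg _) zero_le_one
        _ = ε / 2 := one_mul _
    rw [Finset.sum_const, Finset.card_range, nsmul_eq_mul] at h3
    have h9 : ‖(1 / L : ℂ)‖ = 1 / L := by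
      rw [norm_div, norm_one, Complex.norm_natCast]
    rw [h9]
    calc 1 / (L:ℝ) * _ ≤ 1 / (L:ℝ) * (L * (ε / 2)) := mul_le_mul_of_nonneg_left h3 (by positivity)
      _ = ε / 2 := by field_simp
  -- comparison with a counting average
  let v : ℝ → ℕ → ℝ := fun ρ l => if ρ ≤ a l then 1 else 0
  have hv0 : ∀ ρ l, 0 ≤ v ρ l := fun ρ l => by simp only [v]; split_ifs <;> norm_num
  have hv1 : ∀ ρ l, v ρ l ≤ 1 := fun ρ l => by simp only [v]; split_ifs <;> norm_num
  have hcomp : ∀ w ∈ coneSet c,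
      ‖(1 - (1 / L : ℂ) * ∑ l ∈ Finset.range L, (a l : ℂ) * ((a l : ℂ) - w)⁻¹) -
        ((1 - (1 / L : ℝ) * ∑ l ∈ Finset.range L, v ‖w‖ l : ℝ) : ℂ)‖ ≤ ε / 2 := by
    intro w hw
    have h1 : (1 - (1 / L : ℂ) * ∑ l ∈ Finset.range L, (a l : ℂ) * ((a l : ℂ) - w)⁻¹) -
        ((1 - (1 / L : ℝ) * ∑ l ∈ Finset.range L, v ‖w‖ l : ℝ) : ℂ) =
        (1 / L : ℂ) * ∑ l ∈ Finset.range L, ((v ‖w‖ l : ℂ) - (a l : ℂ) * ((a l : ℂ) - w)⁻¹) := by
      push_cast
      rw [Finset.sum_sub_distrib]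
      ring
    rw [h1, norm_mul]
    have h9 : ‖(1 / L : ℂ)‖ = 1 / L := by
      rw [norm_div, norm_one, Complex.norm_natCast]
    rw [h9]
    have hterm : ∀ l, ‖(v ‖w‖ l : ℂ) - (a l : ℂ) * ((a l : ℂ) - w)⁻¹‖ ≤
        (1 / s) * min (2 * ‖w‖ * 2 ^ l) (1 / (2 * ‖w‖ * 2 ^ l)) ∨ w = 0 := by
      intro l
      rcases eq_or_ne w 0 with h0 | h0
      · exact Or.inr h0
      left
      have hwpos : 0 < ‖w‖ := norm_pos_iff.mpr h0
      have hlow := norm_sub_ge_max hc0 hc1 (ha l) hw.2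
      rw [← hs] at hlow
      have hne : ((a l : ℂ) - w) ≠ 0 := by
        intro h
        rw [h, norm_zero] at hlow
        have : 0 < s * max (a l) ‖w‖ := mul_pos hs0 (lt_max_of_lt_left (ha l))
        linarith
      have hal : 2 * ‖w‖ * 2 ^ l = ‖w‖ / a l := by
        simp only [a]
        rw [one_div, inv_pow, div_inv_eq_mul, pow_succ]
        ring
      rw [hal]
      have hnp : 0 < ‖(a l : ℂ) - w‖ := norm_pos_iff.mpr hne
      by_cases hcase : ‖w‖ ≤ a l
      · have hv : v ‖w‖ l = 1 := by simp [v, hcase]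
        rw [hv]
        have h2 : ((1:ℝ):ℂ) - (a l : ℂ) * ((a l : ℂ) - w)⁻¹ = -w * ((a l : ℂ) - w)⁻¹ := by
          push_cast
          field_simp
          ring
        rw [h2, norm_mul, norm_neg, norm_inv]
        have h3 : min (‖w‖ / a l) (1 / (‖w‖ / a l)) = ‖w‖ / a l := by
          apply min_eq_left
          have : ‖w‖ / a l ≤ 1 := (div_le_one (ha l)).mpr hcase
          have h' : 1 ≤ 1 / (‖w‖ / a l) := by
            rw [le_div_iff₀ (div_pos hwpos (ha l))]; linarith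
          linarith
        rw [h3]
        rw [max_eq_left hcase] at hlow
        calc ‖w‖ * ‖(a l : ℂ) - w‖⁻¹ ≤ ‖w‖ * (s * a l)⁻¹ := by
              apply mul_le_mul_of_nonneg_left _ hwpos.le
              exact inv_anti₀ (mul_pos hs0 (ha l)) hlow
          _ = 1 / s * (‖w‖ / a l) := by
              rw [mul_inv]; ring
      · push Not at hcase
        have hv : v ‖w‖ l = 0 := by simp [v, hcase]
        rw [hv]
        rw [Complex.ofReal_zero, zero_sub, norm_neg, norm_mul, norm_inv, Complex.norm_real,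
          Real.norm_of_nonneg (ha l).le]
        have h3 : min (‖w‖ / a l) (1 / (‖w‖ / a l)) = a l / ‖w‖ := by
          rw [one_div_div]
          apply min_eq_right
          have : 1 ≤ ‖w‖ / a l := (one_le_div (ha l)).mpr hcase.le
          have h' : a l / ‖w‖ ≤ 1 := (div_le_one hwpos).mpr hcase.le
          linarith
        rw [h3]
        rw [max_eq_right hcase.le] at hlow
        calc a l * ‖(a l : ℂ) - w‖⁻¹ ≤ a l * (s * ‖w‖)⁻¹ := by
              apply mul_le_mul_of_nonneg_left _ (ha l).le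
              exact inv_anti₀ (mul_pos hs0 hwpos) hlow
          _ = 1 / s * (a l / ‖w‖) := by
              rw [mul_inv]; ring
    rcases eq_or_ne w 0 with h0 | h0
    · have : ∀ l ∈ Finset.range L, ((v ‖w‖ l : ℂ) - (a l : ℂ) * ((a l : ℂ) - w)⁻¹) = 0 := by
        intro l _
        subst h0
        have hv : v ‖(0:ℂ)‖ l = 1 := by simp [v, (ha l).le]
        rw [hv, sub_zero, mul_inv_cancel₀ (by exact_mod_cast (ha l).ne')]
        simp
      rw [Finset.sum_congr rfl this]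
      simp; positivity
    · have hwpos : 0 < ‖w‖ := norm_pos_iff.mpr h0
      have h3 : ‖∑ l ∈ Finset.range L, ((v ‖w‖ l : ℂ) - (a l : ℂ) * ((a l : ℂ) - w)⁻¹)‖ ≤
          ∑ l ∈ Finset.range L, (1 / s) * min (2 * ‖w‖ * 2 ^ l) (1 / (2 * ‖w‖ * 2 ^ l)) := by
        refine (norm_sum_le _ _).trans (Finset.sum_le_sum fun l _ => ?_)
        exact (hterm l).resolve_right h0
      rw [← Finset.mul_sum] at h3
      have h4 := sum_min_le (2 * ‖w‖) (by positivity) L
      calc 1 / (L:ℝ) * _ ≤ 1 / (L:ℝ) * (1 / s * 6) := by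
            apply mul_le_mul_of_nonneg_left _ (by positivity)
            exact h3.trans (mul_le_mul_of_nonneg_left h4 (by positivity))
        _ ≤ ε / 2 := by
            rw [div_lt_iff₀ (by positivity)] at hL
            have : 1 / (L:ℝ) * (1 / s * 6) = 6 / (L * s) := by
              field_simp
            rw [this, div_le_div_iff₀ (by positivity) (by norm_num)]
            nlinarith
  have hψ0 : ψ.coeff 0 = 0 := by
    rw [coeff_zero_eq_eval_zero]
    simp [ψ, eval_finsetSum]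
  have htot : ∀ w ∈ coneSet c, ‖ψ.eval w - ((1 - (1 / L : ℝ) * ∑ l ∈ Finset.range L, v ‖w‖ l : ℝ) : ℂ)‖ ≤ ε := by
    intro w hw
    have h1 := hmain w hw
    have h2 := hcomp w hw
    have h3 := norm_add_le (ψ.eval w - (1 - (1 / L : ℂ) * ∑ l ∈ Finset.range L, (a l : ℂ) * ((a l : ℂ) - w)⁻¹))
      ((1 - (1 / L : ℂ) * ∑ l ∈ Finset.range L, (a l : ℂ) * ((a l : ℂ) - w)⁻¹) -
        ((1 - (1 / L : ℝ) * ∑ l ∈ Finset.range L, v ‖w‖ l : ℝ) : ℂ))
    rw [sub_add_sub_cancel] at h3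
    linarith
  refine ⟨ψ, hψ0, ?_, ?_⟩
  · intro w hw
    refine ⟨1 - (1 / L : ℝ) * ∑ l ∈ Finset.range L, v ‖w‖ l, ?_, ?_, htot w hw⟩
    · have : ∑ l ∈ Finset.range L, v ‖w‖ l ≤ L := by
        calc ∑ l ∈ Finset.range L, v ‖w‖ l ≤ ∑ l ∈ Finset.range L, (1:ℝ) :=
              Finset.sum_le_sum fun l _ => hv1 _ _
          _ = L := by simp
      have h' : (1 / L : ℝ) * ∑ l ∈ Finset.range L, v ‖w‖ l ≤ 1 := by
        rw [one_div, inv_mul_le_iff₀ hLpos, mul_one]; exact this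
      linarith
    · have : 0 ≤ (1 / L : ℝ) * ∑ l ∈ Finset.range L, v ‖w‖ l :=
        mul_nonneg (by positivity) (Finset.sum_nonneg fun l _ => hv0 _ _)
      linarith
  · intro w hw hw1
    have h := htot w hw
    have hz : ∑ l ∈ Finset.range L, v ‖w‖ l = 0 := by
      apply Finset.sum_eq_zero
      intro l _
      simp only [v, hw1]
      rw [if_neg]
      have := ha1 l
      linarith
    rw [hz] at h
    simpa using h

end Pool.Agent.H24
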