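import Mathlib
import Pool.Agent.H24.Psi

set_option autoImplicit false
open Filter Topology Polynomial

namespace Pool.Agent.H24

instance factTwoPi : Fact (0 < 2 * Real.pi) := ⟨Real.two_pi_pos⟩

/-- The circle `ℝ / 2πℤ`. -/
abbrev TT : Type := AddCircle (2 * Real.pi)

/-- The point of the unit circle with the given angle. -/
noncomputable def ee (x : TT) : ℂ := (AddCircle.toCircle x : ℂ)

lemma continuous_ee : Continuous ee :=
  continuous_subtype_val.comp AddCircle.continuous_toCircle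

@[simp] lemma norm_ee (x : TT) : ‖ee x‖ = 1 := Circle.norm_coe _

lemma ee_ne_zero (x : TT) : ee x ≠ 0 := by
  rw [← norm_pos_iff, norm_ee]; norm_num

lemma ee_coe (θ : ℝ) : ee (θ : TT) = Complex.exp ((θ : ℂ) * Complex.I) := by
  rw [ee, AddCircle.toCircle_apply_mk, Circle.coe_exp]
  congr 2
  push_cast
  have : (Real.pi : ℂ) ≠ 0 := by exact_mod_cast Real.pi_ne_zero
  field_simp

lemma ee_add (x y : TT) : ee (x + y) = ee x * ee y := by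
  simp [ee, AddCircle.toCircle_add]

lemma ee_nsmul (n : ℕ) (x : TT) : ee (n • x) = ee x ^ n := by
  simp [ee, AddCircle.toCircle_nsmul]

/-- `ℓ¹` norm of the coefficients. -/
noncomputable def l1 (p : ℂ[X]) : ℝ := ∑ m ∈ p.support, ‖p.coeff m‖

lemma l1_nonneg (p : ℂ[X]) : 0 ≤ l1 p := Finset.sum_nonneg fun _ _ => norm_nonneg _

lemma eval_le_l1 (p : ℂ[X]) {z : ℂ} (hz : ‖z‖ ≤ 1) : ‖p.eval z‖ ≤ l1 p := by
  rw [eval_eq_sum, Polynomial.sum]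
  refine (norm_sum_le _ _).trans (Finset.sum_le_sum fun m _ => ?_)
  rw [norm_mul, norm_pow]
  exact mul_le_of_le_one_right (norm_nonneg _) (pow_le_one₀ (norm_nonneg _) hz)

lemma eval_le_l1_mul (p : ℂ[X]) (h0 : p.coeff 0 = 0) {z : ℂ} (hz : ‖z‖ ≤ 1) :
    ‖p.eval z‖ ≤ l1 p * ‖z‖ := by
  rw [eval_eq_sum, Polynomial.sum, l1, Finset.sum_mul]
  refine (norm_sum_le _ _).trans (Finset.sum_le_sum fun m hm => ?_)
  rw [norm_mul, norm_pow]
  have hm1 : 1 ≤ m := by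
    rcases Nat.eq_zero_or_pos m with h | h
    · subst h; exact absurd h0 (mem_support_iff.mp hm)
    · exact h
  apply mul_le_mul_of_nonneg_left _ (norm_nonneg _)
  calc ‖z‖ ^ m ≤ ‖z‖ ^ 1 := pow_le_pow_of_le_one (norm_nonneg _) hz hm1
    _ = ‖z‖ := pow_one _

lemma pow_mul_one_sub_le {r : ℝ} (hr0 : 0 ≤ r) (hr1 : r ≤ 1) (k : ℕ) :
    r ^ k * (1 - r) ≤ 1 / (k + 1) := by
  rw [le_div_iff₀ (by positivity)]
  have h1 : (1 - r) * ∑ i ∈ Finset.range (k + 1), r ^ i = 1 - r ^ (k + 1) := mul_neg_geom_sum r _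
  have h2 : ((k:ℝ) + 1) * r ^ k ≤ ∑ i ∈ Finset.range (k + 1), r ^ i := by
    have : ∑ i ∈ Finset.range (k + 1), r ^ k ≤ ∑ i ∈ Finset.range (k + 1), r ^ i := by
      apply Finset.sum_le_sum
      intro i hi
      exact pow_le_pow_of_le_one hr0 hr1 (by rw [Finset.mem_range] at hi; omega)
    simpa using this
  have h3 : 0 ≤ r ^ (k + 1) := by positivity
  nlinarith [mul_le_mul_of_nonneg_left h2 (by linarith : 0 ≤ 1 - r)]

lemma abs_pow_sub_pow_le {r : ℝ} (hr0 : 0 ≤ r) (hr1 : r ≤ 1) (n D : ℕ) :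
    |r ^ n - r ^ D| ≤ (n + D) * (1 - r) := by
  have hb : ∀ k : ℕ, 1 - k * (1 - r) ≤ r ^ k := by
    intro k
    have := one_add_mul_le_pow (a := r - 1) (by linarith) k
    have h2 : (1 + (r - 1)) = r := by ring
    rw [h2] at this
    linarith
  have h1 := hb n
  have h2 := hb D
  have h3 : r ^ n ≤ 1 := pow_le_one₀ hr0 hr1
  have h4 : r ^ D ≤ 1 := pow_le_one₀ hr0 hr1
  have h5 : 0 ≤ (n:ℝ) * (1 - r) := mul_nonneg (by positivity) (by linarith)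
  have h6 : 0 ≤ (D:ℝ) * (1 - r) := mul_nonneg (by positivity) (by linarith)
  rw [abs_le]
  constructor <;> nlinarith

/-- Lipschitz type constant of a polynomial along radii. -/
noncomputable def lipc (R : ℂ[X]) (D : ℕ) : ℝ := ∑ n ∈ R.support, ‖R.coeff n‖ * (n + D)

lemma lipc_nonneg (R : ℂ[X]) (D : ℕ) : 0 ≤ lipc R D :=
  Finset.sum_nonneg fun _ _ => by positivity

lemma radial_diff_le (R : ℂ[X]) (D : ℕ) {r : ℝ} (hr0 : 0 ≤ r) (hr1 : r ≤ 1) {ζ : ℂ}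
    (hζ : ‖ζ‖ = 1) : ‖R.eval ((r : ℂ) * ζ) - (r : ℂ) ^ D * R.eval ζ‖ ≤ lipc R D * (1 - r) := by
  rw [eval_eq_sum, eval_eq_sum, Polynomial.sum, Polynomial.sum, Finset.mul_sum,
    ← Finset.sum_sub_distrib, lipc, Finset.sum_mul]
  refine (norm_sum_le _ _).trans (Finset.sum_le_sum fun n _ => ?_)
  have : R.coeff n * ((r : ℂ) * ζ) ^ n - (r : ℂ) ^ D * (R.coeff n * ζ ^ n) =
      R.coeff n * (((r ^ n - r ^ D : ℝ) : ℂ) * ζ ^ n) := by
    push_cast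
    rw [mul_pow]
    ring
  rw [this, norm_mul, norm_mul, norm_pow, hζ, one_pow, mul_one, Complex.norm_real, Real.norm_eq_abs,
    mul_assoc]
  exact mul_le_mul_of_nonneg_left (abs_pow_sub_pow_le hr0 hr1 n D) (norm_nonneg _)

/-- The polynomial `z ↦ z^{-D} R(z) ψ(ω z^M)`. -/
noncomputable def atomPoly (ψ R : ℂ[X]) (D M : ℕ) (ω : ℂ) : ℂ[X] :=
  ∑ m ∈ ψ.support, C (ψ.coeff m * ω ^ m) * (X ^ (M * m - D) * R)

lemma atomPoly_coeff_norm_le (ψ R : ℂ[X]) (D M : ℕ) (ω : ℂ) (hω : ‖ω‖ = 1) {τ : ℝ}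
    (hτ0 : 0 ≤ τ) (hτ : ∀ n, ‖R.coeff n‖ ≤ τ) (k : ℕ) :
    ‖(atomPoly ψ R D M ω).coeff k‖ ≤ τ * l1 ψ := by
  rw [atomPoly, finsetSum_coeff, l1, Finset.mul_sum]
  refine (norm_sum_le _ _).trans (Finset.sum_le_sum fun m _ => ?_)
  rw [coeff_C_mul, norm_mul, norm_mul, norm_pow, hω, one_pow, mul_one, mul_comm]
  apply mul_le_mul_of_nonneg_right _ (norm_nonneg _)
  rw [coeff_X_pow_mul']
  split_ifs
  · exact hτ _
  · simpa using hτ0

lemma atomPoly_coeff_eq_zero (ψ R : ℂ[X]) (h0 : ψ.coeff 0 = 0) (D M : ℕ) (ω : ℂ) {N k : ℕ}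
    (hM : D + N ≤ M) (hk : k < N) : (atomPoly ψ R D M ω).coeff k = 0 := by
  rw [atomPoly, finsetSum_coeff]
  apply Finset.sum_eq_zero
  intro m hm
  have hm1 : 1 ≤ m := by
    rcases Nat.eq_zero_or_pos m with h | h
    · subst h; exact absurd h0 (mem_support_iff.mp hm)
    · exact h
  rw [coeff_C_mul, coeff_X_pow_mul', if_neg, mul_zero]
  have : M ≤ M * m := Nat.le_mul_of_pos_right _ hm1
  omega

lemma atomPoly_eval (ψ R : ℂ[X]) (h0 : ψ.coeff 0 = 0) (D M : ℕ) (hDM : D ≤ M) {ω ζ : ℂ}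
    (hω : ‖ω‖ = 1) (hζ : ‖ζ‖ = 1) {r : ℝ} (hr0 : 0 ≤ r) (hr1 : r ≤ 1) :
    ‖(atomPoly ψ R D M ω).eval ((r : ℂ) * ζ) -
      (ζ ^ D)⁻¹ * R.eval ζ * ψ.eval (ω * ((r : ℂ) * ζ) ^ M)‖ ≤
      l1 ψ * lipc R D / ((M - D : ℕ) + 1) := by
  have hζ0 : ζ ≠ 0 := by rw [← norm_pos_iff, hζ]; norm_num
  rw [atomPoly, eval_finsetSum, eval_eq_sum (p := ψ), Polynomial.sum, Finset.mul_sum,
    ← Finset.sum_sub_distrib, l1, Finset.sum_mul, Finset.sum_div]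
  refine (norm_sum_le _ _).trans (Finset.sum_le_sum fun m hm => ?_)
  have hm1 : 1 ≤ m := by
    rcases Nat.eq_zero_or_pos m with h | h
    · subst h; exact absurd h0 (mem_support_iff.mp hm)
    · exact h
  have hMm : M ≤ M * m := Nat.le_mul_of_pos_right _ hm1
  simp only [eval_mul, eval_C, eval_pow, eval_X]
  obtain ⟨j, hj⟩ : ∃ j, M * m = D + j := ⟨M * m - D, by omega⟩
  have hj' : M * m - D = j := by omega
  have hjM : M - D ≤ j := by omega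
  have hrew : ψ.coeff m * ω ^ m * (((r : ℂ) * ζ) ^ (M * m - D) * R.eval ((r : ℂ) * ζ)) -
      (ζ ^ D)⁻¹ * R.eval ζ * (ψ.coeff m * (ω * ((r : ℂ) * ζ) ^ M) ^ m) =
      ψ.coeff m * ω ^ m * (((r : ℂ) * ζ) ^ j *
        (R.eval ((r : ℂ) * ζ) - (r : ℂ) ^ D * R.eval ζ)) := by
    have h1 : (ω * ((r : ℂ) * ζ) ^ M) ^ m = ω ^ m * (((r : ℂ) * ζ) ^ D * ((r : ℂ) * ζ) ^ j) := by
      rw [mul_pow, ← pow_mul, hj, pow_add]
    rw [h1, hj', mul_pow (r : ℂ) ζ D]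
    field_simp
  rw [hrew, norm_mul, norm_mul, norm_mul, norm_pow, norm_pow, hω, one_pow, mul_one, norm_mul, hζ,
    mul_one, Complex.norm_real, Real.norm_of_nonneg hr0, mul_div_assoc]
  apply mul_le_mul_of_nonneg_left _ (norm_nonneg _)
  have h2 := radial_diff_le R D hr0 hr1 hζ
  have h3 := pow_mul_one_sub_le hr0 hr1 j
  have hj1 : ((M - D : ℕ) : ℝ) ≤ (j : ℝ) := by exact_mod_cast hjM
  calc r ^ j * ‖R.eval ((r : ℂ) * ζ) - (r : ℂ) ^ D * R.eval ζ‖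
      ≤ r ^ j * (lipc R D * (1 - r)) := mul_le_mul_of_nonneg_left h2 (by positivity)
    _ = lipc R D * (r ^ j * (1 - r)) := by ring
    _ ≤ lipc R D * (1 / (j + 1)) := mul_le_mul_of_nonneg_left h3 (lipc_nonneg _ _)
    _ ≤ lipc R D * (1 / ((M - D : ℕ) + 1)) := by
        apply mul_le_mul_of_nonneg_left _ (lipc_nonneg _ _)
        apply one_div_le_one_div_of_le (by positivity)
        linarith
    _ = lipc R D / ((M - D : ℕ) + 1) := by ring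

lemma exists_polar (z : ℂ) : ∃ x : TT, z = (‖z‖ : ℂ) * ee x := by
  refine ⟨(z.arg : TT), ?_⟩
  rw [ee_coe, Complex.norm_mul_exp_arg_mul_I]

/-- One lacunary block. -/
lemma exists_atom (ψ R : ℂ[X]) (h0 : ψ.coeff 0 = 0) (D : ℕ) {τ : ℝ} (hτ0 : 0 ≤ τ)
    (hτ : ∀ n, ‖R.coeff n‖ ≤ τ) {η : ℝ} (hη : 0 < η) (N : ℕ) {ρ : ℝ} (hρ0 : 0 ≤ ρ) (hρ1 : ρ < 1) :
    ∃ M : ℕ, ∀ ω : ℂ, ‖ω‖ = 1 → ∃ P : ℂ[X],
      (∀ n < N, P.coeff n = 0) ∧ (∀ n, ‖P.coeff n‖ ≤ τ * l1 ψ) ∧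
      (∀ z : ℂ, ‖z‖ ≤ ρ → ‖P.eval z‖ ≤ η) ∧
      (∀ x : TT, ∀ r : ℝ, 0 ≤ r → r ≤ 1 →
        ‖P.eval ((r : ℂ) * ee x) -
          (ee x ^ D)⁻¹ * R.eval (ee x) * ψ.eval (ω * ((r : ℂ) * ee x) ^ M)‖ ≤ η) := by
  have ht1 : Tendsto (fun M : ℕ => l1 R * (l1 ψ * ρ ^ M)) atTop (𝓝 0) := by
    have := (tendsto_pow_atTop_nhds_zero_of_lt_one hρ0 hρ1).const_mul (l1 R * l1 ψ)
    rw [mul_zero] at this
    refine this.congr fun M => by ring
  have ht2 : Tendsto (fun M : ℕ => l1 ψ * lipc R D / ((M : ℝ) + 1)) atTop (𝓝 0) := by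
    exact tendsto_const_div_add_one _
  obtain ⟨M1, hM1⟩ := ((ht1.eventually (gt_mem_nhds (half_pos hη)))).exists_forall_of_atTop
  obtain ⟨M2, hM2⟩ := ((ht2.eventually (gt_mem_nhds (half_pos hη)))).exists_forall_of_atTop
  refine ⟨D + N + M1 + M2, fun ω hω => ?_⟩
  set M := D + N + M1 + M2 with hM
  have hmain : ∀ x : TT, ∀ r : ℝ, 0 ≤ r → r ≤ 1 →
        ‖(atomPoly ψ R D M ω).eval ((r : ℂ) * ee x) -
          (ee x ^ D)⁻¹ * R.eval (ee x) * ψ.eval (ω * ((r : ℂ) * ee x) ^ M)‖ ≤ η / 2 := by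
    intro x r hr0 hr1
    refine (atomPoly_eval ψ R h0 D M (by omega) hω (norm_ee x) hr0 hr1).trans ?_
    exact (hM2 (M - D) (by omega)).le
  refine ⟨atomPoly ψ R D M ω, fun n hn => atomPoly_coeff_eq_zero ψ R h0 D M ω (by omega) hn,
    fun n => atomPoly_coeff_norm_le ψ R D M ω hω hτ0 hτ n, ?_, ?_⟩
  · intro z hz
    obtain ⟨x, hx⟩ := exists_polar z
    have hz1 : ‖z‖ ≤ 1 := hz.trans hρ1.le
    have h1 := hmain x ‖z‖ (norm_nonneg _) hz1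
    rw [← hx] at h1
    have h2 : ‖(ee x ^ D)⁻¹ * R.eval (ee x) * ψ.eval (ω * z ^ M)‖ ≤ l1 R * (l1 ψ * ρ ^ M) := by
      rw [norm_mul, norm_mul, norm_inv, norm_pow, norm_ee, one_pow, inv_one, one_mul]
      apply mul_le_mul (eval_le_l1 R (by simp)) _ (norm_nonneg _) (l1_nonneg _)
      have h3 : ‖ω * z ^ M‖ ≤ ρ ^ M := by
        rw [norm_mul, hω, one_mul, norm_pow]
        exact pow_le_pow_left₀ (norm_nonneg _) hz M
      have h4 : ‖ω * z ^ M‖ ≤ 1 := h3.trans (pow_le_one₀ hρ0 hρ1.le)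
      exact (eval_le_l1_mul ψ h0 h4).trans (mul_le_mul_of_nonneg_left h3 (l1_nonneg _))
    have h5 := hM1 M (by omega)
    have h6 := norm_add_le ((atomPoly ψ R D M ω).eval z -
          (ee x ^ D)⁻¹ * R.eval (ee x) * ψ.eval (ω * z ^ M))
          ((ee x ^ D)⁻¹ * R.eval (ee x) * ψ.eval (ω * z ^ M))
    rw [sub_add_cancel] at h6
    linarith
  · intro x r hr0 hr1
    exact (hmain x r hr0 hr1).trans (by linarith)
where
  tendsto_const_div_add_one (c : ℝ) : Tendsto (fun M : ℕ => c / ((M : ℝ) + 1)) atTop (𝓝 0) := by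
    exact Tendsto.div_atTop tendsto_const_nhds
      (tendsto_atTop_add_const_right _ _ tendsto_natCast_atTop_atTop)

end Pool.Agent.H24
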