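import Mathlib
import Pool.Agent.H24.Atom

set_option autoImplicit false
open Filter Topology Polynomial MeasureTheory AddCircle

namespace Pool.Agent.H24

/-- normalised Haar measure on the circle -/
noncomputable abbrev mu : Measure TT := haarAddCircle

lemma integrable_cm (f : C(TT, ℂ)) : Integrable f mu :=
  f.continuous.integrable_of_hasCompactSupport (HasCompactSupport.of_compactSpace _)

lemma fourier_eq (n : ℤ) (x : TT) : fourier n x = ee x ^ n := by
  rw [fourier_apply, toCircle_zsmul, ee, Circle.coe_zpow]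

lemma integral_fourier (n : ℤ) : ∫ x : TT, fourier n x ∂mu = if n = 0 then 1 else 0 := by
  split_ifs with h
  · subst h
    simp [fourier_eq]
  · exact integral_eq_zero_of_add_right_eq_neg (μ := mu)
      (fourier_add_half_inv_index h (Fact.out : 0 < 2 * Real.pi))

lemma coeff_eq_integral (R : ℂ[X]) (n : ℕ) :
    R.coeff n = ∫ x : TT, (ee x ^ n)⁻¹ * R.eval (ee x) ∂mu := by
  have h1 : ∀ x : TT, (ee x ^ n)⁻¹ * R.eval (ee x) =
      ∑ m ∈ R.support, R.coeff m * fourier ((m:ℤ) - n) x := by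
    intro x
    rw [eval_eq_sum, Polynomial.sum, Finset.mul_sum]
    apply Finset.sum_congr rfl
    intro m _
    rw [fourier_eq, zpow_sub₀ (ee_ne_zero x), zpow_natCast, zpow_natCast, div_eq_mul_inv]
    ring
  simp_rw [h1]
  rw [integral_finsetSum]
  · simp_rw [integral_const_mul, integral_fourier]
    simp only [mul_ite, mul_one, mul_zero, sub_eq_zero, Nat.cast_inj]
    rw [Finset.sum_ite_eq' R.support n]
    split_ifs with h
    · rfl
    · simpa using h
  · intro m _
    apply Integrable.const_mul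
    exact (integrable_cm (fourier ((m:ℤ) - n))) 
lemma coeff_norm_le (R : ℂ[X]) (D n : ℕ) (t : TT → ℂ)
    (ht : ∀ x, t x = (ee x ^ D)⁻¹ * R.eval (ee x)) :
    ‖R.coeff n‖ ≤ ∫ x : TT, ‖t x‖ ∂mu := by
  rw [coeff_eq_integral]
  refine (norm_integral_le_integral_norm _).trans (le_of_eq ?_)
  apply integral_congr_ae
  refine Filter.Eventually.of_forall fun x => ?_
  simp [ht]

/-- Laurent polynomials on the circle. -/
def IsLaurent (f : TT → ℂ) : Prop := ∃ (D : ℕ) (R : ℂ[X]), ∀ x, f x = (ee x ^ D)⁻¹ * R.eval (ee x)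

lemma isLaurent_of_mem_span {f : C(TT, ℂ)} (hf : f ∈ Submodule.span ℂ (Set.range (@fourier (2 * Real.pi)))) :
    IsLaurent f := by
  induction hf using Submodule.span_induction with
  | mem x hx =>
    obtain ⟨n, rfl⟩ := hx
    refine ⟨n.natAbs, X ^ (n + n.natAbs).toNat, fun x => ?_⟩
    rw [fourier_eq, eval_pow, eval_X, ← zpow_natCast, ← zpow_natCast (ee x) (n + n.natAbs).toNat,
      ← zpow_neg, ← zpow_add₀ (ee_ne_zero x)]
    congr 1
    omega
  | zero => exact ⟨0, 0, fun x => by simp⟩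
  | add f g _ _ hf hg =>
    obtain ⟨D1, R1, h1⟩ := hf
    obtain ⟨D2, R2, h2⟩ := hg
    refine ⟨D1 + D2, X ^ D2 * R1 + X ^ D1 * R2, fun x => ?_⟩
    have hx := ee_ne_zero x
    rw [ContinuousMap.add_apply, h1, h2, eval_add, eval_mul, eval_mul, eval_pow, eval_pow, eval_X,
      pow_add]
    field_simp
  | smul c f _ hf =>
    obtain ⟨D, R, h⟩ := hf
    refine ⟨D, C c * R, fun x => ?_⟩
    rw [ContinuousMap.smul_apply, h, eval_mul, eval_C, smul_eq_mul]
    ring

lemma exists_trig (d : C(TT, ℂ)) {η : ℝ} (hη : 0 < η) :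
    ∃ (D : ℕ) (R : ℂ[X]), (∀ x, ‖d x - (ee x ^ D)⁻¹ * R.eval (ee x)‖ ≤ η) ∧
      (∀ n, ‖R.coeff n‖ ≤ ∫ x, ‖d x‖ ∂mu + η) := by
  have h1 : d ∈ (Submodule.span ℂ (Set.range (@fourier (2 * Real.pi)))).topologicalClosure := by
    rw [span_fourier_closure_eq_top]; trivial
  have h2 : d ∈ closure ((Submodule.span ℂ (Set.range (@fourier (2 * Real.pi))) :
      Submodule ℂ C(TT, ℂ)) : Set C(TT, ℂ)) := h1
  rw [Metric.mem_closure_iff] at h2
  obtain ⟨p, hp, hd⟩ := h2 η hη
  obtain ⟨D, R, hR⟩ := isLaurent_of_mem_span hp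
  have h3 : ∀ x, ‖d x - p x‖ ≤ η := by
    intro x
    have := ContinuousMap.dist_apply_le_dist (f := d) (g := p) x
    rw [dist_eq_norm] at this
    linarith
  refine ⟨D, R, fun x => by rw [← hR]; exact h3 x, fun n => ?_⟩
  refine (coeff_norm_le R D n p hR).trans ?_
  have h4 : ∫ x, ‖p x‖ ∂mu ≤ ∫ x, (‖d x‖ + η) ∂mu := by
    apply integral_mono
    · exact (integrable_cm p).norm
    · exact ((integrable_cm d).norm).add (integrable_const _)
    · intro x
      have h5 := h3 x
      have h6 := norm_sub_norm_le (p x) (d x)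
      rw [norm_sub_rev] at h6
      simp only
      linarith
  refine h4.trans (le_of_eq ?_)
  rw [integral_add (integrable_cm d).norm (integrable_const _)]
  simp

end Pool.Agent.H24
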