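import Mathlib
import Pool.Agent.H24.Trig

set_option autoImplicit false
open Filter Topology Polynomial MeasureTheory AddCircle

namespace Pool.Agent.H24

lemma exists_rotation {A B : Set TT} (hA : MeasurableSet A) (hB : MeasurableSet B) (M : ℕ) :
    ∃ ω : TT, mu (A ∩ {x | M • x + ω ∈ B}) ≤ mu A * mu B := by
  have hmeas : Measurable (fun p : TT × TT => A.indicator (1 : TT → ENNReal) p.2 *
      B.indicator (1 : TT → ENNReal) (M • p.2 + p.1)) := by
    apply Measurable.mul
    · exact (measurable_one.indicator hA).comp measurable_snd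
    · exact (measurable_one.indicator hB).comp
        (((continuous_nsmul M).measurable.comp measurable_snd).add measurable_fst)
  have h1 : ∀ ω : TT, mu (A ∩ {x | M • x + ω ∈ B}) =
      ∫⁻ x, A.indicator (1 : TT → ENNReal) x * B.indicator (1 : TT → ENNReal) (M • x + ω) ∂mu := by
    intro ω
    have hms : MeasurableSet (A ∩ {x | M • x + ω ∈ B}) :=
      hA.inter ((((continuous_nsmul M).measurable).add_const ω) hB)
    rw [← lintegral_indicator_one hms]
    apply lintegral_congr
    intro x
    by_cases hx : x ∈ A <;> by_cases hy : M • x + ω ∈ B <;> simp [Set.indicator, hx, hy]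
  obtain ⟨ω, hω⟩ := exists_le_lintegral (μ := mu) (f := fun ω => mu (A ∩ {x | M • x + ω ∈ B})) (by
    simp_rw [h1]
    exact (Measurable.lintegral_prod_right' hmeas).aemeasurable)
  refine ⟨ω, hω.trans (le_of_eq ?_)⟩
  simp_rw [h1]
  rw [lintegral_lintegral_swap (f := fun ω x => A.indicator (1 : TT → ENNReal) x *
      B.indicator (1 : TT → ENNReal) (M • x + ω)) hmeas.aemeasurable]
  have h2 : ∀ x : TT, ∫⁻ ω, A.indicator (1 : TT → ENNReal) x *
      B.indicator (1 : TT → ENNReal) (M • x + ω) ∂mu = A.indicator (1 : TT → ENNReal) x * mu B := by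
    intro x
    rw [lintegral_const_mul]
    · congr 1
      rw [lintegral_add_left_eq_self (μ := mu) (B.indicator (1 : TT → ENNReal)) (M • x)]
      exact lintegral_indicator_one hB
    · exact (measurable_one.indicator hB).comp (measurable_const_add _)
  simp_rw [h2]
  rw [lintegral_mul_const, lintegral_indicator_one hA]
  exact measurable_one.indicator hA

lemma mu_le_volume (s : Set TT) : mu s ≤ volume s := by
  rw [volume_eq_smul_haarAddCircle, Measure.smul_apply, smul_eq_mul]
  have : 1 ≤ ENNReal.ofReal (2 * Real.pi) := by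
    rw [ENNReal.one_le_ofReal]
    have := Real.pi_gt_three
    linarith
  calc mu s = 1 * mu s := (one_mul _).symm
    _ ≤ _ := mul_le_mul_left this _

/-- the exceptional arc -/
def arc (c : ℝ) : Set TT := {x | ee x ∉ coneSet c}

lemma mem_arc {c : ℝ} {x : TT} : x ∈ arc c ↔ c < (ee x).re := by
  simp [arc, coneSet]

lemma measurableSet_arc (c : ℝ) : MeasurableSet (arc c) := by
  have : arc c = {x | c < (ee x).re} := by
    ext x; exact mem_arc
  rw [this]
  exact (isOpen_lt continuous_const (Complex.continuous_re.comp continuous_ee)).measurableSet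

lemma exists_arc_small {κ : ENNReal} (hκ : κ ≠ 0) : ∃ c : ℝ, 0 ≤ c ∧ c < 1 ∧ mu (arc c) ≤ κ := by
  have h1 : Tendsto (fun n : ℕ => mu (arc (1 - 1 / ((n:ℝ) + 1)))) atTop
      (𝓝 (mu (⋂ n : ℕ, arc (1 - 1 / ((n:ℝ) + 1))))) := by
    apply tendsto_measure_iInter_atTop
    · exact fun n => (measurableSet_arc _).nullMeasurableSet
    · intro m n hmn x hx
      rw [mem_arc] at hx ⊢
      have : 1 / ((n:ℝ) + 1) ≤ 1 / ((m:ℝ) + 1) := by
        apply one_div_le_one_div_of_le (by positivity)
        have : (m:ℝ) ≤ n := by exact_mod_cast hmn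
        linarith
      linarith
    · exact ⟨0, measure_ne_top _ _⟩
  have h2 : (⋂ n : ℕ, arc (1 - 1 / ((n:ℝ) + 1))) ⊆ {(0 : TT)} := by
    intro x hx
    rw [Set.mem_iInter] at hx
    have h3 : 1 ≤ (ee x).re := by
      by_contra hlt
      push Not at hlt
      obtain ⟨n, hn⟩ := exists_nat_one_div_lt (sub_pos.mpr hlt)
      have := mem_arc.mp (hx n)
      linarith
    have h4 : (ee x).re ≤ 1 := (Complex.re_le_norm _).trans (norm_ee x).le
    have h5 : (ee x).re = 1 := le_antisymm h4 h3
    have h6 : (ee x).im = 0 := by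
      have := norm_ee x
      have h7 : ‖ee x‖ ^ 2 = 1 := by rw [this]; norm_num
      rw [← Complex.normSq_eq_norm_sq, Complex.normSq_apply, h5] at h7
      nlinarith
    have h8 : ee x = 1 := Complex.ext h5 h6
    rw [Set.mem_singleton_iff]
    apply AddCircle.injective_toCircle (T := 2 * Real.pi) (ne_of_gt Real.two_pi_pos)
    rw [AddCircle.toCircle_zero]
    exact Circle.ext (by simpa [ee] using h8)
  have h3 : mu (⋂ n : ℕ, arc (1 - 1 / ((n:ℝ) + 1))) = 0 := by
    refine measure_mono_null h2 (le_antisymm ?_ zero_le)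
    refine (mu_le_volume _).trans ?_
    have : volume ({0} : Set TT) ≤ volume (Metric.closedBall (0 : TT) 0) := by
      apply measure_mono; simp
    refine this.trans ?_
    rw [AddCircle.volume_closedBall]
    simp
  rw [h3] at h1
  obtain ⟨n, hn⟩ := (h1.eventually (gt_mem_nhds (pos_iff_ne_zero.mpr hκ))).exists
  refine ⟨1 - 1 / ((n:ℝ) + 1), ?_, ?_, hn.le⟩
  · have : 1 / ((n:ℝ) + 1) ≤ 1 := by
      rw [div_le_one (by positivity)]
      have : (0:ℝ) ≤ n := by positivity
      linarith
    linarith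
  · have : 0 < 1 / ((n:ℝ) + 1) := by positivity
    linarith

lemma smul_mem_coneSet {c : ℝ} {w : ℂ} (hw : w ∈ coneSet c) {t : ℝ} (ht0 : 0 ≤ t) (ht1 : t ≤ 1) :
    (t : ℂ) * w ∈ coneSet c := by
  have hn : ‖(t : ℂ) * w‖ = t * ‖w‖ := by
    rw [norm_mul, Complex.norm_real, Real.norm_of_nonneg ht0]
  constructor
  · rw [hn]
    exact mul_le_one₀ ht1 (norm_nonneg _) hw.1
  · rw [hn, Complex.re_ofReal_mul]
    have := mul_le_mul_of_nonneg_left hw.2 ht0
    linarith

lemma norm_coe_le_abs (t : ℝ) : ‖(t : TT)‖ ≤ |t| := by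
  have := QuotientAddGroup.norm_mk_le_norm (S := AddSubgroup.zmultiples (2 * Real.pi)) (m := t)
  exact this

/-- annuli of the circle around the origin have small measure -/
lemma mu_annulus_le (a δ : ℝ) : mu {x : TT | |‖x‖ - a| ≤ δ} ≤ ENNReal.ofReal (4 * δ) := by
  have hsub : {x : TT | |‖x‖ - a| ≤ δ} ⊆ Metric.closedBall (a : TT) δ ∪ Metric.closedBall ((-a : ℝ) : TT) δ := by
    intro x hx
    obtain ⟨t, ht, rfl⟩ : ∃ t : ℝ, |t| ≤ Real.pi ∧ (t : TT) = x := by
      obtain ⟨t, ht, h⟩ := (AddCircle.coe_image_Ioc_eq (2 * Real.pi) (-Real.pi)).symm.subset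
        (Set.mem_univ x)
      refine ⟨t, ?_, h⟩
      rw [abs_le]
      constructor
      · exact ht.1.le
      · have := ht.2; linarith
    have hnorm : ‖(t : TT)‖ = |t| := by
      rw [AddCircle.norm_coe_eq_abs_iff]
      · rw [abs_of_pos Real.two_pi_pos]; linarith
      · exact (ne_of_gt Real.two_pi_pos)
    simp only [Set.mem_ofPred_eq, hnorm] at hx
    rcases le_total 0 t with h | h
    · left
      rw [abs_of_nonneg h] at hx
      rw [Metric.mem_closedBall, dist_eq_norm, ← AddCircle.coe_sub]
      exact (norm_coe_le_abs _).trans hx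
    · right
      rw [abs_of_nonpos h] at hx
      rw [Metric.mem_closedBall, dist_eq_norm, ← AddCircle.coe_sub]
      refine (norm_coe_le_abs _).trans ?_
      have h9 : |t - -a| = |-t - a| := by
        rw [← abs_neg]
        congr 1
        ring
      rw [h9]
      exact hx
  refine (mu_le_volume _).trans ((measure_mono hsub).trans ((measure_union_le _ _).trans ?_))
  rw [AddCircle.volume_closedBall, AddCircle.volume_closedBall]
  have h1 : ENNReal.ofReal (min (2 * Real.pi) (2 * δ)) ≤ ENNReal.ofReal (2 * δ) :=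
    ENNReal.ofReal_le_ofReal (min_le_right _ _)
  rcases le_or_gt 0 δ with h | h
  · calc _ ≤ ENNReal.ofReal (2 * δ) + ENNReal.ofReal (2 * δ) := add_le_add h1 h1
      _ = ENNReal.ofReal (4 * δ) := by
        rw [← ENNReal.ofReal_add (by positivity) (by positivity)]; congr 1; ring
  · have h2 : ENNReal.ofReal (2 * δ) = 0 := ENNReal.ofReal_of_nonpos (by linarith)
    rw [h2] at h1
    calc _ ≤ (0 : ENNReal) + 0 := add_le_add h1 h1
      _ ≤ _ := by simp

end Pool.Agent.H24
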