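import Mathlib
import Pool.Agent.H24.Avg

set_option autoImplicit false
open Filter Topology Polynomial MeasureTheory AddCircle

namespace Pool.Agent.H24

/-- properties of the basic polynomial -/
structure GoodPsi (ψ : ℂ[X]) (c ε : ℝ) : Prop where
  h0 : ψ.coeff 0 = 0
  hrad : ∀ w ∈ coneSet c, ∃ φ : ℝ, 0 ≤ φ ∧ φ ≤ 1 ∧ ‖ψ.eval w - (φ : ℂ)‖ ≤ ε
  hcirc : ∀ w ∈ coneSet c, ‖w‖ = 1 → ‖ψ.eval w - 1‖ ≤ ε

lemma exists_bump {ψ : ℂ[X]} {c ε : ℝ} (hψ : GoodPsi ψ c ε) (hε : 0 ≤ ε) (d : C(TT, ℂ))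
    {A : Set TT} (hA : MeasurableSet A) (hdA : ∀ x, x ∉ A → d x = 0) {δ : ℝ} (hδ : 0 < δ)
    (hdδ : ∫ x, ‖d x‖ ∂mu ≤ δ) {η : ℝ} (hη : 0 < η) (N : ℕ) {ρ : ℝ} (hρ0 : 0 ≤ ρ) (hρ1 : ρ < 1) :
    ∃ (P : ℂ[X]) (F : Set TT), (∀ n < N, P.coeff n = 0) ∧ (∀ n, ‖P.coeff n‖ ≤ 2 * δ * l1 ψ) ∧
      (∀ z : ℂ, ‖z‖ ≤ ρ → ‖P.eval z‖ ≤ η) ∧ MeasurableSet F ∧ mu F ≤ mu A * mu (arc c) ∧
      (∀ x ∉ F, (∀ r : ℝ, 0 ≤ r → r ≤ 1 → ∃ φ : ℝ, 0 ≤ φ ∧ φ ≤ 1 ∧
          ‖P.eval ((r : ℂ) * ee x) - (φ : ℂ) * d x‖ ≤ ε * ‖d x‖ + η) ∧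
        ‖P.eval (ee x) - d x‖ ≤ ε * ‖d x‖ + η) := by
  set η₁ : ℝ := min δ (η / (2 * (l1 ψ + ε + 1))) with hη₁
  have hl : 0 < l1 ψ + ε + 1 := by have := l1_nonneg ψ; linarith
  have hη₁pos : 0 < η₁ := lt_min hδ (by positivity)
  have hη₁le : η₁ * (l1 ψ + ε + 1) ≤ η / 2 := by
    have : η₁ ≤ η / (2 * (l1 ψ + ε + 1)) := min_le_right _ _
    rw [le_div_iff₀ (by positivity)] at this
    linarith
  obtain ⟨D, R, hT, hR⟩ := exists_trig d hη₁pos
  have hR' : ∀ n, ‖R.coeff n‖ ≤ 2 * δ := fun n =>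
    (hR n).trans (by have : η₁ ≤ δ := min_le_left _ _; linarith)
  obtain ⟨M, hM⟩ := exists_atom ψ R hψ.h0 D (by positivity) hR' (half_pos hη) N hρ0 hρ1
  obtain ⟨ω₀, hω₀⟩ := exists_rotation hA (measurableSet_arc c) M
  obtain ⟨P, hP0, hPc, hPρ, hPm⟩ := hM (ee ω₀) (norm_ee _)
  have hmF : MeasurableSet (A ∩ {x | M • x + ω₀ ∈ arc c}) :=
    hA.inter ((((continuous_nsmul M).measurable).add_const ω₀) (measurableSet_arc c))
  -- key estimate
  have key : ∀ x ∉ A ∩ {x | M • x + ω₀ ∈ arc c}, ∀ r : ℝ, 0 ≤ r → r ≤ 1 → ∀ φ : ℝ, 0 ≤ φ → φ ≤ 1 →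
      (x ∉ A ∨ ‖ψ.eval (ee ω₀ * ((r : ℂ) * ee x) ^ M) - (φ : ℂ)‖ ≤ ε) →
      ‖P.eval ((r : ℂ) * ee x) - (φ : ℂ) * d x‖ ≤ ε * ‖d x‖ + η := by
    intro x _ r hr0 hr1 φ hφ0 hφ1 hcase
    have h1 := hPm x r hr0 hr1
    set T := (ee x ^ D)⁻¹ * R.eval (ee x) with hTdef
    set w := ee ω₀ * ((r : ℂ) * ee x) ^ M with hw
    have hw1 : ‖w‖ ≤ 1 := by
      rw [hw, norm_mul, norm_ee, one_mul, norm_pow, norm_mul, norm_ee, mul_one, Complex.norm_real,
        Real.norm_of_nonneg hr0]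
      exact pow_le_one₀ hr0 hr1
    have h2 : ‖d x - T‖ ≤ η₁ := hT x
    have h3 : ‖ψ.eval w‖ ≤ l1 ψ := eval_le_l1 ψ hw1
    rcases hcase with hx | hx
    · have hd : d x = 0 := hdA x hx
      rw [hd, mul_zero, sub_zero, norm_zero, mul_zero, zero_add]
      rw [hd, zero_sub, norm_neg] at h2
      have h4 : ‖T * ψ.eval w‖ ≤ η₁ * l1 ψ := by
        rw [norm_mul]
        exact mul_le_mul h2 h3 (norm_nonneg _) hη₁pos.le
      have h5 := norm_add_le (P.eval ((r : ℂ) * ee x) - T * ψ.eval w) (T * ψ.eval w)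
      rw [sub_add_cancel] at h5
      nlinarith [mul_nonneg hη₁pos.le hε]
    · have h4 : P.eval ((r : ℂ) * ee x) - (φ : ℂ) * d x =
          (P.eval ((r : ℂ) * ee x) - T * ψ.eval w) + T * (ψ.eval w - (φ : ℂ)) -
            (φ : ℂ) * (d x - T) := by ring
      have hφn : ‖(φ : ℂ)‖ ≤ 1 := by rw [Complex.norm_real, Real.norm_of_nonneg hφ0]; exact hφ1
      have h5 : ‖T‖ ≤ ‖d x‖ + η₁ := by
        have := norm_sub_norm_le T (d x)
        rw [norm_sub_rev] at this
        linarith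
      have h6 : ‖T * (ψ.eval w - (φ : ℂ))‖ ≤ (‖d x‖ + η₁) * ε := by
        rw [norm_mul]
        exact mul_le_mul h5 hx (norm_nonneg _) (by positivity)
      have h7 : ‖(φ : ℂ) * (d x - T)‖ ≤ 1 * η₁ := by
        rw [norm_mul]
        exact mul_le_mul hφn h2 (norm_nonneg _) zero_le_one
      rw [h4]
      have h8 := norm_sub_le ((P.eval ((r : ℂ) * ee x) - T * ψ.eval w) + T * (ψ.eval w - (φ : ℂ)))
            ((φ : ℂ) * (d x - T))
      have h9 := norm_add_le (P.eval ((r : ℂ) * ee x) - T * ψ.eval w) (T * (ψ.eval w - (φ : ℂ)))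
      nlinarith [mul_nonneg hη₁pos.le (l1_nonneg ψ)]
  have hwform : ∀ x : TT, ∀ r : ℝ, ee ω₀ * ((r : ℂ) * ee x) ^ M =
      ((r ^ M : ℝ) : ℂ) * ee (M • x + ω₀) := by
    intro x r
    rw [ee_add, ee_nsmul, mul_pow]
    push_cast
    ring
  refine ⟨P, A ∩ {x | M • x + ω₀ ∈ arc c}, hP0, hPc, fun z hz => (hPρ z hz).trans (by linarith),
    hmF, hω₀, fun x hx => ⟨fun r hr0 hr1 => ?_, ?_⟩⟩
  · by_cases hxA : x ∈ A
    · have hy : ee (M • x + ω₀) ∈ coneSet c := by
        by_contra hcon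
        exact hx ⟨hxA, hcon⟩
      obtain ⟨φ, hφ0, hφ1, hφ⟩ := hψ.hrad _ (smul_mem_coneSet hy (t := r ^ M) (by positivity)
        (pow_le_one₀ hr0 hr1))
      rw [← hwform] at hφ
      exact ⟨φ, hφ0, hφ1, key x hx r hr0 hr1 φ hφ0 hφ1 (Or.inr hφ)⟩
    · exact ⟨0, le_rfl, zero_le_one, key x hx r hr0 hr1 0 le_rfl zero_le_one (Or.inl hxA)⟩
  · have h1 : ∀ φ : ℝ, φ = 1 → ee x = ((1:ℝ):ℂ) * ee x ∧ d x = (φ : ℂ) * d x := by
      intro φ h; subst h; simp
    obtain ⟨h2, h3⟩ := h1 1 rfl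
    have h4 : ‖P.eval (((1:ℝ):ℂ) * ee x) - ((1:ℝ) : ℂ) * d x‖ ≤ ε * ‖d x‖ + η := by
      apply key x hx 1 zero_le_one le_rfl 1 zero_le_one le_rfl
      by_cases hxA : x ∈ A
      · right
        have hy : ee (M • x + ω₀) ∈ coneSet c := by
          by_contra hcon
          exact hx ⟨hxA, hcon⟩
        rw [hwform, one_pow, Complex.ofReal_one, one_mul]
        exact hψ.hcirc _ hy (norm_ee _)
      · exact Or.inl hxA
    rwa [← h2, ← h3] at h4

lemma exists_bumps {ψ : ℂ[X]} {c ε : ℝ} (hψ : GoodPsi ψ c ε) (hε : 0 ≤ ε) (d : ℕ → C(TT, ℂ))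
    {A : ℕ → Set TT} (hA : ∀ j, MeasurableSet (A j)) (hdA : ∀ j x, x ∉ A j → d j x = 0) {δ : ℝ}
    (hδ : 0 < δ) (hdδ : ∀ j, ∫ x, ‖d j x‖ ∂mu ≤ δ) {ρ : ℝ} (hρ0 : 0 ≤ ρ) (hρ1 : ρ < 1) (m : ℕ) :
    ∀ {η : ℝ} (_ : 0 < η) (N : ℕ),
    ∃ (P : ℂ[X]) (F : Set TT), (∀ n < N, P.coeff n = 0) ∧ (∀ n, ‖P.coeff n‖ ≤ 2 * δ * l1 ψ) ∧
      (∀ z : ℂ, ‖z‖ ≤ ρ → ‖P.eval z‖ ≤ η) ∧ MeasurableSet F ∧
      mu F ≤ (∑ j ∈ Finset.range m, mu (A j)) * mu (arc c) ∧
      (∀ x ∉ F, (∀ r : ℝ, 0 ≤ r → r ≤ 1 → ∃ φ : ℕ → ℝ, (∀ j, 0 ≤ φ j ∧ φ j ≤ 1) ∧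
          ‖P.eval ((r : ℂ) * ee x) - ∑ j ∈ Finset.range m, (φ j : ℂ) * d j x‖ ≤
            ε * (∑ j ∈ Finset.range m, ‖d j x‖) + η) ∧
        ‖P.eval (ee x) - ∑ j ∈ Finset.range m, d j x‖ ≤
          ε * (∑ j ∈ Finset.range m, ‖d j x‖) + η) := by
  induction m with
  | zero =>
    intro η hη N
    refine ⟨0, ∅, by simp, fun n => ?_, fun z _ => by simpa using hη.le, MeasurableSet.empty,
      by simp, fun x _ => ⟨fun r _ _ => ⟨fun _ => 0, fun _ => ⟨le_rfl, zero_le_one⟩, ?_⟩, ?_⟩⟩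
    · rw [coeff_zero, norm_zero]
      exact mul_nonneg (by positivity) (l1_nonneg _)
    · simpa using hη.le
    · simpa using hη.le
  | succ m ih =>
    intro η hη N
    obtain ⟨P1, F1, h10, h1c, h1ρ, h1m, h1F, h1x⟩ := ih (half_pos hη) N
    obtain ⟨P2, F2, h20, h2c, h2ρ, h2m, h2F, h2x⟩ := exists_bump hψ hε (d m) (hA m) (hdA m) hδ
      (hdδ m) (half_pos hη) (max N (P1.natDegree + 1)) hρ0 hρ1
    refine ⟨P1 + P2, F1 ∪ F2, fun n hn => ?_, fun n => ?_, fun z hz => ?_, h1m.union h2m, ?_,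
      fun x hx => ?_⟩
    · rw [coeff_add, h10 n hn, h20 n (lt_of_lt_of_le hn (le_max_left _ _)), add_zero]
    · rw [coeff_add]
      by_cases hn : n < P1.natDegree + 1
      · rw [h20 n (lt_of_lt_of_le hn (le_max_right _ _)), add_zero]
        exact h1c n
      · rw [coeff_eq_zero_of_natDegree_lt (by omega), zero_add]
        exact h2c n
    · rw [eval_add]
      have := h1ρ z hz
      have := h2ρ z hz
      have := norm_add_le (P1.eval z) (P2.eval z)
      linarith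
    · rw [Finset.sum_range_succ, add_mul]
      exact (measure_union_le _ _).trans (add_le_add h1F h2F)
    · rw [Set.mem_union, not_or] at hx
      obtain ⟨ha, hb⟩ := h1x x hx.1
      obtain ⟨ha', hb'⟩ := h2x x hx.2
      constructor
      · intro r hr0 hr1
        obtain ⟨φ, hφ, hφe⟩ := ha r hr0 hr1
        obtain ⟨φ', hφ0', hφ1', hφe'⟩ := ha' r hr0 hr1
        refine ⟨fun j => if j = m then φ' else φ j, fun j => ?_, ?_⟩
        · simp only
          split_ifs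
          · exact ⟨hφ0', hφ1'⟩
          · exact hφ j
        · rw [Finset.sum_range_succ, Finset.sum_range_succ]
          have hs : ∑ j ∈ Finset.range m, (((if j = m then φ' else φ j : ℝ)) : ℂ) * d j x =
              ∑ j ∈ Finset.range m, (φ j : ℂ) * d j x := by
            apply Finset.sum_congr rfl
            intro j hj
            rw [Finset.mem_range] at hj
            rw [if_neg (by omega)]
          rw [hs]
          beta_reduce
          rw [if_pos rfl, eval_add]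
          have h3 := norm_add_le (P1.eval ((r : ℂ) * ee x) - ∑ j ∈ Finset.range m, (φ j : ℂ) * d j x)
            (P2.eval ((r : ℂ) * ee x) - (φ' : ℂ) * d m x)
          have h4 : P1.eval ((r : ℂ) * ee x) + P2.eval ((r : ℂ) * ee x) -
              (∑ j ∈ Finset.range m, (φ j : ℂ) * d j x + (φ' : ℂ) * d m x) =
              (P1.eval ((r : ℂ) * ee x) - ∑ j ∈ Finset.range m, (φ j : ℂ) * d j x) +
              (P2.eval ((r : ℂ) * ee x) - (φ' : ℂ) * d m x) := by ring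
          rw [h4, mul_add]
          linarith
      · rw [Finset.sum_range_succ, Finset.sum_range_succ, eval_add, mul_add]
        have h3 := norm_add_le (P1.eval (ee x) - ∑ j ∈ Finset.range m, d j x)
            (P2.eval (ee x) - d m x)
        have h4 : P1.eval (ee x) + P2.eval (ee x) - (∑ j ∈ Finset.range m, d j x + d m x) =
              (P1.eval (ee x) - ∑ j ∈ Finset.range m, d j x) + (P2.eval (ee x) - d m x) := by ring
        rw [h4]
        linarith

/-- clamping to `[0,1]` -/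
noncomputable def clamp (t : ℝ) : ℝ := max 0 (min 1 t)

lemma clamp_mono : Monotone clamp := fun _ _ h => max_le_max le_rfl (min_le_min le_rfl h)
lemma clamp_nonneg (t : ℝ) : 0 ≤ clamp t := le_max_left _ _
lemma clamp_le_one (t : ℝ) : clamp t ≤ 1 := max_le zero_le_one (min_le_left _ _)
lemma clamp_of_nonpos {t : ℝ} (h : t ≤ 0) : clamp t = 0 := by
  rw [clamp, min_eq_right (by linarith), max_eq_left h]
lemma clamp_of_one_le {t : ℝ} (h : 1 ≤ t) : clamp t = 1 := by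
  rw [clamp, min_eq_left h, max_eq_right zero_le_one]
lemma continuous_clamp : Continuous clamp := continuous_const.max (continuous_const.min continuous_id)

lemma exists_block (h : C(TT, ℂ)) {ε : ℝ} (hε : 0 < ε) (N : ℕ) {ρ : ℝ} (hρ0 : 0 ≤ ρ)
    (hρ1 : ρ < 1) :
    ∃ (P : ℂ[X]) (F : Set TT), (∀ n < N, P.coeff n = 0) ∧ (∀ n, ‖P.coeff n‖ ≤ ε) ∧
      (∀ z : ℂ, ‖z‖ ≤ ρ → ‖P.eval z‖ ≤ ε) ∧ MeasurableSet F ∧ mu F ≤ ENNReal.ofReal ε ∧
      (∀ x ∉ F, (∀ r : ℝ, 0 ≤ r → r ≤ 1 → ∃ φ : ℝ, 0 ≤ φ ∧ φ ≤ 1 ∧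
          ‖P.eval ((r : ℂ) * ee x) - (φ : ℂ) * h x‖ ≤ ε) ∧
        ‖P.eval (ee x) - h x‖ ≤ ε) := by
  -- constants
  set H : ℝ := ‖h‖ + 1 with hH
  have hHpos : 0 < H := by positivity
  have hhH : ∀ x, ‖h x‖ ≤ H := fun x => (h.norm_coe_le_norm x).trans (by rw [hH]; linarith)
  obtain ⟨c, hc0, hc1, hc⟩ := exists_arc_small (κ := ENNReal.ofReal (ε / 26))
    (by rw [Ne, ENNReal.ofReal_eq_zero, not_le]; positivity)
  obtain ⟨ψ, hψ0, hψr, hψc⟩ := exists_psi hc0 hc1 (ε := ε / (2 * H)) (by positivity)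
  have hψ : GoodPsi ψ c (ε / (2 * H)) := ⟨hψ0, hψr, hψc⟩
  set L := l1 ψ with hL
  have hL0 : 0 ≤ L := l1_nonneg ψ
  -- number of pieces
  obtain ⟨J, hJ⟩ := exists_nat_gt (26 * H * (L + 1) / ε)
  have hJpos : (0:ℝ) < J := lt_trans (by positivity) hJ
  have hJ1 : (1:ℝ) ≤ J := by
    have : 0 < J := by exact_mod_cast hJpos
    exact_mod_cast this
  have hpi := Real.pi_pos
  have hpi4 := Real.pi_lt_d2
  -- cut-off functions
  let cc : ℕ → TT → ℝ := fun j x => clamp ((j : ℝ) - J * (‖x‖ / Real.pi))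
  have hcc : ∀ j, Continuous (cc j) := fun j =>
    continuous_clamp.comp (continuous_const.sub (continuous_const.mul (continuous_norm.div_const _)))
  have hcmono : ∀ j x, cc j x ≤ cc (j+1) x := fun j x => clamp_mono (by push_cast; linarith)
  let d : ℕ → C(TT, ℂ) := fun j =>
    ⟨fun x => (((cc (j+1) x - cc j x : ℝ)) : ℂ) * h x,
      (Complex.continuous_ofReal.comp ((hcc (j+1)).sub (hcc j))).mul h.continuous⟩
  have hdapp : ∀ j x, d j x = (((cc (j+1) x - cc j x : ℝ)) : ℂ) * h x := fun j x => rfl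
  have hdnorm : ∀ j x, ‖d j x‖ = (cc (j+1) x - cc j x) * ‖h x‖ := by
    intro j x
    rw [hdapp, norm_mul, Complex.norm_real, Real.norm_of_nonneg (by linarith [hcmono j x])]
  let A : ℕ → Set TT := fun j => {x | |‖x‖ - Real.pi * j / J| ≤ Real.pi / J}
  have hAm : ∀ j, MeasurableSet (A j) := fun j =>
    (isClosed_le ((continuous_norm.sub continuous_const).abs) continuous_const).measurableSet
  have hAmu : ∀ j, mu (A j) ≤ ENNReal.ofReal (4 * (Real.pi / J)) := fun j => mu_annulus_le _ _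
  have hdA : ∀ j x, x ∉ A j → d j x = 0 := by
    intro j x hx
    have hx' : Real.pi / J < |‖x‖ - Real.pi * j / J| := by
      simpa [A] using hx
    have : cc (j+1) x - cc j x = 0 := by
      simp only [cc]
      rcases lt_abs.mp hx' with h1 | h1
      · -- ‖x‖ > π (j+1)/J
        have h2 : (j:ℝ) + 1 ≤ J * (‖x‖ / Real.pi) := by
          have h3 : Real.pi / J + Real.pi * j / J < ‖x‖ := by linarith
          have h4 : Real.pi / J + Real.pi * j / J = Real.pi * (j + 1) / J := by ring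
          rw [h4, div_lt_iff₀ hJpos] at h3
          rw [← mul_div_assoc, le_div_iff₀ hpi]
          linarith
        rw [clamp_of_nonpos (by push_cast; linarith), clamp_of_nonpos (by linarith), sub_zero]
      · have h2 : J * (‖x‖ / Real.pi) ≤ (j:ℝ) - 1 := by
          have h3 : ‖x‖ < Real.pi * j / J - Real.pi / J := by linarith
          have h4 : Real.pi * j / J - Real.pi / J = Real.pi * (j - 1) / J := by ring
          rw [h4, lt_div_iff₀ hJpos] at h3
          rw [← mul_div_assoc, div_le_iff₀ hpi]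
          linarith
        rw [clamp_of_one_le (by push_cast; linarith), clamp_of_one_le (by linarith), sub_self]
    rw [hdapp, this]
    simp
  set δ : ℝ := H * (4 * (Real.pi / J)) with hδ
  have hδpos : 0 < δ := by positivity
  have hdδ : ∀ j, ∫ x, ‖d j x‖ ∂mu ≤ δ := by
    intro j
    have h1 : ∀ x, ‖d j x‖ ≤ (A j).indicator (fun _ => H) x := by
      intro x
      by_cases hx : x ∈ A j
      · rw [Set.indicator_of_mem hx, hdnorm]
        have h2 : cc (j+1) x - cc j x ≤ 1 := by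
          have := clamp_le_one (((j+1 : ℕ) : ℝ) - J * (‖x‖ / Real.pi))
          have := clamp_nonneg ((j : ℝ) - J * (‖x‖ / Real.pi))
          simp only [cc]; linarith
        calc _ ≤ 1 * H := mul_le_mul h2 (hhH x) (norm_nonneg _) zero_le_one
          _ = H := one_mul _
      · rw [Set.indicator_of_notMem hx, hdA j x hx, norm_zero]
    calc ∫ x, ‖d j x‖ ∂mu ≤ ∫ x, (A j).indicator (fun _ => H) x ∂mu := by
          apply integral_mono
          · exact (integrable_cm (d j)).norm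
          · exact (integrable_const H).indicator (hAm j)
          · exact h1
      _ = mu.real (A j) * H := by
          rw [integral_indicator (hAm j), setIntegral_const, smul_eq_mul]
      _ ≤ (4 * (Real.pi / J)) * H := by
          apply mul_le_mul_of_nonneg_right _ hHpos.le
          rw [Measure.real]
          exact ENNReal.toReal_le_of_le_ofReal (by positivity) (hAmu j)
      _ = δ := by rw [hδ]; ring
  obtain ⟨P, F, hP0, hPc, hPρ, hFm, hFmu, hx⟩ := exists_bumps hψ (by positivity) d hAm hdA hδpos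
    hdδ hρ0 hρ1 (J + 1) (half_pos hε) N
  -- telescoping
  have htel : ∀ x, ∑ j ∈ Finset.range (J + 1), (cc (j+1) x - cc j x) = 1 := by
    intro x
    rw [Finset.sum_range_sub (fun j => cc j x)]
    have hxn : ‖x‖ ≤ Real.pi := by
      have := AddCircle.norm_le_half_period (2 * Real.pi) (x := x) (ne_of_gt Real.two_pi_pos)
      rw [abs_of_pos Real.two_pi_pos] at this
      linarith
    have h1 : cc (J+1) x = 1 := by
      apply clamp_of_one_le
      have : J * (‖x‖ / Real.pi) ≤ J * 1 := by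
        apply mul_le_mul_of_nonneg_left _ hJpos.le
        rw [div_le_one hpi]; exact hxn
      push_cast
      linarith
    have h2 : cc 0 x = 0 := by
      apply clamp_of_nonpos
      have : 0 ≤ J * (‖x‖ / Real.pi) := by positivity
      push_cast
      linarith
    rw [h1, h2, sub_zero]
  have hsumnorm : ∀ x, ∑ j ∈ Finset.range (J + 1), ‖d j x‖ = ‖h x‖ := by
    intro x
    simp_rw [hdnorm]
    rw [← Finset.sum_mul, htel, one_mul]
  have hsum : ∀ x, ∑ j ∈ Finset.range (J + 1), d j x = h x := by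
    intro x
    simp_rw [hdapp]
    rw [← Finset.sum_mul, ← Complex.ofReal_sum, htel]
    simp
  have herr : ∀ x, ε / (2 * H) * ‖h x‖ + ε / 2 ≤ ε := by
    intro x
    have : ε / (2 * H) * ‖h x‖ ≤ ε / (2 * H) * H := mul_le_mul_of_nonneg_left (hhH x) (by positivity)
    have h2 : ε / (2 * H) * H = ε / 2 := by field_simp
    linarith
  refine ⟨P, F, hP0, fun n => (hPc n).trans ?_, fun z hz => (hPρ z hz).trans (by linarith), hFm,
    hFmu.trans ?_, fun x hxF => ?_⟩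
  · -- coefficient bound
    rw [hδ]
    rw [div_lt_iff₀ hε] at hJ
    have h1 : 2 * (H * (4 * (Real.pi / J))) * L = (8 * Real.pi * H * L) / J := by
      field_simp; ring
    rw [h1, div_le_iff₀ hJpos]
    have h2 : 8 * Real.pi * H * L ≤ 26 * H * (L + 1) := by
      have : 8 * Real.pi ≤ 26 := by linarith
      nlinarith [mul_nonneg hHpos.le hL0, mul_le_mul_of_nonneg_right this (mul_nonneg hHpos.le hL0)]
    linarith
  · -- measure bound
    have h1 : ∑ j ∈ Finset.range (J + 1), mu (A j) ≤ ENNReal.ofReal 26 := by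
      calc ∑ j ∈ Finset.range (J + 1), mu (A j) ≤ ∑ j ∈ Finset.range (J + 1),
            ENNReal.ofReal (4 * (Real.pi / J)) := Finset.sum_le_sum fun j _ => hAmu j
        _ = ENNReal.ofReal (((J + 1 : ℕ) : ℝ) * (4 * (Real.pi / J))) := by
            rw [Finset.sum_const, Finset.card_range, nsmul_eq_mul,
              ENNReal.ofReal_mul (p := ((J + 1 : ℕ) : ℝ)) (by positivity), ENNReal.ofReal_natCast]
        _ ≤ ENNReal.ofReal 26 := by
            apply ENNReal.ofReal_le_ofReal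
            have h2 : ((J + 1 : ℕ) : ℝ) * (4 * (Real.pi / J)) = 4 * Real.pi * ((J + 1) / J) := by
              push_cast; ring
            rw [h2]
            have h3 : ((J:ℝ) + 1) / J ≤ 2 := by
              rw [div_le_iff₀ hJpos]; linarith
            nlinarith
    calc (∑ j ∈ Finset.range (J + 1), mu (A j)) * mu (arc c)
        ≤ ENNReal.ofReal 26 * ENNReal.ofReal (ε / 26) := mul_le_mul' h1 hc
      _ = ENNReal.ofReal ε := by
          rw [← ENNReal.ofReal_mul (by norm_num)]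
          congr 1
          field_simp
  · obtain ⟨ha, hb⟩ := hx x hxF
    rw [hsum, hsumnorm] at hb
    refine ⟨fun r hr0 hr1 => ?_, hb.trans (herr x)⟩
    obtain ⟨φ, hφ, hφe⟩ := ha r hr0 hr1
    rw [hsumnorm] at hφe
    refine ⟨∑ j ∈ Finset.range (J + 1), φ j * (cc (j+1) x - cc j x), ?_, ?_, ?_⟩
    · exact Finset.sum_nonneg fun j _ => mul_nonneg (hφ j).1 (by linarith [hcmono j x])
    · rw [← htel x]
      apply Finset.sum_le_sum
      intro j _
      exact mul_le_of_le_one_left (by linarith [hcmono j x]) (hφ j).2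
    · have h1 : (((∑ j ∈ Finset.range (J + 1), φ j * (cc (j+1) x - cc j x) : ℝ)) : ℂ) * h x =
          ∑ j ∈ Finset.range (J + 1), (φ j : ℂ) * d j x := by
        simp_rw [hdapp]
        push_cast
        rw [Finset.sum_mul]
        apply Finset.sum_congr rfl
        intro j _
        ring
      rw [h1]
      exact hφe.trans (herr x)

end Pool.Agent.H24
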