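import Mathlib
import Pool.Agent.H24.Block

set_option autoImplicit false
open Filter Topology Polynomial MeasureTheory AddCircle

namespace Pool.Agent.H24

/-- pointwise convergence of real numbers to an extended real number -/
def ConvTo (u : ℕ → ℝ) (g : EReal) : Prop :=
  (∀ y : ℝ, g = (y : EReal) → Tendsto u atTop (𝓝 y)) ∧
  (g = ⊤ → Tendsto u atTop atTop) ∧ (g = ⊥ → Tendsto u atTop atBot)

/-- truncation of an extended real number -/
noncomputable def trunc (k : ℕ) (g : EReal) : ℝ :=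
  (max ((-(k:ℝ) : ℝ) : EReal) (min ((k : ℝ) : EReal) g)).toReal

lemma ecoe_max (x y : ℝ) : ((max x y : ℝ) : EReal) = max (x : EReal) (y : EReal) :=
  EReal.coe_strictMono.monotone.map_max

lemma ecoe_min (x y : ℝ) : ((min x y : ℝ) : EReal) = min (x : EReal) (y : EReal) :=
  EReal.coe_strictMono.monotone.map_min

lemma trunc_coe (k : ℕ) (y : ℝ) : trunc k (y : EReal) = max (-(k:ℝ)) (min (k:ℝ) y) := by
  rw [trunc, ← ecoe_min, ← ecoe_max, EReal.toReal_coe]

lemma trunc_top (k : ℕ) : trunc k ⊤ = k := by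
  rw [trunc, min_top_right, ← ecoe_max, EReal.toReal_coe, max_eq_right]
  have : (0:ℝ) ≤ k := by positivity
  linarith

lemma trunc_bot (k : ℕ) : trunc k ⊥ = -k := by
  rw [trunc, min_bot_right, max_bot_right, EReal.toReal_coe]

lemma abs_trunc_le (k : ℕ) (g : EReal) : |trunc k g| ≤ k := by
  have hk : (0:ℝ) ≤ k := by positivity
  induction g using EReal.rec with
  | bot => rw [trunc_bot, abs_neg, abs_of_nonneg hk]
  | top => rw [trunc_top, abs_of_nonneg hk]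
  | coe y =>
    rw [trunc_coe, abs_le]
    constructor
    · exact le_max_left _ _
    · exact max_le (by linarith) (min_le_left _ _)

lemma trunc_convTo (g : EReal) : ConvTo (fun k => trunc k g) g := by
  refine ⟨fun y hy => ?_, fun h => ?_, fun h => ?_⟩
  · subst hy
    obtain ⟨K, hK⟩ := exists_nat_ge |y|
    apply tendsto_const_nhds.congr'
    filter_upwards [eventually_ge_atTop K] with k hk
    rw [trunc_coe]
    have h1 : |y| ≤ k := hK.trans (by exact_mod_cast hk)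
    rw [abs_le] at h1
    rw [min_eq_right h1.2, max_eq_right h1.1]
  · subst h
    simp_rw [trunc_top]
    exact tendsto_natCast_atTop_atTop
  · subst h
    simp_rw [trunc_bot]
    exact tendsto_neg_atTop_atBot.comp tendsto_natCast_atTop_atTop

lemma convTo_of_close {u v : ℕ → ℝ} {g : EReal} (hu : ConvTo u g)
    (huv : Tendsto (fun k => v k - u k) atTop (𝓝 0)) : ConvTo v g := by
  have hv : v = fun k => u k + (v k - u k) := by funext k; ring
  refine ⟨fun y hy => ?_, fun h => ?_, fun h => ?_⟩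
  · have := (hu.1 y hy).add huv
    rw [add_zero] at this
    rw [hv]; exact this
  · rw [hv]
    exact (hu.2.1 h).atTop_add huv
  · rw [hv]
    exact (hu.2.2 h).atBot_add huv

lemma exists_approx (G : TT → EReal) (hG : Measurable G) :
    ∃ γ : ℕ → C(TT, ℝ), ∀ᵐ x ∂mu, ConvTo (fun k => γ k x) (G x) := by
  have hmeas : ∀ k : ℕ, Measurable (fun x => trunc k (G x)) := fun k =>
    (measurable_const.max (measurable_const.min hG)).ereal_toReal
  have hint : ∀ k : ℕ, Integrable (fun x => trunc k (G x)) mu := fun k =>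
    Integrable.of_bound (hmeas k).aestronglyMeasurable k
      (Eventually.of_forall fun x => by rw [Real.norm_eq_abs]; exact abs_trunc_le k _)
  have h1 : ∀ k : ℕ, ∃ g : BoundedContinuousFunction TT ℝ,
      ∫⁻ x, ‖trunc k (G x) - g x‖ₑ ∂mu ≤ ENNReal.ofReal ((1/4) ^ k) ∧ Integrable g mu := fun k =>
    (hint k).exists_boundedContinuous_lintegral_sub_le
      (by rw [Ne, ENNReal.ofReal_eq_zero, not_le]; positivity)
  choose g hg hgi using h1
  refine ⟨fun k => (g k).toContinuousMap, ?_⟩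
  let E : ℕ → Set TT := fun k => {x | ENNReal.ofReal ((1/2) ^ k) ≤ ‖trunc k (G x) - g k x‖ₑ}
  have hE : ∀ k, mu (E k) ≤ ENNReal.ofReal ((1/2) ^ k) := by
    intro k
    have hmk : Measurable (fun x => ‖trunc k (G x) - g k x‖ₑ) :=
      ((hmeas k).sub (g k).continuous.measurable).enorm
    have h2 := mul_meas_ge_le_lintegral (μ := mu) hmk (ENNReal.ofReal ((1/2) ^ k))
    have h3 := h2.trans (hg k)
    have h4 : ENNReal.ofReal ((1/4) ^ k) = ENNReal.ofReal ((1/2) ^ k) * ENNReal.ofReal ((1/2) ^ k) := by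
      rw [← ENNReal.ofReal_mul (by positivity), ← mul_pow]
      norm_num
    rw [h4] at h3
    exact (ENNReal.mul_le_mul_iff_right (by rw [Ne, ENNReal.ofReal_eq_zero, not_le]; positivity)
      ENNReal.ofReal_ne_top).mp h3
  have hsum : ∑' k, mu (E k) ≠ ⊤ := by
    have h5 : ∑' k : ℕ, ENNReal.ofReal ((1/2) ^ k) ≠ ⊤ := by
      have : Summable (fun k : ℕ => ((1:ℝ)/2) ^ k) := summable_geometric_of_lt_one (by norm_num) (by norm_num)
      rw [← ENNReal.ofReal_tsum_of_nonneg (fun _ => by positivity) this]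
      exact ENNReal.ofReal_ne_top
    exact ne_top_of_le_ne_top h5 (ENNReal.tsum_le_tsum hE)
  filter_upwards [ae_eventually_notMem hsum] with x hx
  refine convTo_of_close (trunc_convTo (G x)) ?_
  apply squeeze_zero_norm' (a := fun k : ℕ => ((1:ℝ)/2) ^ k)
  · filter_upwards [hx] with k hk
    simp only [E, Set.mem_ofPred_eq, not_le] at hk
    have : ‖trunc k (G x) - g k x‖ₑ < ENNReal.ofReal ((1/2) ^ k) := hk
    rw [← ofReal_norm] at this
    have h6 := (ENNReal.ofReal_lt_ofReal_iff (by positivity)).mp this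
    rw [norm_sub_rev] at h6
    exact h6.le
  · exact tendsto_pow_atTop_nhds_zero_of_lt_one (by norm_num) (by norm_num)

/-- The main property of the approximants along a radius. -/
def RadProp (f : ℝ → ℂ) (γ : ℕ → ℝ) : Prop :=
  ∀ ε : ℝ, 0 < ε → ∀ K : ℕ, ∃ r₀ : ℝ, r₀ < 1 ∧ ∀ r : ℝ, r₀ ≤ r → r < 1 →
    ∃ k : ℕ, K ≤ k ∧ ∃ φ : ℝ, 0 ≤ φ ∧ φ ≤ 1 ∧
      ‖f r - (((1 - φ) * γ k + φ * γ (k + 1) : ℝ) : ℂ)‖ ≤ ε

lemma RadProp.real {f : ℝ → ℂ} {γ : ℕ → ℝ} (h : RadProp f γ) {y : ℝ}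
    (hγ : Tendsto γ atTop (𝓝 y)) : Tendsto f (𝓝[<] 1) (𝓝 (y : ℂ)) := by
  rw [Metric.tendsto_nhds]
  intro ε hε
  rw [Metric.tendsto_atTop] at hγ
  obtain ⟨K, hK⟩ := hγ (ε / 3) (by positivity)
  obtain ⟨r₀, hr₀, hr⟩ := h (ε / 3) (by positivity) K
  filter_upwards [Ico_mem_nhdsLT hr₀] with r hrm
  obtain ⟨k, hk, φ, hφ0, hφ1, hφ⟩ := hr r hrm.1 hrm.2
  have h1 := hK k hk
  have h2 := hK (k+1) (by omega)
  rw [Real.dist_eq, abs_lt] at h1 h2
  have h3 : |((1 - φ) * γ k + φ * γ (k + 1)) - y| ≤ ε / 3 := by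
    rw [abs_le]
    constructor <;> nlinarith
  rw [dist_eq_norm]
  have h4 := norm_add_le (f r - (((1 - φ) * γ k + φ * γ (k + 1) : ℝ) : ℂ))
    ((((1 - φ) * γ k + φ * γ (k + 1) : ℝ) : ℂ) - (y : ℂ))
  rw [sub_add_sub_cancel, ← Complex.ofReal_sub, Complex.norm_real, Real.norm_eq_abs] at h4
  linarith

/-- a quantitative statement used for both infinite limits -/
lemma norm_div_norm_sub_le {z : ℂ} {u ε : ℝ} (σ : ℂ) (hσ : ‖σ‖ = 1) (hu : 1 ≤ u) (hε : ε ≤ 1 / 2)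
    (h : ‖z - σ * (u : ℂ)‖ ≤ ε) : ‖z / ((‖z‖ : ℝ) : ℂ) - σ‖ ≤ 4 * ε ∧ u - 1 ≤ ‖z‖ := by
  have hn : ‖σ * (u : ℂ)‖ = u := by
    rw [norm_mul, hσ, one_mul, Complex.norm_real, Real.norm_of_nonneg (by linarith)]
  have h1 : |‖z‖ - u| ≤ ε := by
    have := abs_norm_sub_norm_le z (σ * (u : ℂ))
    rw [hn] at this
    exact this.trans h
  rw [abs_le] at h1
  have hz : 1 / 2 ≤ ‖z‖ := by linarith
  have hz0 : 0 < ‖z‖ := by linarith
  refine ⟨?_, by linarith⟩
  have h2 : z / ((‖z‖ : ℝ) : ℂ) - σ = ((z - σ * (u : ℂ)) + σ * ((u - ‖z‖ : ℝ) : ℂ)) / ((‖z‖ : ℝ) : ℂ) := by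
    have : ((‖z‖ : ℝ) : ℂ) ≠ 0 := by exact_mod_cast hz0.ne'
    field_simp
    push_cast
    ring
  rw [h2, norm_div, Complex.norm_real, Real.norm_of_nonneg hz0.le, div_le_iff₀ hz0]
  have h3 := norm_add_le (z - σ * (u : ℂ)) (σ * ((u - ‖z‖ : ℝ) : ℂ))
  rw [norm_mul σ, hσ, one_mul, Complex.norm_real, Real.norm_eq_abs] at h3
  have h4 : |u - ‖z‖| ≤ ε := by rw [abs_le]; constructor <;> linarith
  have hε0 : 0 ≤ ε := (norm_nonneg _).trans h
  nlinarith

lemma RadProp.inf {f : ℝ → ℂ} {γ : ℕ → ℝ} (h : RadProp f γ) (σ : ℝ) (hσ : σ = 1 ∨ σ = -1)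
    (hγ : Tendsto (fun k => σ * γ k) atTop atTop) :
    Tendsto (fun r => ‖f r‖) (𝓝[<] 1) atTop ∧
      Tendsto (fun r => f r / ((‖f r‖ : ℝ) : ℂ)) (𝓝[<] 1) (𝓝 (σ : ℂ)) := by
  have hσ2 : σ * σ = 1 := by rcases hσ with h | h <;> rw [h] <;> norm_num
  have hσn : ‖(σ : ℂ)‖ = 1 := by
    rw [Complex.norm_real]
    rcases hσ with h | h <;> rw [h] <;> norm_num
  have key : ∀ ε : ℝ, 0 < ε → ε ≤ 1 / 2 → ∀ B : ℝ, 1 ≤ B → ∀ᶠ r in 𝓝[<] (1:ℝ),
      ‖f r / ((‖f r‖ : ℝ) : ℂ) - (σ : ℂ)‖ ≤ 4 * ε ∧ B - 1 ≤ ‖f r‖ := by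
    intro ε hε hε2 B hB
    obtain ⟨K, hK⟩ := (hγ.eventually_ge_atTop B).exists_forall_of_atTop
    obtain ⟨r₀, hr₀, hr⟩ := h ε hε K
    filter_upwards [Ico_mem_nhdsLT hr₀] with r hrm
    obtain ⟨k, hk, φ, hφ0, hφ1, hφ⟩ := hr r hrm.1 hrm.2
    have h1 := hK k hk
    have h2 := hK (k+1) (by omega)
    set u := σ * ((1 - φ) * γ k + φ * γ (k + 1)) with hu
    have hub : B ≤ u := by
      have : u = (1 - φ) * (σ * γ k) + φ * (σ * γ (k+1)) := by rw [hu]; ring
      rw [this]; nlinarith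
    have h3 : (((1 - φ) * γ k + φ * γ (k + 1) : ℝ) : ℂ) = (σ : ℂ) * (u : ℂ) := by
      rw [hu, ← Complex.ofReal_mul, ← mul_assoc, hσ2, one_mul]
    rw [h3] at hφ
    have h4 := norm_div_norm_sub_le (σ : ℂ) hσn (hB.trans hub) hε2 hφ
    exact ⟨h4.1, by linarith [h4.2]⟩
  constructor
  · rw [tendsto_atTop]
    intro B
    filter_upwards [key (1/2) (by norm_num) le_rfl (max 1 (B + 1)) (le_max_left _ _)] with r hr
    have := le_max_right (1:ℝ) (B + 1)
    linarith [hr.2]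
  · rw [Metric.tendsto_nhds]
    intro ε hε
    filter_upwards [key (min (1/2) (ε / 8)) (lt_min (by norm_num) (by positivity)) (min_le_left _ _) 1
      le_rfl] with r hr
    rw [dist_eq_norm]
    have := min_le_right (1/2 : ℝ) (ε / 8)
    linarith [hr.1]

end Pool.Agent.H24
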