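import Pool.Agent.H24.Pack

/-! Assembling a periodic microstructure from devices. -/

open Complex Filter Topology MeasureTheory
open scoped ContDiff Pointwise

namespace Pool.Agent.H24

/-- a symmetric packing of the cell by closed discs -/
structure Pk {ι : Type*} (b : Module.Basis (Fin 2) ℝ ℂ) (J : Finset ι) (c : ι → ℂ) (ρ : ι → ℝ)
    (ε : ℝ) : Prop where
  pos : ∀ i ∈ J, 0 < ρ i
  sub : ∀ i ∈ J, Metric.closedBall (c i) (ρ i) ⊆ Yo b
  disj : ∀ i ∈ J, ∀ j ∈ J, i ≠ j →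
    Disjoint (Metric.closedBall (c i) (ρ i)) (Metric.closedBall (c j) (ρ j))
  cover : volume.real (ZSpan.fundamentalDomain b \ ⋃ i ∈ J, Metric.closedBall (c i) (ρ i)) ≤ ε
  rot : ∀ i ∈ J, ∃ j ∈ J, ρ j = ρ i ∧ c j - ep 3 * c i ∈ Submodule.span ℤ (Set.range b)
  latt : ∀ i, ep 3 * b i ∈ Submodule.span ℤ (Set.range b)

variable {ι : Type*} {b : Module.Basis (Fin 2) ℝ ℂ} {J : Finset ι} {c : ι → ℂ} {ρ : ι → ℝ}
  {ε η : ℝ} {V0 : Set ℂ} {v ψ : ℂ → ℂ}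

/-- the void -/
def Vd (b : Module.Basis (Fin 2) ℝ ℂ) (J : Finset ι) (c : ι → ℂ) (ρ : ι → ℝ) (V0 : Set ℂ) : Set ℂ :=
  {x | ∃ i ∈ J, ∃ l ∈ Submodule.span ℤ (Set.range b), (ρ i)⁻¹ • (x - l - c i) ∈ V0}

lemma isOpen_Vd (h : IsOpen V0) : IsOpen (Vd b J c ρ V0) := by
  have : Vd b J c ρ V0 = ⋃ i ∈ J, ⋃ l ∈ Submodule.span ℤ (Set.range b),
      (fun x => (ρ i)⁻¹ • (x - l - c i)) ⁻¹' V0 := by
    ext x
    simp [Vd]
  rw [this]
  refine isOpen_biUnion fun i _ => isOpen_biUnion fun l _ => h.preimage ?_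
  fun_prop

lemma Vd_per (i : Fin 2) (x : ℂ) : x + b i ∈ Vd b J c ρ V0 ↔ x ∈ Vd b J c ρ V0 := by
  constructor
  · rintro ⟨j, hj, l, hl, h⟩
    refine ⟨j, hj, l - b i, Submodule.sub_mem _ hl (Submodule.subset_span ⟨i, rfl⟩), ?_⟩
    have : x - (l - b i) - c j = x + b i - l - c j := by ring
    rw [this]
    exact h
  · rintro ⟨j, hj, l, hl, h⟩
    refine ⟨j, hj, l + b i, Submodule.add_mem _ hl (Submodule.subset_span ⟨i, rfl⟩), ?_⟩
    have : x + b i - (l + b i) - c j = x - l - c j := by ring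
    rw [this]
    exact h

lemma Vd_rot' (P : Pk b J c ρ ε) (hV : ∀ x ∈ V0, ep 3 * x ∈ V0) {x : ℂ}
    (hx : x ∈ Vd b J c ρ V0) : ep 3 * x ∈ Vd b J c ρ V0 := by
  obtain ⟨i, hi, l, hl, h⟩ := hx
  obtain ⟨j, hj, h1, h2⟩ := P.rot i hi
  refine ⟨j, hj, ep 3 * l - (c j - ep 3 * c i), Submodule.sub_mem _ (span_rot P.latt hl) h2, ?_⟩
  have : (ρ j)⁻¹ • (ep 3 * x - (ep 3 * l - (c j - ep 3 * c i)) - c j) =
      ep 3 * ((ρ i)⁻¹ • (x - l - c i)) := by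
    rw [h1, mul_smul_comm]
    congr 1
    ring
  rw [this]
  exact hV _ h

lemma Vd_rot (P : Pk b J c ρ ε) (hV : ∀ x ∈ V0, ep 3 * x ∈ V0) (x : ℂ) :
    ep 3 * x ∈ Vd b J c ρ V0 ↔ x ∈ Vd b J c ρ V0 := by
  constructor
  · intro h
    have h1 := Vd_rot' P hV (Vd_rot' P hV h)
    have : ep 3 * (ep 3 * (ep 3 * x)) = x := by
      calc ep 3 * (ep 3 * (ep 3 * x)) = ep 3 ^ 3 * x := by ring
        _ = x := by rw [ep3_cube, one_mul]
    rwa [this] at h1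
  · exact Vd_rot' P hV

lemma Vd_cell (P : Pk b J c ρ ε) (hsub : V0 ⊆ Metric.ball 0 1) {x : ℂ}
    (hx : x ∈ ZSpan.fundamentalDomain b) (hxV : x ∈ Vd b J c ρ V0) :
    ∃ i ∈ J, (ρ i)⁻¹ • (x - c i) ∈ V0 := by
  obtain ⟨i, hi, l, hl, h⟩ := hxV
  have hρ := P.pos i hi
  have h1 := hsub h
  rw [mem_ball_zero_iff, norm_smul, norm_inv, Real.norm_of_nonneg hρ.le,
    inv_mul_lt_iff₀ hρ, mul_one] at h1
  have h2 : x - l ∈ Yo b := P.sub i hi (by rw [Metric.mem_closedBall, dist_eq_norm]; exact h1.le)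
  have h3 : ZSpan.fract b (x - l) = ZSpan.fract b x := by
    rw [ZSpan.fract_eq_fract]
    have : -(x - l) + x = l := by ring
    rw [this]; exact hl
  rw [ZSpan.fract_eq_self.2 (Yo_sub b h2), ZSpan.fract_eq_self.2 hx] at h3
  refine ⟨i, hi, ?_⟩
  rwa [h3] at h

/-- union of the discs -/
def Sd (J : Finset ι) (c : ι → ℂ) (ρ : ι → ℝ) : Set ℂ := ⋃ i ∈ J, Metric.closedBall (c i) (ρ i)

lemma isCompact_Sd : IsCompact (Sd J c ρ) :=
  J.isCompact_biUnion fun _ _ => isCompact_closedBall _ _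

lemma Sd_sub (P : Pk b J c ρ ε) : Sd J c ρ ⊆ Yo b := by
  intro x hx
  simp only [Sd, Set.mem_iUnion] at hx
  obtain ⟨i, hi, hx⟩ := hx
  exact P.sub i hi hx

/-- sum of rescaled fields -/
noncomputable def FF {E : Type*} [NormedAddCommGroup E] [NormedSpace ℝ E] (J : Finset ι) (c : ι → ℂ)
    (ρ w : ι → ℝ) (f : ℂ → E) (x : ℂ) : E := ∑ i ∈ J, w i • f ((ρ i)⁻¹ • (x - c i))

section
variable {E : Type*} [NormedAddCommGroup E] [NormedSpace ℝ E] {w : ι → ℝ} {f : ℂ → E}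

lemma norm_scaled {i : ι} (hρ : 0 < ρ i) (x : ℂ) : ‖(ρ i)⁻¹ • (x - c i)‖ = (ρ i)⁻¹ * dist x (c i) := by
  rw [norm_smul, norm_inv, Real.norm_of_nonneg hρ.le, dist_eq_norm]

lemma FF_contDiff (hf : ContDiff ℝ ∞ f) : ContDiff ℝ ∞ (FF J c ρ w f) := by
  unfold FF
  refine ContDiff.sum fun i _ => ?_
  exact (hf.comp ((contDiff_id.sub contDiff_const).const_smul _)).const_smul _

lemma FF_out (hρ : ∀ i ∈ J, 0 < ρ i) (h0 : ∀ x, 1 ≤ ‖x‖ → f x = 0) {x : ℂ} (hx : x ∉ Sd J c ρ) :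
    FF J c ρ w f x = 0 := by
  unfold FF
  refine Finset.sum_eq_zero fun i hi => ?_
  have h1 : ρ i < dist x (c i) := by
    by_contra hcon
    push Not at hcon
    exact hx (by simp only [Sd, Set.mem_iUnion]; exact ⟨i, hi, hcon⟩)
  rw [h0, smul_zero]
  rw [norm_scaled (hρ i hi), ← div_eq_inv_mul, one_le_div (hρ i hi)]
  exact h1.le

lemma FF_near (P : Pk b J c ρ ε) (h0 : ∀ x, 1 ≤ ‖x‖ → f x = 0) {i : ι} (hi : i ∈ J) {x : ℂ}
    (hx : x ∈ Metric.closedBall (c i) (ρ i)) :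
    FF J c ρ w f =ᶠ[𝓝 x] fun y => w i • f ((ρ i)⁻¹ • (y - c i)) := by
  classical
  have h1 : ∀ j ∈ J.erase i, ∀ᶠ y in 𝓝 x, w j • f ((ρ j)⁻¹ • (y - c j)) = 0 := by
    intro j hj
    have hji := Finset.ne_of_mem_erase hj
    have hjJ := Finset.mem_of_mem_erase hj
    have hd := P.disj i hi j hjJ hji.symm
    have hxj : x ∉ Metric.closedBall (c j) (ρ j) := Set.disjoint_left.1 hd hx
    filter_upwards [Metric.isClosed_closedBall.isOpen_compl.mem_nhds hxj] with y hy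
    have hy' : ρ j < dist y (c j) := by
      by_contra hcon
      push Not at hcon
      exact hy hcon
    rw [h0, smul_zero]
    rw [norm_scaled (P.pos j hjJ), ← div_eq_inv_mul, one_le_div (P.pos j hjJ)]
    exact hy'.le
  have h2 := (Filter.eventually_all_finset _).2 h1
  filter_upwards [h2] with y hy
  unfold FF
  rw [← Finset.add_sum_erase J _ hi, Finset.sum_eq_zero hy, add_zero]

lemma fderiv_affine (f : ℂ → E) {r : ℝ} (hr : r ≠ 0) (c x : ℂ) :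
    fderiv ℝ (fun y => r • f (r⁻¹ • (y - c))) x = fderiv ℝ f (r⁻¹ • (x - c)) := by
  have h1 := fderiv_scale f (inv_ne_zero hr) (x + -c)
  rw [inv_inv] at h1
  have h2 := fderiv_comp_add_right (𝕜 := ℝ) (f := fun z => r • f (r⁻¹ • z)) (x := x) (-c)
  simp only [← sub_eq_add_neg] at h1 h2
  rw [h2, h1]

lemma fderiv2_affine (f : ℂ → E) {r : ℝ} (hr : r ≠ 0) (c x : ℂ) :
    fderiv ℝ (fderiv ℝ (fun y => (r ^ 2) • f (r⁻¹ • (y - c)))) x =
      fderiv ℝ (fderiv ℝ f) (r⁻¹ • (x - c)) := by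
  have h1 := fderiv2_scale f (inv_ne_zero hr) (x + -c)
  rw [inv_pow, inv_inv] at h1
  have e1 : fderiv ℝ (fun y => (r ^ 2) • f (r⁻¹ • (y - c))) =
      fun y => fderiv ℝ (fun z => (r ^ 2) • f (r⁻¹ • z)) (y + -c) := by
    funext y
    have h2 := fderiv_comp_add_right (𝕜 := ℝ) (f := fun z => (r ^ 2) • f (r⁻¹ • z)) (x := y) (-c)
    simp only [← sub_eq_add_neg] at h2 ⊢
    exact h2
  rw [e1]
  have h3 := fderiv_comp_add_right (𝕜 := ℝ)
    (f := fderiv ℝ (fun z => (r ^ 2) • f (r⁻¹ • z))) (x := x) (-c)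
  rw [h3, h1, sub_eq_add_neg]

end

end Pool.Agent.H24
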