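import Mathlib

/-! Pointwise symbol calculus for second order derivatives. -/

open scoped ContDiff

namespace Pool.Agent.H24

variable {F : Type*} [NormedAddCommGroup F] [NormedSpace ℝ F]
variable {G : Type*} [NormedAddCommGroup G] [NormedSpace ℝ G]

/-- `f` is `C²` and at `x` it has size `A` at the length scale `1/L`, up to two derivatives. -/
structure Bd (f : ℂ → F) (x : ℂ) (A L : ℝ) : Prop where
  smooth : ContDiff ℝ 2 f
  b0 : ‖f x‖ ≤ A
  b1 : ‖fderiv ℝ f x‖ ≤ A * L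
  b2 : ‖iteratedFDeriv ℝ 2 f x‖ ≤ A * L ^ 2

lemma ContDiff.one_lt_two' {f : ℂ → F} (h : ContDiff ℝ 2 f) : Differentiable ℝ f :=
  h.differentiable (by norm_num)

lemma ContDiff.fderiv_diff {f : ℂ → F} (h : ContDiff ℝ 2 f) :
    Differentiable ℝ (fderiv ℝ f) :=
  (h.fderiv_right (m := 1) (by norm_num)).differentiable (by norm_num)

lemma norm_iter2 (f : ℂ → F) (x : ℂ) :
    ‖iteratedFDeriv ℝ 2 f x‖ = ‖fderiv ℝ (fderiv ℝ f) x‖ := by
  rw [← norm_iteratedFDeriv_one, norm_iteratedFDeriv_fderiv]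

namespace Bd

variable {f g : ℂ → F} {x : ℂ} {A B L : ℝ}

lemma nonneg (h : Bd f x A L) : 0 ≤ A := (norm_nonneg _).trans h.b0

lemma mono (h : Bd f x A L) (hL : 0 ≤ L) {A' L' : ℝ} (hA : A ≤ A') (hL' : L ≤ L') :
    Bd f x A' L' := by
  have hA0 := h.nonneg
  refine ⟨h.smooth, h.b0.trans hA, h.b1.trans ?_, h.b2.trans ?_⟩
  · exact mul_le_mul hA hL' hL (hA0.trans hA)
  · exact mul_le_mul hA (pow_le_pow_left₀ hL hL' 2) (by positivity) (hA0.trans hA)

lemma add (hf : Bd f x A L) (hg : Bd g x B L) : Bd (fun y => f y + g y) x (A + B) L := by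
  have h1 := ContDiff.one_lt_two' hf.smooth
  have h2 := ContDiff.one_lt_two' hg.smooth
  have e1 : fderiv ℝ (fun y => f y + g y) = fun y => fderiv ℝ f y + fderiv ℝ g y := by
    funext y
    exact fderiv_fun_add (h1 y) (h2 y)
  have e2 : iteratedFDeriv ℝ 2 (fun y => f y + g y) x
      = iteratedFDeriv ℝ 2 f x + iteratedFDeriv ℝ 2 g x :=
    iteratedFDeriv_add_apply hf.smooth.contDiffAt hg.smooth.contDiffAt
  refine ⟨hf.smooth.add hg.smooth, ?_, ?_, ?_⟩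
  · exact (norm_add_le _ _).trans (add_le_add hf.b0 hg.b0)
  · rw [e1, add_mul]
    exact (norm_add_le _ _).trans (add_le_add hf.b1 hg.b1)
  · rw [e2, add_mul]
    exact (norm_add_le _ _).trans (add_le_add hf.b2 hg.b2)

lemma neg (hf : Bd f x A L) : Bd (fun y => - f y) x A L := by
  have e1 : fderiv ℝ (fun y => - f y) = fun y => - fderiv ℝ f y := by
    funext y
    exact fderiv_fun_neg
  have e2 : iteratedFDeriv ℝ 2 (fun y => - f y) x = - iteratedFDeriv ℝ 2 f x :=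
    iteratedFDeriv_neg_apply
  refine ⟨hf.smooth.neg, ?_, ?_, ?_⟩
  · rw [norm_neg]; exact hf.b0
  · rw [e1, norm_neg]; exact hf.b1
  · rw [e2, norm_neg]; exact hf.b2

lemma sub (hf : Bd f x A L) (hg : Bd g x B L) : Bd (fun y => f y - g y) x (A + B) L := by
  simpa [sub_eq_add_neg] using hf.add hg.neg

lemma const (c : F) (hL : 0 ≤ L) (hc : ‖c‖ ≤ A) : Bd (fun _ : ℂ => c) x A L := by
  have hA : 0 ≤ A := (norm_nonneg _).trans hc
  refine ⟨contDiff_const, hc, ?_, ?_⟩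
  · rw [fderiv_const_apply, norm_zero]; positivity
  · rw [iteratedFDeriv_const_of_ne (by norm_num)]
    simp only [Pi.zero_apply, norm_zero]; positivity

lemma bilin {E1 : Type*} [NormedAddCommGroup E1] [NormedSpace ℝ E1] {f : ℂ → E1} {g : ℂ → F}
    {h : ℂ → G} (hf : Bd f x A L) (hg : Bd g x B L) (hL : 0 ≤ L) (hs : ContDiff ℝ 2 h)
    (hh : ∀ n : ℕ, n ≤ 2 → ‖iteratedFDeriv ℝ n h x‖ ≤ ∑ i ∈ Finset.range (n + 1),
      (n.choose i : ℝ) * ‖iteratedFDeriv ℝ i f x‖ * ‖iteratedFDeriv ℝ (n - i) g x‖) :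
    Bd h x (4 * (A * B)) L := by
  have hA := hf.nonneg
  have hB := hg.nonneg
  refine ⟨hs, ?_, ?_, ?_⟩
  · have := hh 0 (by norm_num)
    rw [Finset.sum_range_succ, Finset.sum_range_zero] at this
    have h' : ‖iteratedFDeriv ℝ 0 h x‖ ≤ 0 + ((Nat.choose 0 0 : ℕ) : ℝ) * ‖iteratedFDeriv ℝ 0 f x‖
      * ‖iteratedFDeriv ℝ 0 g x‖ := this
    simp only [norm_iteratedFDeriv_zero, Nat.choose_self, Nat.cast_one] at h'
    have := mul_le_mul hf.b0 hg.b0 (norm_nonneg _) hA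
    nlinarith [mul_nonneg hA hB]
  · have := hh 1 (by norm_num)
    rw [Finset.sum_range_succ, Finset.sum_range_succ, Finset.sum_range_zero] at this
    have h' : ‖iteratedFDeriv ℝ 1 h x‖ ≤ 0 + ((Nat.choose 1 0 : ℕ) : ℝ) * ‖iteratedFDeriv ℝ 0 f x‖
      * ‖iteratedFDeriv ℝ 1 g x‖ + ((Nat.choose 1 1 : ℕ) : ℝ) * ‖iteratedFDeriv ℝ 1 f x‖
      * ‖iteratedFDeriv ℝ 0 g x‖ := this
    simp only [norm_iteratedFDeriv_zero, norm_iteratedFDeriv_one, Nat.choose_self,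
      Nat.choose_zero_right, Nat.cast_one] at h'
    have h1 := mul_le_mul hf.b0 hg.b1 (norm_nonneg _) hA
    have h2 := mul_le_mul hf.b1 hg.b0 (norm_nonneg _) (by positivity)
    nlinarith [mul_nonneg (mul_nonneg hA hB) hL]
  · have := hh 2 (by norm_num)
    rw [Finset.sum_range_succ, Finset.sum_range_succ, Finset.sum_range_succ,
      Finset.sum_range_zero] at this
    have h' : ‖iteratedFDeriv ℝ 2 h x‖ ≤ 0 + ((Nat.choose 2 0 : ℕ) : ℝ) * ‖iteratedFDeriv ℝ 0 f x‖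
      * ‖iteratedFDeriv ℝ 2 g x‖ + ((Nat.choose 2 1 : ℕ) : ℝ) * ‖iteratedFDeriv ℝ 1 f x‖
      * ‖iteratedFDeriv ℝ 1 g x‖ + ((Nat.choose 2 2 : ℕ) : ℝ) * ‖iteratedFDeriv ℝ 2 f x‖
      * ‖iteratedFDeriv ℝ 0 g x‖ := this
    simp only [norm_iteratedFDeriv_zero, norm_iteratedFDeriv_one, Nat.choose_self,
      Nat.choose_zero_right, Nat.cast_one, Nat.choose_one_right, Nat.cast_ofNat] at h'
    have h0 := mul_le_mul hf.b0 hg.b2 (norm_nonneg _) hA
    have h1 := mul_le_mul hf.b1 hg.b1 (norm_nonneg _) (by positivity)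
    have h2 := mul_le_mul hf.b2 hg.b0 (norm_nonneg _) (by positivity)
    nlinarith [mul_nonneg (mul_nonneg hA hB) hL]

lemma smul {φ : ℂ → ℝ} (hφ : Bd φ x A L) (hg : Bd g x B L) (hL : 0 ≤ L) :
    Bd (fun y => φ y • g y) x (4 * (A * B)) L :=
  bilin hφ hg hL (hφ.smooth.smul hg.smooth) fun _ hn =>
    norm_iteratedFDeriv_smul_le (𝕜 := ℝ) (𝕜' := ℝ) hφ.smooth hg.smooth x (by exact_mod_cast hn)

lemma mul {f g : ℂ → ℝ} (hf : Bd f x A L) (hg : Bd g x B L) (hL : 0 ≤ L) :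
    Bd (fun y => f y * g y) x (4 * (A * B)) L :=
  bilin hf hg hL (hf.smooth.mul hg.smooth) fun _ hn =>
    norm_iteratedFDeriv_mul_le (𝕜 := ℝ) hf.smooth hg.smooth x (by exact_mod_cast hn)

lemma cmul {f g : ℂ → ℂ} (hf : Bd f x A L) (hg : Bd g x B L) (hL : 0 ≤ L) :
    Bd (fun y => f y * g y) x (4 * (A * B)) L :=
  bilin hf hg hL (hf.smooth.mul hg.smooth) fun _ hn =>
    norm_iteratedFDeriv_mul_le (𝕜 := ℝ) hf.smooth hg.smooth x (by exact_mod_cast hn)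

/-- Composition with a real function whose derivatives at `f x` are known. -/
lemma comp {φ φ' φ'' : ℝ → ℝ} {f : ℂ → ℝ} (hf : Bd f x A L)
    (hs : ContDiff ℝ 2 (fun y => φ (f y)))
    (h1 : ∀ y, HasDerivAt φ (φ' (f y)) (f y)) (h2 : HasDerivAt φ' (φ'' (f x)) (f x))
    (hB0 : |φ (f x)| ≤ B) (hB1 : |φ' (f x)| * A ≤ B) (hB2 : |φ'' (f x)| * A ^ 2 ≤ B)
    (hL : 0 ≤ L) : Bd (fun y => φ (f y)) x (2 * B) L := by
  have hA := hf.nonneg
  have hB : 0 ≤ B := (abs_nonneg _).trans hB0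
  have d1 := ContDiff.one_lt_two' hf.smooth
  have d2 := ContDiff.fderiv_diff hf.smooth
  have e1 : fderiv ℝ (fun y => φ (f y)) = fun y => φ' (f y) • fderiv ℝ f y := by
    funext y
    exact ((h1 y).comp_hasFDerivAt y (d1 y).hasFDerivAt).fderiv
  refine ⟨hs, ?_, ?_, ?_⟩
  · rw [Real.norm_eq_abs]; linarith
  · rw [e1]
    simp only [norm_smul, Real.norm_eq_abs]
    have := mul_le_mul_of_nonneg_left hf.b1 (abs_nonneg (φ' (f x)))
    nlinarith [mul_le_mul_of_nonneg_right hB1 hL, mul_nonneg hB hL]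
  · have e2 : HasFDerivAt (fun y => φ' (f y)) (φ'' (f x) • fderiv ℝ f x) x :=
      h2.comp_hasFDerivAt x (d1 x).hasFDerivAt
    have e3 : HasFDerivAt (fun y => φ' (f y) • fderiv ℝ f y)
        (φ' (f x) • fderiv ℝ (fderiv ℝ f) x +
          (φ'' (f x) • fderiv ℝ f x).smulRight (fderiv ℝ f x)) x :=
      e2.smul (d2 x).hasFDerivAt
    rw [norm_iter2, e1, e3.fderiv]
    have hb2 := hf.b2
    rw [norm_iter2] at hb2
    refine (ContinuousLinearMap.opNorm_add_le _ _).trans ?_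
    have j1 : ‖φ' (f x) • fderiv ℝ (fderiv ℝ f) x‖ ≤ |φ' (f x)| * ‖fderiv ℝ (fderiv ℝ f) x‖ :=
      ContinuousLinearMap.opNorm_smul_le _ _
    have j2 : ‖(φ'' (f x) • fderiv ℝ f x).smulRight (fderiv ℝ f x)‖ =
        |φ'' (f x)| * ‖fderiv ℝ f x‖ * ‖fderiv ℝ f x‖ := by
      rw [ContinuousLinearMap.norm_smulRight_apply, norm_smul, Real.norm_eq_abs]
    have i1 := mul_le_mul_of_nonneg_left hb2 (abs_nonneg (φ' (f x)))
    have i2 : ‖fderiv ℝ f x‖ * ‖fderiv ℝ f x‖ ≤ (A * L) * (A * L) :=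
      mul_le_mul hf.b1 hf.b1 (norm_nonneg _) (by positivity)
    have i3 := mul_le_mul_of_nonneg_left i2 (abs_nonneg (φ'' (f x)))
    have i4 := mul_le_mul_of_nonneg_right hB1 (sq_nonneg L)
    have i5 := mul_le_mul_of_nonneg_right hB2 (sq_nonneg L)
    nlinarith

end Bd

end Pool.Agent.H24
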