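import Pool.Agent.H24.Par

/-! Walls, bumps and backgrounds. -/

open Complex Filter Topology
open scoped ContDiff

namespace Pool.Agent.H24

/-- slowly varying functions: derivatives bounded by powers of `N` -/
structure Slow (n : ℂ → ℝ) (x : ℂ) (N C : ℝ) : Prop where
  smooth : ContDiff ℝ 2 n
  b1 : ‖fderiv ℝ n x‖ ≤ C * N
  b2 : ‖iteratedFDeriv ℝ 2 n x‖ ≤ C * N ^ 2

lemma Bd.toSlow {n : ℂ → ℝ} {x : ℂ} {N C : ℝ} (h : Bd n x C N) : Slow n x N C :=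
  ⟨h.smooth, h.b1, h.b2⟩

lemma Slow.neg {n : ℂ → ℝ} {x : ℂ} {N C : ℝ} (h : Slow n x N C) :
    Slow (fun y => - n y) x N C := by
  have e1 : fderiv ℝ (fun y => - n y) x = - fderiv ℝ n x := fderiv_fun_neg
  have e2 : iteratedFDeriv ℝ 2 (fun y => - n y) x = - iteratedFDeriv ℝ 2 n x :=
    iteratedFDeriv_neg_apply
  refine ⟨h.smooth.neg, ?_, ?_⟩
  · rw [e1, norm_neg]; exact h.b1
  · rw [e2, norm_neg]; exact h.b2

lemma Slow.toBd {n : ℂ → ℝ} {x : ℂ} {N C E : ℝ} (h : Slow n x N C) (hC : 0 ≤ C) (hE : 1 ≤ E)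
    (hn : |n x| ≤ C / E) : Bd n x (C / E) (N * E) := by
  refine ⟨h.smooth, hn, h.b1.trans (le_of_eq ?_), h.b2.trans ?_⟩
  · field_simp
  · have : C / E * (N * E) ^ 2 = (C * N ^ 2) * E := by field_simp
    rw [this]
    exact le_mul_of_one_le_right (by positivity) hE

/-- A wall function. -/
noncomputable def wall (N : ℕ) (w : ℝ) (h : Fin 4 → ℂ) (n : ℂ → ℝ) (k : ℝ) (x : ℂ) : ℝ :=
  sg (2 * (EE N w h x * n x) + k)

lemma contDiff_wall {N : ℕ} {w : ℝ} (hw : 0 < w) {h : Fin 4 → ℂ} {n : ℂ → ℝ} {k : ℝ} {m : ℕ∞}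
    (hn : ContDiff ℝ m n) : ContDiff ℝ m (wall N w h n k) :=
  sg_comp_smooth ((contDiff_const.mul ((contDiff_EE N hw h).mul hn)).add contDiff_const)

lemma bd_wall {C : ℝ} (hC : 4 ≤ C) : ∃ K : ℝ, 1 ≤ K ∧ ∀ (N : ℕ) (w : ℝ) (h : Fin 4 → ℂ) (x : ℂ)
    (n : ℂ → ℝ) (k : ℝ), 1 ≤ N → 0 < w → w ≤ 1 → (∀ j, ‖h j‖ ≤ 4) → ‖x‖ ≤ 1 + 2 / N →
    Slow n x N C → |k| ≤ 2 → Bd (wall N w h n k) x K (N * EE N w h x) := by
  obtain ⟨KE, hKE1, hKE⟩ := bd_EE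
  obtain ⟨Ks, hKs1, hKs⟩ := bd_step
  set A : ℝ := 8 * KE * C + 2 with hA
  have hA0 : 0 ≤ A := by positivity
  refine ⟨Ks * (1 + A + A ^ 2), by nlinarith [mul_nonneg hA0 hA0], ?_⟩
  intro N w h x n k hN hw hw1 hh hx hn hk
  have hN' : (1 : ℝ) ≤ N := by exact_mod_cast hN
  have hE := EE_ge (N := N) hw h x
  have hEE := hKE N w h x hN hw hw1 hh hx
  have hL : 0 < (N : ℝ) * EE N w h x := by positivity
  have hs : ContDiff ℝ 2 (fun y => 2 * (EE N w h y * n y) + k) :=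
    (contDiff_const.mul ((contDiff_EE N hw h).mul hn.smooth)).add contDiff_const
  refine hKs (fun y => 2 * (EE N w h y * n y) + k) x A _ hs hL hA0 fun h0 h1 => ?_
  have hk' := abs_le.1 hk
  have hn1 : |n x| ≤ C / EE N w h x := by
    rw [le_div_iff₀ (by linarith)]
    have : |EE N w h x * n x| ≤ 4 := by rw [abs_le]; constructor <;> linarith
    rw [abs_mul, abs_of_pos (by linarith : 0 < EE N w h x)] at this
    linarith
  have hb := hn.toBd (by linarith) (by linarith : (1 : ℝ) ≤ EE N w h x) hn1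
  have hc := (hEE.mul hb hL.le).const_mul 2
  have hd := hc.add (Bd.const (x := x) (A := 2) k hL.le (by rwa [Real.norm_eq_abs]))
  refine hd.mono hL.le (le_of_eq ?_) le_rfl
  rw [abs_two, hA]
  field_simp
  ring

lemma wall_low {N : ℕ} {w : ℝ} (hw : 0 < w) {h : Fin 4 → ℂ} {n : ℂ → ℝ} {k : ℝ} {x : ℂ}
    (hn : ContDiff ℝ 2 n) (hx : 2 * (EE N w h x * n x) + k ≤ 0) {L : ℝ} (hL : 0 < L) :
    Bd (wall N w h n k) x 0 L :=
  bd_step_low ((contDiff_const.mul ((contDiff_EE N hw h).mul hn)).add contDiff_const) hx hL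

lemma wall_flat0 {N : ℕ} {w : ℝ} (hw : 0 < w) {h : Fin 4 → ℂ} {n : ℂ → ℝ} {k : ℝ} {x : ℂ}
    (hn : ContDiff ℝ 2 n) (hx : 2 * (EE N w h x * n x) + k ≤ 0) :
    wall N w h n k x = 0 ∧ HasFDerivAt (wall N w h n k) (0 : ℂ →L[ℝ] ℝ) x :=
  ⟨sg_low hx, fderiv_step_low (((contDiff_const.mul ((contDiff_EE N hw h).mul hn)).add
    contDiff_const).differentiable (by norm_num)) hx⟩

lemma wall_flat1 {N : ℕ} {w : ℝ} (hw : 0 < w) {h : Fin 4 → ℂ} {n : ℂ → ℝ} {k : ℝ} {x : ℂ}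
    (hn : ContDiff ℝ 2 n) (hx : 1 ≤ 2 * (EE N w h x * n x) + k) :
    wall N w h n k x = 1 ∧ HasFDerivAt (wall N w h n k) (0 : ℂ →L[ℝ] ℝ) x :=
  ⟨sg_high hx, fderiv_step_high (((contDiff_const.mul ((contDiff_EE N hw h).mul hn)).add
    contDiff_const).differentiable (by norm_num)) hx⟩

/-- radial coordinate -/
noncomputable def rad (N : ℕ) (c : ℂ) (x : ℂ) : ℝ :=
  inner ℝ (x ^ N) (x ^ N) / ‖c ^ N‖ ^ 2 - 1

/-- spoke coordinate -/
noncomputable def spk (N : ℕ) (c : ℂ) (x : ℂ) : ℝ := N * (x / c).im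

lemma rad_eq (N : ℕ) (c x : ℂ) : rad N c x = (‖x ^ N‖ / ‖c ^ N‖) ^ 2 - 1 := by
  rw [rad, real_inner_self_eq_norm_sq, div_pow]

lemma contDiff_rad (N : ℕ) (c : ℂ) {m : WithTop ℕ∞} : ContDiff ℝ m (rad N c) := by
  have h1 : ContDiff ℝ m (fun x : ℂ => x ^ N) := contDiff_id.pow N
  exact ((h1.inner ℝ h1).div_const _).sub contDiff_const

lemma contDiff_spk (N : ℕ) (c : ℂ) {m : WithTop ℕ∞} : ContDiff ℝ m (spk N c) := by
  have h1 : ContDiff ℝ m (fun x : ℂ => x / c) := contDiff_id.div_const c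
  exact contDiff_const.mul (Complex.imCLM.contDiff.comp h1)

lemma bd_rad {N : ℕ} (hN : 1 ≤ N) {c x : ℂ} (hx : ‖x‖ ≤ 1 + 2 / N) (hc : 1 ≤ ‖c ^ N‖) :
    Bd (rad N c) x 300 N := by
  have h1 := bd_pow hN hx
  have h2 := (h1.inner h1 (by positivity)).const_mul ((‖c ^ N‖ ^ 2)⁻¹)
  have h3 := h2.sub (Bd.const (x := x) (L := (N : ℝ)) (A := 1) (1 : ℝ) (by positivity)
    (by rw [norm_one]))
  have hfun : (fun y : ℂ => (‖c ^ N‖ ^ 2)⁻¹ * inner ℝ (y ^ N) (y ^ N) - 1) = rad N c := by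
    funext y; rw [rad, div_eq_inv_mul]
  rw [hfun] at h3
  refine h3.mono (by positivity) ?_ le_rfl
  have h4 : (1 : ℝ) ≤ ‖c ^ N‖ ^ 2 := by nlinarith
  have h5 : (‖c ^ N‖ ^ 2)⁻¹ ≤ 1 := inv_le_one_of_one_le₀ h4
  have h6 : 0 ≤ (‖c ^ N‖ ^ 2)⁻¹ := by positivity
  rw [abs_of_nonneg h6]
  nlinarith

lemma slow_spk {N : ℕ} {c x : ℂ} (hc : 1 / 2 ≤ ‖c‖) : Slow (spk N c) x N 2 := by
  set Lm : ℂ →L[ℝ] ℝ := (N : ℝ) • (Complex.imCLM.comp
    ((c⁻¹ : ℂ) • (ContinuousLinearMap.id ℝ ℂ))) with hL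
  have hfun : spk N c = fun y => Lm y := by
    funext y
    simp [hL, spk, div_eq_inv_mul]
  have hnorm : ‖Lm‖ ≤ 2 * N := by
    refine ContinuousLinearMap.opNorm_le_bound _ (by positivity) fun y => ?_
    have : Lm y = (N : ℝ) * (c⁻¹ * y).im := by simp [hL]
    rw [this, Real.norm_eq_abs, abs_mul, abs_of_nonneg (by positivity : (0 : ℝ) ≤ N)]
    have h1 := Complex.abs_im_le_norm (c⁻¹ * y)
    rw [norm_mul, norm_inv] at h1
    have h2 : ‖c‖⁻¹ ≤ 2 := by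
      rw [inv_le_comm₀ (by linarith) (by norm_num)]; linarith
    have h3 : ‖c‖⁻¹ * ‖y‖ ≤ 2 * ‖y‖ := mul_le_mul_of_nonneg_right h2 (norm_nonneg _)
    nlinarith [mul_le_mul_of_nonneg_left (h1.trans h3) (by positivity : (0 : ℝ) ≤ N)]
  refine ⟨contDiff_spk N c, ?_, ?_⟩
  · rw [hfun, Lm.fderiv]; exact hnorm
  · have h2 : fderiv ℝ (fun y => Lm y) = fun _ => Lm := by
      funext y; exact Lm.fderiv
    rw [norm_iter2, hfun, h2, fderiv_const_apply]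
    refine le_of_eq_of_le ContinuousLinearMap.opNorm_zero ?_
    positivity

/-- bump in the `Z` plane -/
noncomputable def bmp (N : ℕ) (h : ℂ) (x : ℂ) : ℝ := sg (1 - inner ℝ (x ^ N - h) (x ^ N - h))

lemma contDiff_bmp (N : ℕ) (h : ℂ) {m : ℕ∞} : ContDiff ℝ m (bmp N h) := by
  have h1 : ContDiff ℝ m (fun x : ℂ => x ^ N - h) := (contDiff_id.pow N).sub contDiff_const
  exact sg_comp_smooth (contDiff_const.sub (h1.inner ℝ h1))

lemma bmp_self {N : ℕ} {h x : ℂ} (hx : x ^ N = h) : bmp N h x = 1 := by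
  rw [bmp, hx, sub_self, inner_zero_left, sub_zero]; exact sg_high le_rfl

lemma bmp_zero {N : ℕ} {h x : ℂ} (hx : 1 ≤ ‖x ^ N - h‖) : bmp N h x = 0 := by
  apply sg_low
  rw [real_inner_self_eq_norm_sq]
  nlinarith

lemma bmp_bd_zero {N : ℕ} {h x : ℂ} (hx : 1 ≤ ‖x ^ N - h‖) {L : ℝ} (hL : 0 < L) :
    Bd (bmp N h) x 0 L := by
  have h1 : ContDiff ℝ 2 (fun x : ℂ => x ^ N - h) := (contDiff_id.pow N).sub contDiff_const
  refine bd_step_low (contDiff_const.sub (h1.inner ℝ h1)) ?_ hL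
  rw [real_inner_self_eq_norm_sq]
  nlinarith

lemma bd_bmp : ∃ K : ℝ, 1 ≤ K ∧ ∀ (N : ℕ) (h x : ℂ), 1 ≤ N → ‖h‖ ≤ 4 → ‖x‖ ≤ 1 + 2 / N →
    Bd (bmp N h) x K N := by
  obtain ⟨Ks, hKs1, hKs⟩ := bd_step
  set A : ℝ := 1 + 4 * (12 * 12) with hA
  refine ⟨Ks * (1 + A + A ^ 2), by nlinarith, ?_⟩
  intro N h x hN hh hx
  have hN' : (1 : ℝ) ≤ N := by exact_mod_cast hN
  have hc : Bd (fun y : ℂ => y ^ N - h) x 12 N := by
    have := (bd_pow hN hx).sub (Bd.const (x := x) (L := (N : ℝ)) (A := 4) h (by positivity) hh)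
    exact this.mono (by positivity) (by norm_num) le_rfl
  have h2 := (Bd.const (x := x) (L := (N : ℝ)) (A := 1) (1 : ℝ) (by positivity)
    (by rw [norm_one])).sub (hc.inner hc (by positivity))
  exact hKs _ x A _ h2.smooth (by linarith) (by positivity) fun _ _ => h2

/-- background correction -/
noncomputable def bg (N : ℕ) (a b c : ℂ) (x : ℂ) : ℂ :=
  bmp N (hh N 1) x • a + bmp N (hh N 2) x • b + bmp N (hh N 3) x • c

lemma contDiff_bg (N : ℕ) (a b c : ℂ) {m : ℕ∞} : ContDiff ℝ m (bg N a b c) :=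
  (((contDiff_bmp N _).smul contDiff_const).add ((contDiff_bmp N _).smul contDiff_const)).add
    ((contDiff_bmp N _).smul contDiff_const)

lemma bg_rot {N : ℕ} (hN : 1 ≤ N) (a b c x : ℂ) (k : ℕ) :
    bg N a b c (x / ep N ^ k) = bg N a b c x := by
  simp only [bg, bmp, pow_ep_mul hN]

lemma bd_bg : ∃ K : ℝ, 1 ≤ K ∧ ∀ (N : ℕ) (a b c x : ℂ), Good N → ‖x‖ ≤ 1 + 2 / N →
    Bd (bg N a b c) x (K * (‖a‖ + ‖b‖ + ‖c‖)) N := by
  obtain ⟨K, hK1, hK⟩ := bd_bmp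
  refine ⟨4 * K, by linarith, ?_⟩
  intro N a b c x G hx
  have hN := G.N1
  have h0 : (0 : ℝ) ≤ N := by positivity
  have h1 := (hK N (hh N 1) x hN (G.hh_le 1) hx).smul
    (Bd.const (x := x) (A := ‖a‖) a h0 le_rfl) h0
  have h2 := (hK N (hh N 2) x hN (G.hh_le 2) hx).smul
    (Bd.const (x := x) (A := ‖b‖) b h0 le_rfl) h0
  have h3 := (hK N (hh N 3) x hN (G.hh_le 3) hx).smul
    (Bd.const (x := x) (A := ‖c‖) c h0 le_rfl) h0
  refine ((h1.add h2).add h3).mono h0 (le_of_eq ?_) le_rfl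
  ring

lemma bg_bd_zero {N : ℕ} {a b c x : ℂ} (h1 : 1 ≤ ‖x ^ N - hh N 1‖) (h2 : 1 ≤ ‖x ^ N - hh N 2‖)
    (h3 : 1 ≤ ‖x ^ N - hh N 3‖) {L : ℝ} (hL : 0 < L) : Bd (bg N a b c) x 0 L := by
  have a1 := (bmp_bd_zero h1 hL).smul (Bd.const (x := x) (A := ‖a‖) a hL.le le_rfl) hL.le
  have a2 := (bmp_bd_zero h2 hL).smul (Bd.const (x := x) (A := ‖b‖) b hL.le le_rfl) hL.le
  have a3 := (bmp_bd_zero h3 hL).smul (Bd.const (x := x) (A := ‖c‖) c hL.le le_rfl) hL.le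
  exact ((a1.add a2).add a3).mono hL.le (by simp) le_rfl

namespace Good

variable {N : ℕ} (G : Good N)
include G

lemma bg_p {a b c x : ℂ} (hx : x ^ N = hh N 0) : bg N a b c x = 0 := by
  have h1 : bmp N (hh N 1) x = 0 := bmp_zero (by rw [hx]; exact le_trans (by norm_num) G.sep_1m)
  have h2 : bmp N (hh N 2) x = 0 := bmp_zero (by rw [hx]; exact le_trans (by norm_num) G.sep_1mc)
  have h3 : bmp N (hh N 3) x = 0 := bmp_zero (by rw [hx]; exact le_trans (by norm_num) G.sep_1q)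
  simp [bg, h1, h2, h3]

lemma bg_m {a b c x : ℂ} (hx : x ^ N = hh N 1) : bg N a b c x = a := by
  have h1 : bmp N (hh N 1) x = 1 := bmp_self hx
  have h2 : bmp N (hh N 2) x = 0 := bmp_zero (by rw [hx]; exact le_trans (by norm_num) G.sep_mmc)
  have h3 : bmp N (hh N 3) x = 0 := bmp_zero (by rw [hx]; exact le_trans (by norm_num) G.sep_mq)
  simp [bg, h1, h2, h3]

lemma bg_mc {a b c x : ℂ} (hx : x ^ N = hh N 2) : bg N a b c x = b := by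
  have h1 : bmp N (hh N 1) x = 0 := bmp_zero (by rw [hx, norm_sub_rev]; exact le_trans (by norm_num) G.sep_mmc)
  have h2 : bmp N (hh N 2) x = 1 := bmp_self hx
  have h3 : bmp N (hh N 3) x = 0 := bmp_zero (by rw [hx]; exact le_trans (by norm_num) G.sep_mcq)
  simp [bg, h1, h2, h3]

lemma bg_q {a b c x : ℂ} (hx : x ^ N = hh N 3) : bg N a b c x = c := by
  have h1 : bmp N (hh N 1) x = 0 := bmp_zero (by rw [hx, norm_sub_rev]; exact le_trans (by norm_num) G.sep_mq)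
  have h2 : bmp N (hh N 2) x = 0 := bmp_zero (by rw [hx, norm_sub_rev]; exact le_trans (by norm_num) G.sep_mcq)
  have h3 : bmp N (hh N 3) x = 1 := bmp_self hx
  simp [bg, h1, h2, h3]

/-- away from the belt the background is flat -/
lemma far_inner {x : ℂ} (hx : ‖x ^ N‖ ≤ 1 / 2) :
    1 ≤ ‖x ^ N - hh N 1‖ ∧ 1 ≤ ‖x ^ N - hh N 2‖ ∧ 1 ≤ ‖x ^ N - hh N 3‖ := by
  have h1 := G.norm_Zm.1
  have h2 := G.norm_Zmc
  have h3 := G.norm_Zq.1
  refine ⟨?_, ?_, ?_⟩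
  · have := norm_sub_norm_le (hh N 1) (x ^ N)
    rw [norm_sub_rev]
    change ‖mm N ^ N‖ - ‖x ^ N‖ ≤ _ at this
    linarith
  · have := norm_sub_norm_le (hh N 2) (x ^ N)
    rw [norm_sub_rev]
    change ‖starRingEnd ℂ (mm N) ^ N‖ - ‖x ^ N‖ ≤ _ at this
    linarith
  · have := norm_sub_norm_le (hh N 3) (x ^ N)
    rw [norm_sub_rev]
    change ‖qq N ^ N‖ - ‖x ^ N‖ ≤ _ at this
    linarith

lemma far_outer {x : ℂ} (hx : 3.75 ≤ ‖x ^ N‖) :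
    1 ≤ ‖x ^ N - hh N 1‖ ∧ 1 ≤ ‖x ^ N - hh N 2‖ ∧ 1 ≤ ‖x ^ N - hh N 3‖ := by
  have h1 := G.norm_Zm.2
  have h2 := G.norm_Zmc
  have h3 := G.norm_Zq.2
  refine ⟨?_, ?_, ?_⟩
  · have := norm_sub_norm_le (x ^ N) (hh N 1)
    change ‖x ^ N‖ - ‖mm N ^ N‖ ≤ _ at this
    linarith
  · have := norm_sub_norm_le (x ^ N) (hh N 2)
    change ‖x ^ N‖ - ‖starRingEnd ℂ (mm N) ^ N‖ ≤ _ at this
    linarith
  · have := norm_sub_norm_le (x ^ N) (hh N 3)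
    change ‖x ^ N‖ - ‖qq N ^ N‖ ≤ _ at this
    linarith

end Good

end Pool.Agent.H24
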