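import Pool.Agent.H24.Alg

/-! Size of the coefficients. -/

open Complex Filter Topology
open scoped ContDiff

namespace Pool.Agent.H24

noncomputable def csr (N : ℕ) : ℝ := Real.cos (Real.pi / N)

lemma cs_eq (N : ℕ) : cs N = (csr N : ℂ) := by
  rw [cs, csr, Complex.ofReal_cos, Complex.cos, ea, ← Complex.exp_neg]
  congr 2
  · congr 1; push_cast; ring
  · congr 1; push_cast; ring

lemma c2_eq (N : ℕ) : c2 N = 2 * (csr N : ℂ) ^ 2 - 1 := by
  have he := ea_ne N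
  rw [← cs_eq, cs, c2]
  field_simp
  ring

section real

variable {v r c : ℝ} (h3 : 0 < v) (h4 : v ≤ 1 / 100) (hr : r = 1 + v) (h1 : c ≤ 1)
  (h2 : 1 - 5 * v ^ 2 ≤ c) (h5 : 0.99 ≤ c) (h6 : 0.94 * v ≤ r * c - 1) (h7 : r * c - 1 ≤ v)
include h3 h4 hr h1 h2 h5 h6 h7

lemma realX : |(r ^ 2 * (1 - c ^ 2) - (1 - r * c) ^ 2) / 4 - (1 + r * c) / 2 * (v ^ 2) ^ 2|
    ≤ 3 * v ^ 2 := by
  have hv2 : 0 ≤ v ^ 2 := sq_nonneg v
  have k0 : 1 - c ^ 2 ≤ 10 * v ^ 2 := by nlinarith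
  have k0' : 0 ≤ 1 - c ^ 2 := by nlinarith
  have h10 : r ^ 2 ≤ 1.03 := by rw [hr]; nlinarith
  have k1 : r ^ 2 * (1 - c ^ 2) ≤ 1.03 * (10 * v ^ 2) := mul_le_mul h10 k0 k0' (by norm_num)
  have k1' : 0 ≤ r ^ 2 * (1 - c ^ 2) := mul_nonneg (sq_nonneg _) k0'
  have k2 : (1 - r * c) ^ 2 ≤ v ^ 2 := by
    have : 0 ≤ r * c - 1 := by linarith
    nlinarith
  have k2' : 0 ≤ (1 - r * c) ^ 2 := sq_nonneg _
  have k3 : (1 + r * c) / 2 ≤ 1.01 := by linarith
  have k3' : 0 ≤ (1 + r * c) / 2 := by linarith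
  have hv3 : v ^ 2 ≤ 1 / 10000 := by nlinarith
  have k4 : (v ^ 2) ^ 2 ≤ 1 / 10000 * v ^ 2 := by
    have := mul_le_mul_of_nonneg_left hv3 hv2
    linarith [sq (v ^ 2)]
  have k5 : (1 + r * c) / 2 * (v ^ 2) ^ 2 ≤ 1.01 * (1 / 10000 * v ^ 2) :=
    mul_le_mul k3 k4 (sq_nonneg _) (by norm_num)
  have k5' : 0 ≤ (1 + r * c) / 2 * (v ^ 2) ^ 2 := mul_nonneg k3' (sq_nonneg _)
  rw [abs_le]; constructor <;> linarith

lemma realY : |r * c * ((1 + r * c) / 2) * v ^ 2 - r * (2 * c ^ 2 - 1) * v ^ 2 / (2 * c)|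
    ≤ 3 * v ^ 2 := by
  have hv2 : 0 ≤ v ^ 2 := sq_nonneg v
  have hr0 : 0 < r := by rw [hr]; linarith
  have hr1 : r ≤ 1.01 := by rw [hr]; linarith
  have hc2 : 0 ≤ 2 * c ^ 2 - 1 := by nlinarith
  have hc3 : 2 * c ^ 2 - 1 ≤ 1 := by nlinarith
  have hrc : 0 ≤ r * c := by linarith
  have k3 : (1 + r * c) / 2 ≤ 1.01 := by linarith
  have k3' : 0 ≤ (1 + r * c) / 2 := by linarith
  have k7 : r * c * ((1 + r * c) / 2) * v ^ 2 ≤ 1.1 * v ^ 2 := by
    have h8 : r * c * ((1 + r * c) / 2) ≤ 1.01 * 1.01 :=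
      mul_le_mul (by linarith) k3 k3' (by norm_num)
    exact mul_le_mul_of_nonneg_right (h8.trans (by norm_num)) hv2
  have k7' : 0 ≤ r * c * ((1 + r * c) / 2) * v ^ 2 :=
    mul_nonneg (mul_nonneg hrc k3') hv2
  have k8 : r * (2 * c ^ 2 - 1) * v ^ 2 / (2 * c) ≤ 1.1 * v ^ 2 := by
    rw [div_le_iff₀ (by linarith)]
    have h12 : r * (2 * c ^ 2 - 1) ≤ 1.01 * 1 := mul_le_mul hr1 hc3 hc2 (by norm_num)
    have h13 : r * (2 * c ^ 2 - 1) ≤ 1.1 * (2 * c) := by linarith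
    have h14 := mul_le_mul_of_nonneg_right h13 hv2
    linarith
  have k8' : 0 ≤ r * (2 * c ^ 2 - 1) * v ^ 2 / (2 * c) :=
    div_nonneg (mul_nonneg (mul_nonneg hr0.le hc2) hv2) (by linarith)
  rw [abs_le]; constructor <;> linarith

end real

section
variable {N : ℕ} (G : Good N)
include G

lemma nu_le : (1 : ℝ) / N ≤ 1 / 100 := by
  have := G.Nr
  exact one_div_le_one_div_of_le (by norm_num) this

lemma nu_pos : (0 : ℝ) < 1 / N := by
  have := G.Nr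
  positivity

lemma tt_eq : tt N = (1 / N : ℝ) ^ 2 := by rw [tt, one_div_pow]

lemma csr_le : csr N ≤ 1 := Real.cos_le_one _

lemma csr_ge : 1 - 5 * (1 / N : ℝ) ^ 2 ≤ csr N := by
  have h := Real.one_sub_sq_div_two_le_cos (x := Real.pi / N)
  have hpi := Real.pi_lt_d2
  have hpi0 := Real.pi_pos
  have h2 : (Real.pi / N) ^ 2 = Real.pi ^ 2 * (1 / N : ℝ) ^ 2 := by ring
  rw [h2] at h
  have h3 : Real.pi ^ 2 ≤ 10 := by nlinarith
  rw [csr]
  nlinarith [sq_nonneg (1 / N : ℝ)]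

lemma norm_ea_sub : ‖ea N - 1‖ ≤ 4 * (1 / N : ℝ) := by
  have h : ea N = exp (I * (Real.pi / N : ℝ)) := by
    rw [ea]; congr 1; push_cast; ring
  rw [h]
  refine (Real.norm_exp_I_mul_ofReal_sub_one_le).trans ?_
  have := Real.pi_lt_d2
  have h0 := nu_pos G
  rw [Real.norm_eq_abs, abs_of_nonneg (by have := Real.pi_pos; positivity)]
  have : Real.pi / N = Real.pi * (1 / N) := by ring
  rw [this]
  nlinarith

lemma rho_eq : rho N = 1 + 1 / N := rfl

lemma rho_cs_ne : (rho N : ℂ) - cs N ≠ 0 := by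
  have h1 := csr_le G
  have h2 := nu_pos G
  rw [cs_eq, rho_eq G]
  intro h
  have h3 : ((1 + 1 / N - csr N : ℝ) : ℂ) = 0 := by push_cast at h ⊢; exact h
  have h4 : (1 + 1 / N - csr N : ℝ) = 0 := by exact_mod_cast h3
  linarith

lemma csr_pos : 0.99 ≤ csr N := by
  have h1 := csr_ge G
  have h2 := nu_le G
  have h3 := nu_pos G
  nlinarith

lemma cs_ne : cs N ≠ 0 := by
  rw [cs_eq]
  have := csr_pos G
  exact_mod_cast (by linarith : (0 : ℝ) < csr N).ne'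

lemma norm_BD : ‖BD N - 1‖ ≤ 6 * (1 / N : ℝ) := by
  have h1 := csr_le G
  have h2 := csr_ge G
  have h3 := nu_pos G
  have h4 := nu_le G
  have h5 := csr_pos G
  have hne := rho_cs_ne G
  set v : ℝ := 1 / N with hv
  have e : BD N - 1 = (((v ^ 2 + 2 * csr N * (1 - csr N)) / (2 * (1 + v - csr N)) : ℝ) : ℂ) := by
    rw [BD, c2_eq]
    rw [cs_eq, rho_eq G] at hne ⊢
    push_cast at hne ⊢
    rw [hv]
    push_cast
    field_simp
    ring
  rw [e, Complex.norm_real, Real.norm_eq_abs, abs_of_nonneg (by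
    apply div_nonneg <;> nlinarith)]
  rw [div_le_iff₀ (by linarith)]
  nlinarith [mul_nonneg (by linarith : (0 : ℝ) ≤ csr N) (by linarith : (0 : ℝ) ≤ 1 - csr N)]

lemma den_eq : denU N = (((rho N * csr N - 1) / 2 - (1 + rho N * csr N) / 2 * (tt N) ^ 2 : ℝ) : ℂ)
    + ((-(rho N * (2 * csr N ^ 2 - 1) * tt N / (2 * csr N)) : ℝ) : ℂ) * I := by
  have := cs_ne G
  rw [denU, mr, c2_eq, cs_eq]
  rw [cs_eq] at this
  push_cast
  field_simp
  ring

lemma numden_eq : numU N + denU N =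
    (((rho N ^ 2 * (1 - csr N ^ 2) - (1 - rho N * csr N) ^ 2) / 4
      - (1 + rho N * csr N) / 2 * (tt N) ^ 2 : ℝ) : ℂ)
    + ((rho N * csr N * ((1 + rho N * csr N) / 2) * tt N
      - rho N * (2 * csr N ^ 2 - 1) * tt N / (2 * csr N) : ℝ) : ℂ) * I := by
  have := cs_ne G
  rw [numU, denU, mr, c2_eq, cs_eq]
  rw [cs_eq] at this
  push_cast
  field_simp
  ring

lemma rc_bounds : 0.94 * (1 / N : ℝ) ≤ rho N * csr N - 1 ∧ rho N * csr N - 1 ≤ 1 / N := by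
  have h1 := csr_le G
  have h2 := csr_ge G
  have h3 := nu_pos G
  have h4 := nu_le G
  have h5 := csr_pos G
  rw [rho_eq G]
  set v : ℝ := 1 / N with hv
  constructor
  · nlinarith
  · nlinarith

lemma den_re : 0.45 * (1 / N : ℝ) ≤ (denU N).re := by
  have h1 := csr_le G
  have h2 := csr_ge G
  have h3 := nu_pos G
  have h4 := nu_le G
  have h5 := csr_pos G
  have h6 := rc_bounds G
  have h7 : tt N = (1 / N : ℝ) ^ 2 := tt_eq G
  have e : (denU N).re = (rho N * csr N - 1) / 2 - (1 + rho N * csr N) / 2 * (tt N) ^ 2 := by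
    rw [den_eq G]
    simp only [Complex.add_re, Complex.ofReal_re, Complex.re_ofReal_mul, Complex.I_re, mul_zero,
      add_zero]
  rw [e, h7]
  set v : ℝ := 1 / N with hv
  have h8 : v ^ 2 ≤ 1 / 100 * v := by nlinarith
  have h9 : (v ^ 2) ^ 2 ≤ 1 / 1000 * v := by nlinarith [sq_nonneg v]
  have h10 : 0 ≤ 1 + rho N * csr N := by linarith
  have h11 : (1 + rho N * csr N) / 2 ≤ 2 := by linarith
  nlinarith [mul_le_mul h11 h9 (by positivity) (by norm_num)]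

lemma den_ne : denU N ≠ 0 := by
  intro h
  have h1 := den_re G
  have h2 := nu_pos G
  rw [h, Complex.zero_re] at h1
  linarith

lemma norm_cU : ‖cU N + 1‖ ≤ 14 * (1 / N : ℝ) := by
  have h1 := csr_le G
  have h2 := csr_ge G
  have h3 := nu_pos G
  have h4 := nu_le G
  have h5 := csr_pos G
  have h6 := rc_bounds G
  have h7 : tt N = (1 / N : ℝ) ^ 2 := tt_eq G
  have h8 := den_re G
  have h9 := den_ne G
  have e : cU N + 1 = (numU N + denU N) / denU N := by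
    rw [cU]; field_simp
  have hden : 0.45 * (1 / N : ℝ) ≤ ‖denU N‖ := h8.trans ((le_abs_self _).trans (abs_re_le_norm _))
  rw [e, norm_div, div_le_iff₀ (by linarith [mul_pos (by norm_num : (0 : ℝ) < 0.45) h3])]
  have hrho := rho_eq G
  set v : ℝ := 1 / N with hv
  set r := rho N with hr
  set c := csr N with hc
  have key : ‖numU N + denU N‖ ≤ 6 * v ^ 2 := by
    rw [numden_eq G]
    refine (norm_add_le _ _).trans ?_
    rw [norm_mul, Complex.norm_I, mul_one, Complex.norm_real, Complex.norm_real, h7,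
      Real.norm_eq_abs, Real.norm_eq_abs]
    have kX := realX h3 h4 hrho h1 h2 h5 h6.1 h6.2
    have kY := realY h3 h4 hrho h1 h2 h5 h6.1 h6.2
    linarith
  calc ‖numU N + denU N‖ ≤ 6 * v ^ 2 := key
    _ ≤ 14 * v * (0.45 * v) := by nlinarith
    _ ≤ 14 * v * ‖denU N‖ := mul_le_mul_of_nonneg_left hden (by linarith)

lemma norm_cU_le : ‖cU N‖ ≤ 1.2 := by
  have h := norm_cU G
  have h4 := nu_le G
  have : cU N = (cU N + 1) - 1 := by ring
  rw [this]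
  refine (norm_sub_le _ _).trans ?_
  rw [norm_one]
  linarith

lemma norm_small : ‖I * cU N * rho N * tt N / (2 * cs N)‖ ≤ (1 / N : ℝ) ^ 2 := by
  have h := norm_cU_le G
  have h4 := nu_le G
  have h3 := nu_pos G
  have h5 := csr_pos G
  have h7 : tt N = (1 / N : ℝ) ^ 2 := tt_eq G
  rw [norm_div, norm_mul, norm_mul, norm_mul, norm_mul, Complex.norm_I, one_mul, cs_eq,
    Complex.norm_real, Complex.norm_real, Complex.norm_real, Complex.norm_ofNat, h7,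
    Real.norm_eq_abs, Real.norm_eq_abs, Real.norm_eq_abs, abs_of_pos (rho_pos N),
    abs_of_nonneg (sq_nonneg _), abs_of_pos (by linarith), rho_eq G]
  set v : ℝ := 1 / N with hv
  rw [div_le_iff₀ (by linarith)]
  have h8 : ‖cU N‖ * (1 + v) ≤ 1.2 * 1.01 := mul_le_mul h (by linarith) (by linarith) (by norm_num)
  nlinarith [sq_nonneg v]

lemma norm_GU : ‖GU N - 1 / 2‖ ≤ 2 * (1 / N : ℝ) := by
  have h4 := nu_le G
  have h3 := nu_pos G
  have hs := norm_small G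
  have e : GU N - 1 / 2 = (((rho N ^ 2 - 1) / 2 : ℝ) : ℂ) - I * cU N * rho N * tt N / (2 * cs N) := by
    rw [GU]; push_cast; ring
  rw [e]
  refine (norm_sub_le _ _).trans ?_
  have h6 : (rho N ^ 2 - 1) / 2 ≤ 1.5 * (1 / N : ℝ) := by rw [rho_eq G]; nlinarith
  have h7 : 0 ≤ (rho N ^ 2 - 1) / 2 := by rw [rho_eq G]; nlinarith
  rw [Complex.norm_real, Real.norm_eq_abs, abs_of_nonneg h7]
  nlinarith

lemma norm_kap_sub : ‖kap N - 1‖ ≤ (1 / N : ℝ) ^ 2 := by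
  have e : kap N - 1 = - (I * tt N) := by rw [kap]; ring
  rw [e, norm_neg, norm_mul, Complex.norm_I, one_mul, Complex.norm_real, tt_eq G, Real.norm_eq_abs,
    abs_of_nonneg (sq_nonneg _)]

lemma norm_kapc_sub : ‖kapc N - 1‖ ≤ (1 / N : ℝ) ^ 2 := by
  have e : kapc N - 1 = (I * tt N) := by rw [kapc]; ring
  rw [e, norm_mul, Complex.norm_I, one_mul, Complex.norm_real, tt_eq G, Real.norm_eq_abs,
    abs_of_nonneg (sq_nonneg _)]

lemma norm_cs_sub : ‖cs N - 1‖ ≤ 5 * (1 / N : ℝ) ^ 2 := by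
  have h1 := csr_le G
  have h2 := csr_ge G
  have e : cs N - 1 = ((csr N - 1 : ℝ) : ℂ) := by rw [cs_eq]; push_cast; ring
  rw [e, Complex.norm_real, Real.norm_eq_abs, abs_of_nonpos (by linarith)]
  linarith

lemma norm_bD : ‖ea N * (BD N + cs N) / 2 - 1‖ ≤ 20 * (1 / N : ℝ) := by
  have h1 := norm_BD G
  have h2 := norm_cs_sub G
  have h3 := norm_ea_sub G
  have h4 := nu_le G
  have h5 := nu_pos G
  have e : ea N * (BD N + cs N) / 2 - 1 = ea N * ((BD N - 1) + (cs N - 1)) / 2 + (ea N - 1) := by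
    ring
  rw [e]
  refine (norm_add_le _ _).trans ?_
  rw [norm_div, norm_mul, norm_ea, one_mul, Complex.norm_ofNat]
  have := norm_add_le (BD N - 1) (cs N - 1)
  nlinarith

lemma norm_cD : ‖ea N ^ 3 * (BD N - cs N) / 2‖ ≤ 20 * (1 / N : ℝ) := by
  have h1 := norm_BD G
  have h2 := norm_cs_sub G
  have h4 := nu_le G
  have h5 := nu_pos G
  have e : ea N ^ 3 * (BD N - cs N) / 2 = ea N ^ 3 * ((BD N - 1) - (cs N - 1)) / 2 := by
    ring
  rw [e]
  rw [norm_div, norm_mul, norm_pow, norm_ea, one_pow, one_mul, Complex.norm_ofNat]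
  have := norm_sub_le (BD N - 1) (cs N - 1)
  nlinarith

lemma aux_U {k : ℂ} (hk : ‖k - 1‖ ≤ (1 / N : ℝ) ^ 2) :
    ‖GU N * cs N * k / rho N - 1 / 2‖ ≤ 5 * (1 / N : ℝ) ∧ ‖cU N * k / 2 + 1 / 2‖ ≤ 8 * (1 / N : ℝ) := by
  have h1 := norm_GU G
  have h2 := norm_cs_sub G
  have h3 := norm_cU G
  have h4 := nu_le G
  have h5 := nu_pos G
  have h6 := csr_pos G
  have h7 := csr_le G
  have hr : (rho N : ℂ) ≠ 0 := by exact_mod_cast (rho_pos N).ne'
  have hr1 : ‖(rho N : ℂ)‖ = 1 + 1 / N := by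
    rw [Complex.norm_real, Real.norm_eq_abs, abs_of_pos (rho_pos N), rho_eq G]
  have hr2 : ‖((rho N : ℂ))⁻¹‖ ≤ 1 := by
    rw [norm_inv, hr1]
    exact inv_le_one_of_one_le₀ (by linarith)
  have hcs : ‖cs N‖ ≤ 1 := by
    rw [cs_eq, Complex.norm_real, Real.norm_eq_abs, abs_of_pos (by linarith)]; exact h7
  set v : ℝ := 1 / N with hv
  have hv2 : v ^ 2 ≤ 1 / 100 * v := by nlinarith
  have hk1 : ‖k‖ ≤ 1.01 := by
    have : k = (k - 1) + 1 := by ring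
    rw [this]
    refine (norm_add_le _ _).trans ?_
    rw [norm_one]
    nlinarith
  constructor
  · have e : GU N * cs N * k / rho N - 1 / 2 = (GU N - 1 / 2) * (cs N * k * (rho N : ℂ)⁻¹)
        + 1 / 2 * ((cs N * k - rho N) * (rho N : ℂ)⁻¹) := by
      field_simp
      ring
    rw [e]
    refine (norm_add_le _ _).trans ?_
    rw [norm_mul, norm_mul, norm_mul, norm_mul, norm_mul]
    have a1 : ‖cs N‖ * ‖k‖ * ‖((rho N : ℂ))⁻¹‖ ≤ 1 * 1.01 * 1 :=
      mul_le_mul (mul_le_mul hcs hk1 (norm_nonneg _) (by norm_num)) hr2 (norm_nonneg _)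
        (by norm_num)
    have a2 : ‖GU N - 1 / 2‖ * (‖cs N‖ * ‖k‖ * ‖((rho N : ℂ))⁻¹‖) ≤ (2 * v) * (1 * 1.01 * 1) :=
      mul_le_mul h1 a1 (by positivity) (by positivity)
    have e2 : cs N * k - rho N = cs N * (k - 1) + (cs N - 1) - ((v : ℝ) : ℂ) := by
      rw [rho_eq G, hv]; push_cast; ring
    have a3 : ‖cs N * k - rho N‖ ≤ v ^ 2 + 5 * v ^ 2 + v := by
      rw [e2]
      refine (norm_sub_le _ _).trans ?_
      rw [Complex.norm_real, Real.norm_eq_abs, abs_of_pos h5]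
      have b1 := norm_add_le (cs N * (k - 1)) (cs N - 1)
      rw [norm_mul] at b1
      have b2 : ‖cs N‖ * ‖k - 1‖ ≤ 1 * v ^ 2 := mul_le_mul hcs hk (norm_nonneg _) (by norm_num)
      linarith
    have a4 : ‖cs N * k - rho N‖ * ‖((rho N : ℂ))⁻¹‖ ≤ (v ^ 2 + 5 * v ^ 2 + v) * 1 :=
      mul_le_mul a3 hr2 (norm_nonneg _) (by positivity)
    have a5 : ‖(1 / 2 : ℂ)‖ = 1 / 2 := by norm_num
    rw [a5]
    nlinarith
  · have e : cU N * k / 2 + 1 / 2 = 1 / 2 * ((cU N + 1) * k - (k - 1)) := by ring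
    rw [e, norm_mul]
    have a5 : ‖(1 / 2 : ℂ)‖ = 1 / 2 := by norm_num
    rw [a5]
    have a6 := norm_sub_le ((cU N + 1) * k) (k - 1)
    rw [norm_mul] at a6
    have a7 : ‖cU N + 1‖ * ‖k‖ ≤ 14 * v * 1.01 := mul_le_mul h3 hk1 (norm_nonneg _) (by positivity)
    nlinarith

lemma norm_bU : ‖GU N * cs N * kap N / rho N - cU N * kap N / 2 - 1‖ ≤ 20 * (1 / N : ℝ) := by
  obtain ⟨h1, h2⟩ := aux_U G (norm_kap_sub G)
  have h5 := nu_pos G
  have e : GU N * cs N * kap N / rho N - cU N * kap N / 2 - 1 =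
    (GU N * cs N * kap N / rho N - 1 / 2) - (cU N * kap N / 2 + 1 / 2) := by ring
  rw [e]
  refine (norm_sub_le _ _).trans ?_
  linarith

lemma norm_cU' : ‖-(GU N * cs N * kapc N / rho N) - cU N * kapc N / 2‖ ≤ 20 * (1 / N : ℝ) := by
  obtain ⟨h1, h2⟩ := aux_U G (norm_kapc_sub G)
  have h5 := nu_pos G
  have e : -(GU N * cs N * kapc N / rho N) - cU N * kapc N / 2 =
    -(GU N * cs N * kapc N / rho N - 1 / 2) - (cU N * kapc N / 2 + 1 / 2) := by ring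
  rw [e]
  refine (norm_sub_le _ _).trans ?_
  rw [norm_neg]
  linarith

lemma norm_one_sub_qt : ‖1 - qt N‖ ≤ 5 * (1 / N : ℝ) := by
  have h3 := norm_ea_sub G
  have h5 := nu_pos G
  have e : 1 - qt N = -(ea N - 1) - ((1 / N : ℝ) : ℂ) * ea N := by
    rw [qt, rho_eq G]; push_cast; ring
  rw [e]
  refine (norm_sub_le _ _).trans ?_
  rw [norm_neg, norm_mul, norm_ea, mul_one, Complex.norm_real, Real.norm_eq_abs, abs_of_pos h5]
  linarith

lemma norm_gm : ‖gm N‖ ≤ 8 * (1 / N : ℝ) ^ 2 := by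
  have h1 := norm_one_sub_qt G
  have h4 := nu_le G
  have h5 := nu_pos G
  have hm0 := G.mm_ne
  have hq : 1 + qt N ≠ 0 := by
    intro h; apply hm0; rw [mm, h, zero_div]
  have e : gm N = ((1 - qt N) / (1 + qt N)) ^ 2 := by
    rw [gm, hm, mm]
    have : (rho N : ℂ) ^ 2 * ea N ^ 2 = qt N ^ 2 := by rw [qt]; ring
    rw [this]
    field_simp
    ring
  have h6 : 1.9 ≤ ‖1 + qt N‖ := by
    have : (1 + qt N) = 2 - (1 - qt N) := by ring
    rw [this]
    have := norm_sub_norm_le (2 : ℂ) (1 - qt N)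
    rw [Complex.norm_ofNat] at this
    linarith
  rw [e, norm_pow, norm_div]
  have h7 : ‖1 - qt N‖ / ‖1 + qt N‖ ≤ 2.7 * (1 / N : ℝ) := by
    rw [div_le_iff₀ (by linarith)]
    nlinarith
  have h8 : 0 ≤ ‖1 - qt N‖ / ‖1 + qt N‖ := by positivity
  nlinarith

lemma norm_gq : ‖gq N‖ ≤ 8 * (1 / N : ℝ) ^ 2 := by
  have h4 := nu_le G
  have h5 := nu_pos G
  have hs := norm_small G
  have hk := norm_kap_sub G
  have hr : (rho N : ℂ) ≠ 0 := by exact_mod_cast (rho_pos N).ne'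
  have hc := cs_ne G
  have hr1 : ‖(rho N : ℂ)‖ = 1 + 1 / N := by
    rw [Complex.norm_real, Real.norm_eq_abs, abs_of_pos (rho_pos N), rho_eq G]
  have hr2 : ‖((rho N : ℂ))⁻¹‖ ≤ 1 := by
    rw [norm_inv, hr1]
    exact inv_le_one_of_one_le₀ (by linarith)
  have e : gq N = (kap N - 1) * (kap N + 1) -
      2 * kap N ^ 2 * ((I * cU N * rho N * tt N / (2 * cs N)) * ((rho N : ℂ)⁻¹ * (rho N : ℂ)⁻¹)) := by
    rw [gq, GU]
    field_simp
    ring
  set v : ℝ := 1 / N with hv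
  have hk1 : ‖kap N‖ ≤ 1.01 := by
    have : kap N = (kap N - 1) + 1 := by ring
    rw [this]
    refine (norm_add_le _ _).trans ?_
    rw [norm_one]
    nlinarith
  rw [e]
  refine (norm_sub_le _ _).trans ?_
  rw [norm_mul, norm_mul, norm_mul, norm_mul, norm_mul, norm_pow, Complex.norm_ofNat]
  have a1 : ‖kap N + 1‖ ≤ 2.01 := by
    refine (norm_add_le _ _).trans ?_
    rw [norm_one]; linarith
  have a2 : ‖kap N - 1‖ * ‖kap N + 1‖ ≤ v ^ 2 * 2.01 :=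
    mul_le_mul hk a1 (norm_nonneg _) (by positivity)
  have a3 : ‖((rho N : ℂ))⁻¹‖ * ‖((rho N : ℂ))⁻¹‖ ≤ 1 * 1 :=
    mul_le_mul hr2 hr2 (norm_nonneg _) (by norm_num)
  have a4 : ‖I * cU N * rho N * tt N / (2 * cs N)‖ * (‖((rho N : ℂ))⁻¹‖ * ‖((rho N : ℂ))⁻¹‖)
      ≤ v ^ 2 * (1 * 1) := mul_le_mul hs a3 (by positivity) (by positivity)
  have a5 : 2 * ‖kap N‖ ^ 2 ≤ 2.1 := by nlinarith [norm_nonneg (kap N)]
  have a6 := mul_le_mul a5 a4 (by positivity) (by norm_num)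
  nlinarith

end

end Pool.Agent.H24
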