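import Pool.Agent.H24.Rigid

/-! Points near a hinge circle are near one of the `N` rotated hinges. -/

open Complex Filter Topology
open scoped ContDiff

namespace Pool.Agent.H24

/-- logarithms of the hinges -/
noncomputable def zh (N : ℕ) : Fin 4 → ℂ := ![0, zm N, starRingEnd ℂ (zm N), zq N]

lemma exp_zh {N : ℕ} (G : Good N) (j : Fin 4) : exp (zh N j) = hh N j := by
  fin_cases j
  · change exp 0 = 1
    exact Complex.exp_zero
  · exact G.exp_zm
  · exact G.exp_zmc
  · exact G.exp_zq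

lemma zh_re {N : ℕ} (G : Good N) (j : Fin 4) : 0 ≤ (zh N j).re ∧ (zh N j).re ≤ 1.1 := by
  have h1 := abs_le.1 G.zm_re
  have h2 := abs_le.1 G.zq_re
  fin_cases j
  · change 0 ≤ (0 : ℂ).re ∧ (0 : ℂ).re ≤ 1.1
    simp; norm_num
  · change 0 ≤ (zm N).re ∧ (zm N).re ≤ 1.1
    constructor <;> linarith
  · change 0 ≤ (starRingEnd ℂ (zm N)).re ∧ (starRingEnd ℂ (zm N)).re ≤ 1.1
    rw [Complex.conj_re]
    constructor <;> linarith
  · change 0 ≤ (zq N).re ∧ (zq N).re ≤ 1.1
    constructor <;> linarith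

/-- the hinges -/
noncomputable def hc (N : ℕ) (j : Fin 4) : ℂ := exp (zh N j / N)

lemma norm_pow_le_of {N : ℕ} (G : Good N) {x : ℂ} (hx : ‖x‖ ≤ 1 + 2 / N) : ‖x ^ N‖ ≤ 8 := by
  have hN := G.Nr
  rw [norm_pow]
  have h1 : ‖x‖ ≤ Real.exp (2 / N) := by
    have := Real.add_one_le_exp (2 / (N : ℝ)); linarith
  have h2 : ‖x‖ ^ N ≤ Real.exp (2 / N) ^ N := pow_le_pow_left₀ (norm_nonneg _) h1 N
  rw [← Real.exp_nat_mul, mul_div_cancel₀ _ (by linarith : (N : ℝ) ≠ 0)] at h2
  have h3 : Real.exp 2 ≤ 8 := by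
    have e : Real.exp 2 = Real.exp 1 * Real.exp 1 := by rw [← Real.exp_add]; norm_num
    rw [e]
    have h := Real.exp_one_lt_d9
    have h0 := Real.exp_pos 1
    nlinarith
  linarith

lemma hinge_cover {N : ℕ} (G : Good N) (j : Fin 4) {x : ℂ} (h1 : 1 / 2 ≤ ‖x ^ N‖)
    (h2 : ‖x‖ ≤ 1 + 2 / N) :
    ∃ k < N, N * ‖x - ep N ^ k * hc N j‖ ≤ 400 * ‖x ^ N - hh N j‖ := by
  have hN := G.Nr
  have hN0 := G.N0
  have hx0 : x ≠ 0 := by
    rintro rfl
    rw [zero_pow (by have := G.hN; omega), norm_zero] at h1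
    linarith
  set ζ : ℂ := zh N j - Real.pi * I with hζ
  obtain ⟨k, hk, a1, a2⟩ := sector_exists (N := N) (le_trans (by norm_num) G.hN)
    (exp_ne_zero (ζ / N)) hx0
  have hne : x / ep N ^ k / exp (ζ / N) ≠ 0 :=
    div_ne_zero (div_ne_zero hx0 (pow_ne_zero _ (ep_ne_zero N))) (exp_ne_zero _)
  obtain ⟨z, e1, e2⟩ := coord_of_arg G (ζ := ζ) rfl hne
  refine ⟨k, hk, ?_⟩
  have hzN : exp z = x ^ N := by rw [← exp_div_pow G z, e1, pow_ep_mul G.N1]
  have hpi := Real.pi_gt_d2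
  have hpi2 := Real.pi_lt_d2
  have him : |(z - zh N j).im| ≤ 5 := by
    have e3 : (z - zh N j).im = N * arg (x / ep N ^ k / exp (ζ / N)) - Real.pi := by
      rw [Complex.sub_im, e2, hζ, Complex.sub_im]
      simp
      ring
    rw [e3, abs_le]
    rw [lt_div_iff₀ (by linarith)] at a2
    have : 0 ≤ (N : ℝ) * arg (x / ep N ^ k / exp (ζ / N)) := by positivity
    constructor <;> nlinarith
  have hzr := zh_re G j
  have hre : |(z - zh N j).re| ≤ 3 := by
    have b1 : ‖exp z‖ ≤ 8 := by rw [hzN]; exact norm_pow_le_of G h2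
    have b2 : 1 / 2 ≤ ‖exp z‖ := by rw [hzN]; exact h1
    rw [Complex.norm_exp] at b1 b2
    have c1 : -1 ≤ z.re := by
      by_contra hcon
      push Not at hcon
      have h3 := Real.exp_lt_exp.2 hcon
      have h4 : Real.exp (-1) ≤ 1 / 2 := by
        rw [Real.exp_neg]
        have h := Real.exp_one_gt_d9
        have h5 : (Real.exp 1)⁻¹ ≤ 2⁻¹ := inv_anti₀ (by norm_num) (by linarith)
        linarith
      linarith
    have c2 : z.re ≤ 2.5 := by
      by_contra hcon
      push Not at hcon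
      have h3 := Real.exp_lt_exp.2 hcon
      have h4 : 8 ≤ Real.exp 2.5 := by
        have e : Real.exp 2.5 = Real.exp 1 * Real.exp 1 * Real.exp 0.5 := by
          rw [← Real.exp_add, ← Real.exp_add]; norm_num
        have h := Real.exp_one_gt_d9
        have h5 := Real.add_one_le_exp (0.5 : ℝ)
        rw [e]
        have h6 : 7 ≤ Real.exp 1 * Real.exp 1 := by nlinarith
        nlinarith
      linarith
    rw [Complex.sub_re, abs_le]
    constructor <;> linarith
  have h3 := dist_le_pow (N := N) (le_trans (by norm_num) G.hN) hre him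
  have h4 : 1 ≤ ‖exp (zh N j)‖ := by rw [Complex.norm_exp]; exact Real.one_le_exp hzr.1
  have h5 : ‖exp (zh N j / N)‖ ≤ 4 := by
    rw [Complex.norm_exp, Complex.div_natCast_re]
    have h6 : (zh N j).re / N ≤ 1 := by
      rw [div_le_one (by linarith)]; linarith
    have := Real.exp_le_exp.2 h6
    have h7 := Real.exp_one_lt_d9
    linarith
  have h6 : 100 * ‖exp (zh N j / N)‖ / ‖exp (zh N j)‖ ≤ 400 := by
    rw [div_le_iff₀ (by linarith)]; nlinarith
  rw [exp_zh G, e1, hzN] at h3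
  rw [exp_zh G] at h6
  have hne2 : ep N ^ k ≠ 0 := pow_ne_zero _ (ep_ne_zero N)
  have e : x - ep N ^ k * hc N j = ep N ^ k * (x / ep N ^ k - hc N j) := by field_simp
  rw [e, norm_mul, norm_ep_pow, one_mul]
  exact h3.trans (mul_le_mul_of_nonneg_right h6 (norm_nonneg _))

lemma norm_hc {N : ℕ} (G : Good N) (j : Fin 4) : ‖hc N j‖ ≤ 2 := by
  have hN := G.Nr
  rw [hc, Complex.norm_exp, Complex.div_natCast_re]
  have hzr := zh_re G j
  have h6 : (zh N j).re / N ≤ 0.5 := by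
    rw [div_le_iff₀ (by linarith)]; linarith
  have := Real.exp_le_exp.2 h6
  have h7 := Real.exp_one_lt_d9
  have h8 : Real.exp 0.5 * Real.exp 0.5 = Real.exp 1 := by rw [← Real.exp_add]; norm_num
  have h9 := Real.exp_pos (0.5 : ℝ)
  nlinarith

end Pool.Agent.H24
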