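import Pool.Agent.H24.IntKin

/-! The device: a voided disc which is soft under compression and stiff under shear. -/

open Complex Filter Topology MeasureTheory
open scoped ContDiff Pointwise

namespace Pool.Agent.H24

structure Device (η : ℝ) (V0 : Set ℂ) (v ψ : ℂ → ℂ) : Prop where
  openV : IsOpen V0
  sub : V0 ⊆ Metric.ball 0 1
  rot : ∀ x ∈ V0, ep 3 * x ∈ V0
  sv : ContDiff ℝ ∞ v
  sψ : ContDiff ℝ ∞ ψ
  v0 : ∀ x, 1 ≤ ‖x‖ → v x = 0
  ψ0 : ∀ x, 1 ≤ ‖x‖ → ψ x = 0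
  aff : ∀ x ∈ V0, fderiv ℝ (fderiv ℝ (fun y => y ^ 2 / 2 + ψ y)) x = 0
  kin : ∫ x in Metric.closedBall 0 1 \ V0, dn (fderiv ℝ v x) ≤ η
  stat : ∫ x in Metric.closedBall 0 1, ‖fderiv ℝ (fderiv ℝ ψ) x‖ ^ 2 ≤ η

lemma ep_three {m : ℕ} (hm : 1 ≤ m) : ep (3 * m) ^ m = ep 3 := by
  rw [ep, ep, ← Complex.exp_nat_mul]
  have : (m : ℂ) ≠ 0 := by
    have : m ≠ 0 := by omega
    exact_mod_cast this
  congr 1
  push_cast
  field_simp

lemma vv_outer {N : ℕ} (G : Good N) {x : ℂ} (hx : 1 + 2 / N ≤ ‖x‖) : vv N x = 0 := by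
  have hN := G.Nr
  have h4 := norm_pow_ge G hx
  have hw := tt_pos G
  have hZq := G.norm_Zq
  have a1 := (wa_one G (x := x) (by linarith)).1
  have hE0 : 0 < EN N x := EN_pos G x
  have hr : 0 ≤ rad N (qq N) x := by
    rw [rad_eq]
    have : 1 ≤ ‖x ^ N‖ / ‖qq N ^ N‖ := by
      rw [one_le_div (by linarith)]; linarith
    nlinarith
  have b1 := (wall_flat1 (h := hh N) (k := 2) (x := x) hw (contDiff_rad N (qq N)) (by
    have : 0 ≤ EE N (tt N) (hh N) x * rad N (qq N) x := mul_nonneg hE0.le hr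
    linarith)).1
  have b2 : wb N x = 1 := b1
  rw [vv, a1, b2]
  simp

lemma VN_sub {N : ℕ} (G : Good N) {x : ℂ} (hx : x ∈ VN N) : ‖x‖ < 1 + 2 / N := by
  by_contra hcon
  push Not at hcon
  have h1 := norm_pow_ge G hcon
  have h2 := (VN_pow G hx).2
  linarith

/-- rescaling -/
lemma fderiv_scale {F : Type*} [NormedAddCommGroup F] [NormedSpace ℝ F] (f : ℂ → F) {R : ℝ}
    (hR : R ≠ 0) (x : ℂ) :
    fderiv ℝ (fun z => R⁻¹ • f (R • z)) x = fderiv ℝ f (R • x) := by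
  have h1 : fderiv ℝ (fun z => f (R • z)) x = R • fderiv ℝ f (R • x) := fderiv_comp_smul R
  have h2 : fderiv ℝ (R⁻¹ • fun z => f (R • z)) x = R⁻¹ • fderiv ℝ (fun z => f (R • z)) x :=
    congrFun (fderiv_const_smul_field (𝕜 := ℝ) (f := fun z => f (R • z)) R⁻¹) x
  have h3 : (R⁻¹ • fun z => f (R • z)) = fun z => R⁻¹ • f (R • z) := rfl
  rw [h3] at h2
  rw [h2, h1, smul_smul, inv_mul_cancel₀ hR, one_smul]

lemma fderiv2_scale {F : Type*} [NormedAddCommGroup F] [NormedSpace ℝ F] (f : ℂ → F) {R : ℝ}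
    (hR : R ≠ 0) (x : ℂ) :
    fderiv ℝ (fderiv ℝ (fun z => (R ^ 2)⁻¹ • f (R • z))) x = fderiv ℝ (fderiv ℝ f) (R • x) := by
  have h1 : fderiv ℝ (fun z => (R ^ 2)⁻¹ • f (R • z)) = fun z => R⁻¹ • fderiv ℝ f (R • z) := by
    funext z
    have h := fderiv_scale f hR z
    have h3 : (fun z => (R ^ 2)⁻¹ • f (R • z)) = R⁻¹ • fun z => R⁻¹ • f (R • z) := by
      funext z
      simp only [Pi.smul_apply, smul_smul]
      congr 1
      field_simp
    rw [h3, fderiv_const_smul_field, Pi.smul_apply, h]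
  rw [h1]
  exact fderiv_scale (fderiv ℝ f) hR x

lemma int_scale (g : ℂ → ℝ) (hg : ∀ x, 0 ≤ g x) {R : ℝ} (hR : 1 ≤ R) (s : Set ℂ)
    {η : ℝ} (h : ∫ x in R • s, g x ≤ η) : ∫ x in s, g (R • x) ≤ η := by
  have hR0 : R ≠ 0 := by linarith
  rw [Measure.setIntegral_comp_smul volume g s hR0]
  rw [Complex.finrank_real_complex, smul_eq_mul]
  have h1 : |(R ^ 2)⁻¹| ≤ 1 := by
    rw [abs_of_pos (by positivity)]
    exact inv_le_one_of_one_le₀ (one_le_pow₀ hR)
  have h2 : 0 ≤ ∫ x in R • s, g x := integral_nonneg hg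
  calc |(R ^ 2)⁻¹| * ∫ x in R • s, g x ≤ 1 * ∫ x in R • s, g x := by gcongr
    _ ≤ η := by rw [one_mul]; exact h

lemma device_of_good {N : ℕ} (G : Good N) (hN3 : ∃ m, N = 3 * m) {η : ℝ}
    (h1 : ∫ x in Metric.closedBall (0 : ℂ) (1 + 2 / N), ‖iteratedFDeriv ℝ 2 (psi N) x‖ ^ 2 ≤ η)
    (h2 : ∫ x in Metric.closedBall (0 : ℂ) (1 + 2 / N) \ VN N, dn (fderiv ℝ (vv N) x) ≤ η) :
    ∃ V0 v ψ, Device η V0 v ψ := by
  have hN := G.Nr
  set R : ℝ := 1 + 2 / N with hR
  have hR1 : 1 ≤ R := by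
    have : 0 < 2 / (N : ℝ) := by positivity
    linarith
  have hR0 : R ≠ 0 := by linarith
  have hRp : 0 < R := by linarith
  have hsm : ∀ x : ℂ, ‖R • x‖ = R * ‖x‖ := fun x => by
    rw [norm_smul, Real.norm_of_nonneg hRp.le]
  have hball : R • Metric.closedBall (0 : ℂ) 1 = Metric.closedBall 0 R := by
    rw [_root_.smul_closedBall R 0 zero_le_one, smul_zero, Real.norm_of_nonneg hRp.le, mul_one]
  refine ⟨{z | R • z ∈ VN N}, fun z => R⁻¹ • vv N (R • z), fun z => (R ^ 2)⁻¹ • psi N (R • z),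
    ?_, ?_, ?_, ?_, ?_, ?_, ?_, ?_, ?_, ?_⟩
  · exact (isOpen_VN G).preimage (continuous_const_smul R)
  · intro z hz
    have := VN_sub G hz
    rw [hsm] at this
    rw [mem_ball_zero_iff]
    by_contra hcon
    push Not at hcon
    nlinarith
  · rintro x hx
    obtain ⟨m, rfl⟩ := hN3
    have hm : 1 ≤ m := by
      by_contra hcon
      have : m = 0 := by omega
      subst this
      simp at hN
      linarith
    have := VN_rot G m hx
    rw [ep_three hm] at this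
    show R • (ep 3 * x) ∈ VN (3 * m)
    rw [← mul_smul_comm]
    exact this
  · exact (((contDiff_vv G (m := ⊤)).comp (contDiff_const_smul R)).const_smul R⁻¹)
  · exact (((contDiff_psi G (m := ⊤)).comp (contDiff_const_smul R)).const_smul (R ^ 2)⁻¹)
  · intro x hx
    have : vv N (R • x) = 0 := vv_outer G (by rw [hsm]; nlinarith)
    show R⁻¹ • vv N (R • x) = 0
    rw [this, smul_zero]
  · intro x hx
    have : psi N (R • x) = 0 := by
      have := (psi_bd_zero G (x := R • x) (Or.inr (by rw [hsm]; nlinarith)) one_pos).b0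
      exact norm_le_zero_iff.1 this
    show (R ^ 2)⁻¹ • psi N (R • x) = 0
    rw [this, smul_zero]
  · intro x hx
    have e : (fun y : ℂ => y ^ 2 / 2 + (R ^ 2)⁻¹ • psi N (R • y)) =
        fun y => (R ^ 2)⁻¹ • (fun z : ℂ => z ^ 2 / 2 + psi N z) (R • y) := by
      funext y
      simp only [Complex.real_smul]
      push_cast
      have : (R : ℂ) ≠ 0 := by exact_mod_cast hR0
      field_simp
    rw [e, fderiv2_scale (fun z : ℂ => z ^ 2 / 2 + psi N z) hR0]
    have h3 := psi_affine G hx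
    have h4 : ‖iteratedFDeriv ℝ 2 (fun z : ℂ => z ^ 2 / 2 + psi N z) (R • x)‖ = 0 := by
      rw [h3, norm_zero]
    rw [norm_iter2] at h4
    have := norm_nonneg (fderiv ℝ (fderiv ℝ fun z : ℂ => z ^ 2 / 2 + psi N z) (R • x))
    exact (ContinuousLinearMap.opNorm_zero_iff _).1 h4
  · have e : ∀ x, dn (fderiv ℝ (fun z => R⁻¹ • vv N (R • z)) x) =
        (fun y => dn (fderiv ℝ (vv N) y)) (R • x) := by
      intro x
      rw [fderiv_scale _ hR0]
    simp only [e]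
    apply int_scale _ (fun x => dn_nonneg _) hR1
    have hs : R • (Metric.closedBall (0 : ℂ) 1 \ {z | R • z ∈ VN N}) =
        Metric.closedBall 0 R \ VN N := by
      rw [Set.smul_set_sdiff₀ hR0, hball]
      congr 1
      ext x
      rw [Set.mem_smul_set_iff_inv_smul_mem₀ hR0]
      show R • R⁻¹ • x ∈ VN N ↔ _
      rw [smul_smul, mul_inv_cancel₀ hR0, one_smul]
    rw [hs]
    exact h2
  · have e : ∀ x, ‖fderiv ℝ (fderiv ℝ (fun z => (R ^ 2)⁻¹ • psi N (R • z))) x‖ ^ 2 =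
        (fun y => ‖iteratedFDeriv ℝ 2 (psi N) y‖ ^ 2) (R • x) := by
      intro x
      rw [fderiv2_scale _ hR0]
      show _ = ‖iteratedFDeriv ℝ 2 (psi N) (R • x)‖ ^ 2
      rw [norm_iter2]
    simp only [e]
    apply int_scale (fun y => ‖iteratedFDeriv ℝ 2 (psi N) y‖ ^ 2) (fun x => by positivity) hR1
    rw [hball]
    exact h1

theorem exists_device {η : ℝ} (hη : 0 < η) : ∃ V0 v ψ, Device η V0 v ψ := by
  obtain ⟨C1, hC1, h1⟩ := int_psi
  obtain ⟨C2, hC2, h2⟩ := int_kin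
  have ht : Tendsto (fun m : ℕ => 3 * m) atTop atTop :=
    tendsto_atTop_mono (fun m => by show m ≤ 3 * m; omega) tendsto_id
  have l1 : Tendsto (fun N : ℕ => C1 * (Real.log N / N)) atTop (𝓝 0) := by
    have := (Real.isLittleO_log_id_atTop.tendsto_div_nhds_zero).comp tendsto_natCast_atTop_atTop
    have h := this.const_mul C1
    rw [mul_zero] at h
    exact h
  have l2 : Tendsto (fun N : ℕ => C2 * (1 / (N : ℝ))) atTop (𝓝 0) := by
    have := tendsto_one_div_atTop_nhds_zero_nat (𝕜 := ℝ)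
    have h := this.const_mul C2
    rw [mul_zero] at h
    exact h
  have ev := ht.eventually ((eventually_good.and ((l1.eventually (ge_mem_nhds hη)).and
    (l2.eventually (ge_mem_nhds hη)))))
  obtain ⟨m, G, h3, h4⟩ := ev.exists
  exact device_of_good G ⟨m, rfl⟩ ((h1 _ G).trans h3) ((h2 _ G).trans h4)

end Pool.Agent.H24
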