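import Pool.Agent.H24.Per

/-! Vanishing of integrals of derivatives. -/

open Complex Filter Topology MeasureTheory
open scoped ContDiff Pointwise

namespace Pool.Agent.H24

variable {b : Module.Basis (Fin 2) ℝ ℂ}

lemma int_cell_shift {F : Type*} [NormedAddCommGroup F] [NormedSpace ℝ F] {G : ℂ → F}
    (hG : ∀ i x, G (x + b i) = G x) (e : ℂ) :
    ∫ x in ZSpan.fundamentalDomain b, G (x + e) = ∫ x in ZSpan.fundamentalDomain b, G x := by
  have h2 := ZSpan.isAddFundamentalDomain' b volume
  have : Countable (Submodule.span ℤ (Set.range b)).toAddSubgroup :=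
    inferInstanceAs (Countable (Submodule.span ℤ (Set.range b)))
  have h1 : IsAddFundamentalDomain (Submodule.span ℤ (Set.range b)).toAddSubgroup
      (e +ᵥ ZSpan.fundamentalDomain b) volume := h2.vadd_of_comm (G' := ℂ) e
  have h3 : ∫ x in e +ᵥ ZSpan.fundamentalDomain b, G x = ∫ x in ZSpan.fundamentalDomain b, G x := by
    refine h1.setIntegral_eq h2 fun l x => ?_
    show G ((l : ℂ) + x) = G x
    rw [add_comm]
    exact per_lattice hG l.2 x
  rw [← h3]
  have h4 := (measurePreserving_add_right (volume : Measure ℂ) e).setIntegral_preimage_emb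
    (measurableEmbedding_addRight e) G (e +ᵥ ZSpan.fundamentalDomain b)
  rw [← h4]
  congr 2
  ext x
  rw [Set.mem_preimage, Set.mem_vadd_set_iff_neg_vadd_mem, vadd_eq_add]
  simp

lemma per_bound {F : Type*} [NormedAddCommGroup F] {G : ℂ → F}
    (hG : ∀ i x, G (x + b i) = G x) (hc : Continuous G) : ∃ C : ℝ, ∀ x, ‖G x‖ ≤ C := by
  have hb : Bornology.IsBounded (ZSpan.fundamentalDomain b) := ZSpan.fundamentalDomain_isBounded b
  obtain ⟨C, hC⟩ := hb.isCompact_closure.exists_bound_of_continuousOn hc.continuousOn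
  refine ⟨C, fun x => ?_⟩
  have h1 := hC (ZSpan.fract b x) (subset_closure (ZSpan.fract_mem_fundamentalDomain b x))
  have h2 : G (ZSpan.fract b x + ZSpan.floor b x) = G (ZSpan.fract b x) :=
    per_lattice hG (ZSpan.floor b x).2 _
  rw [← h2, ZSpan.fract_apply, sub_add_cancel] at h1
  exact h1

/-- the mean of a derivative of a periodic field vanishes -/
lemma int_cell_fderiv (u : PF b) (e : ℂ) :
    ∫ x in ZSpan.fundamentalDomain b, fderiv ℝ (u : ℂ → ℂ) x e = 0 := by
  have hcD : Continuous fun x => fderiv ℝ (u : ℂ → ℂ) x e := (PF_cont u).clm_apply continuous_const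
  have hcu : Continuous (u : ℂ → ℂ) := (PF_diff u).continuous
  obtain ⟨C, hC⟩ := per_bound (b := b) (G := fun x => fderiv ℝ (u : ℂ → ℂ) x e)
    (fun i x => by simp only [fderiv_per]) hcD
  have int_of : ∀ {f : ℂ → ℂ}, Continuous f → IntegrableOn f (ZSpan.fundamentalDomain b) := by
    intro f hf
    have := integrableOn_cell b hf Set.univ
    rwa [Set.inter_univ] at this
  have hline : ∀ s : ℝ, Continuous fun x : ℂ => x + s • e := fun s => by fun_prop
  have key := hasDerivAt_integral_of_dominated_loc_of_deriv_le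
    (μ := volume.restrict (ZSpan.fundamentalDomain b)) (x₀ := (0 : ℝ)) (s := Set.univ)
    (F := fun s x => (u : ℂ → ℂ) (x + s • e)) (F' := fun s x => fderiv ℝ (u : ℂ → ℂ) (x + s • e) e)
    (bound := fun _ => C) Filter.univ_mem
    (Filter.Eventually.of_forall fun s => (hcu.comp (hline s)).aestronglyMeasurable)
    (int_of (hcu.comp (hline 0))) (hcD.comp (hline 0)).aestronglyMeasurable
    (Filter.Eventually.of_forall fun x s _ => hC _)
    (by
      have := integrableOn_cell b (continuous_const : Continuous fun _ : ℂ => C) Set.univ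
      rwa [Set.inter_univ] at this)
    (Filter.Eventually.of_forall fun x s _ => by
      have h1 : HasFDerivAt (u : ℂ → ℂ) (fderiv ℝ (u : ℂ → ℂ) (x + s • e)) (x + s • e) :=
        (PF_diff u _).hasFDerivAt
      have h2 : HasDerivAt (fun s : ℝ => x + s • e) e s := by
        have := ((hasDerivAt_id s).smul_const e).const_add x
        simpa using this
      exact h1.comp_hasDerivAt s h2)
  have h1 := key.2
  have h2 : (fun s : ℝ => ∫ x in ZSpan.fundamentalDomain b, (u : ℂ → ℂ) (x + s • e)) =
      fun _ => ∫ x in ZSpan.fundamentalDomain b, (u : ℂ → ℂ) x := by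
    funext s
    exact int_cell_shift u.2.2 (s • e)
  rw [h2] at h1
  have h3 := h1.unique (hasDerivAt_const (0 : ℝ) _)
  simpa using h3

/-- integral of a derivative of a compactly supported function -/
lemma int_fderiv_zero {f : ℂ → ℝ} (hs : ContDiff ℝ 1 f) (hc : HasCompactSupport f) (e : ℂ) :
    ∫ x, fderiv ℝ f x e = 0 := by
  have hd : Differentiable ℝ f := hs.differentiable (by norm_num)
  have hcd : Continuous fun x => fderiv ℝ f x e :=
    (hs.continuous_fderiv (by norm_num)).clm_apply continuous_const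
  have hcs : HasCompactSupport fun x => fderiv ℝ f x e := hc.fderiv_apply ℝ e
  have h := integral_mul_fderiv_eq_neg_fderiv_mul_of_integrable (μ := (volume : Measure ℂ))
    (f := fun _ : ℂ => (1 : ℝ)) (g := f) (v := e) (by simp)
    (by simpa using hcd.integrable_of_hasCompactSupport hcs)
    (by simpa using hs.continuous.integrable_of_hasCompactSupport hc)
    (fun x _ => differentiableAt_const _) (fun x _ => hd x)
  simpa using h

/-- second derivative of a real function -/
noncomputable def hs2 (φ : ℂ → ℝ) (x e f : ℂ) : ℝ := fderiv ℝ (fun y => fderiv ℝ φ y e) x f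

lemma hs2_eq {φ : ℂ → ℝ} (hφ : ContDiff ℝ ∞ φ) (x e f : ℂ) :
    hs2 φ x e f = fderiv ℝ (fderiv ℝ φ) x f e := by
  have hd : Differentiable ℝ (fderiv ℝ φ) :=
    (hφ.fderiv_right (m := 1) (by norm_cast)).differentiable (by norm_num)
  unfold hs2
  have h := (hd x).hasFDerivAt.clm_apply (hasFDerivAt_const e x)
  have h' : HasFDerivAt (fun y => fderiv ℝ φ y e) _ x := h
  rw [h'.fderiv]
  simp

lemma hs2_symm {φ : ℂ → ℝ} (hφ : ContDiff ℝ ∞ φ) (x e f : ℂ) : hs2 φ x e f = hs2 φ x f e := by
  rw [hs2_eq hφ, hs2_eq hφ]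
  have : IsSymmSndFDerivAt ℝ φ x := (hφ.contDiffAt (x := x)).isSymmSndFDerivAt (by
    rw [minSmoothness_of_isRCLikeNormedField]; norm_cast)
  exact this.eq f e

lemma contDiff_fderiv_apply {φ : ℂ → ℝ} (hφ : ContDiff ℝ ∞ φ) (e : ℂ) :
    ContDiff ℝ ∞ (fun y => fderiv ℝ φ y e) :=
  (hφ.fderiv_right (m := ∞) (by norm_cast)).clm_apply contDiff_const

lemma continuous_hs2 {φ : ℂ → ℝ} (hφ : ContDiff ℝ ∞ φ) (e f : ℂ) :
    Continuous fun x => hs2 φ x e f :=
  (contDiff_fderiv_apply (contDiff_fderiv_apply hφ e) f).continuous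

lemma cs_hs2 {φ : ℂ → ℝ} (hc : HasCompactSupport φ) (e f : ℂ) :
    HasCompactSupport fun x => hs2 φ x e f := (hc.fderiv_apply ℝ e).fderiv_apply ℝ f

lemma int_hs2 {φ : ℂ → ℝ} (hφ : ContDiff ℝ ∞ φ) (hc : HasCompactSupport φ) (e f : ℂ) :
    ∫ x, hs2 φ x e f = 0 :=
  int_fderiv_zero ((contDiff_fderiv_apply hφ e).of_le (by norm_cast)) (hc.fderiv_apply ℝ e) f

/-- null Lagrangian -/
lemma int_null {φ w : ℂ → ℝ} (hφ : ContDiff ℝ ∞ φ) (hc : HasCompactSupport φ)
    (hw : ContDiff ℝ ∞ w) (e f : ℂ) :
    ∫ x, (hs2 φ x e e * fderiv ℝ w x f - hs2 φ x e f * fderiv ℝ w x e) = 0 := by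
  have h1 := contDiff_fderiv_apply hφ e
  have h2 := contDiff_fderiv_apply hw e
  have h3 := contDiff_fderiv_apply hw f
  have c1 := hc.fderiv_apply ℝ e
  have d1 : Differentiable ℝ fun y => fderiv ℝ φ y e := h1.differentiable (by simp)
  have d2 : Differentiable ℝ fun y => fderiv ℝ w y e := h2.differentiable (by simp)
  have d3 : Differentiable ℝ fun y => fderiv ℝ w y f := h3.differentiable (by simp)
  have k1 := int_fderiv_zero ((h1.mul h3).of_le (by norm_cast)) (c1.mul_right) e
  have k2 := int_fderiv_zero ((h1.mul h2).of_le (by norm_cast)) (c1.mul_right) f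
  have e1 : ∀ x, fderiv ℝ (fun y => fderiv ℝ φ y e * fderiv ℝ w y f) x e =
      hs2 φ x e e * fderiv ℝ w x f + fderiv ℝ φ x e * hs2 w x f e := by
    intro x
    rw [fderiv_fun_mul (d1 x) (d3 x)]
    simp only [add_apply, smul_apply, smul_eq_mul, hs2]
    ring
  have e2 : ∀ x, fderiv ℝ (fun y => fderiv ℝ φ y e * fderiv ℝ w y e) x f =
      hs2 φ x e f * fderiv ℝ w x e + fderiv ℝ φ x e * hs2 w x e f := by
    intro x
    rw [fderiv_fun_mul (d1 x) (d2 x)]
    simp only [add_apply, smul_apply, smul_eq_mul, hs2]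
    ring
  have i1 : Integrable fun x => hs2 φ x e e * fderiv ℝ w x f + fderiv ℝ φ x e * hs2 w x f e := by
    refine Continuous.integrable_of_hasCompactSupport ?_ ?_
    · exact ((continuous_hs2 hφ e e).mul h3.continuous).add
        (h1.continuous.mul (continuous_hs2 hw f e))
    · exact ((cs_hs2 hc e e).mul_right).add (c1.mul_right)
  have i2 : Integrable fun x => hs2 φ x e f * fderiv ℝ w x e + fderiv ℝ φ x e * hs2 w x e f := by
    refine Continuous.integrable_of_hasCompactSupport ?_ ?_
    · exact ((continuous_hs2 hφ e f).mul h2.continuous).add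
        (h1.continuous.mul (continuous_hs2 hw e f))
    · exact ((cs_hs2 hc e f).mul_right).add (c1.mul_right)
  rw [integral_congr_ae (Filter.Eventually.of_forall e1)] at k1
  rw [integral_congr_ae (Filter.Eventually.of_forall e2)] at k2
  have := integral_sub i1 i2
  rw [k1, k2, sub_zero] at this
  rw [← this]
  refine integral_congr_ae (Filter.Eventually.of_forall fun x => ?_)
  show _ = _ - _
  rw [hs2_symm hw x f e]
  ring

end Pool.Agent.H24
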