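import Mathlib

/-! Infima of positive semidefinite quadratic forms over a subspace. -/

namespace Pool.Agent.H24

section

variable {X : Type*} [AddCommGroup X] [Module ℝ X] (B : X →ₗ[ℝ] X →ₗ[ℝ] ℝ)
  (U : Submodule ℝ X)

/-- infimum of the energy over a coset -/
noncomputable def QW (x : X) : ℝ := ⨅ u : U, B (x + u) (x + u)

variable {B} {U} (hs : ∀ x y, B x y = B y x) (hp : ∀ x, 0 ≤ B x x)

include hp in
lemma QW_bdd (x : X) : BddBelow (Set.range fun u : U => B (x + u) (x + u)) :=
  ⟨0, by rintro _ ⟨u, rfl⟩; exact hp _⟩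

include hp in
lemma QW_nonneg (x : X) : 0 ≤ QW B U x := le_ciInf fun _ => hp _

include hp in
lemma QW_le (x : X) {u : X} (hu : u ∈ U) : QW B U x ≤ B (x + u) (x + u) :=
  ciInf_le (QW_bdd hp x) (⟨u, hu⟩ : U)

include hs hp in
lemma QW_near {x u : X} (hu : u ∈ U) {ε : ℝ} (h : B (x + u) (x + u) ≤ QW B U x + ε ^ 2)
    {w : X} (hw : w ∈ U) : B (x + u) w ^ 2 ≤ ε ^ 2 * B w w := by
  have key : ∀ s : ℝ, 0 ≤ B w w * (s * s) + (2 * B (x + u) w) * s + ε ^ 2 := by
    intro s
    have h1 := QW_le hp x (U.add_mem hu (U.smul_mem s hw))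
    have h2 : B (x + (u + s • w)) (x + (u + s • w)) =
        B (x + u) (x + u) + 2 * B (x + u) w * s + B w w * (s * s) := by
      rw [← add_assoc]
      simp only [map_add, map_smul, LinearMap.add_apply, LinearMap.smul_apply, smul_eq_mul]
      rw [hs w x, hs w u]
      ring
    rw [h2] at h1
    linarith
  have := discrim_le_zero key
  rw [discrim] at this
  linarith

include hs hp in
/-- The infimum is approximated by a quadratic form. -/
lemma QW_approx (e0 e1 e2 : X) {ε : ℝ} (hε : 0 < ε) : ∃ f0 f1 f2 : X,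
    ∀ a b c : ℝ, |QW B U (a • e0 + b • e1 + c • e2) -
      B (a • f0 + b • f1 + c • f2) (a • f0 + b • f1 + c • f2)| ≤ ε ^ 2 * (|a| + |b| + |c|) ^ 2 := by
  have ex : ∀ x : X, ∃ u ∈ U, B (x + u) (x + u) ≤ QW B U x + ε ^ 2 := by
    intro x
    have h1 : QW B U x < QW B U x + ε ^ 2 := by have : 0 < ε ^ 2 := by positivity
                                                linarith
    obtain ⟨u, hu⟩ := exists_lt_of_ciInf_lt h1
    exact ⟨u, u.2, hu.le⟩
  obtain ⟨u0, m0, h0⟩ := ex e0
  obtain ⟨u1, m1, h1⟩ := ex e1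
  obtain ⟨u2, m2, h2⟩ := ex e2
  refine ⟨e0 + u0, e1 + u1, e2 + u2, fun a b c => ?_⟩
  set F := a • (e0 + u0) + b • (e1 + u1) + c • (e2 + u2) with hF
  set E := a • e0 + b • e1 + c • e2 with hE
  set u' := a • u0 + b • u1 + c • u2 with hu'
  have hu'm : u' ∈ U := U.add_mem (U.add_mem (U.smul_mem _ m0) (U.smul_mem _ m1)) (U.smul_mem _ m2)
  have hFE : F = E + u' := by rw [hF, hE, hu']; simp only [smul_add]; abel
  have upper : QW B U E ≤ B F F := by rw [hFE]; exact QW_le hp E hu'm
  have lower : B F F - ε ^ 2 * (|a| + |b| + |c|) ^ 2 ≤ QW B U E := by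
    refine le_ciInf fun w => ?_
    set z : X := w - u' with hz
    have hzm : z ∈ U := U.sub_mem w.2 hu'm
    have e1' : E + (w : X) = F + z := by rw [hFE, hz]; abel
    rw [e1']
    have k0 := QW_near hs hp m0 h0 hzm
    have k1 := QW_near hs hp m1 h1 hzm
    have k2 := QW_near hs hp m2 h2 hzm
    have hz0 := hp z
    set r := Real.sqrt (B z z) with hr
    have hr2 : B z z = r ^ 2 := (Real.sq_sqrt hz0).symm
    have hr0 : 0 ≤ r := Real.sqrt_nonneg _
    have abs_of : ∀ y : ℝ, y ^ 2 ≤ ε ^ 2 * B z z → |y| ≤ ε * r := by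
      intro y hy
      rw [hr2, ← mul_pow] at hy
      exact abs_le_of_sq_le_sq hy (by positivity)
    have l0 := abs_of _ k0
    have l1 := abs_of _ k1
    have l2 := abs_of _ k2
    have exp1 : B (F + z) (F + z) = B F F + 2 * (a * B (e0 + u0) z + b * B (e1 + u1) z +
        c * B (e2 + u2) z) + r ^ 2 := by
      have t1 : B F z = a * B (e0 + u0) z + b * B (e1 + u1) z + c * B (e2 + u2) z := by
        rw [hF]
        simp only [map_add, map_smul, LinearMap.add_apply, LinearMap.smul_apply, smul_eq_mul]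
      rw [← t1, ← hr2]
      simp only [map_add, LinearMap.add_apply]
      rw [hs z F]
      ring
    rw [exp1]
    have m0' : |a * B (e0 + u0) z| ≤ |a| * (ε * r) := by
      rw [abs_mul]; exact mul_le_mul_of_nonneg_left l0 (abs_nonneg _)
    have m1' : |b * B (e1 + u1) z| ≤ |b| * (ε * r) := by
      rw [abs_mul]; exact mul_le_mul_of_nonneg_left l1 (abs_nonneg _)
    have m2' : |c * B (e2 + u2) z| ≤ |c| * (ε * r) := by
      rw [abs_mul]; exact mul_le_mul_of_nonneg_left l2 (abs_nonneg _)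
    have n0 := (abs_le.1 m0').1
    have n1 := (abs_le.1 m1').1
    have n2 := (abs_le.1 m2').1
    nlinarith [sq_nonneg (r - ε * (|a| + |b| + |c|))]
  rw [abs_le]
  constructor
  · linarith
  · have : 0 ≤ ε ^ 2 * (|a| + |b| + |c|) ^ 2 := by positivity
    linarith

end

end Pool.Agent.H24
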