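import Pool.Agent.H24.Device
import Pool.Agent.H24.Quad

/-! Effective energies and isotropy. -/

open Complex Filter Topology MeasureTheory
open scoped ContDiff Pointwise

namespace Pool.Agent.H24

/-- smooth periodic fields -/
def PF (b : Module.Basis (Fin 2) ℝ ℂ) : Submodule ℝ (ℂ → ℂ) where
  carrier := {u | ContDiff ℝ ∞ u ∧ ∀ i x, u (x + b i) = u x}
  zero_mem' := ⟨contDiff_const, fun _ _ => rfl⟩
  add_mem' := fun {f g} hf hg => ⟨hf.1.add hg.1, fun i x => by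
    show f _ + g _ = f x + g x
    rw [hf.2, hg.2]⟩
  smul_mem' := fun c f hf => ⟨hf.1.const_smul c, fun i x => by
    show c • f _ = c • f x
    rw [hf.2]⟩

noncomputable def trD (D : ℂ →L[ℝ] ℂ) : ℝ := ((D 1).re + (D I).im) / 2
noncomputable def devD (D : ℂ →L[ℝ] ℂ) : ℂ := (D 1 + I * D I) / 2

lemma trD_add (D E : ℂ →L[ℝ] ℂ) : trD (D + E) = trD D + trD E := by
  unfold trD; simp only [add_apply, Complex.add_re, Complex.add_im]; ring

lemma trD_smul (c : ℝ) (D : ℂ →L[ℝ] ℂ) : trD (c • D) = c * trD D := by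
  unfold trD
  simp only [smul_apply, Complex.real_smul, Complex.re_ofReal_mul,
    Complex.im_ofReal_mul]
  ring

lemma devD_add (D E : ℂ →L[ℝ] ℂ) : devD (D + E) = devD D + devD E := by
  unfold devD; simp only [add_apply]; ring

lemma devD_smul (c : ℝ) (D : ℂ →L[ℝ] ℂ) : devD (c • D) = c • devD D := by
  unfold devD
  simp only [smul_apply, Complex.real_smul]
  ring

lemma continuous_trD : Continuous trD := by
  unfold trD
  have h1 : Continuous fun D : ℂ →L[ℝ] ℂ => D 1 := by fun_prop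
  have h2 : Continuous fun D : ℂ →L[ℝ] ℂ => D I := by fun_prop
  have h3 : Continuous fun D : ℂ →L[ℝ] ℂ => (D 1).re := Complex.continuous_re.comp h1
  have h4 : Continuous fun D : ℂ →L[ℝ] ℂ => (D I).im := Complex.continuous_im.comp h2
  fun_prop

lemma continuous_devD : Continuous devD := by
  unfold devD
  have h1 : Continuous fun D : ℂ →L[ℝ] ℂ => D 1 := by fun_prop
  have h2 : Continuous fun D : ℂ →L[ℝ] ℂ => D I := by fun_prop
  fun_prop

/-- isotropic quadratic form with bulk modulus `κ`, shear modulus `μ`, in terms of the mean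
strain `t` and the deviatoric strain `v` -/
noncomputable def qf (κ μ t : ℝ) (v : ℂ) : ℝ := 4 * κ * t ^ 2 + 4 * μ * ‖v‖ ^ 2

variable (κ μ : ℝ) (b : Module.Basis (Fin 2) ℝ ℂ) (Ω : Set ℂ)

/-- average energy of the field `(t, v) + e(u)` over the solid part of a period cell -/
noncomputable def Aen (t : ℝ) (v : ℂ) (u : ℂ → ℂ) : ℝ :=
  (volume.real (ZSpan.fundamentalDomain b))⁻¹ *
    ∫ x in ZSpan.fundamentalDomain b ∩ Ω, qf κ μ (t + trD (fderiv ℝ u x)) (v + devD (fderiv ℝ u x))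

/-- effective energy -/
noncomputable def Wef (t : ℝ) (v : ℂ) : ℝ := ⨅ u : PF b, Aen κ μ b Ω t v u

variable {κ μ Ω}

lemma integrableOn_cell {F : Type*} [NormedAddCommGroup F] {f : ℂ → F} (hf : Continuous f)
    (S : Set ℂ) : IntegrableOn f (ZSpan.fundamentalDomain b ∩ S) := by
  have hb : Bornology.IsBounded (ZSpan.fundamentalDomain b) := ZSpan.fundamentalDomain_isBounded b
  have hc : IsCompact (closure (ZSpan.fundamentalDomain b)) := hb.isCompact_closure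
  exact (hf.continuousOn.integrableOn_compact hc).mono_set
    (Set.inter_subset_left.trans subset_closure)

/-- state space: mean strain, deviatoric strain, periodic field -/
abbrev XX := ℝ × ℂ × PF b

variable {b}

noncomputable def eT (ξ : XX b) (x : ℂ) : ℝ := ξ.1 + trD (fderiv ℝ (ξ.2.2 : ℂ → ℂ) x)
noncomputable def eV (ξ : XX b) (x : ℂ) : ℂ := ξ.2.1 + devD (fderiv ℝ (ξ.2.2 : ℂ → ℂ) x)

lemma PF_diff (u : PF b) : Differentiable ℝ (u : ℂ → ℂ) := u.2.1.differentiable (by simp)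

lemma PF_cont (u : PF b) : Continuous (fderiv ℝ (u : ℂ → ℂ)) := u.2.1.continuous_fderiv (by simp)

lemma fderiv_PF_add (u w : PF b) (x : ℂ) :
    fderiv ℝ ((u + w : PF b) : ℂ → ℂ) x = fderiv ℝ (u : ℂ → ℂ) x + fderiv ℝ (w : ℂ → ℂ) x :=
  fderiv_add (PF_diff u x) (PF_diff w x)

lemma fderiv_PF_smul (c : ℝ) (u : PF b) (x : ℂ) :
    fderiv ℝ ((c • u : PF b) : ℂ → ℂ) x = c • fderiv ℝ (u : ℂ → ℂ) x :=
  fderiv_const_smul (PF_diff u x) c

lemma eT_add (ξ η : XX b) (x : ℂ) : eT (ξ + η) x = eT ξ x + eT η x := by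
  unfold eT
  rw [Prod.fst_add, Prod.snd_add, Prod.snd_add, fderiv_PF_add, trD_add]; ring

lemma eT_smul (c : ℝ) (ξ : XX b) (x : ℂ) : eT (c • ξ) x = c * eT ξ x := by
  unfold eT
  rw [Prod.smul_fst, Prod.smul_snd, Prod.smul_snd, fderiv_PF_smul, trD_smul, smul_eq_mul]; ring

lemma eV_add (ξ η : XX b) (x : ℂ) : eV (ξ + η) x = eV ξ x + eV η x := by
  unfold eV
  rw [Prod.snd_add, Prod.fst_add, Prod.snd_add, fderiv_PF_add, devD_add]; ring

lemma eV_smul (c : ℝ) (ξ : XX b) (x : ℂ) : eV (c • ξ) x = c • eV ξ x := by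
  unfold eV
  rw [Prod.smul_snd, Prod.smul_fst, Prod.smul_snd, fderiv_PF_smul, devD_smul, smul_add]

lemma eT_cont (ξ : XX b) : Continuous (eT ξ) :=
  continuous_const.add (continuous_trD.comp (PF_cont _))

lemma eV_cont (ξ : XX b) : Continuous (eV ξ) :=
  continuous_const.add (continuous_devD.comp (PF_cont _))

/-- the integrand -/
noncomputable def bI (κ μ : ℝ) (ξ η : XX b) (x : ℂ) : ℝ :=
  4 * κ * (eT ξ x * eT η x) + 4 * μ * inner ℝ (eV ξ x) (eV η x)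

lemma bI_cont (κ μ : ℝ) (ξ η : XX b) : Continuous (bI κ μ ξ η) := by
  have h1 := eT_cont ξ
  have h2 := eT_cont η
  have h3 := eV_cont ξ
  have h4 := eV_cont η
  unfold bI
  exact (continuous_const.mul (h1.mul h2)).add (continuous_const.mul (h3.inner h4))

/-- the energy as a bilinear form -/
noncomputable def BF (κ μ : ℝ) (b : Module.Basis (Fin 2) ℝ ℂ) (Ω : Set ℂ) :
    XX b →ₗ[ℝ] XX b →ₗ[ℝ] ℝ :=
  LinearMap.mk₂ ℝ (fun ξ η => (volume.real (ZSpan.fundamentalDomain b))⁻¹ *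
    ∫ x in ZSpan.fundamentalDomain b ∩ Ω, bI κ μ ξ η x)
    (fun ξ ξ' η => by
      rw [← mul_add, ← integral_add (integrableOn_cell b (bI_cont κ μ ξ η) Ω)
        (integrableOn_cell b (bI_cont κ μ ξ' η) Ω)]
      congr 2
      funext x
      simp only [bI, eT_add, eV_add, inner_add_left]
      ring)
    (fun c ξ η => by
      rw [smul_eq_mul, mul_left_comm, ← integral_const_mul c]
      congr 2
      funext x
      simp only [bI, eT_smul, eV_smul, real_inner_smul_left]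
      ring)
    (fun ξ η η' => by
      rw [← mul_add, ← integral_add (integrableOn_cell b (bI_cont κ μ ξ η) Ω)
        (integrableOn_cell b (bI_cont κ μ ξ η') Ω)]
      congr 2
      funext x
      simp only [bI, eT_add, eV_add, inner_add_right]
      ring)
    (fun c ξ η => by
      rw [smul_eq_mul, mul_left_comm, ← integral_const_mul c]
      congr 2
      funext x
      simp only [bI, eT_smul, eV_smul, real_inner_smul_right]
      ring)

lemma BF_apply (ξ η : XX b) : BF κ μ b Ω ξ η = (volume.real (ZSpan.fundamentalDomain b))⁻¹ *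
    ∫ x in ZSpan.fundamentalDomain b ∩ Ω, bI κ μ ξ η x := rfl

lemma BF_symm (ξ η : XX b) : BF κ μ b Ω ξ η = BF κ μ b Ω η ξ := by
  rw [BF_apply, BF_apply]
  congr 2
  funext x
  simp only [bI]
  rw [real_inner_comm, mul_comm (eT ξ x)]

lemma BF_nonneg (hκ : 0 ≤ κ) (hμ : 0 ≤ μ) (ξ : XX b) : 0 ≤ BF κ μ b Ω ξ ξ := by
  rw [BF_apply]
  refine mul_nonneg (inv_nonneg.2 measureReal_nonneg) (integral_nonneg fun x => ?_)
  show 0 ≤ bI κ μ ξ ξ x
  unfold bI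
  have h1 : 0 ≤ inner ℝ (eV ξ x) (eV ξ x) := real_inner_self_nonneg
  have h2 : 0 ≤ eT ξ x * eT ξ x := mul_self_nonneg _
  positivity

/-- the subspace of pure fluctuations -/
def UU (b : Module.Basis (Fin 2) ℝ ℂ) : Submodule ℝ (XX b) where
  carrier := {ξ | ξ.1 = 0 ∧ ξ.2.1 = 0}
  zero_mem' := ⟨rfl, rfl⟩
  add_mem' := fun {f g} hf hg => ⟨by
    show f.1 + g.1 = 0
    rw [hf.1, hg.1, add_zero], by
    show f.2.1 + g.2.1 = 0
    rw [hf.2, hg.2, add_zero]⟩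
  smul_mem' := fun c f hf => ⟨by
    show c • f.1 = 0
    rw [hf.1, smul_zero], by
    show c • f.2.1 = 0
    rw [hf.2, smul_zero]⟩

lemma BF_self (t : ℝ) (v : ℂ) (u : PF b) :
    BF κ μ b Ω (t, v, u) (t, v, u) = Aen κ μ b Ω t v u := by
  rw [BF_apply, Aen]
  congr 2
  funext x
  simp only [bI, qf, eT, eV, real_inner_self_eq_norm_sq]
  ring

lemma Aen_nonneg (hκ : 0 ≤ κ) (hμ : 0 ≤ μ) (t : ℝ) (v : ℂ) (u : PF b) :
    0 ≤ Aen κ μ b Ω t v u := by
  rw [← BF_self]; exact BF_nonneg hκ hμ _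

lemma Wef_le (hκ : 0 ≤ κ) (hμ : 0 ≤ μ) (t : ℝ) (v : ℂ) (u : PF b) :
    Wef κ μ b Ω t v ≤ Aen κ μ b Ω t v u :=
  ciInf_le ⟨0, by rintro _ ⟨u, rfl⟩; exact Aen_nonneg hκ hμ _ _ _⟩ u

lemma Wef_nonneg (hκ : 0 ≤ κ) (hμ : 0 ≤ μ) (t : ℝ) (v : ℂ) : 0 ≤ Wef κ μ b Ω t v :=
  le_ciInf fun u => Aen_nonneg hκ hμ _ _ u

lemma QW_eq (hκ : 0 ≤ κ) (hμ : 0 ≤ μ) (t : ℝ) (v : ℂ) :
    QW (BF κ μ b Ω) (UU b) (t, v, 0) = Wef κ μ b Ω t v := by
  apply le_antisymm
  · refine le_ciInf fun u => ?_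
    have hm : ((0, 0, u) : XX b) ∈ UU b := ⟨rfl, rfl⟩
    have h := QW_le (B := BF κ μ b Ω) (fun x => BF_nonneg hκ hμ x) (t, v, 0) hm
    have e : ((t, v, 0) : XX b) + (0, 0, u) = (t, v, u) := by
      ext <;> simp
    rw [e, BF_self] at h
    exact h
  · refine le_ciInf fun ξ => ?_
    obtain ⟨⟨t', v', u⟩, h1, h2⟩ := ξ
    have h1' : t' = 0 := h1
    have h2' : v' = 0 := h2
    subst h1' h2'
    have e : ((t, v, 0) : XX b) + (0, 0, u) = (t, v, u) := by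
      ext <;> simp
    show _ ≤ BF κ μ b Ω ((t, v, 0) + (0, 0, u)) ((t, v, 0) + (0, 0, u))
    rw [e, BF_self]
    exact Wef_le hκ hμ t v u

lemma ep3_re : (ep 3).re = -(1 / 2) := by
  have : ep 3 = exp ((2 * Real.pi / 3 : ℝ) * I) := by
    rw [ep]; congr 1; push_cast; ring
  rw [this, Complex.exp_ofReal_mul_I_re]
  have : 2 * Real.pi / 3 = Real.pi - Real.pi / 3 := by ring
  rw [this, Real.cos_pi_sub, Real.cos_pi_div_three]

lemma ep3_im : (ep 3).im = Real.sqrt 3 / 2 := by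
  have : ep 3 = exp ((2 * Real.pi / 3 : ℝ) * I) := by
    rw [ep]; congr 1; push_cast; ring
  rw [this, Complex.exp_ofReal_mul_I_im]
  have : 2 * Real.pi / 3 = Real.pi - Real.pi / 3 := by ring
  rw [this, Real.sin_pi_sub, Real.sin_pi_div_three]

/-- algebraic core of the isotropy theorem -/
lemma iso_alg {t a c s3 A00 A11 A22 A01 A02 A12 w e : ℝ} (hs0 : 0 ≤ s3) (hs3 : s3 ^ 2 = 3)
    (he : 0 ≤ e)
    (k0 : |w - (t ^ 2 * A00 + a ^ 2 * A11 + c ^ 2 * A22 + 2 * t * a * A01 + 2 * t * c * A02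
        + 2 * a * c * A12)| ≤ e * (|t| + |a| + |c|) ^ 2)
    (k1 : |w - (t ^ 2 * A00 + (-(1 / 2) * a - s3 / 2 * c) ^ 2 * A11 +
        (-(1 / 2) * c + s3 / 2 * a) ^ 2 * A22 + 2 * t * (-(1 / 2) * a - s3 / 2 * c) * A01 +
        2 * t * (-(1 / 2) * c + s3 / 2 * a) * A02
        + 2 * (-(1 / 2) * a - s3 / 2 * c) * (-(1 / 2) * c + s3 / 2 * a) * A12)| ≤
        e * (|t| + |-(1 / 2) * a - s3 / 2 * c| + |-(1 / 2) * c + s3 / 2 * a|) ^ 2)
    (k2 : |w - (t ^ 2 * A00 + (-(1 / 2) * a + s3 / 2 * c) ^ 2 * A11 +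
        (-(1 / 2) * c - s3 / 2 * a) ^ 2 * A22 + 2 * t * (-(1 / 2) * a + s3 / 2 * c) * A01 +
        2 * t * (-(1 / 2) * c - s3 / 2 * a) * A02
        + 2 * (-(1 / 2) * a + s3 / 2 * c) * (-(1 / 2) * c - s3 / 2 * a) * A12)| ≤
        e * (|t| + |-(1 / 2) * a + s3 / 2 * c| + |-(1 / 2) * c - s3 / 2 * a|) ^ 2) :
    |w - (t ^ 2 * A00 + (a ^ 2 + c ^ 2) * ((A11 + A22) / 2))| ≤
      e * (|t| + 2 * |a| + 2 * |c|) ^ 2 := by
  have hs2 : s3 ≤ 2 := by nlinarith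
  have ha := abs_nonneg a
  have hc := abs_nonneg c
  have ht := abs_nonneg t
  have tri : ∀ (p q r s : ℝ), |p| ≤ 1 → |q| ≤ 1 → |r| ≤ 1 → |s| ≤ 1 →
      (|t| + |p * a + q * c| + |r * c + s * a|) ^ 2 ≤ (|t| + 2 * |a| + 2 * |c|) ^ 2 := by
    intro p q r s hp hq hr hs
    apply pow_le_pow_left₀ (by positivity)
    have t1 := abs_add_le (p * a) (q * c)
    have t2 := abs_add_le (r * c) (s * a)
    rw [abs_mul, abs_mul] at t1 t2
    have := mul_le_mul_of_nonneg_right hp ha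
    have := mul_le_mul_of_nonneg_right hq hc
    have := mul_le_mul_of_nonneg_right hr hc
    have := mul_le_mul_of_nonneg_right hs ha
    linarith
  have hhalf : |(-(1 / 2) : ℝ)| ≤ 1 := by rw [abs_neg, abs_of_pos] <;> norm_num
  have hq1 : |s3 / 2| ≤ 1 := by rw [abs_of_nonneg (by positivity)]; linarith
  have hq2 : |-(s3 / 2)| ≤ 1 := by rw [abs_neg]; exact hq1
  have T0 := tri 1 0 1 0 (by simp) (by simp) (by simp) (by simp)
  have T1 := tri (-(1 / 2)) (-(s3 / 2)) (-(1 / 2)) (s3 / 2) hhalf hq2 hhalf hq1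
  have T2 := tri (-(1 / 2)) (s3 / 2) (-(1 / 2)) (-(s3 / 2)) hhalf hq1 hhalf hq2
  have E0 : 1 * a + 0 * c = a := by ring
  have E0' : 1 * c + 0 * a = c := by ring
  have E1 : -(1 / 2) * a + -(s3 / 2) * c = -(1 / 2) * a - s3 / 2 * c := by ring
  have E2 : -(1 / 2) * c + -(s3 / 2) * a = -(1 / 2) * c - s3 / 2 * a := by ring
  rw [E0, E0'] at T0
  rw [E1] at T1
  rw [E2] at T2
  have K0 := abs_le.1 (k0.trans (mul_le_mul_of_nonneg_left T0 he))
  have K1 := abs_le.1 (k1.trans (mul_le_mul_of_nonneg_left T1 he))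
  have K2 := abs_le.1 (k2.trans (mul_le_mul_of_nonneg_left T2 he))
  have P : w - (t ^ 2 * A00 + (a ^ 2 + c ^ 2) * ((A11 + A22) / 2)) =
      ((w - (t ^ 2 * A00 + a ^ 2 * A11 + c ^ 2 * A22 + 2 * t * a * A01 + 2 * t * c * A02
        + 2 * a * c * A12)) +
      (w - (t ^ 2 * A00 + (-(1 / 2) * a - s3 / 2 * c) ^ 2 * A11 +
        (-(1 / 2) * c + s3 / 2 * a) ^ 2 * A22 + 2 * t * (-(1 / 2) * a - s3 / 2 * c) * A01 +
        2 * t * (-(1 / 2) * c + s3 / 2 * a) * A02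
        + 2 * (-(1 / 2) * a - s3 / 2 * c) * (-(1 / 2) * c + s3 / 2 * a) * A12)) +
      (w - (t ^ 2 * A00 + (-(1 / 2) * a + s3 / 2 * c) ^ 2 * A11 +
        (-(1 / 2) * c - s3 / 2 * a) ^ 2 * A22 + 2 * t * (-(1 / 2) * a + s3 / 2 * c) * A01 +
        2 * t * (-(1 / 2) * c - s3 / 2 * a) * A02
        + 2 * (-(1 / 2) * a + s3 / 2 * c) * (-(1 / 2) * c - s3 / 2 * a) * A12))) / 3 := by
    linear_combination (c ^ 2 * A11 / 6 + a ^ 2 * A22 / 6 - a * c * A12 / 3) * hs3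
  rw [P, abs_le]
  constructor
  · linarith [K0.1, K1.1, K2.1]
  · linarith [K0.2, K1.2, K2.2]

lemma iso_alg2 {t n A00 A11 A22 W0 W1 W2 w e M : ℝ} (hn : 0 ≤ n)
    (h : |w - (t ^ 2 * A00 + n * ((A11 + A22) / 2))| ≤ e * M)
    (g0 : |W0 - A00| ≤ e) (g1 : |W1 - A11| ≤ e) (g2 : |W2 - A22| ≤ e) :
    |w - (t ^ 2 * W0 + n * ((W1 + W2) / 2))| ≤ e * (M + t ^ 2 + n) := by
  have ht2 : 0 ≤ t ^ 2 := sq_nonneg t
  have G0 := abs_le.1 g0
  have G1 := abs_le.1 g1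
  have G2 := abs_le.1 g2
  have P2 : |(t ^ 2 * A00 + n * ((A11 + A22) / 2)) - (t ^ 2 * W0 + n * ((W1 + W2) / 2))| ≤
      e * (t ^ 2 + n) := by
    have Q0 : |A00 - W0| ≤ e := by
      rw [abs_le]; constructor <;> linarith [G0.1, G0.2]
    have Q1 : |(A11 + A22) / 2 - (W1 + W2) / 2| ≤ e := by
      rw [abs_le]; constructor <;> linarith [G1.1, G1.2, G2.1, G2.2]
    have e' : (t ^ 2 * A00 + n * ((A11 + A22) / 2)) - (t ^ 2 * W0 + n * ((W1 + W2) / 2)) =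
      t ^ 2 * (A00 - W0) + n * ((A11 + A22) / 2 - (W1 + W2) / 2) := by ring
    rw [e']
    refine (abs_add_le _ _).trans ?_
    rw [abs_mul, abs_mul, abs_of_nonneg ht2, abs_of_nonneg hn]
    have := mul_le_mul_of_nonneg_left Q0 ht2
    have := mul_le_mul_of_nonneg_left Q1 hn
    linarith
  have := abs_sub_le w (t ^ 2 * A00 + n * ((A11 + A22) / 2)) (t ^ 2 * W0 + n * ((W1 + W2) / 2))
  linarith

/-- a three-fold symmetric effective energy is isotropic -/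
theorem Wef_iso (hκ : 0 ≤ κ) (hμ : 0 ≤ μ)
    (hrot : ∀ t v, Wef κ μ b Ω t (ep 3 * v) = Wef κ μ b Ω t v) (t : ℝ) (v : ℂ) :
    Wef κ μ b Ω t v =
      t ^ 2 * Wef κ μ b Ω 1 0 + ‖v‖ ^ 2 * ((Wef κ μ b Ω 0 1 + Wef κ μ b Ω 0 I) / 2) := by
  set W := Wef κ μ b Ω with hW
  have hs3' : Real.sqrt 3 ^ 2 = 3 := Real.sq_sqrt (by norm_num)
  have hs0 : 0 ≤ Real.sqrt 3 := Real.sqrt_nonneg _
  have hv1 : (ep 3 * v).re = -(1 / 2) * v.re - Real.sqrt 3 / 2 * v.im := by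
    rw [Complex.mul_re, ep3_re, ep3_im]
  have hv2 : (ep 3 * v).im = -(1 / 2) * v.im + Real.sqrt 3 / 2 * v.re := by
    rw [Complex.mul_im, ep3_re, ep3_im]
  have hv3 : (ep 3 * (ep 3 * v)).re = -(1 / 2) * v.re + Real.sqrt 3 / 2 * v.im := by
    rw [Complex.mul_re, ep3_re, ep3_im, hv1, hv2]; linear_combination (-(v.re / 4)) * hs3'
  have hv4 : (ep 3 * (ep 3 * v)).im = -(1 / 2) * v.im - Real.sqrt 3 / 2 * v.re := by
    rw [Complex.mul_im, ep3_re, ep3_im, hv1, hv2]; linear_combination (-(v.im / 4)) * hs3'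
  have hn : ‖v‖ ^ 2 = v.re ^ 2 + v.im ^ 2 := by
    rw [← Complex.normSq_eq_norm_sq, Complex.normSq_apply]; ring
  have key : ∀ ε : ℝ, 0 < ε → |W t v - (t ^ 2 * W 1 0 + ‖v‖ ^ 2 * ((W 0 1 + W 0 I) / 2))| ≤
      ε ^ 2 * ((|t| + 2 * |v.re| + 2 * |v.im|) ^ 2 + t ^ 2 + ‖v‖ ^ 2) := by
    intro ε hε
    obtain ⟨f0, f1, f2, h⟩ := QW_approx (B := BF κ μ b Ω) (U := UU b) BF_symm
      (fun x => BF_nonneg hκ hμ x) ((1, 0, 0) : XX b) (0, 1, 0) (0, I, 0) hε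
    have h' : ∀ (t : ℝ) (v : ℂ), |W t v - (t ^ 2 * BF κ μ b Ω f0 f0 + v.re ^ 2 * BF κ μ b Ω f1 f1 +
        v.im ^ 2 * BF κ μ b Ω f2 f2 + 2 * t * v.re * BF κ μ b Ω f0 f1 +
        2 * t * v.im * BF κ μ b Ω f0 f2 + 2 * v.re * v.im * BF κ μ b Ω f1 f2)| ≤
        ε ^ 2 * (|t| + |v.re| + |v.im|) ^ 2 := by
      intro t v
      have h1 := h t v.re v.im
      have e : t • ((1, 0, 0) : XX b) + v.re • ((0, 1, 0) : XX b) + v.im • ((0, I, 0) : XX b) =
          (t, v, 0) := by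
        ext <;> simp
      rw [e, QW_eq hκ hμ] at h1
      have e2 : BF κ μ b Ω (t • f0 + v.re • f1 + v.im • f2) (t • f0 + v.re • f1 + v.im • f2) =
        (t ^ 2 * BF κ μ b Ω f0 f0 + v.re ^ 2 * BF κ μ b Ω f1 f1 +
        v.im ^ 2 * BF κ μ b Ω f2 f2 + 2 * t * v.re * BF κ μ b Ω f0 f1 +
        2 * t * v.im * BF κ μ b Ω f0 f2 + 2 * v.re * v.im * BF κ μ b Ω f1 f2) := by
        simp only [map_add, map_smul, LinearMap.add_apply, LinearMap.smul_apply, smul_eq_mul]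
        rw [BF_symm f1 f0, BF_symm f2 f0, BF_symm f2 f1]
        ring
      rw [e2] at h1
      exact h1
    have g0 : |W 1 0 - BF κ μ b Ω f0 f0| ≤ ε ^ 2 := by simpa using h' 1 0
    have g1 : |W 0 1 - BF κ μ b Ω f1 f1| ≤ ε ^ 2 := by simpa using h' 0 1
    have g2 : |W 0 I - BF κ μ b Ω f2 f2| ≤ ε ^ 2 := by simpa using h' 0 I
    have k0 := h' t v
    have k1 := h' t (ep 3 * v)
    have k2 := h' t (ep 3 * (ep 3 * v))
    rw [hrot, hv1, hv2] at k1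
    rw [hrot, hrot, hv3, hv4] at k2
    have P1 := iso_alg hs0 hs3' (by positivity) k0 k1 k2
    rw [← hn] at P1
    exact iso_alg2 (by positivity) P1 g0 g1 g2
  -- let `ε → 0`
  by_contra hne
  have hpos : 0 < |W t v - (t ^ 2 * W 1 0 + ‖v‖ ^ 2 * ((W 0 1 + W 0 I) / 2))| :=
    abs_pos.2 (sub_ne_zero.2 hne)
  set δ := |W t v - (t ^ 2 * W 1 0 + ‖v‖ ^ 2 * ((W 0 1 + W 0 I) / 2))| with hδ
  set M := (|t| + 2 * |v.re| + 2 * |v.im|) ^ 2 + t ^ 2 + ‖v‖ ^ 2 with hM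
  have hM0 : 0 ≤ M := by positivity
  have h1 := key (Real.sqrt (δ / (2 * (M + 1)))) (Real.sqrt_pos.2 (by positivity))
  rw [Real.sq_sqrt (by positivity)] at h1
  have h2 : δ / (2 * (M + 1)) * M ≤ δ / 2 := by
    rw [div_mul_eq_mul_div, div_le_div_iff₀ (by positivity) (by norm_num)]
    nlinarith
  linarith

end Pool.Agent.H24
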