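import Pool.Agent.H24.Asm

/-! Energy estimates for the microstructure. -/

open Complex Filter Topology MeasureTheory
open scoped ContDiff Pointwise

namespace Pool.Agent.H24

variable {ι : Type*} {b : Module.Basis (Fin 2) ℝ ℂ} {J : Finset ι} {c : ι → ℂ} {ρ : ι → ℝ}
  {ε η : ℝ} {V0 : Set ℂ} {v ψ : ℂ → ℂ}

lemma int_disc (h : ℂ → ℝ) {s : Set ℂ} {r : ℝ} (hr : 0 < r) (c : ℂ) (hs : MeasurableSet s) :
    ∫ x in (fun x => r⁻¹ • (x - c)) ⁻¹' s, h (r⁻¹ • (x - c)) = r ^ 2 * ∫ x in s, h x := by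
  have hm : Measurable fun x : ℂ => r⁻¹ • (x - c) := by fun_prop
  rw [← integral_indicator (hm hs), ← integral_indicator hs]
  have e1 : ∀ x, ((fun x => r⁻¹ • (x - c)) ⁻¹' s).indicator (fun x => h (r⁻¹ • (x - c))) x =
      (fun y => s.indicator h (r⁻¹ • y)) (x - c) := by
    intro x
    by_cases hx : r⁻¹ • (x - c) ∈ s
    · rw [Set.indicator_of_mem (show x ∈ (fun x => r⁻¹ • (x - c)) ⁻¹' s from hx)]
      show _ = s.indicator h (r⁻¹ • (x - c))
      rw [Set.indicator_of_mem hx]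
    · rw [Set.indicator_of_notMem (show x ∉ (fun x => r⁻¹ • (x - c)) ⁻¹' s from hx)]
      show _ = s.indicator h (r⁻¹ • (x - c))
      rw [Set.indicator_of_notMem hx]
  rw [integral_congr_ae (Filter.Eventually.of_forall e1),
    integral_sub_right_eq_self (fun y => s.indicator h (r⁻¹ • y)) c,
    Measure.integral_comp_smul volume (s.indicator h) r⁻¹, Complex.finrank_real_complex]
  rw [smul_eq_mul, inv_pow, inv_inv, abs_of_pos (by positivity)]

lemma pre_ball {r : ℝ} (hr : 0 < r) (c : ℂ) :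
    (fun x : ℂ => r⁻¹ • (x - c)) ⁻¹' Metric.closedBall 0 1 = Metric.closedBall c r := by
  ext x
  rw [Set.mem_preimage, mem_closedBall_zero_iff, norm_smul, norm_inv, Real.norm_of_nonneg hr.le,
    Metric.mem_closedBall, dist_eq_norm, inv_mul_le_iff₀ hr, mul_one]

lemma sum_sq_le (P : Pk b J c ρ ε) :
    ∑ i ∈ J, ρ i ^ 2 ≤ volume.real (ZSpan.fundamentalDomain b) := by
  have h1 : volume.real (Sd J c ρ) = ∑ i ∈ J, Real.pi * ρ i ^ 2 := by
    unfold Sd
    rw [measureReal_biUnion_finset (fun i hi j hj hij => P.disj i hi j hj hij)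
      (fun i _ => Metric.isClosed_closedBall.measurableSet) (fun i _ => vol_ball_ne_top _ _)]
    exact Finset.sum_congr rfl fun i hi => vol_cball (P.pos i hi).le
  have h2 : volume.real (Sd J c ρ) ≤ volume.real (ZSpan.fundamentalDomain b) :=
    measureReal_mono ((Sd_sub P).trans (Yo_sub b))
      (ZSpan.fundamentalDomain_isBounded b).measure_lt_top.ne
  rw [h1] at h2
  refine le_trans (Finset.sum_le_sum fun i _ => ?_) h2
  have := Real.pi_gt_three
  nlinarith [sq_nonneg (ρ i)]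

lemma FF_fderiv (P : Pk b J c ρ ε) (h0 : ∀ x, 1 ≤ ‖x‖ → v x = 0) {i : ι} (hi : i ∈ J) {x : ℂ}
    (hx : x ∈ Metric.closedBall (c i) (ρ i)) :
    fderiv ℝ (FF J c ρ ρ v) x = fderiv ℝ v ((ρ i)⁻¹ • (x - c i)) := by
  rw [(FF_near P h0 hi hx).fderiv_eq, fderiv_affine v (P.pos i hi).ne']

lemma FF_fderiv2 (P : Pk b J c ρ ε) (h0 : ∀ x, 1 ≤ ‖x‖ → ψ x = 0) {i : ι} (hi : i ∈ J) {x : ℂ}
    (hx : x ∈ Metric.closedBall (c i) (ρ i)) :
    fderiv ℝ (fderiv ℝ (FF J c ρ (fun i => ρ i ^ 2) ψ)) x =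
      fderiv ℝ (fderiv ℝ ψ) ((ρ i)⁻¹ • (x - c i)) := by
  rw [(FF_near P h0 hi hx).fderiv.fderiv_eq, fderiv2_affine ψ (P.pos i hi).ne']

lemma FF_zero_near (P : Pk b J c ρ ε) {E : Type*} [NormedAddCommGroup E] [NormedSpace ℝ E]
    {w : ι → ℝ} {f : ℂ → E} (h0 : ∀ x, 1 ≤ ‖x‖ → f x = 0) {x : ℂ} (hx : x ∉ Sd J c ρ) :
    FF J c ρ w f =ᶠ[𝓝 x] fun _ => 0 := by
  filter_upwards [(isCompact_Sd (J := J) (c := c) (ρ := ρ)).isClosed.isOpen_compl.mem_nhds hx]
    with y hy
  exact FF_out P.pos h0 hy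

/-- stress corrector energy -/
lemma int_stat (P : Pk b J c ρ ε) (D : Device η V0 v ψ) :
    ∫ x in ZSpan.fundamentalDomain b,
      ‖fderiv ℝ (fderiv ℝ (FF J c ρ (fun i => ρ i ^ 2) ψ)) x‖ ^ 2 ≤
      η * volume.real (ZSpan.fundamentalDomain b) := by
  set g : ℂ → ℝ := fun x => ‖fderiv ℝ (fderiv ℝ (FF J c ρ (fun i => ρ i ^ 2) ψ)) x‖ ^ 2 with hg
  have hη : 0 ≤ η := le_trans (integral_nonneg fun x => by positivity) D.stat
  have hgc : Continuous g := cont_norm2 (FF_contDiff D.sψ)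
  have hout : ∀ x, x ∉ Sd J c ρ → g x = 0 := by
    intro x hx
    have h1 := (FF_zero_near P (w := fun i => ρ i ^ 2) D.ψ0 hx).fderiv (𝕜 := ℝ)
    have h2 : fderiv ℝ (fderiv ℝ (FF J c ρ (fun i => ρ i ^ 2) ψ)) x = 0 := by
      rw [h1.fderiv_eq]; simp
    show ‖fderiv ℝ (fderiv ℝ (FF J c ρ (fun i => ρ i ^ 2) ψ)) x‖ ^ 2 = 0
    rw [h2, ContinuousLinearMap.opNorm_zero]; norm_num
  rw [int_cell_full (Sd_sub P) hout]
  have e1 : ∫ x, g x = ∫ x in Sd J c ρ, g x :=
    (setIntegral_eq_integral_of_forall_compl_eq_zero hout).symm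
  rw [e1, Sd, integral_biUnion_finset J (fun i _ => Metric.isClosed_closedBall.measurableSet)
    (fun i hi j hj hij => P.disj i hi j hj hij)
    (fun i _ => hgc.continuousOn.integrableOn_compact (isCompact_closedBall _ _))]
  have e2 : ∀ i ∈ J, ∫ x in Metric.closedBall (c i) (ρ i), g x ≤ ρ i ^ 2 * η := by
    intro i hi
    set G : ℂ → ℝ := fun y => ‖fderiv ℝ (fderiv ℝ ψ) y‖ ^ 2 with hG
    have h3 : ∫ x in Metric.closedBall (c i) (ρ i), g x =
        ∫ x in Metric.closedBall (c i) (ρ i), G ((ρ i)⁻¹ • (x - c i)) := by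
      refine setIntegral_congr_fun Metric.isClosed_closedBall.measurableSet fun x hx => ?_
      show ‖fderiv ℝ (fderiv ℝ (FF J c ρ (fun i => ρ i ^ 2) ψ)) x‖ ^ 2 = _
      rw [FF_fderiv2 P D.ψ0 hi hx]
    rw [h3, ← pre_ball (P.pos i hi), int_disc G (P.pos i hi) _
      Metric.isClosed_closedBall.measurableSet]
    exact mul_le_mul_of_nonneg_left D.stat (by positivity)
  refine (Finset.sum_le_sum e2).trans ?_
  rw [← Finset.sum_mul, mul_comm]
  exact mul_le_mul_of_nonneg_left (sum_sq_le P) hη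

/-- kinematic energy -/
lemma int_kin' (P : Pk b J c ρ ε) (D : Device η V0 v ψ) :
    ∫ x in ZSpan.fundamentalDomain b ∩ (Vd b J c ρ V0)ᶜ, dn (fderiv ℝ (FF J c ρ ρ v) x) ≤
      η * volume.real (ZSpan.fundamentalDomain b) + ε := by
  set g : ℂ → ℝ := fun x => dn (fderiv ℝ (FF J c ρ ρ v) x) with hg
  have hη : 0 ≤ η := le_trans (integral_nonneg fun x => by positivity) D.stat
  have hgc : Continuous g :=
    continuous_dn.comp ((FF_contDiff D.sv).continuous_fderiv (by simp))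
  have hg0 : ∀ x, 0 ≤ g x := fun x => dn_nonneg _
  set Y := ZSpan.fundamentalDomain b with hY
  have hYm : MeasurableSet Y := ZSpan.fundamentalDomain_measurableSet b
  have hVm : MeasurableSet (Vd b J c ρ V0)ᶜ := (isOpen_Vd D.openV).measurableSet.compl
  have hSm : MeasurableSet (Sd J c ρ) := isCompact_Sd.isClosed.measurableSet
  have hgi : ∀ s : Set ℂ, IntegrableOn g (Y ∩ s) := fun s => integrableOn_cell b hgc s
  have split : ∫ x in Y ∩ (Vd b J c ρ V0)ᶜ, g x =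
      (∫ x in (Y ∩ (Vd b J c ρ V0)ᶜ) ∩ Sd J c ρ, g x) +
      ∫ x in (Y ∩ (Vd b J c ρ V0)ᶜ) \ Sd J c ρ, g x :=
    (integral_inter_add_sdiff hSm (hgi (Vd b J c ρ V0)ᶜ)).symm
  rw [split]
  have p2 : ∫ x in (Y ∩ (Vd b J c ρ V0)ᶜ) \ Sd J c ρ, g x ≤ ε := by
    have e1 : ∫ x in (Y ∩ (Vd b J c ρ V0)ᶜ) \ Sd J c ρ, g x =
        ∫ x in (Y ∩ (Vd b J c ρ V0)ᶜ) \ Sd J c ρ, (1 : ℝ) := by
      refine setIntegral_congr_fun ((hYm.inter hVm).diff hSm) fun x hx => ?_
      have h1 := (FF_zero_near P (w := ρ) D.v0 hx.2).fderiv_eq (𝕜 := ℝ)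
      show dn (fderiv ℝ (FF J c ρ ρ v) x) = 1
      rw [h1]
      simp [dn_zero']
    rw [e1, setIntegral_const, smul_eq_mul, mul_one]
    refine le_trans (measureReal_mono ?_ ?_) P.cover
    · exact Set.sdiff_subset_sdiff_left Set.inter_subset_left
    · exact ne_top_of_le_ne_top (ZSpan.fundamentalDomain_isBounded b).measure_lt_top.ne
        (measure_mono Set.sdiff_subset)
  have p1 : ∫ x in (Y ∩ (Vd b J c ρ V0)ᶜ) ∩ Sd J c ρ, g x ≤ η * volume.real Y := by
    have e1 : (Y ∩ (Vd b J c ρ V0)ᶜ) ∩ Sd J c ρ =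
        ⋃ i ∈ J, (Metric.closedBall (c i) (ρ i) ∩ (Vd b J c ρ V0)ᶜ) := by
      ext x
      constructor
      · rintro ⟨⟨h1, h2⟩, h3⟩
        simp only [Sd, Set.mem_iUnion] at h3 ⊢
        obtain ⟨i, hi, h3⟩ := h3
        exact ⟨i, hi, h3, h2⟩
      · intro h
        simp only [Set.mem_iUnion] at h
        obtain ⟨i, hi, h3, h2⟩ := h
        refine ⟨⟨Yo_sub b (P.sub i hi h3), h2⟩, ?_⟩
        simp only [Sd, Set.mem_iUnion]
        exact ⟨i, hi, h3⟩
    rw [e1, integral_biUnion_finset J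
      (fun i _ => Metric.isClosed_closedBall.measurableSet.inter hVm)
      (fun i hi j hj hij => (P.disj i hi j hj hij).mono Set.inter_subset_left Set.inter_subset_left)
      (fun i _ => (hgc.continuousOn.integrableOn_compact (isCompact_closedBall _ _)).mono_set
        Set.inter_subset_left)]
    have e2 : ∀ i ∈ J, ∫ x in Metric.closedBall (c i) (ρ i) ∩ (Vd b J c ρ V0)ᶜ, g x ≤
        ρ i ^ 2 * η := by
      intro i hi
      have hρ := P.pos i hi
      set G : ℂ → ℝ := fun y => dn (fderiv ℝ v y) with hG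
      have hGc : Continuous fun x => G ((ρ i)⁻¹ • (x - c i)) := by
        have h1 : Continuous G := continuous_dn.comp (D.sv.continuous_fderiv (by simp))
        exact h1.comp (by fun_prop)
      have h3 : ∫ x in Metric.closedBall (c i) (ρ i) ∩ (Vd b J c ρ V0)ᶜ, g x =
          ∫ x in Metric.closedBall (c i) (ρ i) ∩ (Vd b J c ρ V0)ᶜ, G ((ρ i)⁻¹ • (x - c i)) := by
        refine setIntegral_congr_fun
          (Metric.isClosed_closedBall.measurableSet.inter hVm) fun x hx => ?_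
        show dn (fderiv ℝ (FF J c ρ ρ v) x) = _
        rw [FF_fderiv P D.v0 hi hx.1]
      rw [h3]
      have hsub : Metric.closedBall (c i) (ρ i) ∩ (Vd b J c ρ V0)ᶜ ⊆
          (fun x => (ρ i)⁻¹ • (x - c i)) ⁻¹' (Metric.closedBall 0 1 \ V0) := by
        rintro x ⟨h1, h2⟩
        rw [← pre_ball hρ] at h1
        refine ⟨h1, fun h4 => h2 ⟨i, hi, 0, Submodule.zero_mem _, ?_⟩⟩
        rw [sub_zero]; exact h4
      have hint : IntegrableOn (fun x => G ((ρ i)⁻¹ • (x - c i)))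
          ((fun x => (ρ i)⁻¹ • (x - c i)) ⁻¹' (Metric.closedBall 0 1 \ V0)) := by
        refine (hGc.continuousOn.integrableOn_compact
          (isCompact_closedBall (c i) (ρ i))).mono_set ?_
        rw [← pre_ball hρ]
        exact Set.preimage_mono Set.sdiff_subset
      refine (setIntegral_mono_set hint (Filter.Eventually.of_forall fun x => dn_nonneg _)
        (LE.le.eventuallyLE hsub)).trans ?_
      rw [int_disc G hρ _ (Metric.isClosed_closedBall.measurableSet.diff D.openV.measurableSet)]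
      exact mul_le_mul_of_nonneg_left D.kin (by positivity)
    refine (Finset.sum_le_sum e2).trans ?_
    rw [← Finset.sum_mul, mul_comm]
    exact mul_le_mul_of_nonneg_left (sum_sq_le P) hη
  linarith

end Pool.Agent.H24
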