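import Pool.Agent.H24.Coef

/-! Estimates of the face functions. -/

open Complex Filter Topology
open scoped ContDiff

namespace Pool.Agent.H24

def Reg (N : ℕ) : Set ℂ := {x | ‖x - 1‖ ≤ 16 / N ∧ ‖x‖ ≤ 1 + 2 / N}

lemma convex_Reg (N : ℕ) : Convex ℝ (Reg N) := by
  have h1 : Reg N = Metric.closedBall 1 (16 / N) ∩ Metric.closedBall 0 (1 + 2 / N) := by
    ext x; simp [Reg, dist_eq_norm]
  rw [h1]
  exact (convex_closedBall _ _).inter (convex_closedBall _ _)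

/-- the face function -/
noncomputable def ff (N : ℕ) (a b c : ℂ) (x : ℂ) : ℂ := aff a b c x - Qh N x

lemma contDiff_conj {m : WithTop ℕ∞} : ContDiff ℝ m (fun x : ℂ => starRingEnd ℂ x) :=
  Complex.conjCLE.contDiff

lemma contDiff_aff (a b c : ℂ) {m : WithTop ℕ∞} : ContDiff ℝ m (aff a b c) :=
  (contDiff_const.add (contDiff_const.mul contDiff_id)).add (contDiff_const.mul contDiff_conj)

lemma contDiff_Qh (N : ℕ) {m : ℕ∞} : ContDiff ℝ m (Qh N) :=
  ((contDiff_id.pow 2).div_const 2).mul (contDiff_const.add (contDiff_bg N _ _ _))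

lemma contDiff_ff (N : ℕ) (a b c : ℂ) {m : ℕ∞} : ContDiff ℝ m (ff N a b c) :=
  (contDiff_aff a b c).sub (contDiff_Qh N)

lemma hasFDerivAt_aff (a b c x : ℂ) : HasFDerivAt (aff a b c)
    (b • (1 : ℂ →L[ℝ] ℂ) + c • (Complex.conjCLE : ℂ →L[ℝ] ℂ)) x := by
  have h1 : HasFDerivAt (fun y : ℂ => a + b * y) (b • (1 : ℂ →L[ℝ] ℂ)) x :=
    ((hasFDerivAt_id (𝕜 := ℝ) x).const_mul b).const_add a
  have h2 : HasFDerivAt (fun y : ℂ => c * starRingEnd ℂ y)
      (c • (Complex.conjCLE : ℂ →L[ℝ] ℂ)) x :=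
    (Complex.conjCLE.hasFDerivAt (x := x)).const_mul c
  exact h1.add h2

/-- second derivative of affine functions vanishes -/
lemma iter2_aff (a b c x : ℂ) : iteratedFDeriv ℝ 2 (aff a b c) x = 0 := by
  have h1 : fderiv ℝ (aff a b c) = fun _ =>
      (b • (1 : ℂ →L[ℝ] ℂ) + c • (Complex.conjCLE : ℂ →L[ℝ] ℂ)) := by
    funext y; exact (hasFDerivAt_aff a b c y).fderiv
  have h2 : ‖iteratedFDeriv ℝ 2 (aff a b c) x‖ = 0 := by
    rw [norm_iter2, h1, fderiv_const_apply]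
    exact ContinuousLinearMap.opNorm_zero
  exact norm_eq_zero.1 h2

lemma bd_sq {N : ℕ} (G : Good N) {x : ℂ} (hx : ‖x‖ ≤ 1 + 2 / N) :
    Bd (fun y : ℂ => y ^ 2 / 2) x 5 N := by
  have hN := G.Nr
  have h2 : (2 : ℝ) / N ≤ 1 / 50 := by
    rw [div_le_div_iff₀ (by linarith) (by norm_num)]; linarith
  have hx2 : ‖x‖ ≤ 2 := by linarith
  refine Bd.holo (f' := fun y => y) (f'' := fun _ => 1) ((contDiff_id.pow 2).div_const 2)
    (fun y => ?_) (fun y => hasDerivAt_id y) ?_ ?_ ?_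
  · have := (hasDerivAt_pow 2 y).div_const 2
    exact this.congr_deriv (by norm_num)
  · rw [norm_div, norm_pow, Complex.norm_ofNat]
    nlinarith [norm_nonneg x]
  · linarith
  · rw [norm_one]; nlinarith

lemma bd_corr : ∃ K : ℝ, 1 ≤ K ∧ ∀ (N : ℕ) (x : ℂ), Good N → ‖x‖ ≤ 1 + 2 / N →
    Bd (fun y : ℂ => y ^ 2 / 2 * bg N (gm N) (starRingEnd ℂ (gm N)) (gq N) y) x
      (K * (1 / N) ^ 2) N := by
  obtain ⟨K, hK1, hK⟩ := bd_bg
  refine ⟨4 * (5 * (K * 24)), by linarith, ?_⟩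
  intro N x G hx
  have h1 := (bd_sq G hx).cmul (hK N (gm N) (starRingEnd ℂ (gm N)) (gq N) x G hx) (by positivity)
  refine h1.mono (by positivity) ?_ le_rfl
  have h2 := norm_gm G
  have h3 := norm_gq G
  rw [RCLike.norm_conj]
  have h4 : ‖gm N‖ + ‖gm N‖ + ‖gq N‖ ≤ 24 * (1 / N : ℝ) ^ 2 := by linarith
  have h5 := mul_le_mul_of_nonneg_left h4 (by linarith : 0 ≤ K)
  nlinarith

lemma ff_bounds : ∃ K : ℝ, 1 ≤ K ∧ ∀ (N : ℕ) (a b c x : ℂ), Good N → ‖b - 1‖ ≤ 20 * (1 / N) →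
    ‖c‖ ≤ 20 * (1 / N) → x ∈ Reg N → ‖fderiv ℝ (ff N a b c) x‖ ≤ K * (1 / N) ∧
      ‖iteratedFDeriv ℝ 2 (ff N a b c) x‖ ≤ K := by
  obtain ⟨K, hK1, hK⟩ := bd_corr
  refine ⟨K + 60, by linarith, ?_⟩
  intro N a b c x G hb hc hx
  have hN := G.Nr
  have hcor := hK N x G hx.2
  set T : ℂ → ℂ := fun y => y ^ 2 / 2 * bg N (gm N) (starRingEnd ℂ (gm N)) (gq N) y with hT
  set P : ℂ → ℂ := fun y => aff a b c y - y ^ 2 / 2 with hP
  have hPs : ContDiff ℝ 2 P := (contDiff_aff a b c).sub ((contDiff_id.pow 2).div_const 2)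
  have hf : ff N a b c = fun y => P y - T y := by
    funext y
    simp only [ff, Qh, hP, hT]
    ring
  have n1 : ‖(1 : ℂ →L[ℝ] ℂ)‖ ≤ 1 := ContinuousLinearMap.norm_id_le
  have hPd : ∀ y, HasFDerivAt P ((b • (1 : ℂ →L[ℝ] ℂ) + c • (Complex.conjCLE : ℂ →L[ℝ] ℂ))
      - y • (1 : ℂ →L[ℝ] ℂ)) y := by
    intro y
    have h1 : HasDerivAt (fun z : ℂ => z ^ 2 / 2) y y := by
      have := (hasDerivAt_pow 2 y).div_const 2
      exact this.congr_deriv (by norm_num)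
    exact (hasFDerivAt_aff a b c y).sub h1.complexToReal_fderiv
  have hP1 : ‖fderiv ℝ P x‖ ≤ 56 * (1 / N) := by
    rw [(hPd x).fderiv]
    have hD : ‖(b • (1 : ℂ →L[ℝ] ℂ) + c • (Complex.conjCLE : ℂ →L[ℝ] ℂ)) - x • (1 : ℂ →L[ℝ] ℂ)‖
        ≤ ‖b - x‖ + ‖c‖ := by
      refine ContinuousLinearMap.opNorm_le_bound _ (by positivity) fun y => ?_
      have e : ((b • (1 : ℂ →L[ℝ] ℂ) + c • (Complex.conjCLE : ℂ →L[ℝ] ℂ)) - x • (1 : ℂ →L[ℝ] ℂ)) y
        = (b - x) * y + c * starRingEnd ℂ y := by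
        simp
        ring
      rw [e]
      refine (norm_add_le _ _).trans ?_
      rw [norm_mul, norm_mul, RCLike.norm_conj, add_mul]
    refine hD.trans ?_
    have h4 : ‖b - x‖ ≤ ‖b - 1‖ + ‖x - 1‖ := by
      have : b - x = (b - 1) - (x - 1) := by ring
      rw [this]; exact norm_sub_le _ _
    have h5 : ‖x - 1‖ ≤ 16 * (1 / N) := by
      have := hx.1
      rw [div_eq_mul_one_div] at this
      exact this
    linarith
  have hP2 : ‖iteratedFDeriv ℝ 2 P x‖ ≤ 1 := by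
    have e1 : fderiv ℝ P = fun y => (b • (1 : ℂ →L[ℝ] ℂ) + c • (Complex.conjCLE : ℂ →L[ℝ] ℂ))
      - y • (1 : ℂ →L[ℝ] ℂ) := by
      funext y; exact (hPd y).fderiv
    rw [norm_iter2, e1]
    have h1 : HasFDerivAt (fun y : ℂ => (b • (1 : ℂ →L[ℝ] ℂ) + c • (Complex.conjCLE : ℂ →L[ℝ] ℂ))
      - y • (1 : ℂ →L[ℝ] ℂ)) (-((ContinuousLinearMap.id ℝ ℂ).smulRight (1 : ℂ →L[ℝ] ℂ))) x :=
      ((hasFDerivAt_id (𝕜 := ℝ) x).smul_const (1 : ℂ →L[ℝ] ℂ)).const_sub _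
    rw [h1.fderiv]
    refine ContinuousLinearMap.opNorm_le_bound _ (by norm_num) fun y => ?_
    refine ContinuousLinearMap.opNorm_le_bound _ (by positivity) fun z => ?_
    simp
  have hd := (ContDiff.one_lt_two' hPs x).hasFDerivAt.sub
    (ContDiff.one_lt_two' hcor.smooth x).hasFDerivAt
  have hd2 : iteratedFDeriv ℝ 2 (fun y => P y - T y) x
      = iteratedFDeriv ℝ 2 P x - iteratedFDeriv ℝ 2 T x :=
    iteratedFDeriv_sub_apply hPs.contDiffAt hcor.smooth.contDiffAt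
  have hc1 := hcor.b1
  have hc2 := hcor.b2
  have e3 : K * (1 / N : ℝ) ^ 2 * N = K * (1 / N) := by field_simp
  have e4 : K * (1 / N : ℝ) ^ 2 * N ^ 2 = K := by field_simp
  rw [e3] at hc1
  rw [e4] at hc2
  constructor
  · rw [hf]
    have : fderiv ℝ (fun y => P y - T y) x = fderiv ℝ P x - fderiv ℝ T x := hd.fderiv
    rw [this]
    refine (norm_sub_le _ _).trans ?_
    have : (K + 60) * (1 / N : ℝ) = K * (1 / N) + 60 * (1 / N) := by ring
    rw [this]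
    have : (0 : ℝ) < 1 / N := nu_pos G
    linarith
  · rw [hf, hd2]
    refine (norm_sub_le _ _).trans ?_
    linarith

lemma gw_mul_le {N : ℕ} {w : ℝ} (hw : 0 < w) (h x : ℂ) : ‖x ^ N - h‖ * gw N w h x ≤ 1 := by
  have hp := Real.sqrt_pos.2 (gw_arg_pos (N := N) hw h x)
  rw [gw, ← div_eq_mul_inv, div_le_one hp]
  apply Real.le_sqrt_of_sq_le
  rw [real_inner_self_eq_norm_sq]
  nlinarith [sq_nonneg w]

lemma mem_Reg {N : ℕ} (G : Good N) {z : ℂ} (h1 : |z.re| ≤ 1.1) (h2 : |z.im| ≤ 7) :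
    exp (z / N) ∈ Reg N := by
  have hN := G.Nr
  have hz : ‖z‖ ≤ 8 := by
    have h3 : ‖z‖ ^ 2 ≤ 8 ^ 2 := by
      rw [← Complex.normSq_eq_norm_sq, Complex.normSq_apply]
      have h4 := abs_le.1 h1
      have h5 := abs_le.1 h2
      nlinarith
    exact le_of_sq_le_sq h3 (by norm_num)
  have h3 : ‖z / N‖ ≤ 8 / N := by
    rw [norm_div, Complex.norm_natCast]
    exact div_le_div_of_nonneg_right hz (by linarith)
  have h4 : (8 : ℝ) / N ≤ 1 := by rw [div_le_one (by linarith)]; linarith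
  constructor
  · have := Complex.norm_exp_sub_one_le (h3.trans h4)
    refine this.trans ?_
    have : (16 : ℝ) / N = 2 * (8 / N) := by ring
    rw [this]; linarith
  · rw [Complex.norm_exp]
    have h5 : (z / N).re = z.re / N := by
      rw [Complex.div_natCast_re]
    rw [h5]
    have h6 : z.re / N ≤ 1.1 * (1 / N) := by
      rw [div_eq_mul_one_div]
      exact mul_le_mul_of_nonneg_right ((le_abs_self _).trans h1) (by positivity)
    have h7 : Real.exp (z.re / N) ≤ Real.exp (1.1 * (1 / N)) := Real.exp_le_exp.2 h6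
    refine h7.trans ?_
    have hv := nu_le G
    have hv0 := nu_pos G
    set v : ℝ := 1 / N with hvd
    have h8 : Real.exp (1.1 * v) ≤ 1 + 1.1 * v + (1.1 * v) ^ 2 := by
      have h9 := Real.abs_exp_sub_one_sub_id_le (x := 1.1 * v)
        (by rw [abs_of_pos (by positivity)]; linarith)
      have := (abs_le.1 h9).2
      linarith
    have : (2 : ℝ) / N = 2 * v := by rw [hvd]; ring
    rw [this]
    nlinarith

lemma tt_pos {N : ℕ} (G : Good N) : 0 < tt N := by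
  rw [tt_eq G]; have := nu_pos G; positivity

lemma tt_le {N : ℕ} (G : Good N) : tt N ≤ 1 := by
  rw [tt_eq G]; have := nu_pos G; have := nu_le G; nlinarith

/-- the weight of the ring -/
noncomputable abbrev EN (N : ℕ) : ℂ → ℝ := EE N (tt N) (hh N)

lemma exp_div_pow {N : ℕ} (G : Good N) (z : ℂ) : exp (z / N) ^ N = exp z := by
  rw [← Complex.exp_nat_mul, mul_div_cancel₀ _ G.N0]

lemma face_small : ∃ K : ℝ, 1 ≤ K ∧ ∀ (N : ℕ) (a b c z : ℂ), Good N → ‖b - 1‖ ≤ 20 * (1 / N) →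
    ‖c‖ ≤ 20 * (1 / N) → |z.re| ≤ 1.1 → |z.im| ≤ 7 →
    (∃ z0 : ℂ, |z0.re| ≤ 1.1 ∧ |z0.im| ≤ 7 ∧ ff N a b c (exp (z0 / N)) = 0) →
    (∀ j : Fin 4, 1 / 2 ≤ ‖exp z - hh N j‖ ∨ ∃ zj : ℂ, exp zj = hh N j ∧ 0 ≤ zj.re ∧ zj.re ≤ 1.1 ∧
      |zj.im| ≤ 7 ∧ |(z - zj).im| ≤ 5 ∧ ff N a b c (exp (zj / N)) = 0) →
    ‖ff N a b c (exp (z / N))‖ ≤ K * (1 / N) ^ 2 / EN N (exp (z / N)) := by
  obtain ⟨K, hK1, hK⟩ := ff_bounds
  refine ⟨100 * (200 * K + 4 * (200 * K)), by linarith, ?_⟩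
  intro N a b c z G hb hc hz1 hz2 h0 hj
  have hN := G.Nr
  have hv := nu_pos G
  have hw := tt_pos G
  set f := ff N a b c with hf
  set x := exp (z / N) with hx
  have hxR : x ∈ Reg N := mem_Reg G hz1 hz2
  have hxN : x ^ N = exp z := exp_div_pow G z
  have hlip : ∀ y ∈ Reg N, f y = 0 → ‖f x‖ ≤ K * (1 / N) * ‖x - y‖ := by
    intro y hy hy0
    have := (convex_Reg N).norm_image_sub_le_of_norm_fderiv_le (𝕜 := ℝ) (f := f) (x := y) (y := x)
      (C := K * (1 / N)) (fun u _ => (ContDiff.one_lt_two' (contDiff_ff N a b c) u))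
      (fun u hu => (hK N a b c u G hb hc hu).1) hy hxR
    rw [hy0, sub_zero] at this
    exact this
  -- crude bound
  have hcrude : ‖f x‖ ≤ 32 * K * (1 / N) ^ 2 := by
    obtain ⟨z0, a1, a2, a3⟩ := h0
    have hy := mem_Reg G a1 a2
    have h1 := hlip _ hy a3
    have h2 : ‖x - exp (z0 / N)‖ ≤ 32 * (1 / N) := by
      have e : x - exp (z0 / N) = (x - 1) - (exp (z0 / N) - 1) := by ring
      rw [e]
      refine (norm_sub_le _ _).trans ?_
      have h3 := hxR.1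
      have h4 := hy.1
      have e2 : (16 : ℝ) / N = 16 * (1 / N) := by ring
      rw [e2] at h3 h4
      linarith
    calc ‖f x‖ ≤ K * (1 / N) * ‖x - exp (z0 / N)‖ := h1
      _ ≤ K * (1 / N) * (32 * (1 / N)) := mul_le_mul_of_nonneg_left h2 (by positivity)
      _ = 32 * K * (1 / N) ^ 2 := by ring
  have hterm : ∀ j : Fin 4, gw N (tt N) (hh N j) x * ‖f x‖ ≤ 200 * K * (1 / N) ^ 2 := by
    intro j
    have hg0 := gw_pos N hw (hh N j) x
    have hg := gw_mul_le (N := N) hw (hh N j) x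
    rw [hxN] at hg
    rcases hj j with hfar | ⟨zj, b0, b1, b2, b3, b4, b5⟩
    · have hg2 : gw N (tt N) (hh N j) x ≤ 2 := by nlinarith
      calc gw N (tt N) (hh N j) x * ‖f x‖ ≤ 2 * (32 * K * (1 / N) ^ 2) :=
            mul_le_mul hg2 hcrude (norm_nonneg _) (by norm_num)
        _ ≤ 200 * K * (1 / N) ^ 2 := by nlinarith [sq_nonneg (1 / N : ℝ), mul_nonneg (by linarith : 0 ≤ K) (sq_nonneg (1 / N : ℝ))]
    · have hzj1 : |zj.re| ≤ 1.1 := by rw [abs_of_nonneg b1]; exact b2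
      have hy := mem_Reg G hzj1 b3
      have h1 := hlip _ hy b5
      have h2 : |(z - zj).re| ≤ 3 := by
        rw [Complex.sub_re]
        have := abs_sub (z.re) (zj.re)
        linarith
      have h3 := dist_le_pow (N := N) (le_trans (by norm_num) G.hN) h2 b4
      rw [b0, ← hx] at h3
      have h4 : 1 ≤ ‖hh N j‖ := by
        rw [← b0, Complex.norm_exp]; exact Real.one_le_exp b1
      have h5 : ‖exp (zj / N)‖ ≤ 2 := by
        have := hy.2
        have h6 : (2 : ℝ) / N ≤ 1 := by rw [div_le_one (by linarith)]; linarith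
        linarith
      have h6 : 100 * ‖exp (zj / N)‖ / ‖hh N j‖ ≤ 200 := by
        rw [div_le_iff₀ (by linarith)]; nlinarith
      have h7 : N * ‖x - exp (zj / N)‖ ≤ 200 * ‖exp z - hh N j‖ :=
        h3.trans (mul_le_mul_of_nonneg_right h6 (norm_nonneg _))
      have h8 : ‖f x‖ ≤ K * (1 / N) ^ 2 * (N * ‖x - exp (zj / N)‖) := by
        refine h1.trans (le_of_eq ?_)
        have : (N : ℝ) ≠ 0 := by positivity
        field_simp
      calc gw N (tt N) (hh N j) x * ‖f x‖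
          ≤ gw N (tt N) (hh N j) x * (K * (1 / N) ^ 2 * (200 * ‖exp z - hh N j‖)) := by
            apply mul_le_mul_of_nonneg_left _ hg0.le
            exact h8.trans (mul_le_mul_of_nonneg_left h7 (by positivity))
        _ = 200 * K * (1 / N) ^ 2 * (‖exp z - hh N j‖ * gw N (tt N) (hh N j) x) := by ring
        _ ≤ 200 * K * (1 / N) ^ 2 * 1 := mul_le_mul_of_nonneg_left hg (by positivity)
        _ = _ := by ring
  have hE := EE_ge (N := N) hw (hh N) x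
  rw [le_div_iff₀ (by linarith)]
  have e : ‖f x‖ * EN N x = 100 * (‖f x‖ + ∑ j, gw N (tt N) (hh N j) x * ‖f x‖) := by
    rw [EN, EE, ← Finset.sum_mul]; ring
  rw [e]
  have hsum : ∑ j, gw N (tt N) (hh N j) x * ‖f x‖ ≤ ∑ _j : Fin 4, 200 * K * (1 / N : ℝ) ^ 2 :=
    Finset.sum_le_sum fun j _ => hterm j
  rw [Finset.sum_const, Finset.card_univ, Fintype.card_fin, nsmul_eq_mul] at hsum
  have h9 : 32 * K * (1 / N : ℝ) ^ 2 ≤ 200 * K * (1 / N) ^ 2 := by
    nlinarith [mul_nonneg (by linarith : 0 ≤ K) (sq_nonneg (1 / N : ℝ))]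
  push_cast at hsum
  nlinarith

end Pool.Agent.H24
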