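import Mathlib
import Pool.Agent.H24.Approx

set_option autoImplicit false
open Filter Topology Polynomial MeasureTheory AddCircle

namespace Pool.Agent.H24

lemma exists_step (γ : C(TT, ℝ)) (S : ℂ[X]) (k : ℕ) :
    ∃ (ρ : ℝ) (P : ℂ[X]) (F : Set TT), 1 - (1/2) ^ k ≤ ρ ∧ ρ < 1 ∧
      (∀ x : TT, ∀ r : ℝ, ρ ≤ r → r ≤ 1 →
        ‖S.eval ((r : ℂ) * ee x) - S.eval (ee x)‖ ≤ (1/2) ^ k) ∧
      (∀ n ≤ k, P.coeff n = 0) ∧ (∀ n ≤ S.natDegree, P.coeff n = 0) ∧ (∀ n, ‖P.coeff n‖ ≤ 1) ∧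
      (∀ z : ℂ, ‖z‖ ≤ ρ → ‖P.eval z‖ ≤ (1/2) ^ k) ∧ mu F ≤ ENNReal.ofReal ((1/2) ^ k) ∧
      (∀ x ∉ F, (∀ r : ℝ, 0 ≤ r → r ≤ 1 → ∃ φ : ℝ, 0 ≤ φ ∧ φ ≤ 1 ∧
          ‖P.eval ((r : ℂ) * ee x) - (φ : ℂ) * ((γ x : ℂ) - S.eval (ee x))‖ ≤ (1/2) ^ k) ∧
        ‖P.eval (ee x) - ((γ x : ℂ) - S.eval (ee x))‖ ≤ (1/2) ^ k) := by
  set q : ℝ := (1/2) ^ k with hq
  have hq0 : 0 < q := by positivity
  have hq1 : q ≤ 1 := pow_le_one₀ (by norm_num) (by norm_num)
  set C := lipc S 0 with hC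
  have hC0 : 0 ≤ C := lipc_nonneg S 0
  let h : C(TT, ℂ) := ⟨fun x => (γ x : ℂ) - S.eval (ee x),
    (Complex.continuous_ofReal.comp γ.continuous).sub (S.continuous.comp continuous_ee)⟩
  have hρ1 : 1 - q / (C + 1) < 1 := by
    have : 0 < q / (C + 1) := by positivity
    linarith
  have hqC : q / (C + 1) ≤ q := by
    rw [div_le_iff₀ (by positivity)]; nlinarith
  have hρ0 : 0 ≤ 1 - q / (C + 1) := by linarith
  obtain ⟨P, F, h1, h2, h3, -, h5, h6⟩ := exists_block h hq0 (max (k + 1) (S.natDegree + 1)) hρ0 hρ1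
  refine ⟨1 - q / (C + 1), P, F, by linarith, hρ1, fun x r hr hr1 => ?_, fun n hn => h1 n ?_,
    fun n hn => h1 n ?_, fun n => (h2 n).trans hq1, h3, h5, h6⟩
  · have h7 := radial_diff_le S 0 (hρ0.trans hr) hr1 (norm_ee x)
    rw [pow_zero, one_mul, ← hC] at h7
    refine h7.trans ?_
    calc C * (1 - r) ≤ C * (q / (C + 1)) := mul_le_mul_of_nonneg_left (by linarith) hC0
      _ ≤ q := by rw [← mul_div_assoc, div_le_iff₀ (by positivity)]; nlinarith
  · exact lt_of_lt_of_le (Nat.lt_succ_of_le hn) (le_max_left _ _)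
  · exact lt_of_lt_of_le (Nat.lt_succ_of_le hn) (le_max_right _ _)

theorem main_circle (G : TT → EReal) (hG : Measurable G) :
    ∃ a : ℕ → ℂ, (∀ n, ‖a n‖ ≤ 1) ∧ ∀ᵐ x ∂mu, ∃ γ : ℕ → ℝ, ConvTo γ (G x) ∧
      RadProp (fun r : ℝ => ∑' n : ℕ, a n * ((r : ℂ) * ee x) ^ n) γ := by
  obtain ⟨γ, hγ⟩ := exists_approx G hG
  choose ρ P F hρlow hρ1 hS hPk hPS hPc hPρ hF hx using fun (S : ℂ[X]) (k : ℕ) => exists_step (γ k) S k
  let S : ℕ → ℂ[X] := fun k => Nat.rec 0 (fun k S => S + P S k) k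
  have hS0 : S 0 = 0 := rfl
  have hSs : ∀ k, S (k+1) = S k + P (S k) k := fun k => rfl
  have hcoef : ∀ n k, n ≤ k → (S k).coeff n = (S n).coeff n := by
    intro n k hnk
    induction k, hnk using Nat.le_induction with
    | base => rfl
    | succ k hk ih => rw [hSs, coeff_add, hPk _ _ n hk, add_zero, ih]
  have hbd : ∀ k n, ‖(S k).coeff n‖ ≤ 1 := by
    intro k
    induction k with
    | zero => intro n; simp [hS0]
    | succ k ih =>
      intro n
      rw [hSs, coeff_add]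
      rcases le_or_gt n (S k).natDegree with h | h
      · rw [hPS _ _ n h, add_zero]; exact ih n
      · rw [coeff_eq_zero_of_natDegree_lt h, zero_add]; exact hPc _ _ n
  let a : ℕ → ℂ := fun n => (S n).coeff n
  have ha : ∀ n, ‖a n‖ ≤ 1 := fun n => hbd n n
  have hlim : ∀ z : ℂ, ‖z‖ < 1 → Tendsto (fun k => (S k).eval z) atTop (𝓝 (∑' n, a n * z ^ n)) := by
    intro z hz
    have h1 : ∀ k, (S k).eval z = ∑' n, (S k).coeff n * z ^ n := by
      intro k
      rw [eval_eq_sum, Polynomial.sum]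
      rw [tsum_eq_sum]
      intro n hn
      rw [notMem_support_iff.mp hn, zero_mul]
    simp_rw [h1]
    apply tendsto_tsum_of_dominated_convergence (bound := fun n => ‖z‖ ^ n)
    · exact summable_geometric_of_lt_one (norm_nonneg _) hz
    · intro n
      apply tendsto_const_nhds.congr'
      filter_upwards [eventually_ge_atTop n] with k hk
      rw [hcoef n k hk]
    · refine Eventually.of_forall fun k n => ?_
      rw [norm_mul, norm_pow]
      exact mul_le_of_le_one_left (by positivity) (hbd k n)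
  have htail : ∀ z : ℂ, ‖z‖ < 1 → ∀ k, (∀ j, k < j → ‖z‖ ≤ ρ (S j) j) →
      ‖(∑' n, a n * z ^ n) - (S (k+1)).eval z‖ ≤ (1/2) ^ k := by
    intro z hz k hk
    have h1 : ∀ m, k + 1 ≤ m → ‖(S m).eval z - (S (k+1)).eval z‖ ≤ (1/2) ^ k - 2 * (1/2) ^ m := by
      intro m hm
      induction m, hm using Nat.le_induction with
      | base =>
        rw [sub_self, norm_zero, pow_succ]
        linarith
      | succ m hm ih =>
        rw [hSs, eval_add]
        have h2 := hPρ (S m) m z (hk m (by omega))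
        have h3 := norm_add_le ((S m).eval z - (S (k+1)).eval z) ((P (S m) m).eval z)
        have h4 : (S m).eval z + (P (S m) m).eval z - (S (k+1)).eval z =
          (S m).eval z - (S (k+1)).eval z + (P (S m) m).eval z := by ring
        rw [h4, pow_succ]
        linarith
    have h2 := (hlim z hz).sub_const ((S (k+1)).eval z)
    refine le_of_tendsto h2.norm ?_
    filter_upwards [eventually_ge_atTop (k+1)] with m hm
    refine (h1 m hm).trans ?_
    have : (0:ℝ) ≤ 2 * (1/2) ^ m := by positivity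
    linarith
  refine ⟨a, ha, ?_⟩
  have hsum : ∑' k, mu (F (S k) k) ≠ ⊤ := by
    have h5 : ∑' k : ℕ, ENNReal.ofReal ((1/2) ^ k) ≠ ⊤ := by
      have : Summable (fun k : ℕ => ((1:ℝ)/2) ^ k) :=
        summable_geometric_of_lt_one (by norm_num) (by norm_num)
      rw [← ENNReal.ofReal_tsum_of_nonneg (fun _ => by positivity) this]
      exact ENNReal.ofReal_ne_top
    exact ne_top_of_le_ne_top h5 (ENNReal.tsum_le_tsum fun k => hF _ _)
  filter_upwards [ae_eventually_notMem hsum, hγ] with x hxF hxγ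
  refine ⟨fun k => γ k x, hxγ, ?_⟩
  obtain ⟨K0, hK0⟩ := hxF.exists_forall_of_atTop
  intro ε hε K
  -- choose a large index
  obtain ⟨K1, hK1⟩ := exists_pow_lt_of_lt_one (show (0:ℝ) < ε / 5 by positivity)
    (show ((1:ℝ)/2) < 1 by norm_num)
  set K2 := K + K0 + K1 + 1 with hK2
  refine ⟨max 0 (ρ (S K2) K2), max_lt zero_lt_one (hρ1 _ _), fun r hr hr1 => ?_⟩
  have hr0 : 0 ≤ r := (le_max_left _ _).trans hr
  have hrK : ρ (S K2) K2 ≤ r := (le_max_right _ _).trans hr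
  obtain ⟨B, hB⟩ := exists_pow_lt_of_lt_one (show (0:ℝ) < 1 - r by linarith)
    (show ((1:ℝ)/2) < 1 by norm_num)
  have hBj : ∀ j, B ≤ j → r < ρ (S j) j := by
    intro j hj
    have h1 := hρlow (S j) j
    have h2 : ((1:ℝ)/2) ^ j ≤ (1/2) ^ B := pow_le_pow_of_le_one (by norm_num) (by norm_num) hj
    linarith
  classical
  set k := Nat.findGreatest (fun k => ρ (S k) k ≤ r) (max K2 B) with hk
  have hk1 : ρ (S k) k ≤ r := Nat.findGreatest_spec (P := fun k => ρ (S k) k ≤ r)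
    (le_max_left K2 B) hrK
  have hk2 : K2 ≤ k := Nat.le_findGreatest (le_max_left _ _) hrK
  have hk3 : ∀ j, k < j → r ≤ ρ (S j) j := by
    intro j hj
    rcases le_or_gt j (max K2 B) with h | h
    · have := Nat.findGreatest_is_greatest hj h
      exact (not_le.mp this).le
    · exact (hBj j (by have := le_max_right K2 B; omega)).le
  obtain ⟨k', hk'⟩ : ∃ k', k = k' + 1 := ⟨k - 1, by omega⟩
  have hnr : ‖(r : ℂ) * ee x‖ = r := by
    rw [norm_mul, norm_ee, mul_one, Complex.norm_real, Real.norm_of_nonneg hr0]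
  have e1 := htail ((r : ℂ) * ee x) (by rw [hnr]; exact hr1) k (fun j hj => by rw [hnr]; exact hk3 j hj)
  have e2 := hS (S k) k x r hk1 hr1.le
  obtain ⟨φ, hφ0, hφ1, e3⟩ := (hx (S k) k x (hK0 k (by omega))).1 r hr0 hr1.le
  have e4 := (hx (S k') k' x (hK0 k' (by omega))).2
  have e5 : (S k).eval (ee x) = (S k').eval (ee x) + (P (S k') k').eval (ee x) := by
    rw [hk', hSs, eval_add]
  have e6 : ‖(S k).eval (ee x) - (γ k' x : ℂ)‖ ≤ (1/2) ^ k' := by
    rw [e5]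
    convert e4 using 2
    ring
  refine ⟨k', by omega, φ, hφ0, hφ1, ?_⟩
  have hk'' : (1/2 : ℝ) ^ k' = 2 * (1/2) ^ k := by rw [hk', pow_succ]; ring
  rw [hk''] at e6
  have e7 : (∑' n, a n * ((r : ℂ) * ee x) ^ n) -
      (((1 - φ) * γ k' x + φ * γ (k' + 1) x : ℝ) : ℂ) =
      ((∑' n, a n * ((r : ℂ) * ee x) ^ n) - (S (k+1)).eval ((r : ℂ) * ee x)) +
      ((S k).eval ((r : ℂ) * ee x) - (S k).eval (ee x)) +
      ((P (S k) k).eval ((r : ℂ) * ee x) - (φ : ℂ) * ((γ k x : ℂ) - (S k).eval (ee x))) +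
      (((1 - φ : ℝ)) : ℂ) * ((S k).eval (ee x) - (γ k' x : ℂ)) := by
    rw [hSs, eval_add, ← hk']
    push_cast
    ring
  have e8 : ‖(((1 - φ : ℝ)) : ℂ) * ((S k).eval (ee x) - (γ k' x : ℂ))‖ ≤ 1 * (2 * (1/2) ^ k) := by
    rw [norm_mul]
    apply mul_le_mul _ e6 (norm_nonneg _) zero_le_one
    rw [Complex.norm_real, Real.norm_of_nonneg (by linarith)]
    linarith
  have e9 : ((1:ℝ)/2) ^ k ≤ (1/2) ^ K1 := pow_le_pow_of_le_one (by norm_num) (by norm_num) (by omega)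
  show ‖(∑' n, a n * ((r : ℂ) * ee x) ^ n) - (((1 - φ) * γ k' x + φ * γ (k' + 1) x : ℝ) : ℂ)‖ ≤ ε
  rw [e7]
  refine (norm_add_le _ _).trans ?_
  have e10 := norm_add_le (((∑' n, a n * ((r : ℂ) * ee x) ^ n) - (S (k+1)).eval ((r : ℂ) * ee x)) +
      ((S k).eval ((r : ℂ) * ee x) - (S k).eval (ee x)))
      ((P (S k) k).eval ((r : ℂ) * ee x) - (φ : ℂ) * ((γ k x : ℂ) - (S k).eval (ee x)))
  have e11 := norm_add_le ((∑' n, a n * ((r : ℂ) * ee x) ^ n) - (S (k+1)).eval ((r : ℂ) * ee x))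
      ((S k).eval ((r : ℂ) * ee x) - (S k).eval (ee x))
  linarith

lemma ae_real_of_ae_circle {Q : TT → Prop} (h : ∀ᵐ x ∂mu, Q x) : ∀ᵐ θ : ℝ, Q (θ : TT) := by
  have hvol : ∀ᵐ x ∂(volume : Measure TT), Q x := by
    rw [volume_eq_smul_haarAddCircle]
    exact Measure.ae_smul_measure h _
  have h1 : ∀ n : ℤ, ∀ᵐ (θ : ℝ) ∂((volume : Measure ℝ).restrict
      (Set.Ioc (0 + n • (2 * Real.pi)) (0 + (n + 1) • (2 * Real.pi)))), Q (θ : TT) := by
    intro n
    have h2 := (AddCircle.measurePreserving_mk (2 * Real.pi) (0 + n • (2 * Real.pi))).quasiMeasurePreserving.ae hvol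
    have h3 : 0 + n • (2 * Real.pi) + 2 * Real.pi = 0 + (n + 1) • (2 * Real.pi) := by
      simp; ring
    rw [h3] at h2
    exact h2
  have h4 := (ae_restrict_iUnion_iff (μ := (volume : Measure ℝ))
    (fun n : ℤ => Set.Ioc (0 + n • (2 * Real.pi)) (0 + (n + 1) • (2 * Real.pi)))
    (fun θ : ℝ => Q (θ : TT))).mpr h1
  rw [iUnion_Ioc_add_zsmul Real.two_pi_pos, Measure.restrict_univ] at h4
  exact h4

theorem main_statement :
    ∀ g : ℂ → EReal, Measurable g →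
      ∃ a : ℕ → ℂ, (∃ C : ℝ, ∀ n : ℕ, ‖a n‖ ≤ C) ∧
        ∀ᵐ θ : ℝ,
          (∀ x : ℝ, g (Complex.exp ((θ : ℂ) * Complex.I)) = (x : EReal) →
            Tendsto
              (fun r : ℝ => ∑' n : ℕ, a n * ((r : ℂ) * Complex.exp ((θ : ℂ) * Complex.I)) ^ n)
              (nhdsWithin (1 : ℝ) (Set.Iio 1)) (nhds (x : ℂ))) ∧
          (g (Complex.exp ((θ : ℂ) * Complex.I)) = ⊤ →
            Tendsto
              (fun r : ℝ => ‖∑' n : ℕ, a n * ((r : ℂ) * Complex.exp ((θ : ℂ) * Complex.I)) ^ n‖)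
              (nhdsWithin (1 : ℝ) (Set.Iio 1)) atTop ∧
            Tendsto
              (fun r : ℝ => (∑' n : ℕ, a n * ((r : ℂ) * Complex.exp ((θ : ℂ) * Complex.I)) ^ n) /
                ((‖∑' n : ℕ, a n * ((r : ℂ) * Complex.exp ((θ : ℂ) * Complex.I)) ^ n‖ : ℝ) : ℂ))
              (nhdsWithin (1 : ℝ) (Set.Iio 1)) (nhds (1 : ℂ))) ∧
          (g (Complex.exp ((θ : ℂ) * Complex.I)) = ⊥ →
            Tendsto
              (fun r : ℝ => ‖∑' n : ℕ, a n * ((r : ℂ) * Complex.exp ((θ : ℂ) * Complex.I)) ^ n‖)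
              (nhdsWithin (1 : ℝ) (Set.Iio 1)) atTop ∧
            Tendsto
              (fun r : ℝ => (∑' n : ℕ, a n * ((r : ℂ) * Complex.exp ((θ : ℂ) * Complex.I)) ^ n) /
                ((‖∑' n : ℕ, a n * ((r : ℂ) * Complex.exp ((θ : ℂ) * Complex.I)) ^ n‖ : ℝ) : ℂ))
              (nhdsWithin (1 : ℝ) (Set.Iio 1)) (nhds (-1 : ℂ))) := by
  intro g hg
  obtain ⟨a, ha, hae⟩ := main_circle (fun x => g (ee x)) (hg.comp continuous_ee.measurable)
  refine ⟨a, ⟨1, ha⟩, ?_⟩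
  filter_upwards [ae_real_of_ae_circle hae] with θ hθ
  obtain ⟨γ, hγ, hrad⟩ := hθ
  rw [ee_coe] at hγ hrad
  refine ⟨fun y hy => hrad.real (hγ.1 y hy), fun h => ?_, fun h => ?_⟩
  · have := hrad.inf 1 (Or.inl rfl) (by simpa using hγ.2.1 h)
    simpa using this
  · have h2 : Tendsto (fun k => (-1 : ℝ) * γ k) atTop atTop := by
      refine (tendsto_neg_atBot_atTop.comp (hγ.2.2 h)).congr fun k => ?_
      simp
    have := hrad.inf (-1) (Or.inr rfl) h2
    simpa using this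

end Pool.Agent.H24
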