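import Mathlib

/-! Elementary geometry of sectors and of the covering map `x ↦ x^N`. -/

open Complex

namespace Pool.Agent.H24

lemma sin_ge_seventh {t : ℝ} (h0 : 0 ≤ t) (h1 : t ≤ 5 / 2) : t / 7 ≤ Real.sin t := by
  have hpi := Real.pi_gt_three
  have hpi2 := Real.pi_lt_d2
  rcases le_total t (Real.pi / 2) with h | h
  · have := Real.mul_le_sin h0 h
    have h2 : t / 7 ≤ 2 / Real.pi * t := by
      rw [div_mul_eq_mul_div, div_le_div_iff₀ (by norm_num) (by positivity)]
      nlinarith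
    linarith
  · have h3 : 2 / Real.pi * (Real.pi - t) ≤ Real.sin (Real.pi - t) :=
      Real.mul_le_sin (by linarith) (by linarith)
    rw [Real.sin_pi_sub] at h3
    have h4 : 5 / 14 ≤ 2 / Real.pi * (Real.pi - t) := by
      rw [div_mul_eq_mul_div, div_le_div_iff₀ (by norm_num) (by positivity)]
      have := Real.pi_gt_d2
      nlinarith
    linarith

lemma abs_sin_ge {t : ℝ} (h : |t| ≤ 5 / 2) : |t| / 7 ≤ |Real.sin t| := by
  have := sin_ge_seventh (abs_nonneg t) h
  rcases le_total 0 t with h0 | h0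
  · rw [abs_of_nonneg h0] at this ⊢
    exact this.trans (le_abs_self _)
  · rw [abs_of_nonpos h0] at this ⊢
    rw [Real.sin_neg] at this
    exact this.trans (neg_le_abs _)

lemma abs_exp_sub_one_ge {a : ℝ} (h : |a| ≤ 3) : |a| / 21 ≤ |Real.exp a - 1| := by
  rcases le_total 0 a with h0 | h0
  · rw [abs_of_nonneg h0]
    have := Real.add_one_le_exp a
    rw [abs_of_nonneg (by linarith)]
    linarith
  · rw [abs_of_nonpos h0] at h ⊢
    have h1 := Real.add_one_le_exp (-a)
    have h2 : Real.exp a * Real.exp (-a) = 1 := by rw [← Real.exp_add]; simp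
    have h3 : Real.exp (-a) ≤ Real.exp 3 := Real.exp_le_exp.2 h
    have h4 : Real.exp 3 ≤ 21 := by
      have h := Real.exp_one_lt_d9
      have : Real.exp 3 = Real.exp 1 * Real.exp 1 * Real.exp 1 := by
        rw [← Real.exp_add, ← Real.exp_add]; norm_num
      rw [this]
      have h0 := Real.exp_pos 1
      have h5 : Real.exp 1 * Real.exp 1 ≤ 2.7182818286 * 2.7182818286 :=
        mul_le_mul h.le h.le h0.le (by norm_num)
      have h6 : Real.exp 1 * Real.exp 1 * Real.exp 1 ≤ 2.7182818286 * 2.7182818286 * 2.7182818286 :=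
        mul_le_mul h5 h.le h0.le (by norm_num)
      refine h6.trans (by norm_num)
    have h5 : Real.exp a ≤ 1 := Real.exp_le_one_iff.2 h0
    rw [abs_of_nonpos (by linarith)]
    -- 1 - e^a = e^a (e^{-a} - 1) ≥ e^a (-a) ≥ -a/21
    have h6 : 1 / 21 ≤ Real.exp a := by
      have h7 : Real.exp a * Real.exp (-a) ≤ Real.exp a * 21 :=
        mul_le_mul_of_nonneg_left (h3.trans h4) (Real.exp_pos a).le
      linarith
    nlinarith [Real.exp_pos a]

lemma normSq_exp_sub_one (z : ℂ) : ‖exp z - 1‖ ^ 2 =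
    (Real.exp z.re - 1) ^ 2 + 4 * Real.exp z.re * Real.sin (z.im / 2) ^ 2 := by
  rw [← Complex.normSq_eq_norm_sq, Complex.normSq_apply]
  simp only [Complex.sub_re, Complex.sub_im, Complex.exp_re, Complex.exp_im, Complex.one_re,
    Complex.one_im, sub_zero]
  have h1 : Real.cos z.im = 1 - 2 * Real.sin (z.im / 2) ^ 2 := by
    have := Real.cos_two_mul (z.im / 2)
    rw [mul_div_cancel₀ _ (by norm_num : (2 : ℝ) ≠ 0)] at this
    have h2 := Real.sin_sq_add_cos_sq (z.im / 2)
    linarith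
  have h2 := Real.sin_sq_add_cos_sq z.im
  have h3 : (Real.exp z.re * Real.cos z.im - 1) * (Real.exp z.re * Real.cos z.im - 1) +
      Real.exp z.re * Real.sin z.im * (Real.exp z.re * Real.sin z.im) =
      Real.exp z.re ^ 2 * (Real.sin z.im ^ 2 + Real.cos z.im ^ 2)
        - 2 * Real.exp z.re * Real.cos z.im + 1 := by ring
  rw [h3, h2, h1]
  ring

/-- Root lemma. -/
lemma norm_le_exp_sub_one {z : ℂ} (h1 : |z.re| ≤ 3) (h2 : |z.im| ≤ 5) :
    ‖z‖ ≤ 50 * ‖exp z - 1‖ := by
  have h3 := abs_exp_sub_one_ge h1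
  have h4 : |z.im / 2| ≤ 5 / 2 := by rw [abs_div, abs_two]; linarith
  have h5 := abs_sin_ge h4
  rw [abs_div, abs_two] at h5
  have h6 : (1 : ℝ) / 21 ≤ Real.exp z.re := by
    have h7 : Real.exp z.re * Real.exp (-z.re) = 1 := by rw [← Real.exp_add]; simp
    have h8 : Real.exp (-z.re) ≤ 21 := by
      have h9 : Real.exp (-z.re) ≤ Real.exp 3 :=
        Real.exp_le_exp.2 (by linarith [neg_le_abs z.re])
      refine h9.trans ?_
      have h := Real.exp_one_lt_d9
      have : Real.exp 3 = Real.exp 1 * Real.exp 1 * Real.exp 1 := by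
        rw [← Real.exp_add, ← Real.exp_add]; norm_num
      rw [this]
      have h0 := Real.exp_pos 1
      have h5 : Real.exp 1 * Real.exp 1 ≤ 2.7182818286 * 2.7182818286 :=
        mul_le_mul h.le h.le h0.le (by norm_num)
      have h6 : Real.exp 1 * Real.exp 1 * Real.exp 1 ≤ 2.7182818286 * 2.7182818286 * 2.7182818286 :=
        mul_le_mul h5 h.le h0.le (by norm_num)
      refine h6.trans (by norm_num)
    have h10 := mul_le_mul_of_nonneg_left h8 (Real.exp_pos z.re).le
    linarith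
  have key : ‖z‖ ^ 2 ≤ (50 * ‖exp z - 1‖) ^ 2 := by
    rw [mul_pow, normSq_exp_sub_one, ← Complex.normSq_eq_norm_sq, Complex.normSq_apply]
    have e1 : (|z.re| / 21) ^ 2 ≤ (Real.exp z.re - 1) ^ 2 := by
      rw [← sq_abs (Real.exp z.re - 1)]
      exact pow_le_pow_left₀ (by positivity) h3 2
    have e2 : (|z.im| / 2 / 7) ^ 2 ≤ Real.sin (z.im / 2) ^ 2 := by
      rw [← sq_abs (Real.sin (z.im / 2))]
      exact pow_le_pow_left₀ (by positivity) h5 2
    rw [div_pow, sq_abs] at e1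
    rw [div_pow, div_pow, sq_abs] at e2
    have e3 : 1 / 21 * (z.im ^ 2 / 2 ^ 2 / 7 ^ 2) ≤ Real.exp z.re * Real.sin (z.im / 2) ^ 2 :=
      mul_le_mul h6 e2 (by positivity) (Real.exp_pos _).le
    nlinarith [sq_nonneg z.re, sq_nonneg z.im]
  exact le_of_sq_le_sq key (by positivity)

/-- In exponential coordinates the covering map controls distances. -/
lemma dist_le_pow {N : ℕ} (hN : 6 ≤ N) {z c : ℂ} (h1 : |(z - c).re| ≤ 3) (h2 : |(z - c).im| ≤ 5) :
    N * ‖exp (z / N) - exp (c / N)‖ ≤ 100 * ‖exp (c / N)‖ / ‖exp c‖ * ‖exp z - exp c‖ := by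
  have hN' : (6 : ℝ) ≤ N := by exact_mod_cast hN
  have hN0 : (N : ℂ) ≠ 0 := by
    have : N ≠ 0 := by omega
    exact_mod_cast this
  have e1 : exp (z / N) - exp (c / N) = exp (c / N) * (exp ((z - c) / N) - 1) := by
    rw [mul_sub, ← Complex.exp_add, mul_one]
    congr 2
    field_simp
    ring
  have e2 : exp z - exp c = exp c * (exp (z - c) - 1) := by
    rw [mul_sub, ← Complex.exp_add, mul_one]
    congr 2
    ring
  have hz : ‖z - c‖ ≤ 6 := by
    have h3 : ‖z - c‖ ^ 2 ≤ 6 ^ 2 := by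
      rw [← Complex.normSq_eq_norm_sq, Complex.normSq_apply]
      have h4 := abs_le.1 h1
      have h5 := abs_le.1 h2
      nlinarith
    exact le_of_sq_le_sq h3 (by norm_num)
  have h6 : ‖(z - c) / N‖ ≤ 1 := by
    rw [norm_div, Complex.norm_natCast, div_le_one (by linarith)]
    linarith
  have h7 := Complex.norm_exp_sub_one_le h6
  have h8 := norm_le_exp_sub_one h1 h2
  rw [e1, e2, norm_mul, norm_mul]
  have hc : 0 < ‖exp c‖ := norm_pos_iff.2 (exp_ne_zero _)
  have e3 : 100 * ‖exp (c / N)‖ / ‖exp c‖ * (‖exp c‖ * ‖exp (z - c) - 1‖)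
      = ‖exp (c / N)‖ * (100 * ‖exp (z - c) - 1‖) := by
    field_simp
  rw [e3]
  have e4 : (N : ℝ) * (‖exp (c / N)‖ * ‖exp ((z - c) / N) - 1‖)
      = ‖exp (c / N)‖ * (N * ‖exp ((z - c) / N) - 1‖) := by ring
  rw [e4]
  apply mul_le_mul_of_nonneg_left _ (norm_nonneg _)
  have h9 : (N : ℝ) * ‖exp ((z - c) / N) - 1‖ ≤ 2 * ‖z - c‖ := by
    have : (N : ℝ) * ‖(z - c) / N‖ = ‖z - c‖ := by
      rw [norm_div, Complex.norm_natCast]
      field_simp
    nlinarith
  linarith

lemma im_exp_mul (y : ℂ) (θ : ℝ) : (exp (-(θ * I)) * y).im = ‖y‖ * Real.sin (arg y - θ) := by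
  have h : exp (-(θ * I)) * y = ‖y‖ * exp ((arg y - θ : ℝ) * I) := by
    conv_lhs => rw [← Complex.norm_mul_exp_arg_mul_I y]
    rw [mul_left_comm, ← Complex.exp_add]
    congr 2
    push_cast
    ring
  rw [h, Complex.im_ofReal_mul, Complex.exp_ofReal_mul_I_im]

lemma arg_sector {y : ℂ} (hy : y ≠ 0) {θ : ℝ} (hθ0 : 0 < θ) (hθ : θ < Real.pi)
    (h1 : 0 ≤ y.im) (h2 : (exp (-(θ * I)) * y).im ≤ 0) : 0 ≤ arg y ∧ arg y ≤ θ := by
  have h3 : 0 ≤ arg y := Complex.arg_nonneg_iff.2 h1
  refine ⟨h3, ?_⟩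
  by_contra h4
  push Not at h4
  rw [im_exp_mul] at h2
  have h5 : 0 < Real.sin (arg y - θ) :=
    Real.sin_pos_of_pos_of_lt_pi (by linarith) (by linarith [Complex.arg_le_pi y])
  have h6 : 0 < ‖y‖ := norm_pos_iff.2 hy
  nlinarith [mul_pos h6 h5]

lemma arg_sector_strict {y : ℂ} {θ : ℝ} (hθ0 : 0 < θ) (hθ : θ < Real.pi)
    (h1 : 0 < y.im) (h2 : (exp (-(θ * I)) * y).im < 0) : 0 < arg y ∧ arg y < θ := by
  have hy : y ≠ 0 := by rintro rfl; simp at h1
  obtain ⟨h3, h4⟩ := arg_sector hy hθ0 hθ h1.le h2.le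
  refine ⟨lt_of_le_of_ne h3 ?_, lt_of_le_of_ne h4 ?_⟩
  · intro h5
    have : y.im = ‖y‖ * Real.sin (arg y) := (Complex.norm_mul_sin_arg y).symm
    rw [← h5, Real.sin_zero, mul_zero] at this
    linarith
  · intro h5
    rw [im_exp_mul, h5, sub_self, Real.sin_zero, mul_zero] at h2
    exact lt_irrefl _ h2

/-- the primitive root of unity -/
noncomputable def ep (N : ℕ) : ℂ := exp (2 * Real.pi * I / N)

lemma ep_pow {N : ℕ} (hN : 1 ≤ N) : ep N ^ N = 1 := by
  have hN0 : (N : ℂ) ≠ 0 := by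
    have : N ≠ 0 := by omega
    exact_mod_cast this
  rw [ep, ← Complex.exp_nat_mul, mul_div_cancel₀ _ hN0, Complex.exp_two_pi_mul_I]

lemma ep_ne_zero (N : ℕ) : ep N ≠ 0 := exp_ne_zero _

lemma norm_ep (N : ℕ) : ‖ep N‖ = 1 := by
  have : ep N = exp ((2 * Real.pi / N : ℝ) * I) := by
    rw [ep]; congr 1; push_cast; ring
  rw [this, Complex.norm_exp_ofReal_mul_I]

lemma norm_ep_pow (N k : ℕ) : ‖ep N ^ k‖ = 1 := by rw [norm_pow, norm_ep, one_pow]

lemma pow_ep_mul {N : ℕ} (hN : 1 ≤ N) (k : ℕ) (x : ℂ) : (x / ep N ^ k) ^ N = x ^ N := by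
  rw [div_pow, ← pow_mul, mul_comm k N, pow_mul, ep_pow hN, one_pow, div_one]

/-- Rotated copies of an open sector of opening `2π/N` are disjoint. -/
lemma sector_unique {N : ℕ} (hN : 1 ≤ N) {c x : ℂ} {k l : ℕ}
    (hk : k < N) (hl : l < N)
    (h1 : 0 < arg (x / ep N ^ k / c)) (h2 : arg (x / ep N ^ k / c) < 2 * Real.pi / N)
    (h3 : 0 < arg (x / ep N ^ l / c)) (h4 : arg (x / ep N ^ l / c) < 2 * Real.pi / N) : k = l := by
  have hN' : (0 : ℝ) < N := by exact_mod_cast hN
  have hN0 : (N : ℂ) ≠ 0 := by exact_mod_cast hN'.ne'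
  set y := x / ep N ^ k / c with hy
  set y' := x / ep N ^ l / c with hy'
  have hy0 : y ≠ 0 := by rintro h; rw [h, Complex.arg_zero] at h1; exact lt_irrefl _ h1
  have hy0' : y' ≠ 0 := by rintro h; rw [h, Complex.arg_zero] at h3; exact lt_irrefl _ h3
  have e1 : exp (log y + k * (2 * Real.pi * I / N)) = exp (log y' + l * (2 * Real.pi * I / N)) := by
    rw [Complex.exp_add, Complex.exp_add, Complex.exp_log hy0, Complex.exp_log hy0',
      Complex.exp_nat_mul, Complex.exp_nat_mul]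
    have hk0 : ep N ^ k ≠ 0 := pow_ne_zero _ (ep_ne_zero N)
    have hl0 : ep N ^ l ≠ 0 := pow_ne_zero _ (ep_ne_zero N)
    have hc : c ≠ 0 := by rintro rfl; simp [hy] at hy0
    change y * ep N ^ k = y' * ep N ^ l
    rw [hy, hy']
    field_simp
  obtain ⟨n, hn⟩ := Complex.exp_eq_exp_iff_exists_int.1 e1
  have e2 := congrArg Complex.im hn
  have e3 : arg y + k * (2 * Real.pi / N) = arg y' + l * (2 * Real.pi / N) + n * (2 * Real.pi) := by
    have a1 : (log y + k * (2 * Real.pi * I / N)).im = arg y + k * (2 * Real.pi / N) := by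
      rw [Complex.add_im, Complex.log_im]
      congr 1
      have : (k : ℂ) * (2 * Real.pi * I / N) = ((k * (2 * Real.pi / N) : ℝ) : ℂ) * I := by
        push_cast; ring
      rw [this, Complex.im_ofReal_mul, Complex.I_im, mul_one]
    have a2 : (log y' + l * (2 * Real.pi * I / N) + n * (2 * Real.pi * I)).im =
        arg y' + l * (2 * Real.pi / N) + n * (2 * Real.pi) := by
      rw [Complex.add_im, Complex.add_im, Complex.log_im]
      congr 1
      · congr 1
        have : (l : ℂ) * (2 * Real.pi * I / N) = ((l * (2 * Real.pi / N) : ℝ) : ℂ) * I := by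
          push_cast; ring
        rw [this, Complex.im_ofReal_mul, Complex.I_im, mul_one]
      · have : (n : ℂ) * (2 * Real.pi * I) = ((n * (2 * Real.pi) : ℝ) : ℂ) * I := by
          push_cast; ring
        rw [this, Complex.im_ofReal_mul, Complex.I_im, mul_one]
    rw [a1, a2] at e2
    exact e2
  have hpi := Real.pi_pos
  have e4 : arg y - arg y' = (2 * Real.pi / N) * ((l : ℤ) - k + n * N : ℤ) := by
    push_cast
    have : n * (2 * Real.pi) = (2 * Real.pi / N) * (n * N) := by field_simp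
    rw [this] at e3
    linarith
  have hp : 0 < 2 * Real.pi / N := by positivity
  have e5 : |(((l : ℤ) - k + n * N : ℤ) : ℝ)| < 1 := by
    have : |arg y - arg y'| < 2 * Real.pi / N := by
      rw [abs_lt]; constructor <;> linarith
    rw [e4, abs_mul, abs_of_pos hp] at this
    by_contra h
    push Not at h
    nlinarith
  have e6 : (l : ℤ) - k + n * N = 0 := by
    have : |((l : ℤ) - k + n * N : ℤ)| < 1 := by exact_mod_cast e5
    exact Int.abs_lt_one_iff.1 this
  have hk' : (k : ℤ) < N := by exact_mod_cast hk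
  have hl' : (l : ℤ) < N := by exact_mod_cast hl
  have hn0 : n = 0 := by
    have h5 : n * N = k - l := by linarith
    have h6 : n * N < N := by omega
    have h7 : -(N : ℤ) < n * N := by omega
    have hNz : (0 : ℤ) < N := by exact_mod_cast hN
    have h8 : n < 1 := by
      by_contra h; push Not at h
      nlinarith
    have h9 : -1 < n := by
      by_contra h; push Not at h
      nlinarith
    omega
  rw [hn0] at e6
  omega

end Pool.Agent.H24
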