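import Pool.Agent.H24.Bd

/-! The hinge weight. -/

open scoped ContDiff
open Complex

namespace Pool.Agent.H24

variable {F : Type*} [NormedAddCommGroup F] [NormedSpace ℝ F]

namespace Bd

lemma inner {f g : ℂ → ℂ} {x : ℂ} {A B L : ℝ} (hf : Bd f x A L) (hg : Bd g x B L) (hL : 0 ≤ L) :
    Bd (fun y => inner ℝ (f y) (g y)) x (4 * (A * B)) L :=
  bilin hf hg hL (hf.smooth.inner ℝ hg.smooth) fun _ hn =>
    (innerSL ℝ : ℂ →L[ℝ] ℂ →L[ℝ] ℝ).norm_iteratedFDeriv_le_of_bilinear_of_le_one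
      hf.smooth hg.smooth x (by exact_mod_cast hn) (norm_innerSL_le ℝ)

lemma const_mul {f : ℂ → ℝ} {x : ℂ} {A L : ℝ} (c : ℝ) (hf : Bd f x A L) :
    Bd (fun y => c * f y) x (|c| * A) L := by
  have d1 := ContDiff.one_lt_two' hf.smooth
  have s : ContDiff ℝ 2 (fun y => c * f y) := contDiff_const.mul hf.smooth
  have e1 : fderiv ℝ (fun y => c * f y) x = c • fderiv ℝ f x := by
    exact fderiv_const_mul (d1 x) c
  have e2 : iteratedFDeriv ℝ 2 (fun y => c * f y) x = c • iteratedFDeriv ℝ 2 f x := by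
    exact iteratedFDeriv_const_smul_apply (a := c) (f := f) hf.smooth.contDiffAt
  refine ⟨s, ?_, ?_, ?_⟩
  · rw [norm_mul, Real.norm_eq_abs]
    exact mul_le_mul_of_nonneg_left hf.b0 (abs_nonneg c)
  · rw [e1, norm_smul, Real.norm_eq_abs, mul_assoc]
    exact mul_le_mul_of_nonneg_left hf.b1 (abs_nonneg c)
  · rw [e2, norm_smul, Real.norm_eq_abs, mul_assoc]
    exact mul_le_mul_of_nonneg_left hf.b2 (abs_nonneg c)

lemma const_cmul {f : ℂ → ℂ} {x : ℂ} {A L : ℝ} (c : ℂ) (hf : Bd f x A L) :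
    Bd (fun y => c * f y) x (‖c‖ * A) L := by
  have d1 := ContDiff.one_lt_two' hf.smooth
  have s : ContDiff ℝ 2 (fun y => c * f y) := contDiff_const.mul hf.smooth
  have e1 : fderiv ℝ (fun y => c * f y) x = c • fderiv ℝ f x := by
    exact fderiv_const_mul (d1 x) c
  have e2 : iteratedFDeriv ℝ 2 (fun y => c * f y) x = c • iteratedFDeriv ℝ 2 f x := by
    exact iteratedFDeriv_const_smul_apply (a := c) (f := f) hf.smooth.contDiffAt
  refine ⟨s, ?_, ?_, ?_⟩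
  · rw [norm_mul]
    exact mul_le_mul_of_nonneg_left hf.b0 (norm_nonneg c)
  · rw [e1, norm_smul, mul_assoc]
    exact mul_le_mul_of_nonneg_left hf.b1 (norm_nonneg c)
  · rw [e2, norm_smul, mul_assoc]
    exact mul_le_mul_of_nonneg_left hf.b2 (norm_nonneg c)

lemma holo {f f' f'' : ℂ → ℂ} {x : ℂ} {A L : ℝ} (hs : ContDiff ℝ 2 f)
    (h1 : ∀ y, HasDerivAt f (f' y) y) (h2 : ∀ y, HasDerivAt f' (f'' y) y)
    (a0 : ‖f x‖ ≤ A) (a1 : ‖f' x‖ ≤ A * L) (a2 : ‖f'' x‖ ≤ A * L ^ 2) : Bd f x A L := by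
  have e1 : fderiv ℝ f = fun y => f' y • (1 : ℂ →L[ℝ] ℂ) := by
    funext y
    exact (h1 y).complexToReal_fderiv.fderiv
  have n1 : ‖(1 : ℂ →L[ℝ] ℂ)‖ ≤ 1 := ContinuousLinearMap.norm_id_le
  refine ⟨hs, a0, ?_, ?_⟩
  · rw [e1]
    refine (norm_smul_le _ _).trans ?_
    refine le_trans ?_ a1
    exact mul_le_of_le_one_right (norm_nonneg _) n1
  · rw [norm_iter2, e1]
    have e3 : HasFDerivAt (fun y => f' y • (1 : ℂ →L[ℝ] ℂ))
        ((f'' x • (1 : ℂ →L[ℝ] ℂ)).smulRight (1 : ℂ →L[ℝ] ℂ)) x :=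
      (h2 x).complexToReal_fderiv.smul_const (1 : ℂ →L[ℝ] ℂ)
    rw [e3.fderiv]
    have hA : 0 ≤ A * L ^ 2 := (norm_nonneg _).trans a2
    refine ContinuousLinearMap.opNorm_le_bound _ hA fun y => ?_
    refine ContinuousLinearMap.opNorm_le_bound _ (by positivity) fun z => ?_
    simp only [ContinuousLinearMap.smulRight_apply, smul_apply,
      one_apply_eq_self, norm_smul]
    exact mul_le_mul_of_nonneg_right (mul_le_mul_of_nonneg_right a2 (norm_nonneg _)) (norm_nonneg _)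

end Bd

/-- Powers have bounded growth on the unit disc slightly enlarged. -/
lemma pow_le_exp {N : ℕ} (hN : 1 ≤ N) {t : ℝ} (h0 : 0 ≤ t) (ht : t ≤ 1 + 2 / N) {k : ℕ}
    (hk : k ≤ N) : t ^ k ≤ Real.exp 2 := by
  have hN' : (0 : ℝ) < N := by exact_mod_cast hN
  have h1 : t ≤ Real.exp (2 / N) := by
    have := Real.add_one_le_exp (2 / (N : ℝ))
    linarith
  have h2 : (1 : ℝ) ≤ Real.exp (2 / N) := Real.one_le_exp (by positivity)
  calc t ^ k ≤ (Real.exp (2 / N)) ^ k := pow_le_pow_left₀ h0 h1 k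
    _ ≤ (Real.exp (2 / N)) ^ N := pow_le_pow_right₀ h2 hk
    _ = Real.exp 2 := by
      rw [← Real.exp_nat_mul]
      congr 1
      field_simp

lemma exp_two_le : Real.exp 2 ≤ 8 := by
  have h := Real.exp_one_lt_d9
  have : Real.exp 2 = Real.exp 1 * Real.exp 1 := by rw [← Real.exp_add]; norm_num
  rw [this]
  nlinarith [Real.exp_pos 1]

lemma bd_pow {N : ℕ} (hN : 1 ≤ N) {x : ℂ} (hx : ‖x‖ ≤ 1 + 2 / N) :
    Bd (fun y : ℂ => y ^ N) x 8 N := by
  have hN' : (0 : ℝ) < N := by exact_mod_cast hN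
  refine Bd.holo (f' := fun y => N * y ^ (N - 1)) (f'' := fun y => N * ((N - 1 : ℕ) * y ^ (N - 1 - 1)))
    (contDiff_id.pow N) (fun y => hasDerivAt_pow N y) (fun y => ?_) ?_ ?_ ?_
  · exact (hasDerivAt_pow (N - 1) y).const_mul (N : ℂ)
  · rw [norm_pow]
    exact (pow_le_exp hN (norm_nonneg _) hx le_rfl).trans exp_two_le
  · rw [norm_mul, norm_pow, Complex.norm_natCast, mul_comm]
    exact mul_le_mul_of_nonneg_right
      ((pow_le_exp hN (norm_nonneg _) hx (Nat.sub_le _ _)).trans exp_two_le) hN'.le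
  · rw [norm_mul, norm_mul, norm_pow, Complex.norm_natCast, Complex.norm_natCast]
    have h1 : ‖x‖ ^ (N - 1 - 1) ≤ 8 :=
      (pow_le_exp hN (norm_nonneg _) hx (by omega)).trans exp_two_le
    have h2 : ((N - 1 : ℕ) : ℝ) ≤ N := by exact_mod_cast Nat.sub_le _ _
    have h3 : (0 : ℝ) ≤ ((N - 1 : ℕ) : ℝ) := Nat.cast_nonneg _
    have h4 : ((N - 1 : ℕ) : ℝ) * ‖x‖ ^ (N - 1 - 1) ≤ N * 8 :=
      mul_le_mul h2 h1 (by positivity) hN'.le
    nlinarith

/-- One hinge weight: `(|x^N - h|² + w²)^{-1/2}`. -/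
noncomputable def gw (N : ℕ) (w : ℝ) (h : ℂ) (x : ℂ) : ℝ :=
  (Real.sqrt (inner ℝ (x ^ N - h) (x ^ N - h) + w ^ 2))⁻¹

lemma gw_arg_pos {N : ℕ} {w : ℝ} (hw : 0 < w) (h x : ℂ) :
    0 < inner ℝ (x ^ N - h) (x ^ N - h) + w ^ 2 := by
  have : 0 ≤ inner ℝ (x ^ N - h) (x ^ N - h) := real_inner_self_nonneg
  positivity

lemma contDiff_gw (N : ℕ) {w : ℝ} (hw : 0 < w) (h : ℂ) {n : WithTop ℕ∞} :
    ContDiff ℝ n (gw N w h) := by
  have h1 : ContDiff ℝ n (fun x : ℂ => x ^ N - h) := (contDiff_id.pow N).sub contDiff_const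
  have h2 : ContDiff ℝ n (fun x : ℂ => inner ℝ (x ^ N - h) (x ^ N - h) + w ^ 2) :=
    (h1.inner ℝ h1).add contDiff_const
  have h3 := h2.sqrt (fun x => (gw_arg_pos hw h x).ne')
  exact h3.inv (fun x => (Real.sqrt_pos.2 (gw_arg_pos hw h x)).ne')

lemma gw_pos (N : ℕ) {w : ℝ} (hw : 0 < w) (h x : ℂ) : 0 < gw N w h x :=
  inv_pos.2 (Real.sqrt_pos.2 (gw_arg_pos hw h x))

/-- bounds on one hinge weight -/
lemma bd_gw : ∃ K : ℝ, 1 ≤ K ∧ ∀ (N : ℕ) (w : ℝ) (h x : ℂ), 1 ≤ N → 0 < w → w ≤ 1 → ‖h‖ ≤ 4 →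
    ‖x‖ ≤ 1 + 2 / N → Bd (gw N w h) x (K * gw N w h x) (N * gw N w h x) := by
  refine ⟨2 * (4 * (200 * 200) + 1) ^ 2, by norm_num, ?_⟩
  intro N w h x hN hw hw1 hh hx
  have hN' : (1 : ℝ) ≤ N := by exact_mod_cast hN
  set D := Real.sqrt (inner ℝ (x ^ N - h) (x ^ N - h) + w ^ 2) with hD
  have hDpos : 0 < D := Real.sqrt_pos.2 (gw_arg_pos hw h x)
  have hDsq : D ^ 2 = inner ℝ (x ^ N - h) (x ^ N - h) + w ^ 2 :=
    Real.sq_sqrt (gw_arg_pos hw h x).le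
  have hin : inner ℝ (x ^ N - h) (x ^ N - h) = ‖x ^ N - h‖ ^ 2 := real_inner_self_eq_norm_sq _
  have hpw := bd_pow hN hx
  have hD1 : ‖x ^ N - h‖ ≤ D := by
    apply Real.le_sqrt_of_sq_le
    rw [hin]; nlinarith [sq_nonneg w]
  have hD2 : D ≤ 13 := by
    rw [hD]
    apply Real.sqrt_le_iff.2
    refine ⟨by norm_num, ?_⟩
    rw [hin]
    have : ‖x ^ N - h‖ ≤ 12 := (norm_sub_le _ _).trans (by linarith [hpw.b0])
    nlinarith [norm_nonneg (x ^ N - h)]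
  have hDi : gw N w h x = D⁻¹ := rfl
  have hL0 : 0 ≤ (N : ℝ) * D⁻¹ := by positivity
  -- bound for `x^N - h`
  have hz : Bd (fun y : ℂ => y ^ N - h) x (200 * D) (N * D⁻¹) := by
    have hc : Bd (fun y : ℂ => y ^ N - h) x 12 N := by
      have := hpw.sub (Bd.const (x := x) (L := (N : ℝ)) (A := 4) h (by positivity) hh)
      exact this.mono (by positivity) (by norm_num) le_rfl
    refine ⟨hc.smooth, hD1.trans (by linarith), ?_, ?_⟩
    · refine hc.b1.trans ?_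
      have : 200 * D * (N * D⁻¹) = 200 * N := by field_simp
      rw [this]; linarith
    · refine hc.b2.trans ?_
      have : 200 * D * (N * D⁻¹) ^ 2 = 200 * (N ^ 2 * D⁻¹) := by field_simp
      rw [this]
      have h1 : (1 : ℝ) / 13 ≤ D⁻¹ := by
        rw [one_div]; exact inv_anti₀ hDpos hD2
      nlinarith [mul_le_mul_of_nonneg_left h1 (sq_nonneg (N : ℝ))]
  have hP : Bd (fun y : ℂ => inner ℝ (y ^ N - h) (y ^ N - h) + w ^ 2) x
      ((4 * (200 * 200) + 1) * D ^ 2) (N * D⁻¹) := by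
    have h1 := hz.inner hz hL0
    have h2 := Bd.const (x := x) (L := (N * D⁻¹ : ℝ)) (A := D ^ 2) (w ^ 2) hL0 (by
      rw [Real.norm_eq_abs, abs_of_nonneg (sq_nonneg _), hDsq]
      linarith [real_inner_self_nonneg (x := x ^ N - h)])
    exact (h1.add h2).mono hL0 (by nlinarith) le_rfl
  have hval : inner ℝ (x ^ N - h) (x ^ N - h) + w ^ 2 = D ^ 2 := hDsq.symm
  have hsD : Real.sqrt (D ^ 2) = D := Real.sqrt_sq hDpos.le
  have hval' : ∀ y : ℂ, 0 < inner ℝ (y ^ N - h) (y ^ N - h) + w ^ 2 := gw_arg_pos hw h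
  have key := hP.comp (φ := fun t => (Real.sqrt t)⁻¹)
    (φ' := fun t => - (1 / 2) * (t * Real.sqrt t)⁻¹)
    (φ'' := fun t => (3 / 4) * (t ^ 2 * Real.sqrt t)⁻¹)
    (B := (4 * (200 * 200) + 1) ^ 2 * D⁻¹)
    (contDiff_gw N hw h) (fun y => ?_) ?_ ?_ ?_ ?_ hL0
  · refine key.mono hL0 (by rw [hDi]; linarith) (by rw [hDi])
  · have hp := hval' y
    have hsp := Real.sqrt_pos.2 hp
    have := (Real.hasDerivAt_sqrt hp.ne').inv hsp.ne'
    refine this.congr_deriv ?_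
    rw [Real.sq_sqrt hp.le]
    field_simp
  · rw [hval]
    have hsd : HasDerivAt Real.sqrt (1 / (2 * D)) (D ^ 2) := by
      have := Real.hasDerivAt_sqrt (x := D ^ 2) (by positivity)
      rwa [hsD] at this
    have h1 : HasDerivAt (fun t => t * Real.sqrt t) (1 * D + D ^ 2 * (1 / (2 * D))) (D ^ 2) := by
      have := (hasDerivAt_id (D ^ 2)).mul hsd
      rw [hsD] at this
      exact this
    have h2 := (h1.inv (by rw [hsD]; positivity)).const_mul (- (1 / 2) : ℝ)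
    refine h2.congr_deriv ?_
    rw [hsD]
    field_simp
    ring
  · rw [hval, hsD, abs_of_pos (by positivity)]
    nlinarith [inv_pos.2 hDpos]
  · simp only [hval, hsD]
    rw [abs_mul, abs_neg, abs_of_pos (by norm_num : (0 : ℝ) < 1 / 2),
      abs_of_pos (by positivity : (0 : ℝ) < (D ^ 2 * D)⁻¹)]
    have : 1 / 2 * (D ^ 2 * D)⁻¹ * ((4 * (200 * 200) + 1) * D ^ 2)
      = (4 * (200 * 200) + 1) / 2 * D⁻¹ := by field_simp
    rw [this]
    exact mul_le_mul_of_nonneg_right (by norm_num) (inv_pos.2 hDpos).le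
  · simp only [hval, hsD]
    rw [abs_of_pos (by positivity)]
    have : 3 / 4 * ((D ^ 2) ^ 2 * D)⁻¹ * ((4 * (200 * 200) + 1) * D ^ 2) ^ 2
      = 3 / 4 * (4 * (200 * 200) + 1) ^ 2 * D⁻¹ := by field_simp
    rw [this]
    exact mul_le_mul_of_nonneg_right (by norm_num) (inv_pos.2 hDpos).le

end Pool.Agent.H24
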