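import Pool.Agent.H24.Iso

/-! The hexagonal lattice and a three-fold symmetric packing. -/

open Complex Filter Topology MeasureTheory
open scoped ContDiff Pointwise

namespace Pool.Agent.H24

lemma ep3_sum : ep 3 ^ 2 = -1 - ep 3 := by
  have h3 : (ep 3 - 1) * (ep 3 ^ 2 + ep 3 + 1) = 0 := by
    have := ep3_cube
    linear_combination this
  rcases mul_eq_zero.1 h3 with h | h
  · have h1 := congrArg Complex.re h
    rw [Complex.sub_re, ep3_re] at h1
    norm_num at h1
  · linear_combination h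

/-- coordinates in the hexagonal basis -/
noncomputable def hexE : ℂ ≃ₗ[ℝ] (Fin 2 → ℝ) where
  toFun x := ![x.re + x.im / Real.sqrt 3, 2 * x.im / Real.sqrt 3]
  map_add' x y := by
    ext i
    fin_cases i
    · simp; ring
    · simp; ring
  map_smul' r x := by
    ext i
    fin_cases i
    · simp; ring
    · simp; ring
  invFun c := (c 0 : ℂ) + (c 1 : ℂ) * ep 3
  left_inv x := by
    have h3 : Real.sqrt 3 ≠ 0 := by positivity
    apply Complex.ext
    · simp [ep3_re, ep3_im]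
      field_simp
      ring
    · simp [ep3_re, ep3_im]
      field_simp
  right_inv c := by
    have h3 : Real.sqrt 3 ≠ 0 := by positivity
    ext i
    fin_cases i
    · simp [ep3_re, ep3_im]
      field_simp
      ring
    · simp [ep3_re, ep3_im]
      field_simp

noncomputable def hexB : Module.Basis (Fin 2) ℝ ℂ := Module.Basis.ofEquivFun hexE

lemma hexB_zero : hexB 0 = 1 := by
  have : hexB 0 = hexE.symm (Pi.single 0 1) := by
    rw [hexB, Module.Basis.coe_ofEquivFun]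
  rw [this]
  show ((Pi.single 0 1 : Fin 2 → ℝ) 0 : ℂ) + ((Pi.single 0 1 : Fin 2 → ℝ) 1 : ℂ) * ep 3 = 1
  simp

lemma hexB_one : hexB 1 = ep 3 := by
  have : hexB 1 = hexE.symm (Pi.single 1 1) := by
    rw [hexB, Module.Basis.coe_ofEquivFun]
  rw [this]
  show ((Pi.single 1 1 : Fin 2 → ℝ) 0 : ℂ) + ((Pi.single 1 1 : Fin 2 → ℝ) 1 : ℂ) * ep 3 = ep 3
  simp

noncomputable def hs (x : ℂ) : ℝ := hexB.repr x 0
noncomputable def ht (x : ℂ) : ℝ := hexB.repr x 1

lemma hex_decomp (x : ℂ) : x = hs x + ht x * ep 3 := by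
  have := hexB.sum_repr x
  rw [Fin.sum_univ_two, hexB_zero, hexB_one] at this
  rw [Complex.real_smul, Complex.real_smul, mul_one] at this
  exact this.symm

lemma hex_coord (p q : ℝ) : hs (p + q * ep 3) = p ∧ ht (p + q * ep 3) = q := by
  have e : (p : ℂ) + q * ep 3 = p • hexB 0 + q • hexB 1 := by
    rw [hexB_zero, hexB_one, Complex.real_smul, Complex.real_smul, mul_one]
  rw [e]
  unfold hs ht
  rw [map_add, map_smul, map_smul, hexB.repr_self, hexB.repr_self]
  constructor <;> simp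

lemma coord_of_eq {x : ℂ} {p q : ℝ} (h : x = p + q * ep 3) : hs x = p ∧ ht x = q := by
  rw [h]; exact hex_coord p q

/-- linear parts and translations of the six maps -/
noncomputable def al : Fin 6 → ℂ := ![1, ep 3, ep 3 ^ 2, -1, -ep 3, -ep 3 ^ 2]
noncomputable def be : Fin 6 → ℂ := ![0, 1, 1 + ep 3, 1 + ep 3, ep 3, 0]
noncomputable def Gm (j : Fin 6) (x : ℂ) : ℂ := al j * x + be j

lemma norm_al (j : Fin 6) : ‖al j‖ = 1 := by
  fin_cases j <;> simp [al, norm_ep]

lemma Gm_coord (j : Fin 6) (x : ℂ) : (hs (Gm j x), ht (Gm j x)) =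
    (![(hs x, ht x), (1 - ht x, hs x - ht x), (1 - hs x + ht x, 1 - hs x), (1 - hs x, 1 - ht x),
      (ht x, 1 - hs x + ht x), (hs x - ht x, hs x)] : Fin 6 → ℝ × ℝ) j := by
  have hd := hex_decomp x
  have h2 := ep3_sum
  have h3 := ep3_cube
  have key : ∀ p q : ℝ, Gm j x = p + q * ep 3 → (hs (Gm j x), ht (Gm j x)) = (p, q) := by
    intro p q h
    obtain ⟨a, b⟩ := coord_of_eq h
    rw [a, b]
  generalize hs x = s at *
  generalize ht x = t at *
  fin_cases j
  · apply key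
    show 1 * x + 0 = _
    rw [hd]; ring
  · apply key
    show ep 3 * x + 1 = _
    rw [hd]; push_cast
    linear_combination (t : ℂ) * h2
  · apply key
    show ep 3 ^ 2 * x + (1 + ep 3) = _
    rw [hd]; push_cast
    linear_combination (s : ℂ) * h2 + (t : ℂ) * h3
  · apply key
    show -1 * x + (1 + ep 3) = _
    rw [hd]; push_cast
    ring
  · apply key
    show -ep 3 * x + ep 3 = _
    rw [hd]; push_cast
    linear_combination (-(t : ℂ)) * h2
  · apply key
    show -ep 3 ^ 2 * x + 0 = _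
    rw [hd]; push_cast
    linear_combination (-(s : ℂ)) * h2 - (t : ℂ) * h3

/-- the six regions -/
def RC : Fin 6 → ℝ × ℝ → Prop :=
  ![fun p => p.2 < p.1 ∧ 2 * p.1 - p.2 < 1 ∧ p.1 < 2 * p.2,
    fun p => 0 < p.2 ∧ 2 * p.2 < p.1 ∧ p.1 + p.2 < 1,
    fun p => p.1 < 1 ∧ 1 < 2 * p.1 - p.2 ∧ 1 < p.1 + p.2,
    fun p => p.1 < p.2 ∧ p.2 < 2 * p.1 ∧ 2 * p.2 - p.1 < 1,
    fun p => p.2 < 1 ∧ 1 + p.1 < 2 * p.2 ∧ 1 < p.1 + p.2,
    fun p => 0 < p.1 ∧ 2 * p.1 < p.2 ∧ p.1 + p.2 < 1]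

def RR6 (j : Fin 6) : Set ℂ := {x | RC j (hs x, ht x)}

lemma Gm_mem {x : ℂ} (hx : x ∈ RR6 0) (j : Fin 6) : Gm j x ∈ RR6 j := by
  have h : ht x < hs x ∧ 2 * hs x - ht x < 1 ∧ hs x < 2 * ht x := hx
  obtain ⟨h1, h2, h3⟩ := h
  show RC j (hs (Gm j x), ht (Gm j x))
  rw [Gm_coord]
  fin_cases j
  · exact ⟨h1, h2, h3⟩
  · refine ⟨?_, ?_, ?_⟩ <;> simp <;> linarith
  · refine ⟨?_, ?_, ?_⟩ <;> simp <;> linarith
  · refine ⟨?_, ?_, ?_⟩ <;> simp <;> linarith
  · refine ⟨?_, ?_, ?_⟩ <;> simp <;> linarith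
  · refine ⟨?_, ?_, ?_⟩ <;> simp <;> linarith

lemma Gm_surj {y : ℂ} {j : Fin 6} (hy : y ∈ RR6 j) : ∃ z ∈ RR6 0, Gm j z = y := by
  have hd := hex_decomp y
  have hy' : RC j (hs y, ht y) := hy
  have key : ∀ p q : ℝ, (q < p ∧ 2 * p - q < 1 ∧ p < 2 * q) →
      (![(p, q), (1 - q, p - q), (1 - p + q, 1 - p), (1 - p, 1 - q),
      (q, 1 - p + q), (p - q, p)] : Fin 6 → ℝ × ℝ) j = (hs y, ht y) →
      ∃ z ∈ RR6 0, Gm j z = y := by
    intro p q h1 h2
    obtain ⟨a, b⟩ := hex_coord p q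
    refine ⟨p + q * ep 3, ?_, ?_⟩
    · show RC 0 (hs _, ht _)
      rw [a, b]
      exact h1
    · have h3 := Gm_coord j (p + q * ep 3)
      rw [a, b, h2] at h3
      obtain ⟨h4, h5⟩ := Prod.mk.inj h3
      rw [hex_decomp (Gm j (p + q * ep 3)), h4, h5, ← hd]
  generalize hs y = s at *
  generalize ht y = t at *
  fin_cases j
  · exact key s t hy' rfl
  · obtain ⟨h1, h2, h3⟩ : 0 < t ∧ 2 * t < s ∧ s + t < 1 := hy'
    refine key (1 - s + t) (1 - s) ⟨by linarith, by linarith, by linarith⟩ ?_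
    refine Prod.ext ?_ ?_ <;> simp
  · obtain ⟨h1, h2, h3⟩ : s < 1 ∧ 1 < 2 * s - t ∧ 1 < s + t := hy'
    refine key (1 - t) (s - t) ⟨by linarith, by linarith, by linarith⟩ ?_
    refine Prod.ext ?_ ?_ <;> simp
  · obtain ⟨h1, h2, h3⟩ : s < t ∧ t < 2 * s ∧ 2 * t - s < 1 := hy'
    refine key (1 - s) (1 - t) ⟨by linarith, by linarith, by linarith⟩ ?_
    refine Prod.ext ?_ ?_ <;> simp
  · obtain ⟨h1, h2, h3⟩ : t < 1 ∧ 1 + s < 2 * t ∧ 1 < s + t := hy'
    refine key (1 + s - t) s ⟨by linarith, by linarith, by linarith⟩ ?_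
    refine Prod.ext ?_ ?_
    · simp
    · show 1 - (1 + s - t) + s = t
      ring
  · obtain ⟨h1, h2, h3⟩ : 0 < s ∧ 2 * s < t ∧ s + t < 1 := hy'
    refine key t (t - s) ⟨by linarith, by linarith, by linarith⟩ ?_
    refine Prod.ext ?_ ?_ <;> simp

lemma RR6_disj {i j : Fin 6} (hij : i ≠ j) {x : ℂ} (hi : x ∈ RR6 i) (hj : x ∈ RR6 j) : False := by
  have hi' : RC i (hs x, ht x) := hi
  have hj' : RC j (hs x, ht x) := hj
  generalize hs x = s at *
  generalize ht x = t at *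
  clear hi hj
  fin_cases i <;> fin_cases j <;> first
    | exact absurd rfl hij
    | (simp [RC] at hi' hj'; obtain ⟨a1, a2, a3⟩ := hi'; obtain ⟨b1, b2, b3⟩ := hj'; linarith)

lemma RR6_sub (j : Fin 6) : RR6 j ⊆ Yo hexB := by
  intro x hx
  have hx' : RC j (hs x, ht x) := hx
  have key : (0 < hs x ∧ hs x < 1) ∧ (0 < ht x ∧ ht x < 1) := by
    generalize hs x = s at *
    generalize ht x = t at *
    fin_cases j <;> simp [RC] at hx' <;> obtain ⟨a1, a2, a3⟩ := hx' <;>
      refine ⟨⟨?_, ?_⟩, ?_, ?_⟩ <;> linarith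
  intro i
  fin_cases i
  · exact key.1
  · exact key.2

/-- the lines bounding the regions -/
def LN : Set ℂ := {x | hs x = ht x} ∪ {x | 2 * hs x - ht x = 1} ∪ {x | hs x = 2 * ht x} ∪
  {x | hs x + ht x = 1} ∪ {x | ht x = 0} ∪ {x | hs x = 0} ∪ {x | 2 * ht x - hs x = 1} ∪
  {x | ht x = 2 * hs x}

lemma RR6_cover {x : ℂ} (hx : x ∈ ZSpan.fundamentalDomain hexB) (hL : x ∉ LN) :
    ∃ j, x ∈ RR6 j := by
  rw [ZSpan.mem_fundamentalDomain] at hx
  have h0 : 0 ≤ hs x ∧ hs x < 1 := hx 0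
  have h1 : 0 ≤ ht x ∧ ht x < 1 := hx 1
  simp only [LN, Set.mem_union, Set.mem_ofPred_eq, not_or] at hL
  obtain ⟨⟨⟨⟨⟨⟨⟨l1, l2⟩, l3⟩, l4⟩, l5⟩, l6⟩, l7⟩, l8⟩ := hL
  have key : ∃ j, RC j (hs x, ht x) := by
    generalize hs x = s at *
    generalize ht x = t at *
    rcases lt_or_gt_of_ne l1 with a | a
    · have hs0 : 0 < s := lt_of_le_of_ne h0.1 (Ne.symm l6)
      rcases lt_or_gt_of_ne l8 with c | c
      · rcases lt_or_gt_of_ne l7 with d | d
        · exact ⟨3, a, c, d⟩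
        · exact ⟨4, h1.2, by linarith, by linarith⟩
      · rcases lt_or_gt_of_ne l4 with d | d
        · exact ⟨5, hs0, c, d⟩
        · exact ⟨4, h1.2, by linarith, d⟩
    · have ht0 : 0 < t := lt_of_le_of_ne h1.1 (Ne.symm l5)
      rcases lt_or_gt_of_ne l3 with c | c
      · rcases lt_or_gt_of_ne l2 with d | d
        · exact ⟨0, a, d, c⟩
        · exact ⟨2, h0.2, d, by linarith⟩
      · rcases lt_or_gt_of_ne l4 with d | d
        · exact ⟨1, ht0, c, d⟩
        · exact ⟨2, h0.2, by linarith, d⟩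
  obtain ⟨j, hj⟩ := key
  exact ⟨j, hj⟩

lemma null_LN : volume LN = 0 := by
  have key : ∀ p q r : ℝ, (p ≠ 0 ∨ q ≠ 0) → volume {x : ℂ | p * hs x + q * ht x = r} = 0 := by
    intro p q r h
    refine null_line (p • hexB.coord 0 + q • hexB.coord 1) ?_ r
    intro hz
    rcases h with h | h
    · have := congrArg (fun L : ℂ →ₗ[ℝ] ℝ => L (hexB 0)) hz
      simp at this
      exact h this
    · have := congrArg (fun L : ℂ →ₗ[ℝ] ℝ => L (hexB 1)) hz
      simp at this
      exact h this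
  have k1 : volume {x : ℂ | hs x = ht x} = 0 := by
    convert key 1 (-1) 0 (by norm_num) using 3
    ext x; constructor <;> intro h <;> linarith
  have k2 : volume {x : ℂ | 2 * hs x - ht x = 1} = 0 := by
    convert key 2 (-1) 1 (by norm_num) using 3
    ext x; constructor <;> intro h <;> linarith
  have k3 : volume {x : ℂ | hs x = 2 * ht x} = 0 := by
    convert key 1 (-2) 0 (by norm_num) using 3
    ext x; constructor <;> intro h <;> linarith
  have k4 : volume {x : ℂ | hs x + ht x = 1} = 0 := by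
    convert key 1 1 1 (by norm_num) using 3
    ext x; constructor <;> intro h <;> linarith
  have k5 : volume {x : ℂ | ht x = 0} = 0 := by
    convert key 0 1 0 (by norm_num) using 3
    ext x; constructor <;> intro h <;> linarith
  have k6 : volume {x : ℂ | hs x = 0} = 0 := by
    convert key 1 0 0 (by norm_num) using 3
    ext x; constructor <;> intro h <;> linarith
  have k7 : volume {x : ℂ | 2 * ht x - hs x = 1} = 0 := by
    convert key (-1) 2 1 (by norm_num) using 3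
    ext x; constructor <;> intro h <;> linarith
  have k8 : volume {x : ℂ | ht x = 2 * hs x} = 0 := by
    convert key (-2) 1 0 (by norm_num) using 3
    ext x; constructor <;> intro h <;> linarith
  unfold LN
  simp only [measure_union_null_iff]
  exact ⟨⟨⟨⟨⟨⟨⟨k1, k2⟩, k3⟩, k4⟩, k5⟩, k6⟩, k7⟩, k8⟩

lemma dist_Gm (j : Fin 6) (x y : ℂ) : dist (Gm j x) (Gm j y) = dist x y := by
  rw [dist_eq_norm, dist_eq_norm]
  have : Gm j x - Gm j y = al j * (x - y) := by unfold Gm; ring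
  rw [this, norm_mul, norm_al, one_mul]

lemma Gm_bij (j : Fin 6) (y : ℂ) : ∃ z, Gm j z = y := by
  have h : al j ≠ 0 := by
    intro h0
    have := norm_al j
    rw [h0, norm_zero] at this
    norm_num at this
  refine ⟨(y - be j) / al j, ?_⟩
  unfold Gm
  field_simp
  ring

lemma vol_Gm (j : Fin 6) {A : Set ℂ} (hA : MeasurableSet A) : volume (Gm j '' A) ≤ volume A := by
  have h : al j ≠ 0 := by
    intro h0
    have := norm_al j
    rw [h0, norm_zero] at this
    norm_num at this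
  set a : Circle := ⟨al j, mem_sphere_zero_iff_norm.2 (norm_al j)⟩ with ha
  set f := rotation a with hf
  have hfx : ∀ x, f x = al j * x := fun x => rfl
  have h1 : Gm j '' A = (fun x => x + -be j) ⁻¹' (f.symm ⁻¹' A) := by
    ext y
    constructor
    · rintro ⟨x, hx, rfl⟩
      show f.symm (Gm j x + -be j) ∈ A
      have : Gm j x + -be j = f x := by rw [hfx]; unfold Gm; ring
      rw [this, LinearIsometryEquiv.symm_apply_apply]
      exact hx
    · intro hy
      have hy' : f.symm (y + -be j) ∈ A := hy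
      refine ⟨_, hy', ?_⟩
      have : f (f.symm (y + -be j)) = y + -be j := f.apply_symm_apply _
      rw [hfx] at this
      unfold Gm
      rw [this]
      ring
  rw [h1, measure_preimage_add_right]
  exact (f.symm.measurePreserving.measure_preimage hA.nullMeasurableSet).le

lemma hex_latt : ∀ i, ep 3 * hexB i ∈ Submodule.span ℤ (Set.range hexB) := by
  have m0 : (1 : ℂ) ∈ Submodule.span ℤ (Set.range hexB) :=
    Submodule.subset_span ⟨0, hexB_zero⟩
  have m1 : ep 3 ∈ Submodule.span ℤ (Set.range hexB) := Submodule.subset_span ⟨1, hexB_one⟩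
  intro i
  fin_cases i
  · show ep 3 * hexB 0 ∈ _
    rw [hexB_zero, mul_one]; exact m1
  · show ep 3 * hexB 1 ∈ _
    rw [hexB_one, ← pow_two, ep3_sum]
    exact Submodule.sub_mem _ (Submodule.neg_mem _ m0) m1

/-- the permutation of the six maps induced by the rotation -/
def pi6 : Fin 6 → Fin 6 := ![1, 2, 0, 4, 5, 3]

lemma Gm_rot (j : Fin 6) (x : ℂ) :
    Gm (pi6 j) x - ep 3 * Gm j x ∈ Submodule.span ℤ (Set.range hexB) := by
  have m0 : (1 : ℂ) ∈ Submodule.span ℤ (Set.range hexB) :=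
    Submodule.subset_span ⟨0, hexB_zero⟩
  have m1 : ep 3 ∈ Submodule.span ℤ (Set.range hexB) := Submodule.subset_span ⟨1, hexB_one⟩
  have m2 : 1 + ep 3 ∈ Submodule.span ℤ (Set.range hexB) := Submodule.add_mem _ m0 m1
  have h2 := ep3_sum
  have h3 := ep3_cube
  fin_cases j
  · show ep 3 * x + 1 - ep 3 * (1 * x + 0) ∈ _
    have : ep 3 * x + 1 - ep 3 * (1 * x + 0) = 1 := by ring
    rw [this]; exact m0
  · show ep 3 ^ 2 * x + (1 + ep 3) - ep 3 * (ep 3 * x + 1) ∈ _
    have : ep 3 ^ 2 * x + (1 + ep 3) - ep 3 * (ep 3 * x + 1) = 1 := by ring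
    rw [this]; exact m0
  · show 1 * x + 0 - ep 3 * (ep 3 ^ 2 * x + (1 + ep 3)) ∈ _
    have : 1 * x + 0 - ep 3 * (ep 3 ^ 2 * x + (1 + ep 3)) = 1 := by
      linear_combination (-x) * h3 - h2
    rw [this]; exact m0
  · show -ep 3 * x + ep 3 - ep 3 * (-1 * x + (1 + ep 3)) ∈ _
    have : -ep 3 * x + ep 3 - ep 3 * (-1 * x + (1 + ep 3)) = 1 + ep 3 := by
      linear_combination -h2
    rw [this]; exact m2
  · show -ep 3 ^ 2 * x + 0 - ep 3 * (-ep 3 * x + ep 3) ∈ _
    have : -ep 3 ^ 2 * x + 0 - ep 3 * (-ep 3 * x + ep 3) = 1 + ep 3 := by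
      linear_combination -h2
    rw [this]; exact m2
  · show -1 * x + (1 + ep 3) - ep 3 * (-ep 3 ^ 2 * x + 0) ∈ _
    have : -1 * x + (1 + ep 3) - ep 3 * (-ep 3 ^ 2 * x + 0) = 1 + ep 3 := by
      linear_combination x * h3
    rw [this]; exact m2

lemma isOpen_RR60 : IsOpen (RR6 0) := by
  have c0 : Continuous hs := (hexB.coord 0).continuous_of_finiteDimensional
  have c1 : Continuous ht := (hexB.coord 1).continuous_of_finiteDimensional
  have : RR6 0 = {x | ht x < hs x} ∩ ({x | 2 * hs x - ht x < 1} ∩ {x | hs x < 2 * ht x}) := by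
    ext x; exact Iff.rfl
  rw [this]
  refine (isOpen_lt c1 c0).inter ((isOpen_lt ?_ continuous_const).inter (isOpen_lt c0 ?_))
  · exact (continuous_const.mul c0).sub c1
  · exact continuous_const.mul c1

/-- a symmetric packing exists -/
theorem exists_pk {ε : ℝ} (hε : 0 < ε) : ∃ (J : Finset (Fin 6 × ℂ)) (c : Fin 6 × ℂ → ℂ)
    (ρ : Fin 6 × ℂ → ℝ), Pk hexB J c ρ ε := by
  have hb : Bornology.IsBounded (RR6 0) :=
    (ZSpan.fundamentalDomain_isBounded hexB).subset ((RR6_sub 0).trans (Yo_sub hexB))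
  obtain ⟨t, r, h1, h2, h3⟩ := disc_pack isOpen_RR60 hb (by positivity : 0 < ε / 6)
  have hball : ∀ j, ∀ x ∈ t, Metric.closedBall (Gm j x) (r x) ⊆ RR6 j := by
    intro j x hx y hy
    obtain ⟨z, rfl⟩ := Gm_bij j y
    rw [Metric.mem_closedBall, dist_Gm] at hy
    exact Gm_mem ((h1 x hx).2 hy) j
  refine ⟨Finset.univ ×ˢ t, fun p => Gm p.1 p.2, fun p => r p.2, ?_, ?_, ?_, ?_, ?_, hex_latt⟩
  · rintro ⟨j, x⟩ hx
    exact (h1 x (Finset.mem_product.1 hx).2).1
  · rintro ⟨j, x⟩ hx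
    exact (hball j x (Finset.mem_product.1 hx).2).trans (RR6_sub j)
  · rintro ⟨j, x⟩ hx ⟨k, y⟩ hy hne
    have hx' := (Finset.mem_product.1 hx).2
    have hy' := (Finset.mem_product.1 hy).2
    rw [Set.disjoint_left]
    intro z hz1 hz2
    by_cases hjk : j = k
    · subst hjk
      have hxy : x ≠ y := fun h => hne (by rw [h])
      obtain ⟨w, rfl⟩ := Gm_bij j z
      change Gm j w ∈ Metric.closedBall (Gm j x) (r x) at hz1
      change Gm j w ∈ Metric.closedBall (Gm j y) (r y) at hz2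
      rw [Metric.mem_closedBall, dist_Gm] at hz1 hz2
      exact Set.disjoint_left.1 (h2 hx' hy' hxy) hz1 hz2
    · exact RR6_disj hjk (hball j x hx' hz1) (hball k y hy' hz2)
  · set U := ⋃ x ∈ t, Metric.closedBall x (r x) with hU
    have hUm : MeasurableSet U :=
      Finset.measurableSet_biUnion _ fun x _ => Metric.isClosed_closedBall.measurableSet
    have hsub : ZSpan.fundamentalDomain hexB \ ⋃ p ∈ (Finset.univ : Finset (Fin 6)) ×ˢ t, Metric.closedBall (Gm p.1 p.2) (r p.2) ⊆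
        LN ∪ ⋃ j : Fin 6, Gm j '' (RR6 0 \ U) := by
      rintro y ⟨hy1, hy2⟩
      by_cases hL : y ∈ LN
      · exact Or.inl hL
      right
      obtain ⟨j, hj⟩ := RR6_cover hy1 hL
      obtain ⟨z, hz, rfl⟩ := Gm_surj hj
      refine Set.mem_iUnion.2 ⟨j, z, ⟨hz, fun hzU => hy2 ?_⟩, rfl⟩
      simp only [hU, Set.mem_iUnion] at hzU
      obtain ⟨x, hx, hzx⟩ := hzU
      simp only [Set.mem_iUnion]
      refine ⟨(j, x), Finset.mem_product.2 ⟨Finset.mem_univ _, hx⟩, ?_⟩
      rw [Metric.mem_closedBall, dist_Gm]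
      exact hzx
    have hle : volume (ZSpan.fundamentalDomain hexB \ ⋃ p ∈ (Finset.univ : Finset (Fin 6)) ×ˢ t, Metric.closedBall (Gm p.1 p.2) (r p.2)) ≤
        ENNReal.ofReal ε := by
      refine (measure_mono hsub).trans ((measure_union_le _ _).trans ?_)
      rw [null_LN, zero_add]
      refine (measure_iUnion_fintype_le _ _).trans ?_
      refine (Finset.sum_le_sum fun j _ => (vol_Gm j
        (isOpen_RR60.measurableSet.diff hUm)).trans h3).trans ?_
      rw [Finset.sum_const, Finset.card_univ, Fintype.card_fin, nsmul_eq_mul]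
      rw [← ENNReal.ofReal_natCast, ← ENNReal.ofReal_mul (by positivity)]
      apply ENNReal.ofReal_le_ofReal
      push_cast
      linarith
    exact ENNReal.toReal_le_of_le_ofReal hε.le hle
  · rintro ⟨j, x⟩ hx
    exact ⟨(pi6 j, x), Finset.mem_product.2 ⟨Finset.mem_univ _, (Finset.mem_product.1 hx).2⟩, rfl,
      Gm_rot j x⟩

end Pool.Agent.H24
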