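import Pool.Agent.H24.Kin

/-! The kinematic field near the hinges. -/

open Complex Filter Topology
open scoped ContDiff

namespace Pool.Agent.H24

lemma gw_le_inv {N : ℕ} {w : ℝ} (hw : 0 < w) (h x : ℂ) : gw N w h x ≤ w⁻¹ := by
  rw [gw]
  apply inv_anti₀ hw
  apply Real.le_sqrt_of_sq_le
  linarith [real_inner_self_nonneg (x := x ^ N - h)]

lemma EN_le {N : ℕ} (G : Good N) (x : ℂ) : EN N x ≤ 500 * (N : ℝ) ^ 2 := by
  have hN := G.Nr
  have h1 : ∀ j : Fin 4, gw N (tt N) (hh N j) x ≤ (N : ℝ) ^ 2 := by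
    intro j
    refine (gw_le_inv (tt_pos G) _ _).trans (le_of_eq ?_)
    rw [tt, one_div, inv_inv]
  have h2 : ∑ j, gw N (tt N) (hh N j) x ≤ ∑ _j : Fin 4, (N : ℝ) ^ 2 :=
    Finset.sum_le_sum fun j _ => h1 j
  rw [Finset.sum_const, Finset.card_univ, Fintype.card_fin, nsmul_eq_mul] at h2
  push_cast at h2
  rw [EN, EE]
  nlinarith

/-- in the hinge zone the weight is large -/
lemma EN_ge {N : ℕ} (G : Good N) {x : ℂ} {j : Fin 4} (hx : ‖x ^ N - hh N j‖ ≤ tt N) :
    (N : ℝ) ^ 2 ≤ EN N x := by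
  have hN := G.Nr
  have hw := tt_pos G
  have h1 := gw_le_EE (N := N) hw (hh N) x j
  have h2 : (2 * tt N)⁻¹ ≤ gw N (tt N) (hh N j) x := by
    rw [gw]
    apply inv_anti₀ (Real.sqrt_pos.2 (gw_arg_pos hw _ _))
    rw [Real.sqrt_le_iff]
    refine ⟨by linarith, ?_⟩
    rw [real_inner_self_eq_norm_sq]
    nlinarith [norm_nonneg (x ^ N - hh N j)]
  have h3 : (2 * tt N)⁻¹ = (N : ℝ) ^ 2 / 2 := by rw [tt]; field_simp
  rw [h3] at h2
  have h4 : 100 * ((N : ℝ) ^ 2 / 2) ≤ EN N x := by linarith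
  nlinarith [sq_nonneg (N : ℝ)]

def BN (N : ℕ) : Set ℂ := {x | ‖x‖ ≤ 1 + 2 / N}

lemma convex_BN (N : ℕ) : Convex ℝ (BN N) := by
  have h1 : BN N = Metric.closedBall 0 (1 + 2 / N) := by
    ext x; simp [BN]
  rw [h1]
  exact convex_closedBall _ _

/-- generic estimate near a hinge -/
lemma near_hinge {N : ℕ} (G : Good N) {K : ℝ} (hK : 0 ≤ K) {f : ℂ → ℂ} (hs : ContDiff ℝ 2 f)
    (h1 : ∀ y ∈ BN N, ‖fderiv ℝ f y‖ ≤ K * N ^ 2)
    {x c : ℂ} (h2 : ‖iteratedFDeriv ℝ 2 f x‖ ≤ K * N ^ 3) (hx : x ∈ BN N) (hc : c ∈ BN N)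
    (hfc : f c = 0) (hd : N * ‖x - c‖ ≤ 600 * tt N) {j : Fin 4}
    (hj : ‖x ^ N - hh N j‖ ≤ tt N) : Bd f x (600 * K / N) (N * EN N x) := by
  have hN := G.Nr
  have hN0 : (0 : ℝ) < N := by linarith
  have hE := EN_ge G hj
  have hlip : ‖f x‖ ≤ K * N ^ 2 * ‖x - c‖ := by
    have := (convex_BN N).norm_image_sub_le_of_norm_fderiv_le (𝕜 := ℝ) (f := f) (x := c) (y := x)
      (C := K * N ^ 2) (fun u _ => ContDiff.one_lt_two' hs u) (fun u hu => h1 u hu) hc hx
    rwa [hfc, sub_zero] at this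
  refine ⟨hs, ?_, ?_, ?_⟩
  · refine hlip.trans ?_
    have e : K * (N : ℝ) ^ 2 * ‖x - c‖ = K * N * (N * ‖x - c‖) := by ring
    rw [e]
    have e2 : K * N * (600 * tt N) = 600 * K / N := by rw [tt]; field_simp
    rw [← e2]
    exact mul_le_mul_of_nonneg_left hd (by positivity)
  · refine (h1 x hx).trans ?_
    have e : 600 * K / N * (N * EN N x) = 600 * K * EN N x := by field_simp
    rw [e]
    nlinarith [mul_le_mul_of_nonneg_left hE hK, mul_nonneg hK (le_trans (sq_nonneg _) hE)]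
  · refine h2.trans ?_
    have e : 600 * K / N * (N * EN N x) ^ 2 = 600 * K * N * (EN N x * EN N x) := by field_simp
    rw [e]
    have h3 : (N : ℝ) ^ 2 * (N : ℝ) ^ 2 ≤ EN N x * EN N x :=
      mul_le_mul hE hE (sq_nonneg _) (le_trans (sq_nonneg _) hE)
    have h4 : (N : ℝ) ^ 3 ≤ N * ((N : ℝ) ^ 2 * (N : ℝ) ^ 2) := by
      have h5 : (1 : ℝ) ≤ (N : ℝ) ^ 2 := by nlinarith
      nlinarith [pow_pos hN0 3]
    have h6 := mul_le_mul_of_nonneg_left h3 hN0.le
    have h7 := mul_le_mul_of_nonneg_left (h4.trans h6) hK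
    nlinarith [mul_nonneg hK (mul_nonneg hN0.le (mul_nonneg (le_trans (sq_nonneg _) hE) (le_trans (sq_nonneg _) hE)))]

/-- exponential coordinates: closeness to the hinge -/
lemma close_of_pow {N : ℕ} (G : Good N) {z c : ℂ} {j : Fin 4} (hc : exp c = hh N j)
    (h1 : |(z - c).re| ≤ 3) (h2 : |(z - c).im| ≤ 5) (hcr : 0 ≤ c.re) (hcr2 : c.re ≤ 1.1)
    (h : ‖exp z - hh N j‖ ≤ tt N) :
    N * ‖exp (z / N) - exp (c / N)‖ ≤ 600 * tt N := by
  have hN := G.Nr
  have h3 := dist_le_pow (N := N) (le_trans (by norm_num) G.hN) h1 h2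
  have h4 : 1 ≤ ‖exp c‖ := by rw [Complex.norm_exp]; exact Real.one_le_exp hcr
  have h5 : ‖exp (c / N)‖ ≤ 4 := by
    rw [Complex.norm_exp, Complex.div_natCast_re]
    have h6 : c.re / N ≤ 1 := by
      rw [div_le_one (by linarith)]; linarith
    have := Real.exp_le_exp.2 h6
    have h7 := Real.exp_one_lt_d9
    linarith
  have h6 : 100 * ‖exp (c / N)‖ / ‖exp c‖ ≤ 400 := by
    rw [div_le_iff₀ (by linarith)]; nlinarith
  rw [hc] at h3
  rw [hc] at h6
  refine h3.trans ?_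
  have := mul_le_mul h6 h (norm_nonneg _) (by norm_num)
  have hw := tt_pos G
  linarith

def ST (N : ℕ) : Set ℂ := {y | 0 < spk N (starRingEnd ℂ (mm N)) y ∧ 0 < - spk N (mm N) y}
def ST' (N : ℕ) : Set ℂ :=
  {y | 0 < spk N (mm N) y ∧ 0 < - spk N (ep N * starRingEnd ℂ (mm N)) y}

/-- general sector lemma for two spokes at angle `θ` -/
lemma sector_arg' {N : ℕ} (G : Good N) {c d x : ℂ} {θ : ℝ} (h0 : 0 < θ) (hθ : θ < Real.pi)
    (hd : x / d = exp (-(θ * I)) * (x / c)) (h1 : 0 < spk N c x)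
    (h2 : 0 < - spk N d x) : 0 < arg (x / c) ∧ arg (x / c) < θ := by
  have hN := G.Nr
  have hN0 : (0 : ℝ) < N := by linarith
  have h3 : 0 < (x / c).im := by
    rw [spk] at h1
    exact (mul_pos_iff_of_pos_left hN0).1 h1
  have h4 : (exp (-(θ * I)) * (x / c)).im < 0 := by
    rw [spk, ← mul_neg] at h2
    have h5 := (mul_pos_iff_of_pos_left hN0).1 h2
    rw [hd] at h5
    linarith
  exact arg_sector_strict h0 hθ h3 h4

/-- `mm` over its conjugate -/
lemma mm_div {N : ℕ} (G : Good N) (x : ℂ) : x / mm N =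
    exp (-((2 * (zm N).im / N : ℝ) * I)) * (x / starRingEnd ℂ (mm N)) := by
  have h1 := G.exp_zm_div
  have h2 := G.exp_zmc_div
  have e : exp (-((2 * (zm N).im / N : ℝ) * I)) = starRingEnd ℂ (mm N) / mm N := by
    rw [← h2, ← h1, ← Complex.exp_sub]
    congr 1
    have : starRingEnd ℂ (zm N) = zm N - 2 * (zm N).im * I := by
      apply Complex.ext <;> simp
      ring
    rw [this]
    push_cast
    ring
  have h3 := mc_ne G
  have h4 := G.mm_ne
  rw [e]
  field_simp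

lemma mc_div {N : ℕ} (G : Good N) (x : ℂ) : x / (ep N * starRingEnd ℂ (mm N)) =
    exp (-(((2 * Real.pi - 2 * (zm N).im) / N : ℝ) * I)) * (x / mm N) := by
  have h1 := G.exp_zm_div
  have h2 := G.exp_zmc_div
  have e : exp (-(((2 * Real.pi - 2 * (zm N).im) / N : ℝ) * I))
      = mm N / (ep N * starRingEnd ℂ (mm N)) := by
    rw [← h2, ← h1, ep, ← Complex.exp_add, ← Complex.exp_sub]
    congr 1
    have : starRingEnd ℂ (zm N) = zm N - 2 * (zm N).im * I := by
      apply Complex.ext <;> simp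
      ring
    rw [this]
    push_cast
    ring
  have h3 := mc_ne G
  have h4 := G.mm_ne
  have h5 := ep_ne_zero N
  rw [e]
  field_simp

lemma ST_arg {N : ℕ} (G : Good N) {y : ℂ} (hy : y ∈ ST N) :
    0 < arg (y / starRingEnd ℂ (mm N)) ∧ arg (y / starRingEnd ℂ (mm N)) < 2 * (zm N).im / N := by
  have hN := G.Nr
  have h := abs_le.1 G.zm_im
  have hpi := Real.pi_gt_three
  have hpi2 := Real.pi_lt_d2
  refine sector_arg' G (d := mm N) ?_ ?_ (mm_div G y) hy.1 hy.2
  · apply div_pos <;> linarith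
  · rw [div_lt_iff₀ (by linarith)]; nlinarith

lemma ST'_arg {N : ℕ} (G : Good N) {y : ℂ} (hy : y ∈ ST' N) :
    0 < arg (y / mm N) ∧ arg (y / mm N) < (2 * Real.pi - 2 * (zm N).im) / N := by
  have hN := G.Nr
  have h := abs_le.1 G.zm_im
  have hpi := Real.pi_gt_three
  have hpi2 := Real.pi_lt_d2
  refine sector_arg' G (d := ep N * starRingEnd ℂ (mm N)) ?_ ?_ (mc_div G y) hy.1 hy.2
  · apply div_pos <;> linarith
  · rw [div_lt_iff₀ (by linarith)]; nlinarith

/-- coordinates relative to a base point -/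
lemma coord_of_arg {N : ℕ} (G : Good N) {y c ζ : ℂ} (hc : exp (ζ / N) = c) (hy : y / c ≠ 0) :
    ∃ z : ℂ, exp (z / N) = y ∧ z.im = N * arg (y / c) + ζ.im := by
  obtain ⟨e1, e2⟩ := log_coord G hy
  have hc0 : c ≠ 0 := by rw [← hc]; exact exp_ne_zero _
  refine ⟨N * log (y / c) + ζ, ?_, ?_⟩
  · rw [add_div, Complex.exp_add, e1, hc, div_mul_cancel₀ _ hc0]
  · rw [Complex.add_im, e2]

lemma ST_coord {N : ℕ} (G : Good N) {y : ℂ} (hy : y ∈ ST N) :
    ∃ z : ℂ, exp (z / N) = y ∧ -(zm N).im < z.im ∧ z.im < (zm N).im := by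
  obtain ⟨h1, h2⟩ := ST_arg G hy
  have hN := G.Nr
  have hne : y / starRingEnd ℂ (mm N) ≠ 0 := by
    intro h; rw [h, Complex.arg_zero] at h1; exact lt_irrefl _ h1
  obtain ⟨z, e1, e2⟩ := coord_of_arg G G.exp_zmc_div hne
  refine ⟨z, e1, ?_, ?_⟩
  · rw [e2, Complex.conj_im]
    have : 0 < (N : ℝ) * arg (y / starRingEnd ℂ (mm N)) := by positivity
    linarith
  · rw [e2, Complex.conj_im]
    rw [lt_div_iff₀ (by linarith)] at h2
    linarith

lemma ST'_coord {N : ℕ} (G : Good N) {y : ℂ} (hy : y ∈ ST' N) :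
    ∃ z : ℂ, exp (z / N) = y ∧ (zm N).im < z.im ∧ z.im < 2 * Real.pi - (zm N).im := by
  obtain ⟨h1, h2⟩ := ST'_arg G hy
  have hN := G.Nr
  have hne : y / mm N ≠ 0 := by
    intro h; rw [h, Complex.arg_zero] at h1; exact lt_irrefl _ h1
  obtain ⟨z, e1, e2⟩ := coord_of_arg G G.exp_zm_div hne
  refine ⟨z, e1, ?_, ?_⟩
  · rw [e2]
    have : 0 < (N : ℝ) * arg (y / mm N) := by positivity
    linarith
  · rw [e2]
    rw [lt_div_iff₀ (by linarith)] at h2
    linarith

lemma hh_norm {N : ℕ} (G : Good N) (j : Fin 4) : 1 ≤ ‖hh N j‖ ∧ ‖hh N j‖ ≤ 2.75 := by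
  have h1 := G.norm_Zm
  have h2 := G.norm_Zq
  have h3 := G.norm_Zmc
  fin_cases j
  · change 1 ≤ ‖(1 : ℂ)‖ ∧ ‖(1 : ℂ)‖ ≤ 2.75
    rw [norm_one]; norm_num
  · change 1 ≤ ‖mm N ^ N‖ ∧ ‖mm N ^ N‖ ≤ 2.75
    constructor <;> linarith
  · change 1 ≤ ‖starRingEnd ℂ (mm N) ^ N‖ ∧ ‖starRingEnd ℂ (mm N) ^ N‖ ≤ 2.75
    rw [h3]; constructor <;> linarith
  · change 1 ≤ ‖qq N ^ N‖ ∧ ‖qq N ^ N‖ ≤ 2.75
    constructor <;> linarith

lemma tt_small {N : ℕ} (G : Good N) : tt N ≤ 1 / 10000 := by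
  rw [tt_eq G]; have := nu_pos G; have := nu_le G; nlinarith

/-- real part bounds in the hinge zone -/
lemma zone_re {N : ℕ} (G : Good N) {z : ℂ} {j : Fin 4} (h : ‖exp z - hh N j‖ ≤ tt N) :
    -0.1 ≤ z.re ∧ z.re ≤ 1.2 := by
  have hw := tt_small G
  have h1 := hh_norm G j
  have e : Real.exp z.re = ‖exp z‖ := (Complex.norm_exp z).symm
  have h2 : ‖exp z‖ ≤ 2.76 := by
    have : exp z = (exp z - hh N j) + hh N j := by ring
    rw [this]; exact (norm_add_le _ _).trans (by linarith)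
  have h3 : 0.99 ≤ ‖exp z‖ := by
    have := norm_sub_norm_le (hh N j) (exp z)
    rw [norm_sub_rev] at h
    linarith
  rw [← e] at h2 h3
  constructor
  · by_contra h4
    push Not at h4
    have h5 : Real.exp z.re < Real.exp (-0.1) := Real.exp_lt_exp.2 h4
    have h6 : Real.exp (-0.1) * Real.exp 0.1 = 1 := by rw [← Real.exp_add]; norm_num
    have h7 := Real.add_one_le_exp (0.1 : ℝ)
    nlinarith [Real.exp_pos (-0.1)]
  · by_contra h4
    push Not at h4
    have h5 : Real.exp 1.2 < Real.exp z.re := Real.exp_lt_exp.2 h4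
    have h6 : Real.exp 1.2 = Real.exp 1 * Real.exp 0.2 := by rw [← Real.exp_add]; norm_num
    have h7 := Real.add_one_le_exp (0.2 : ℝ)
    have h8 := Real.exp_one_gt_d9
    nlinarith

lemma Zq_re {N : ℕ} (G : Good N) : (qq N ^ N).re ≤ -2 := by
  have hn := G.norm_Zq
  have h1 := abs_le.1 G.zq_im
  have e1 : (qq N ^ N).re = Real.exp (zq N).re * Real.cos (zq N).im := by
    rw [← G.exp_zq, Complex.exp_re]
  have e3 : ‖qq N ^ N‖ = Real.exp (zq N).re := by
    rw [← G.exp_zq, Complex.norm_exp]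
  rw [e3] at hn
  have h2 : Real.cos (zq N).im = - Real.cos ((zq N).im - Real.pi) := by
    rw [Real.cos_sub_pi, neg_neg]
  have h3 := Real.one_sub_sq_div_two_le_cos (x := (zq N).im - Real.pi)
  have h4 : ((zq N).im - Real.pi) ^ 2 ≤ 1 / 10000 := by nlinarith
  rw [e1, h2]
  nlinarith

/-- `cos ≤ 1/100` beyond `π/2 - 1/100` -/
lemma cos_small {t : ℝ} (h1 : Real.pi / 2 - 1 / 100 ≤ t) (h2 : t ≤ 3 * Real.pi / 2 + 1 / 100) :
    Real.cos t ≤ 1 / 100 := by
  have hpi := Real.pi_gt_three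
  by_cases h3 : t ≤ Real.pi / 2
  · have h4 : Real.cos t = Real.sin (Real.pi / 2 - t) := by rw [Real.sin_pi_div_two_sub]
    rw [h4]
    have := Real.sin_le (x := Real.pi / 2 - t) (by linarith)
    linarith
  · push Not at h3
    by_cases h4 : t ≤ 3 * Real.pi / 2
    · have : Real.cos t ≤ 0 :=
        Real.cos_nonpos_of_pi_div_two_le_of_le h3.le (by linarith)
      linarith
    · push Not at h4
      have h5 : Real.cos t = Real.sin (t - 3 * Real.pi / 2) := by
        have : t - 3 * Real.pi / 2 = (t + Real.pi / 2) - 2 * Real.pi := by ring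
        rw [this, Real.sin_sub_two_pi, Real.sin_add_pi_div_two]
      rw [h5]
      have := Real.sin_le (x := t - 3 * Real.pi / 2) (by linarith)
      linarith

lemma cos_ge {t : ℝ} (h : |t| ≤ Real.pi / 2 + 1 / 100) : -(1 / 100) ≤ Real.cos t := by
  have hpi := Real.pi_gt_three
  rw [← Real.cos_abs]
  by_cases h3 : |t| ≤ Real.pi / 2
  · have : 0 ≤ Real.cos |t| := Real.cos_nonneg_of_mem_Icc ⟨by linarith [abs_nonneg t], h3⟩
    linarith
  · push Not at h3
    have h4 : Real.cos |t| = - Real.sin (|t| - Real.pi / 2) := by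
      rw [Real.sin_sub_pi_div_two, neg_neg]
    rw [h4]
    have := Real.sin_le (x := |t| - Real.pi / 2) (by linarith)
    linarith

lemma contDiff_chi2 {N : ℕ} (G : Good N) {n1 n2 : ℂ → ℝ} {m : ℕ∞}
    (h1 : ContDiff ℝ m n1) (h2 : ContDiff ℝ m n2) : ContDiff ℝ m (chi2 N n1 n2) :=
  (contDiff_wall (tt_pos G) h1).mul (contDiff_wall (tt_pos G) h2)

lemma contDiff_KT {N : ℕ} (G : Good N) {m : ℕ∞} : ContDiff ℝ m (KT N) :=
  (contDiff_chi2 G (contDiff_spk N _) (contDiff_spk N _).neg).smul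
    ((contDiff_vT N).sub (contDiff_Vh N))

lemma contDiff_KT' {N : ℕ} (G : Good N) {m : ℕ∞} : ContDiff ℝ m (KT' N) :=
  (contDiff_chi2 G (contDiff_spk N _) (contDiff_spk N _).neg).smul
    ((contDiff_vT' N).sub (contDiff_Vh N))

lemma contDiff_wa {N : ℕ} (G : Good N) {m : ℕ∞} : ContDiff ℝ m (wa N) :=
  contDiff_wall (tt_pos G) (contDiff_rad N _)

lemma contDiff_wb {N : ℕ} (G : Good N) {m : ℕ∞} : ContDiff ℝ m (wb N) :=
  contDiff_wall (tt_pos G) (contDiff_rad N _)

lemma contDiff_vv {N : ℕ} (G : Good N) {m : ℕ∞} : ContDiff ℝ m (vv N) :=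
  (((contDiff_Vh N).add ((contDiff_const.sub (contDiff_wa G)).smul
    (contDiff_id.neg.sub (contDiff_Vh N)))).sub ((contDiff_wb G).smul (contDiff_Vh N))).add
    (((contDiff_wa G).mul (contDiff_const.sub (contDiff_wb G))).smul
      (contDiff_rotSum ((contDiff_KT G).add (contDiff_KT' G))))

lemma chi2_zero {N : ℕ} (G : Good N) {n1 n2 : ℂ → ℝ} {f : ℂ → ℂ}
    (h1 : ContDiff ℝ 2 n1) (h2 : ContDiff ℝ 2 n2)
    (hf : ContDiff ℝ 2 f) {x : ℂ} (hx : ¬ (0 < n1 x ∧ 0 < n2 x))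
    {L : ℝ} (hL : 0 < L) : Bd (fun y => chi2 N n1 n2 y • f y) x 0 L := by
  have hw := tt_pos G
  have hE := EE_ge (N := N) hw (hh N) x
  have key : ∀ n : ℂ → ℝ, ContDiff ℝ 2 n → n x ≤ 0 → Bd (wall N (tt N) (hh N) n 0) x 0 L := by
    intro n hn hnx
    refine wall_low hw hn ?_ hL
    rw [add_zero]
    have : EE N (tt N) (hh N) x * n x ≤ 0 := mul_nonpos_of_nonneg_of_nonpos (by linarith) hnx
    linarith
  have ex : ∀ n : ℂ → ℝ, ContDiff ℝ 2 n → ∃ A, Bd (wall N (tt N) (hh N) n 0) x A L :=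
    fun n hn => Bd.exists (contDiff_wall (m := 2) hw hn) x hL
  obtain ⟨A1, a1⟩ := ex n1 h1
  obtain ⟨A2, a2⟩ := ex n2 h2
  obtain ⟨Af, af⟩ := Bd.exists hf x hL
  have fin : ∀ A, A = 0 → Bd (fun y => chi2 N n1 n2 y • f y) x A L →
      Bd (fun y => chi2 N n1 n2 y • f y) x 0 L := by
    intro A hA h; rwa [hA] at h
  by_cases c1 : n1 x ≤ 0
  · exact fin _ (by ring) (((key n1 h1 c1).mul a2 hL.le).smul af hL.le)
  by_cases c2 : n2 x ≤ 0
  · exact fin _ (by ring) ((a1.mul (key n2 h2 c2) hL.le).smul af hL.le)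
  push Not at c1 c2
  exact absurd ⟨c1, c2⟩ hx

lemma chi2_bd : ∃ K : ℝ, 1 ≤ K ∧ ∀ (N : ℕ) (n1 n2 : ℂ → ℝ) (f : ℂ → ℂ) (x : ℂ) (B : ℝ),
    Good N → ‖x‖ ≤ 1 + 2 / N → Slow n1 x N 300 → Slow n2 x N 300 →
    Bd f x B (N * EN N x) →
    Bd (fun y => chi2 N n1 n2 y • f y) x (K * B) (N * EN N x) := by
  obtain ⟨K, hK1, hK⟩ := bd_wall (C := 300) (by norm_num)
  refine ⟨4 * (4 * (K * K)), by nlinarith, ?_⟩
  intro N n1 n2 f x B G hx s1 s2 hf
  have hw := tt_pos G
  have hE := EE_ge (N := N) hw (hh N) x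
  have hL : 0 ≤ (N : ℝ) * EN N x := by
    have : (0 : ℝ) ≤ N := by positivity
    exact mul_nonneg this (by linarith)
  have key : ∀ n : ℂ → ℝ, Slow n x N 300 → Bd (wall N (tt N) (hh N) n 0) x K (N * EN N x) :=
    fun n hn => hK N (tt N) (hh N) x n 0 G.N1 hw (tt_le G) G.hh_le hx hn (by norm_num)
  have := ((key n1 s1).mul (key n2 s2) hL).smul hf hL
  exact this.mono hL (by linarith) le_rfl

lemma one_mem_BN (N : ℕ) : (1 : ℂ) ∈ BN N := by
  show ‖(1 : ℂ)‖ ≤ 1 + 2 / N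
  rw [norm_one]
  have : (0 : ℝ) ≤ 2 / N := by positivity
  linarith

lemma exp_mem_BN {N : ℕ} (G : Good N) {z : ℂ} (h1 : |z.re| ≤ 1.1) : exp (z / N) ∈ BN N := by
  have h := mem_Reg G (z := (z.re : ℂ)) (by simpa using h1) (by simp)
  have e : ‖exp (z / N)‖ = ‖exp ((z.re : ℂ) / N)‖ := by
    rw [Complex.norm_exp, Complex.norm_exp, Complex.div_natCast_re, Complex.div_natCast_re,
      Complex.ofReal_re]
  show ‖exp (z / N)‖ ≤ _
  rw [e]
  exact h.2

lemma mm_mem_BN {N : ℕ} (G : Good N) : mm N ∈ BN N := by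
  rw [← G.exp_zm_div]
  have := abs_le.1 G.zm_re
  exact exp_mem_BN G (by rw [abs_le]; constructor <;> linarith)

lemma mc_mem_BN {N : ℕ} (G : Good N) : starRingEnd ℂ (mm N) ∈ BN N := by
  show ‖starRingEnd ℂ (mm N)‖ ≤ _
  rw [RCLike.norm_conj]
  exact mm_mem_BN G

lemma emc_mem_BN {N : ℕ} (G : Good N) : ep N * starRingEnd ℂ (mm N) ∈ BN N := by
  show ‖ep N * starRingEnd ℂ (mm N)‖ ≤ _
  rw [norm_mul, norm_ep, one_mul]
  exact mc_mem_BN G

lemma qq_mem_BN {N : ℕ} (G : Good N) : qq N ∈ BN N := by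
  rw [← G.exp_zq_div]
  have := abs_le.1 G.zq_re
  exact exp_mem_BN G (by rw [abs_le]; constructor <;> linarith)

lemma KT_zone : ∃ K : ℝ, 1 ≤ K ∧ ∀ (N : ℕ) (y : ℂ) (j : Fin 4), Good N → ‖y‖ ≤ 1 + 2 / N →
    ‖y ^ N - hh N j‖ ≤ tt N → Bd (KT N) y (K / N) (N * EN N y) := by
  obtain ⟨K1, hK1, h1⟩ := vT_bounds
  obtain ⟨K2, hK2, h2⟩ := chi2_bd
  refine ⟨K2 * (600 * K1), by nlinarith, ?_⟩
  intro N y j G hy hj
  have hN := G.Nr
  have hL : 0 < (N : ℝ) * EN N y := by have := EN_pos G y; positivity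
  by_cases hST : y ∈ ST N
  swap
  · have := chi2_zero G (f := fun y => vT N y - Vh N y)
      (contDiff_spk N (starRingEnd ℂ (mm N))) (contDiff_spk N (mm N)).neg
      ((contDiff_vT N).sub (contDiff_Vh N)) (x := y) hST hL
    exact this.mono hL.le (by positivity) le_rfl
  obtain ⟨z, hz, hz1, hz2⟩ := ST_coord G hST
  have hzN : y ^ N = exp z := by rw [← hz, exp_div_pow G]
  rw [hzN] at hj
  obtain ⟨r1, r2⟩ := zone_re G hj
  have hpi := Real.pi_gt_three
  have hpi2 := Real.pi_lt_d2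
  have hm1 := abs_le.1 G.zm_re
  have hm2 := abs_le.1 G.zm_im
  obtain ⟨b1, _, _⟩ := h1 N y G hy
  have fin : ∀ c : ℂ, c ∈ BN N → vT N c - Vh N c = 0 → N * ‖y - c‖ ≤ 600 * tt N →
      Bd (KT N) y (K2 * (600 * K1) / N) (N * EN N y) := by
    intro c hc h0 hd
    have hb := near_hinge G (by linarith : 0 ≤ K1) (f := fun y => vT N y - Vh N y)
      ((contDiff_vT N).sub (contDiff_Vh N)) (fun u hu => (h1 N u G hu).1.1) b1.2 hy hc h0 hd
      (j := j) (by rw [hzN]; exact hj)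
    have := h2 N (spk N (starRingEnd ℂ (mm N))) (fun y => - spk N (mm N) y)
      (fun y => vT N y - Vh N y) y _ G hy
      (slow_spk' G (by rw [RCLike.norm_conj]; linarith [norm_mm_ge G]))
      (slow_spk' G (by linarith [norm_mm_ge G])).neg hb
    rwa [← mul_div_assoc] at this
  fin_cases j
  · refine fin 1 (one_mem_BN N) (vT_one G) ?_
    have := close_of_pow G (z := z) (c := 0) (j := 0) (by rw [Complex.exp_zero]; rfl)
      (by rw [sub_zero, abs_le]; constructor <;> linarith)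
      (by rw [sub_zero, abs_le]; constructor <;> linarith) (by simp) (by norm_num) hj
    rwa [zero_div, Complex.exp_zero, hz] at this
  · refine fin (mm N) (mm_mem_BN G) (vT_mm G) ?_
    have := close_of_pow G (z := z) (c := zm N) (j := 1) (by rw [G.exp_zm]; rfl)
      (by rw [Complex.sub_re, abs_le]; constructor <;> linarith)
      (by rw [Complex.sub_im, abs_le]; constructor <;> linarith) (by linarith) (by linarith) hj
    rwa [G.exp_zm_div, hz] at this
  · refine fin (starRingEnd ℂ (mm N)) (mc_mem_BN G) (vT_mc G) ?_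
    have := close_of_pow G (z := z) (c := starRingEnd ℂ (zm N)) (j := 2)
      (by rw [G.exp_zmc]; rfl)
      (by rw [Complex.sub_re, Complex.conj_re, abs_le]; constructor <;> linarith)
      (by rw [Complex.sub_im, Complex.conj_im, abs_le]; constructor <;> linarith)
      (by rw [Complex.conj_re]; linarith) (by rw [Complex.conj_re]; linarith) hj
    rwa [G.exp_zmc_div, hz] at this
  · exfalso
    have h5 := Zq_re G
    have h6 := Complex.abs_re_le_norm (exp z - qq N ^ N)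
    have h7 : (exp z - qq N ^ N).re = Real.exp z.re * Real.cos z.im - (qq N ^ N).re := by
      rw [Complex.sub_re, Complex.exp_re]
    have h8 := cos_ge (t := z.im) (by rw [abs_le]; constructor <;> linarith)
    have h9 : Real.exp z.re ≤ 4 := by
      have : Real.exp z.re ≤ Real.exp 1.2 := Real.exp_le_exp.2 r2
      have e : Real.exp 1.2 = Real.exp 1 * Real.exp 0.2 := by rw [← Real.exp_add]; norm_num
      have h10 : Real.exp 0.2 * Real.exp (-0.2) = 1 := by rw [← Real.exp_add]; norm_num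
      have h11 := Real.add_one_le_exp (-0.2 : ℝ)
      have h12 := Real.exp_one_lt_d9
      nlinarith [Real.exp_pos 0.2, Real.exp_pos 1]
    have h10 : ‖exp z - qq N ^ N‖ ≤ tt N := hj
    have h11 := tt_small G
    rw [h7] at h6
    have h12 := (abs_le.1 h6).2
    nlinarith [Real.exp_pos z.re]

lemma KT'_zone : ∃ K : ℝ, 1 ≤ K ∧ ∀ (N : ℕ) (y : ℂ) (j : Fin 4), Good N → ‖y‖ ≤ 1 + 2 / N →
    ‖y ^ N - hh N j‖ ≤ tt N → Bd (KT' N) y (K / N) (N * EN N y) := by
  obtain ⟨K1, hK1, h1⟩ := vT_bounds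
  obtain ⟨K2, hK2, h2⟩ := chi2_bd
  refine ⟨K2 * (600 * K1), by nlinarith, ?_⟩
  intro N y j G hy hj
  have hN := G.Nr
  have hL : 0 < (N : ℝ) * EN N y := by have := EN_pos G y; positivity
  by_cases hST : y ∈ ST' N
  swap
  · have := chi2_zero G (f := fun y => vT' N y - Vh N y)
      (contDiff_spk N (mm N)) (contDiff_spk N (ep N * starRingEnd ℂ (mm N))).neg
      ((contDiff_vT' N).sub (contDiff_Vh N)) (x := y) hST hL
    exact this.mono hL.le (by positivity) le_rfl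
  obtain ⟨z, hz, hz1, hz2⟩ := ST'_coord G hST
  have hzN : y ^ N = exp z := by rw [← hz, exp_div_pow G]
  rw [hzN] at hj
  obtain ⟨r1, r2⟩ := zone_re G hj
  have hpi := Real.pi_gt_d2
  have hpi2 := Real.pi_lt_d2
  have hm1 := abs_le.1 G.zm_re
  have hm2 := abs_le.1 G.zm_im
  have hq1 := abs_le.1 G.zq_re
  have hq2 := abs_le.1 G.zq_im
  obtain ⟨_, b1, _⟩ := h1 N y G hy
  have fin : ∀ c : ℂ, c ∈ BN N → vT' N c - Vh N c = 0 → N * ‖y - c‖ ≤ 600 * tt N →
      Bd (KT' N) y (K2 * (600 * K1) / N) (N * EN N y) := by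
    intro c hc h0 hd
    have hb := near_hinge G (by linarith : 0 ≤ K1) (f := fun y => vT' N y - Vh N y)
      ((contDiff_vT' N).sub (contDiff_Vh N)) (fun u hu => (h1 N u G hu).2.1.1) b1.2 hy hc h0 hd
      (j := j) (by rw [hzN]; exact hj)
    have := h2 N (spk N (mm N)) (fun y => - spk N (ep N * starRingEnd ℂ (mm N)) y)
      (fun y => vT' N y - Vh N y) y _ G hy
      (slow_spk' G (by linarith [norm_mm_ge G]))
      (slow_spk' G (by rw [norm_mul, norm_ep, one_mul, RCLike.norm_conj];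
                       linarith [norm_mm_ge G])).neg hb
    rwa [← mul_div_assoc] at this
  fin_cases j
  · exfalso
    have h6 := Complex.abs_re_le_norm (exp z - 1)
    have h7 : (exp z - 1).re = Real.exp z.re * Real.cos z.im - 1 := by
      rw [Complex.sub_re, Complex.exp_re, Complex.one_re]
    have h8 := cos_small (t := z.im) (by linarith) (by linarith)
    have h9 : Real.exp z.re ≤ 4 := by
      have : Real.exp z.re ≤ Real.exp 1.2 := Real.exp_le_exp.2 r2
      have e : Real.exp 1.2 = Real.exp 1 * Real.exp 0.2 := by rw [← Real.exp_add]; norm_num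
      have h10 : Real.exp 0.2 * Real.exp (-0.2) = 1 := by rw [← Real.exp_add]; norm_num
      have h11 := Real.add_one_le_exp (-0.2 : ℝ)
      have h12 := Real.exp_one_lt_d9
      nlinarith [Real.exp_pos 0.2, Real.exp_pos 1]
    have h10 : ‖exp z - 1‖ ≤ tt N := hj
    have h11 := tt_small G
    rw [h7] at h6
    have h12 := (abs_le.1 h6).1
    nlinarith [Real.exp_pos z.re]
  · refine fin (mm N) (mm_mem_BN G) (vT'_mm G) ?_
    have := close_of_pow G (z := z) (c := zm N) (j := 1) (by rw [G.exp_zm]; rfl)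
      (by rw [Complex.sub_re, abs_le]; constructor <;> linarith)
      (by rw [Complex.sub_im, abs_le]; constructor <;> linarith) (by linarith) (by linarith) hj
    rwa [G.exp_zm_div, hz] at this
  · refine fin (ep N * starRingEnd ℂ (mm N)) (emc_mem_BN G) (vT'_mc G) ?_
    have := close_of_pow G (z := z) (c := 2 * Real.pi * I + starRingEnd ℂ (zm N)) (j := 2)
      (by rw [Complex.exp_add, Complex.exp_two_pi_mul_I, one_mul, G.exp_zmc]; rfl)
      (by rw [Complex.sub_re, Complex.add_re, two_pi_I_im.2, Complex.conj_re, abs_le]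
          constructor <;> linarith)
      (by rw [Complex.sub_im, Complex.add_im, two_pi_I_im.1, Complex.conj_im, abs_le]
          constructor <;> linarith)
      (by rw [Complex.add_re, two_pi_I_im.2, Complex.conj_re]; linarith)
      (by rw [Complex.add_re, two_pi_I_im.2, Complex.conj_re]; linarith) hj
    rw [add_div, Complex.exp_add, G.exp_zmc_div, hz] at this
    exact this
  · refine fin (qq N) (qq_mem_BN G) (vT'_qq G) ?_
    have := close_of_pow G (z := z) (c := zq N) (j := 3) (by rw [G.exp_zq]; rfl)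
      (by rw [Complex.sub_re, abs_le]; constructor <;> linarith)
      (by rw [Complex.sub_im, abs_le]; constructor <;> linarith) (by linarith) (by linarith) hj
    rwa [G.exp_zq_div, hz] at this

end Pool.Agent.H24
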