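import Pool.Agent.H24.Cover

/-! Integral bounds for the device. -/

open Complex Filter Topology MeasureTheory
open scoped ContDiff

namespace Pool.Agent.H24

/-- the radial kernel -/
noncomputable def ker (A w R : ℝ) : ℝ → ℝ := (Set.Iio R).indicator (fun r => (A * r ^ 2 + w ^ 2)⁻¹)

lemma ker_nonneg {A w R : ℝ} (hA : 0 < A) (r : ℝ) : 0 ≤ ker A w R r := by
  unfold ker
  refine Set.indicator_nonneg (fun r _ => ?_) r
  positivity

lemma int_ker {A w R : ℝ} (hA : 0 < A) (hw : 0 < w) (hR : 0 < R) :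
    ∫ x : ℂ, ker A w R ‖x‖ = Real.pi / A * Real.log (1 + A * R ^ 2 / w ^ 2) := by
  rw [integral_fun_norm_addHaar]
  have hfin : Module.finrank ℝ ℂ = 2 := Complex.finrank_real_complex
  rw [hfin]
  have hvol : (volume : Measure ℂ).real (Metric.ball 0 1) = Real.pi := by
    rw [Measure.real, Complex.volume_ball]
    simp
  rw [hvol]
  have h1 : ∫ y in Set.Ioi (0 : ℝ), y ^ (2 - 1) • ker A w R y
      = ∫ y in (0 : ℝ)..R, y * (A * y ^ 2 + w ^ 2)⁻¹ := by
    rw [intervalIntegral.integral_of_le hR.le, integral_Ioc_eq_integral_Ioo]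
    have e : (fun y : ℝ => y ^ (2 - 1) • ker A w R y) =
        (Set.Iio R).indicator (fun y => y * (A * y ^ 2 + w ^ 2)⁻¹) := by
      funext y
      by_cases hy : y ∈ Set.Iio R
      · simp [ker, hy]
      · simp [ker, hy]
    rw [e, setIntegral_indicator measurableSet_Iio, Set.Ioi_inter_Iio]
  rw [h1]
  have hpos : ∀ y : ℝ, 0 < A * y ^ 2 + w ^ 2 := fun y => by positivity
  have h2 : ∫ y in (0 : ℝ)..R, y * (A * y ^ 2 + w ^ 2)⁻¹
      = Real.log (A * R ^ 2 + w ^ 2) / (2 * A) - Real.log (A * 0 ^ 2 + w ^ 2) / (2 * A) := by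
    apply intervalIntegral.integral_eq_sub_of_hasDerivAt
    · intro y _
      have := (((hasDerivAt_pow 2 y).const_mul A).add_const (w ^ 2)).log (hpos y).ne'
      refine (this.div_const (2 * A)).congr_deriv ?_
      field_simp
      ring
    · apply Continuous.intervalIntegrable
      exact continuous_id.mul ((by fun_prop : Continuous fun y : ℝ => A * y ^ 2 + w ^ 2).inv₀
        fun y => (hpos y).ne')
  rw [h2]
  have h3 : Real.log (1 + A * R ^ 2 / w ^ 2) = Real.log (A * R ^ 2 + w ^ 2) - Real.log (w ^ 2) := by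
    rw [← Real.log_div (hpos R).ne' (by positivity)]
    congr 1
    field_simp
    ring
  rw [h3]
  simp only [smul_eq_mul, nsmul_eq_mul]
  have : A * 0 ^ 2 + w ^ 2 = w ^ 2 := by ring
  rw [this]
  push_cast
  field_simp

lemma meas_ker (A w R : ℝ) : Measurable (ker A w R) := by
  unfold ker
  exact (by fun_prop : Measurable fun r : ℝ => (A * r ^ 2 + w ^ 2)⁻¹).indicator measurableSet_Iio

lemma ker_le {A w R : ℝ} (hA : 0 < A) (hw : 0 < w) (r : ℝ) : ker A w R r ≤ (w ^ 2)⁻¹ := by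
  unfold ker
  by_cases h : r ∈ Set.Iio R
  · rw [Set.indicator_of_mem h]
    refine inv_anti₀ (by positivity) ?_
    have : 0 ≤ A * r ^ 2 := by positivity
    linarith
  · rw [Set.indicator_of_notMem h]; positivity

lemma integrable_ker {A w R : ℝ} (hA : 0 < A) (hw : 0 < w) (p : ℂ) :
    Integrable (fun x : ℂ => ker A w R ‖x - p‖) := by
  have h1 : Integrable ((Metric.ball p R).indicator (fun _ => (w ^ 2)⁻¹)) := by
    rw [integrable_indicator_iff Metric.isOpen_ball.measurableSet]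
    exact integrableOn_const (by
      rw [Complex.volume_ball]
      exact ENNReal.mul_ne_top (by simp) ENNReal.coe_ne_top)
  refine h1.mono' ((meas_ker A w R).comp (by fun_prop)).aestronglyMeasurable
    (Filter.Eventually.of_forall fun x => ?_)
  rw [Real.norm_of_nonneg (ker_nonneg hA _)]
  by_cases h : x ∈ Metric.ball p R
  · rw [Set.indicator_of_mem h]
    exact ker_le hA hw _
  · rw [Set.indicator_of_notMem h]
    rw [Metric.mem_ball, dist_eq_norm] at h
    rw [ker, Set.indicator_of_notMem (show ‖x - p‖ ∉ Set.Iio R from h)]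

lemma int_ker_shift {A w R : ℝ} (hA : 0 < A) (hw : 0 < w) (hR : 0 < R) (p : ℂ) :
    ∫ x : ℂ, ker A w R ‖x - p‖ = Real.pi / A * Real.log (1 + A * R ^ 2 / w ^ 2) := by
  rw [← int_ker hA hw hR]
  exact integral_sub_right_eq_self (fun x : ℂ => ker A w R ‖x‖) p

/-- pointwise bound of the weight -/
lemma gw_sq_le {N : ℕ} (G : Good N) (j : Fin 4) {x : ℂ} (h1 : 1 / 2 ≤ ‖x ^ N‖)
    (h2 : ‖x‖ ≤ 1 + 2 / N) : gw N (tt N) (hh N j) x ^ 2 ≤
      ∑ k ∈ Finset.range N, ker ((N / 400) ^ 2) (tt N) 4 ‖x - ep N ^ k * hc N j‖ := by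
  have hN := G.Nr
  have hw := tt_pos G
  have hA : 0 < ((N : ℝ) / 400) ^ 2 := by positivity
  obtain ⟨k, hk, h3⟩ := hinge_cover G j h1 h2
  have h4 : ker ((N / 400) ^ 2) (tt N) 4 ‖x - ep N ^ k * hc N j‖ ≤
      ∑ k ∈ Finset.range N, ker ((N / 400) ^ 2) (tt N) 4 ‖x - ep N ^ k * hc N j‖ :=
    Finset.single_le_sum (f := fun k => ker ((N / 400) ^ 2) (tt N) 4 ‖x - ep N ^ k * hc N j‖)
      (fun k _ => ker_nonneg hA _) (Finset.mem_range.2 hk)
  refine le_trans ?_ h4
  have h5 : ‖x - ep N ^ k * hc N j‖ < 4 := by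
    have := norm_sub_le x (ep N ^ k * hc N j)
    rw [norm_mul, norm_ep_pow, one_mul] at this
    have h6 := norm_hc G j
    have h7 : 2 / (N : ℝ) ≤ 0.02 := by rw [div_le_iff₀ (by linarith)]; linarith
    linarith
  rw [ker, Set.indicator_of_mem (show ‖x - ep N ^ k * hc N j‖ ∈ Set.Iio (4 : ℝ) from h5)]
  rw [gw, inv_pow, Real.sq_sqrt (gw_arg_pos hw _ _).le]
  refine inv_anti₀ (by positivity) ?_
  have h8 : (N / 400) ^ 2 * ‖x - ep N ^ k * hc N j‖ ^ 2 ≤ ‖x ^ N - hh N j‖ ^ 2 := by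
    rw [← mul_pow]
    apply pow_le_pow_left₀ (by positivity)
    linarith
  rw [real_inner_self_eq_norm_sq]
  linarith

/-- the belt -/
def belt (N : ℕ) : Set ℂ := {x | 1 / 2 ≤ ‖x ^ N‖ ∧ ‖x‖ ≤ 1 + 2 / N}

lemma isClosed_belt (N : ℕ) : IsClosed (belt N) := by
  exact IsClosed.inter (isClosed_le (f := fun _ : ℂ => (1 / 2 : ℝ)) (g := fun x : ℂ => ‖x ^ N‖)
      continuous_const (by fun_prop))
    (isClosed_le (f := fun x : ℂ => ‖x‖) (g := fun _ : ℂ => (1 + 2 / N : ℝ))
      (by fun_prop) continuous_const)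

lemma belt_sub {N : ℕ} (G : Good N) :
    belt N ⊆ Metric.closedBall 0 (1 + 2 / N) \ Metric.ball 0 (1 - 1 / N) := by
  have hN := G.Nr
  rintro x ⟨h1, h2⟩
  refine ⟨by simpa using h2, ?_⟩
  intro h3
  rw [Metric.mem_ball, dist_zero_right] at h3
  rw [norm_pow] at h1
  have h4 : ‖x‖ ≤ Real.exp (-(1 / N)) := by
    have := Real.add_one_le_exp (-(1 / (N : ℝ))); linarith
  have h5 : ‖x‖ ^ N ≤ Real.exp (-(1 / N)) ^ N := pow_le_pow_left₀ (norm_nonneg _) h4 N
  rw [← Real.exp_nat_mul] at h5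
  have h6 : (N : ℝ) * -(1 / N) = -1 := by field_simp
  rw [h6] at h5
  have h7 : Real.exp (-1) < 1 / 2 := by
    rw [Real.exp_neg]
    have h := Real.exp_one_gt_d9
    have h5 : (Real.exp 1)⁻¹ < 2⁻¹ := inv_strictAnti₀ (by norm_num) (by linarith)
    linarith
  linarith

lemma vol_annulus {r R : ℝ} (hr : 0 ≤ r) (hrR : r ≤ R) :
    (volume : Measure ℂ).real (Metric.closedBall 0 R \ Metric.ball 0 r) = Real.pi * (R ^ 2 - r ^ 2) := by
  have hsub : Metric.ball (0 : ℂ) r ⊆ Metric.closedBall 0 R :=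
    Metric.ball_subset_closedBall.trans (Metric.closedBall_subset_closedBall hrR)
  have hfin : volume (Metric.closedBall (0 : ℂ) R) ≠ ⊤ := by
    rw [Complex.volume_closedBall]
    exact ENNReal.mul_ne_top (by simp) ENNReal.coe_ne_top
  rw [measureReal_sdiff hsub Metric.isOpen_ball.measurableSet hfin]
  rw [Measure.real, Measure.real, Complex.volume_ball, Complex.volume_closedBall]
  rw [ENNReal.toReal_mul, ENNReal.toReal_mul, ENNReal.toReal_pow, ENNReal.toReal_pow,
    ENNReal.toReal_ofReal hr, ENNReal.toReal_ofReal (hr.trans hrR)]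
  simp only [ENNReal.coe_toReal, NNReal.coe_real_pi]
  ring

lemma vol_belt {N : ℕ} (G : Good N) : (volume : Measure ℂ).real (belt N) ≤ 8 * Real.pi / N := by
  have hN := G.Nr
  have h1 := measureReal_mono (μ := (volume : Measure ℂ)) (belt_sub G) (by
    refine ne_top_of_le_ne_top ?_ (measure_mono Set.sdiff_subset)
    rw [Complex.volume_closedBall]
    exact ENNReal.mul_ne_top (by simp) ENNReal.coe_ne_top)
  have h3 : 1 / (N : ℝ) ≤ 0.01 := by rw [div_le_iff₀ (by linarith)]; linarith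
  have h4 : 0 < 1 / (N : ℝ) := by positivity
  have h2' : 2 / (N : ℝ) = 2 * (1 / N) := by ring
  rw [h2'] at h1
  rw [vol_annulus (by linarith) (by linarith)] at h1
  refine h1.trans ?_
  have hpi := Real.pi_pos
  have e : 8 * Real.pi / N = Real.pi * (8 * (1 / N)) := by ring
  rw [e]
  apply mul_le_mul_of_nonneg_left _ hpi.le
  nlinarith

end Pool.Agent.H24
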