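import Pool.Agent.H24.IntPsi

/-! The kinematic field has small energy on the solid. -/

open Complex Filter Topology MeasureTheory
open scoped ContDiff

namespace Pool.Agent.H24

/-- hinge zones -/
def hz (N : ℕ) (j : Fin 4) : Set ℂ := {x | ‖x‖ ≤ 1 + 2 / N ∧ ‖x ^ N - hh N j‖ ≤ tt N}

lemma isClosed_hz (N : ℕ) (j : Fin 4) : IsClosed (hz N j) := by
  exact IsClosed.inter (isClosed_le (f := fun x : ℂ => ‖x‖) (g := fun _ : ℂ => (1 + 2 / N : ℝ))
      (by fun_prop) continuous_const)
    (isClosed_le (f := fun x : ℂ => ‖x ^ N - hh N j‖) (g := fun _ : ℂ => tt N)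
      (by fun_prop) continuous_const)

lemma vol_cball {c : ℂ} {r : ℝ} (hr : 0 ≤ r) :
    (volume : Measure ℂ).real (Metric.closedBall c r) = Real.pi * r ^ 2 := by
  rw [Measure.real, Complex.volume_closedBall, ENNReal.toReal_mul, ENNReal.toReal_pow,
    ENNReal.toReal_ofReal hr]
  simp only [ENNReal.coe_toReal, NNReal.coe_real_pi]
  ring

lemma vol_hz {N : ℕ} (G : Good N) (j : Fin 4) :
    (volume : Measure ℂ).real (hz N j) ≤ 160000 * Real.pi / N ^ 5 := by
  have hN := G.Nr
  have hw := tt_pos G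
  have hw2 := tt_small G
  have hsub : hz N j ⊆ ⋃ k ∈ Finset.range N,
      Metric.closedBall (ep N ^ k * hc N j) (400 * tt N / N) := by
    rintro x ⟨h1, h2⟩
    have h3 : 1 / 2 ≤ ‖x ^ N‖ := by
      have h4 := (hh_norm G j).1
      have h5 := norm_sub_norm_le (hh N j) (x ^ N)
      rw [norm_sub_rev] at h5
      linarith
    obtain ⟨k, hk, h4⟩ := hinge_cover G j h3 h1
    simp only [Set.mem_iUnion]
    refine ⟨k, Finset.mem_range.2 hk, ?_⟩
    rw [Metric.mem_closedBall, dist_eq_norm, le_div_iff₀ (by linarith)]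
    linarith
  have hfin : volume (⋃ k ∈ Finset.range N,
      Metric.closedBall (ep N ^ k * hc N j) (400 * tt N / N)) ≠ ⊤ := by
    refine ne_of_lt ((measure_biUnion_finset_le _ _).trans_lt ?_)
    exact ENNReal.sum_lt_top.2 fun k _ => (vol_ball_ne_top _ _).lt_top
  refine (measureReal_mono hsub hfin).trans ((measureReal_biUnion_finset_le _ _).trans ?_)
  rw [Finset.sum_congr rfl fun k _ => vol_cball (by positivity)]
  rw [Finset.sum_const, Finset.card_range, nsmul_eq_mul]
  refine le_of_eq ?_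
  rw [tt]; field_simp; ring

lemma continuous_dn : Continuous dn := by
  unfold dn
  have h1 : Continuous fun D : ℂ →L[ℝ] ℂ => D 1 := by fun_prop
  have h2 : Continuous fun D : ℂ →L[ℝ] ℂ => D I := by fun_prop
  have h3 : Continuous fun D : ℂ →L[ℝ] ℂ => (D 1).re := Complex.continuous_re.comp h1
  have h4 : Continuous fun D : ℂ →L[ℝ] ℂ => (D I).im := Complex.continuous_im.comp h2
  fun_prop

lemma dn_zero' : dn 0 = 1 := by simp [dn]

lemma int_kin : ∃ C : ℝ, 0 < C ∧ ∀ N, Good N →
    ∫ x in Metric.closedBall (0 : ℂ) (1 + 2 / N) \ VN N, dn (fderiv ℝ (vv N) x) ≤ C * (1 / N) := by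
  obtain ⟨K, hK, h⟩ := zone_bound
  refine ⟨8 * K ^ 2 * (4 * (160000 * Real.pi)) + 5 * Real.pi, by positivity, ?_⟩
  intro N G
  have hN := G.Nr
  have hw := tt_pos G
  have hpi := Real.pi_pos
  have hN3 : 1 / (N : ℝ) ≤ 0.01 := by rw [div_le_iff₀ (by linarith)]; linarith
  have hN4 : 0 < 1 / (N : ℝ) := by positivity
  have hN5 : 2 / (N : ℝ) = 2 * (1 / N) := by ring
  set Z : ℂ → ℝ := fun x => ∑ j : Fin 4, (hz N j).indicator (fun _ => (1 : ℝ)) x with hZ
  have hZi : ∀ j, Integrable ((hz N j).indicator (fun _ => (1 : ℝ))) := by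
    intro j
    rw [integrable_indicator_iff (isClosed_hz N j).measurableSet]
    refine integrableOn_const (ne_top_of_le_ne_top (vol_ball_ne_top 0 (1 + 2 / N))
      (measure_mono fun x hx => ?_))
    simpa using hx.1
  have hZi' : Integrable Z := integrable_finsetSum _ fun j _ => hZi j
  have hZ0 : ∀ x, 0 ≤ Z x := fun x =>
    Finset.sum_nonneg fun j _ => Set.indicator_nonneg (fun _ _ => zero_le_one) x
  have hZint : ∫ x, Z x ≤ 4 * (160000 * Real.pi / N ^ 5) := by
    rw [hZ, integral_finsetSum _ fun j _ => hZi j]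
    have : ∀ j : Fin 4, ∫ x, (hz N j).indicator (fun _ => (1 : ℝ)) x ≤ 160000 * Real.pi / N ^ 5 := by
      intro j
      have e1 : ∫ a, (hz N j).indicator (fun _ => (1 : ℝ)) a = volume.real (hz N j) :=
        integral_indicator_one (isClosed_hz N j).measurableSet
      rw [e1]
      exact vol_hz G j
    refine (Finset.sum_le_sum fun j _ => this j).trans (le_of_eq ?_)
    rw [Finset.sum_const]; simp
  set O : Set ℂ := Metric.closedBall 0 (1 + 2 / N) \ Metric.ball 0 1 with hO
  have hOm : MeasurableSet O :=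
    Metric.isClosed_closedBall.measurableSet.diff Metric.isOpen_ball.measurableSet
  have hOi : Integrable (O.indicator (fun _ => (1 : ℝ))) := by
    rw [integrable_indicator_iff hOm]
    exact integrableOn_const (ne_top_of_le_ne_top (vol_ball_ne_top 0 (1 + 2 / N))
      (measure_mono Set.sdiff_subset))
  have hO0 : ∀ x, 0 ≤ O.indicator (fun _ => (1 : ℝ)) x := fun x =>
    Set.indicator_nonneg (fun _ _ => zero_le_one) x
  have hOint : ∫ x, O.indicator (fun _ => (1 : ℝ)) x ≤ 5 * Real.pi * (1 / N) := by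
    have e1 : ∫ a, O.indicator (fun _ => (1 : ℝ)) a = volume.real O := integral_indicator_one hOm
    rw [e1, hO, vol_annulus zero_le_one (by linarith)]
    rw [hN5]
    have e : 5 * Real.pi * (1 / N) = Real.pi * (5 * (1 / N)) := by ring
    rw [e]
    apply mul_le_mul_of_nonneg_left _ hpi.le
    nlinarith
  set g : ℂ → ℝ := fun x => 8 * K ^ 2 * N ^ 4 * Z x + O.indicator (fun _ => (1 : ℝ)) x with hg
  have hgi : Integrable g := (hZi'.const_mul _).add hOi
  have hg0 : ∀ x, 0 ≤ g x := fun x => by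
    have h1 := hZ0 x
    have h2 := hO0 x
    positivity
  have hcont : Continuous fun x => dn (fderiv ℝ (vv N) x) :=
    continuous_dn.comp ((contDiff_vv G (m := 1)).continuous_fderiv (by norm_num))
  have hmeas : MeasurableSet (Metric.closedBall (0 : ℂ) (1 + 2 / N) \ VN N) :=
    Metric.isClosed_closedBall.measurableSet.diff (isOpen_VN G).measurableSet
  have step1 : ∫ x in Metric.closedBall (0 : ℂ) (1 + 2 / N) \ VN N, dn (fderiv ℝ (vv N) x)
      ≤ ∫ x in Metric.closedBall (0 : ℂ) (1 + 2 / N) \ VN N, g x := by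
    refine setIntegral_mono_on ((hcont.continuousOn.integrableOn_compact
      (isCompact_closedBall _ _)).mono_set Set.sdiff_subset) hgi.integrableOn hmeas ?_
    rintro x ⟨hx, hxV⟩
    rw [mem_closedBall_zero_iff] at hx
    by_cases hz' : ∃ j, ‖x ^ N - hh N j‖ ≤ tt N
    · obtain ⟨j, hj⟩ := hz'
      have h1 := h N x j G hx hj
      have h2 := dn_le (fderiv ℝ (vv N) x)
      have h3 : 1 ≤ Z x := by
        have h5 : (hz N j).indicator (fun _ => (1 : ℝ)) x ≤ Z x :=
          Finset.single_le_sum (f := fun j => (hz N j).indicator (fun _ => (1 : ℝ)) x)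
            (fun j _ => Set.indicator_nonneg (fun _ _ => zero_le_one) x) (Finset.mem_univ j)
        rw [Set.indicator_of_mem (show x ∈ hz N j from ⟨hx, hj⟩)] at h5
        exact h5
      have h4 : 2 * (1 + ‖fderiv ℝ (vv N) x‖) ^ 2 ≤ 8 * K ^ 2 * N ^ 4 := by
        have h5 : 1 + ‖fderiv ℝ (vv N) x‖ ≤ 2 * (K * N ^ 2) := by
          have : 1 ≤ K * (N : ℝ) ^ 2 := by nlinarith
          linarith
        have h6 : 0 ≤ 1 + ‖fderiv ℝ (vv N) x‖ := by positivity
        have := pow_le_pow_left₀ h6 h5 2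
        nlinarith
      have h5 := hO0 x
      have h6 : 8 * K ^ 2 * N ^ 4 * 1 ≤ 8 * K ^ 2 * N ^ 4 * Z x := by gcongr
      show _ ≤ 8 * K ^ 2 * N ^ 4 * Z x + O.indicator (fun _ => (1 : ℝ)) x
      linarith
    · push Not at hz'
      rcases solid_flat G hxV hz' with h1 | ⟨h1, h2⟩
      · rw [h1]; exact hg0 x
      · rw [h2, dn_zero']
        have h3 : x ∈ O := by
          refine ⟨by simpa using hx, ?_⟩
          intro h4
          rw [Metric.mem_ball, dist_zero_right] at h4
          have h5 : ‖x ^ N‖ ≤ 1 := by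
            rw [norm_pow]; exact pow_le_one₀ (norm_nonneg _) h4.le
          have hE := EE_ge (N := N) hw (hh N) x
          have hE0 : 0 < EN N x := EN_pos G x
          have hZq := G.norm_Zq
          have : rad N (qq N) x ≤ -0.5 := by
            rw [rad_eq]
            have h2 : ‖x ^ N‖ / ‖qq N ^ N‖ ≤ 0.5 := by
              rw [div_le_iff₀ (by linarith)]; nlinarith
            have h3 : 0 ≤ ‖x ^ N‖ / ‖qq N ^ N‖ := by positivity
            nlinarith
          have h6 := mul_le_mul_of_nonneg_left this hE0.le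
          have h7 : EN N x = EE N (tt N) (hh N) x := rfl
          nlinarith
        show _ ≤ 8 * K ^ 2 * N ^ 4 * Z x + O.indicator (fun _ => (1 : ℝ)) x
        rw [Set.indicator_of_mem h3]
        have h4 := hZ0 x
        have : 0 ≤ 8 * K ^ 2 * N ^ 4 * Z x := by positivity
        linarith
  have step2 : ∫ x in Metric.closedBall (0 : ℂ) (1 + 2 / N) \ VN N, g x ≤ ∫ x, g x :=
    setIntegral_le_integral hgi (Filter.Eventually.of_forall hg0)
  have step3 : ∫ x, g x =
      8 * K ^ 2 * N ^ 4 * (∫ x, Z x) + ∫ x, O.indicator (fun _ => (1 : ℝ)) x := by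
    rw [hg, integral_add (hZi'.const_mul _) hOi, integral_const_mul]
  refine step1.trans (step2.trans ?_)
  rw [step3]
  have e : (8 * K ^ 2 * (4 * (160000 * Real.pi)) + 5 * Real.pi) * (1 / (N : ℝ)) =
      8 * K ^ 2 * N ^ 4 * (4 * (160000 * Real.pi / N ^ 5)) + 5 * Real.pi * (1 / N) := by
    field_simp
  rw [e]
  gcongr

end Pool.Agent.H24
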