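import Pool.Agent.H24.Int

/-! The stress corrector has small energy. -/

open Complex Filter Topology MeasureTheory
open scoped ContDiff

namespace Pool.Agent.H24

lemma EN_sq_le {N : ℕ} (G : Good N) {x : ℂ} (hx : x ∈ belt N) :
    EN N x ^ 2 ≤ 50000 * (1 + ∑ j : Fin 4, ∑ k ∈ Finset.range N,
      ker ((N / 400) ^ 2) (tt N) 4 ‖x - ep N ^ k * hc N j‖) := by
  have h0 := gw_sq_le G 0 hx.1 hx.2
  have h1 := gw_sq_le G 1 hx.1 hx.2
  have h2 := gw_sq_le G 2 hx.1 hx.2
  have h3 := gw_sq_le G 3 hx.1 hx.2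
  rw [Fin.sum_univ_four]
  have e : EN N x = 100 * (1 + (gw N (tt N) (hh N 0) x + gw N (tt N) (hh N 1) x +
      gw N (tt N) (hh N 2) x + gw N (tt N) (hh N 3) x)) := by
    rw [EN, EE, Fin.sum_univ_four]
  rw [e]
  generalize gw N (tt N) (hh N 0) x = a at *
  generalize gw N (tt N) (hh N 1) x = b at *
  generalize gw N (tt N) (hh N 2) x = c at *
  generalize gw N (tt N) (hh N 3) x = d at *
  have key : (1 + (a + b + c + d)) ^ 2 ≤ 5 * (1 + (a ^ 2 + b ^ 2 + c ^ 2 + d ^ 2)) := by
    nlinarith [sq_nonneg (1 - a), sq_nonneg (1 - b), sq_nonneg (1 - c), sq_nonneg (1 - d),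
      sq_nonneg (a - b), sq_nonneg (a - c), sq_nonneg (a - d), sq_nonneg (b - c),
      sq_nonneg (b - d), sq_nonneg (c - d)]
  rw [mul_pow]
  nlinarith

lemma vol_ball_ne_top (c : ℂ) (R : ℝ) : volume (Metric.closedBall c R) ≠ ⊤ := by
  rw [Complex.volume_closedBall]
  exact ENNReal.mul_ne_top (by simp) ENNReal.coe_ne_top

lemma log_term {N : ℕ} (G : Good N) :
    Real.log (1 + (N / 400) ^ 2 * 4 ^ 2 / tt N ^ 2) ≤ 7 * Real.log N := by
  have hN := G.Nr
  have e : (N / 400 : ℝ) ^ 2 * 4 ^ 2 / tt N ^ 2 = N ^ 6 / 10000 := by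
    rw [tt]; field_simp; ring
  rw [e]
  have h1 : (7 : ℝ) * Real.log N = Real.log (N ^ 7) := by
    rw [Real.log_pow]; push_cast; ring
  rw [h1]
  apply Real.log_le_log (by positivity)
  have h2 : 1 ≤ (N : ℝ) ^ 6 := one_le_pow₀ (by linarith)
  have h3 : (N : ℝ) ^ 7 = N * N ^ 6 := by ring
  rw [h3]; nlinarith

lemma int_psi : ∃ C : ℝ, 0 < C ∧ ∀ N, Good N →
    ∫ x in Metric.closedBall (0 : ℂ) (1 + 2 / N), ‖iteratedFDeriv ℝ 2 (psi N) x‖ ^ 2
      ≤ C * (Real.log N / N) := by
  obtain ⟨K, hK, h⟩ := psi_bd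
  refine ⟨K ^ 2 * 50000 * (8 * Real.pi + 28 * 160000 * Real.pi), by positivity, ?_⟩
  intro N G
  have hN := G.Nr
  have hw := tt_pos G
  have hA : 0 < ((N : ℝ) / 400) ^ 2 := by positivity
  set S : ℂ → ℝ := fun x => ∑ j : Fin 4, ∑ k ∈ Finset.range N,
      ker ((N / 400) ^ 2) (tt N) 4 ‖x - ep N ^ k * hc N j‖ with hS
  have hS0 : ∀ x, 0 ≤ S x := fun x =>
    Finset.sum_nonneg fun j _ => Finset.sum_nonneg fun k _ => ker_nonneg hA _
  have hSi : Integrable S :=
    integrable_finsetSum _ fun j _ => integrable_finsetSum _ fun k _ => integrable_ker hA hw _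
  have hSint : ∫ x, S x = 4 * (N * (Real.pi / (N / 400) ^ 2 *
      Real.log (1 + (N / 400) ^ 2 * 4 ^ 2 / tt N ^ 2))) := by
    rw [hS, integral_finsetSum _ fun j _ => integrable_finsetSum _ fun k _ => integrable_ker hA hw _]
    have : ∀ j : Fin 4, ∫ x, ∑ k ∈ Finset.range N,
        ker ((N / 400) ^ 2) (tt N) 4 ‖x - ep N ^ k * hc N j‖ = N * (Real.pi / (N / 400) ^ 2 *
      Real.log (1 + (N / 400) ^ 2 * 4 ^ 2 / tt N ^ 2)) := by
      intro j
      rw [integral_finsetSum _ fun k _ => integrable_ker hA hw _]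
      rw [Finset.sum_congr rfl fun k _ => int_ker_shift hA hw (by norm_num : (0:ℝ) < 4) _]
      rw [Finset.sum_const, Finset.card_range, nsmul_eq_mul]
    rw [Finset.sum_congr rfl fun j _ => this j, Finset.sum_const]
    simp
  set g : ℂ → ℝ := fun x => K ^ 2 * (50000 * ((belt N).indicator (fun _ => (1 : ℝ)) x + S x)) with hg
  have hIb : Integrable ((belt N).indicator (fun _ => (1 : ℝ))) := by
    rw [integrable_indicator_iff (isClosed_belt N).measurableSet]
    exact integrableOn_const (ne_top_of_le_ne_top (vol_ball_ne_top 0 (1 + 2 / N))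
      (measure_mono ((belt_sub G).trans Set.sdiff_subset)))
  have hgi : Integrable g := ((hIb.add hSi).const_mul 50000).const_mul (K ^ 2)
  have hg0 : ∀ x, 0 ≤ g x := fun x => by
    have h1 := hS0 x
    have h2 : 0 ≤ (belt N).indicator (fun _ => (1 : ℝ)) x :=
      Set.indicator_nonneg (fun _ _ => zero_le_one) x
    positivity
  have hcont : Continuous fun x => ‖iteratedFDeriv ℝ 2 (psi N) x‖ ^ 2 := by
    have := (contDiff_psi G (m := 2)).continuous_iteratedFDeriv (m := 2) le_rfl
    exact this.norm.pow 2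
  have step1 : ∫ x in Metric.closedBall (0 : ℂ) (1 + 2 / N), ‖iteratedFDeriv ℝ 2 (psi N) x‖ ^ 2
      ≤ ∫ x in Metric.closedBall (0 : ℂ) (1 + 2 / N), g x := by
    refine setIntegral_mono_on (hcont.continuousOn.integrableOn_compact
      (isCompact_closedBall _ _)) hgi.integrableOn Metric.isClosed_closedBall.measurableSet ?_
    intro x hx
    rw [mem_closedBall_zero_iff] at hx
    by_cases hb : x ∈ belt N
    · have h1 := h N x G hx
      have h2 := EN_sq_le G hb
      have h3 : ‖iteratedFDeriv ℝ 2 (psi N) x‖ ^ 2 ≤ (K * EN N x) ^ 2 :=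
        pow_le_pow_left₀ (norm_nonneg _) h1 2
      rw [mul_pow] at h3
      show _ ≤ K ^ 2 * (50000 * ((belt N).indicator (fun _ => (1 : ℝ)) x + S x))
      rw [Set.indicator_of_mem hb]
      exact h3.trans (mul_le_mul_of_nonneg_left h2 (by positivity))
    · have h1 : ‖x ^ N‖ ≤ 1 / 2 := by
        by_contra hcon
        push Not at hcon
        exact hb ⟨hcon.le, hx⟩
      have h2 := (psi_bd_zero G (Or.inl h1) one_pos).b2
      rw [zero_mul] at h2
      have h3 : ‖iteratedFDeriv ℝ 2 (psi N) x‖ = 0 := le_antisymm h2 (norm_nonneg _)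
      rw [h3]
      have := hg0 x
      simpa using this
  have step2 : ∫ x in Metric.closedBall (0 : ℂ) (1 + 2 / N), g x ≤ ∫ x, g x :=
    setIntegral_le_integral hgi (Filter.Eventually.of_forall hg0)
  have step3 : ∫ x, g x = K ^ 2 * (50000 * (volume.real (belt N) + ∫ x, S x)) := by
    have e1 : ∫ a, (belt N).indicator (fun _ => (1 : ℝ)) a = volume.real (belt N) :=
      integral_indicator_one (isClosed_belt N).measurableSet
    rw [hg, integral_const_mul, integral_const_mul, integral_add hIb hSi, e1]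
  have hlog : 1 ≤ Real.log N := by
    rw [Real.le_log_iff_exp_le (by linarith)]
    have := Real.exp_one_lt_d9
    linarith
  have hv := vol_belt G
  have hL := log_term G
  have step4 : ∫ x, S x ≤ 28 * 160000 * Real.pi * (Real.log N / N) := by
    rw [hSint]
    have e : 28 * 160000 * Real.pi * (Real.log N / N) =
      4 * (N * (Real.pi / (N / 400) ^ 2 * (7 * Real.log N))) := by field_simp; ring
    rw [e]
    gcongr
  have step5 : volume.real (belt N) ≤ 8 * Real.pi * (Real.log N / N) := by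
    refine hv.trans ?_
    have e : 8 * Real.pi / N = 8 * Real.pi * (1 / N) := by ring
    rw [e]
    gcongr
  refine step1.trans (step2.trans ?_)
  rw [step3]
  have : K ^ 2 * 50000 * (8 * Real.pi + 28 * 160000 * Real.pi) * (Real.log N / N) =
    K ^ 2 * (50000 * (8 * Real.pi * (Real.log N / N) + 28 * 160000 * Real.pi * (Real.log N / N))) := by
    ring
  rw [this]
  gcongr

end Pool.Agent.H24
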