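import Pool.Agent.H24.Est

/-! Effective moduli of the microstructure. -/

open Complex Filter Topology MeasureTheory
open scoped ContDiff Pointwise

namespace Pool.Agent.H24

variable {ι : Type*} {b : Module.Basis (Fin 2) ℝ ℂ} {J : Finset ι} {c : ι → ℂ} {ρ : ι → ℝ}
  {ε η : ℝ} {V0 : Set ℂ} {v ψ : ℂ → ℂ} {κ μ : ℝ}

lemma cell_pos (b : Module.Basis (Fin 2) ℝ ℂ) : 0 < volume.real (ZSpan.fundamentalDomain b) :=
  ENNReal.toReal_pos (ZSpan.measure_fundamentalDomain_ne_zero b)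
    (ZSpan.fundamentalDomain_isBounded b).measure_lt_top.ne

lemma qf_le_dn (hκ : 0 < κ) (hμ : 0 < μ) (D : ℂ →L[ℝ] ℂ) :
    qf κ μ (1 + trD D) (0 + devD D) ≤ 4 * max κ μ * dn D := by
  have h1 : dn D = (1 + trD D) ^ 2 + ‖devD D‖ ^ 2 := rfl
  rw [h1, qf, zero_add]
  have h2 := le_max_left κ μ
  have h3 := le_max_right κ μ
  have h4 := mul_le_mul_of_nonneg_right h2 (sq_nonneg (1 + trD D))
  have h5 := mul_le_mul_of_nonneg_right h3 (sq_nonneg ‖devD D‖)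
  nlinarith

lemma Wef_shear_le (hκ : 0 < κ) (hμ : 0 < μ) (Ω : Set ℂ) (w : ℂ) :
    Wef κ μ b Ω 0 w ≤ 4 * μ * ‖w‖ ^ 2 := by
  have h1 := Wef_le (Ω := Ω) (b := b) hκ.le hμ.le 0 w 0
  refine h1.trans ?_
  unfold Aen
  have hA := cell_pos b
  rw [inv_mul_le_iff₀ hA]
  have e : ∀ x, qf κ μ (0 + trD (fderiv ℝ ((0 : PF b) : ℂ → ℂ) x))
      (w + devD (fderiv ℝ ((0 : PF b) : ℂ → ℂ) x)) = 4 * μ * ‖w‖ ^ 2 := by
    intro x
    have h0 : fderiv ℝ ((0 : PF b) : ℂ → ℂ) x = 0 := by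
      have : ((0 : PF b) : ℂ → ℂ) = fun _ => 0 := rfl
      rw [this]; simp
    rw [h0]
    simp [trD, devD, qf]
  rw [integral_congr_ae (Filter.Eventually.of_forall e), setIntegral_const, smul_eq_mul]
  gcongr
  · exact (ZSpan.fundamentalDomain_isBounded b).measure_lt_top.ne
  · exact Set.inter_subset_left

lemma Wef_bulk_le (hκ : 0 < κ) (hμ : 0 < μ) (P : Pk b J c ρ ε) (D : Device η V0 v ψ) :
    Wef κ μ b (Vd b J c ρ V0)ᶜ 1 0 ≤
      4 * max κ μ * (η + ε / volume.real (ZSpan.fundamentalDomain b)) := by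
  set Y := ZSpan.fundamentalDomain b with hY
  have hYm : MeasurableSet Y := ZSpan.fundamentalDomain_measurableSet b
  have hVm : MeasurableSet (Vd b J c ρ V0)ᶜ := (isOpen_Vd D.openV).measurableSet.compl
  have hA := cell_pos b
  have hS : IsCompact (Sd J c ρ) := isCompact_Sd
  have hout : ∀ x, x ∉ Sd J c ρ → FF J c ρ ρ v x = 0 := fun x hx => FF_out P.pos D.v0 hx
  have hm := perE_mem hS (Sd_sub P) hout (FF_contDiff D.sv)
  have h1 := Wef_le (Ω := (Vd b J c ρ V0)ᶜ) hκ.le hμ.le 1 0 ⟨perE b (FF J c ρ ρ v), hm⟩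
  refine h1.trans ?_
  unfold Aen
  rw [inv_mul_le_iff₀ hA]
  have e1 : ∫ x in Y ∩ (Vd b J c ρ V0)ᶜ, qf κ μ (1 + trD (fderiv ℝ (perE b (FF J c ρ ρ v)) x))
      (0 + devD (fderiv ℝ (perE b (FF J c ρ ρ v)) x)) =
      ∫ x in Y ∩ (Vd b J c ρ V0)ᶜ, qf κ μ (1 + trD (fderiv ℝ (FF J c ρ ρ v) x))
      (0 + devD (fderiv ℝ (FF J c ρ ρ v) x)) := by
    refine setIntegral_congr_fun (hYm.inter hVm) fun x hx => ?_
    show qf κ μ (1 + trD (fderiv ℝ (perE b (FF J c ρ ρ v)) x))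
      (0 + devD (fderiv ℝ (perE b (FF J c ρ ρ v)) x)) = _
    rw [perE_fderiv hS (Sd_sub P) hout hx.1]
  have hcD : Continuous (fderiv ℝ (FF J c ρ ρ v)) := (FF_contDiff D.sv).continuous_fderiv (by simp)
  have e2 : ∫ x in Y ∩ (Vd b J c ρ V0)ᶜ, qf κ μ (1 + trD (fderiv ℝ (FF J c ρ ρ v) x))
      (0 + devD (fderiv ℝ (FF J c ρ ρ v) x)) ≤
      ∫ x in Y ∩ (Vd b J c ρ V0)ᶜ, 4 * max κ μ * dn (fderiv ℝ (FF J c ρ ρ v) x) := by
    refine setIntegral_mono_on (integrableOn_cell b ?_ _) (integrableOn_cell b ?_ _)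
      (hYm.inter hVm) fun x _ => qf_le_dn hκ hμ _
    · unfold qf
      exact (continuous_const.mul ((continuous_const.add (continuous_trD.comp hcD)).pow 2)).add
        (continuous_const.mul ((continuous_const.add (continuous_devD.comp hcD)).norm.pow 2))
    · exact continuous_const.mul (continuous_dn.comp hcD)
  rw [integral_const_mul] at e2
  have e3 := int_kin' P D
  rw [← hY] at e3
  have hmax : 0 < max κ μ := lt_max_of_lt_left hκ
  show ∫ x in Y ∩ (Vd b J c ρ V0)ᶜ, qf κ μ (1 + trD (fderiv ℝ (perE b (FF J c ρ ρ v)) x))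
      (0 + devD (fderiv ℝ (perE b (FF J c ρ ρ v)) x)) ≤ _
  rw [e1]
  refine e2.trans ?_
  have e4 : volume.real Y * (4 * max κ μ * (η + ε / volume.real Y)) =
      4 * max κ μ * (η * volume.real Y + ε) := by
    have : volume.real Y ≠ 0 := hA.ne'
    field_simp
  rw [e4]
  gcongr

/-- The microstructure is isotropic, with small bulk modulus and nearly full shear modulus. -/
theorem micro_est (hκ : 0 < κ) (hμ : 0 < μ)
    (P : Pk b J c ρ (η * volume.real (ZSpan.fundamentalDomain b))) (D : Device η V0 v ψ) :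
    ∃ κs μs : ℝ, 0 ≤ κs ∧ 0 ≤ μs ∧
      (∀ t w, Wef κ μ b (Vd b J c ρ V0)ᶜ t w = qf κs μs t w) ∧ κs ≤ 2 * max κ μ * η ∧
      μ * (1 - μ * (1 / κ + 2 / μ) * η) ≤ μs ∧ μs ≤ μ := by
  set Ω := (Vd b J c ρ V0)ᶜ with hΩ
  have hm : MeasurableSet Ω := (isOpen_Vd D.openV).measurableSet.compl
  have hp : ∀ i x, x + b i ∈ Ω ↔ x ∈ Ω := fun i x => not_congr (Vd_per i x)
  have hr : ∀ x, ep 3 * x ∈ Ω ↔ x ∈ Ω := fun x => not_congr (Vd_rot P D.rot x)
  have hiso := Wef_iso (b := b) (Ω := Ω) hκ.le hμ.le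
    (fun t v => Wef_rot hκ.le hμ.le P.latt hm hp hr t v)
  have n0 := Wef_nonneg (b := b) (Ω := Ω) hκ.le hμ.le 1 0
  have n1 := Wef_nonneg (b := b) (Ω := Ω) hκ.le hμ.le 0 1
  have n2 := Wef_nonneg (b := b) (Ω := Ω) hκ.le hμ.le 0 I
  have hlow : ∀ w, 4 * μ * ‖w‖ ^ 2 * (1 - μ * (1 / κ + 2 / μ) * η) ≤ Wef κ μ b Ω 0 w := by
    intro w
    refine Wef_lower hκ hμ (ψ := FF J c ρ (fun i => ρ i ^ 2) ψ) (FF_contDiff D.sψ)
      isCompact_Sd (Sd_sub P) (fun x hx => FF_out P.pos D.ψ0 hx) ?_ hm (int_stat P D) w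
    intro x hx hxΩ
    have hxV : x ∈ Vd b J c ρ V0 := by
      by_contra hcon
      exact hxΩ hcon
    obtain ⟨i, hi, h1⟩ := Vd_cell P D.sub hx hxV
    have hρ := P.pos i hi
    have hxB : x ∈ Metric.closedBall (c i) (ρ i) := by
      rw [← pre_ball hρ]
      exact Metric.ball_subset_closedBall (D.sub h1)
    have h2 := FF_near P (w := fun i => ρ i ^ 2) D.ψ0 hi hxB
    have h3 : (fun y => y ^ 2 / 2 + FF J c ρ (fun i => ρ i ^ 2) ψ y) =ᶠ[𝓝 x]
        fun y => y ^ 2 / 2 + ρ i ^ 2 • ψ ((ρ i)⁻¹ • (y - c i)) := by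
      filter_upwards [h2] with y hy
      rw [hy]
    rw [(h3.fderiv (𝕜 := ℝ)).fderiv_eq]
    have h4 : (fun y : ℂ => y ^ 2 / 2 + ρ i ^ 2 • ψ ((ρ i)⁻¹ • (y - c i))) =
        fun y => (c i * y - c i ^ 2 / 2) +
          ρ i ^ 2 • (fun z => z ^ 2 / 2 + ψ z) ((ρ i)⁻¹ • (y - c i)) := by
      funext y
      simp only [Complex.real_smul, smul_add]
      push_cast
      have : (ρ i : ℂ) ≠ 0 := by exact_mod_cast hρ.ne'
      field_simp
      ring
    rw [h4]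
    have hψ2 : ContDiff ℝ ∞ fun z : ℂ => z ^ 2 / 2 + ψ z :=
      ((contDiff_id.pow 2).div_const 2).add D.sψ
    have hF : ContDiff ℝ ∞ fun y : ℂ =>
        ρ i ^ 2 • (fun z => z ^ 2 / 2 + ψ z) ((ρ i)⁻¹ • (y - c i)) :=
      (hψ2.comp ((contDiff_id.sub contDiff_const).const_smul _)).const_smul _
    have e1 : fderiv ℝ (fun y => (c i * y - c i ^ 2 / 2) +
          ρ i ^ 2 • (fun z => z ^ 2 / 2 + ψ z) ((ρ i)⁻¹ • (y - c i))) =
        fun y => (c i • (1 : ℂ →L[ℝ] ℂ)) +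
          fderiv ℝ (fun y => ρ i ^ 2 • (fun z => z ^ 2 / 2 + ψ z) ((ρ i)⁻¹ • (y - c i))) y := by
      funext y
      have d1 : HasFDerivAt (fun y => c i * y - c i ^ 2 / 2) (c i • (1 : ℂ →L[ℝ] ℂ)) y :=
        ((hasFDerivAt_id y).const_mul (c i)).sub_const _
      exact (d1.add (hF.differentiable (by simp) y).hasFDerivAt).fderiv
    rw [e1]
    have e2 := fderiv2_affine (fun z => z ^ 2 / 2 + ψ z) hρ.ne' (c i) x
    rw [D.aff _ h1] at e2
    have hd2 := diff2 hF x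
    have e3 : HasFDerivAt (fun y => (c i • (1 : ℂ →L[ℝ] ℂ)) +
          fderiv ℝ (fun y => ρ i ^ 2 • (fun z => z ^ 2 / 2 + ψ z) ((ρ i)⁻¹ • (y - c i))) y)
        (fderiv ℝ (fderiv ℝ (fun y => ρ i ^ 2 • (fun z => z ^ 2 / 2 + ψ z)
          ((ρ i)⁻¹ • (y - c i)))) x) x := hd2.hasFDerivAt.const_add _
    rw [e3.fderiv]
    exact e2
  have l1 := hlow 1
  have l2 := hlow I
  have u1 := Wef_shear_le (b := b) hκ hμ Ω 1
  have u2 := Wef_shear_le (b := b) hκ hμ Ω I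
  rw [norm_one] at l1 u1
  rw [Complex.norm_I] at l2 u2
  have ub := Wef_bulk_le hκ hμ P D
  rw [← hΩ] at ub
  have hA := cell_pos b
  have e5 : η * volume.real (ZSpan.fundamentalDomain b) /
      volume.real (ZSpan.fundamentalDomain b) = η := by field_simp
  rw [e5] at ub
  refine ⟨Wef κ μ b Ω 1 0 / 4, (Wef κ μ b Ω 0 1 + Wef κ μ b Ω 0 I) / 8, by positivity,
    by positivity, ?_, ?_, ?_, ?_⟩
  · intro t w
    rw [hiso t w, qf]
    ring
  · linarith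
  · linarith
  · linarith

end Pool.Agent.H24
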