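import Pool.Agent.H24.RingPsi

/-! The kinematic field. -/

open Complex Filter Topology
open scoped ContDiff

namespace Pool.Agent.H24

noncomputable def om (N : ℕ) : ℝ := (N : ℝ) ^ 2

noncomputable def em (N : ℕ) : ℂ := I * om N * (mm N - 1) / mm N
noncomputable def ec (N : ℕ) : ℂ :=
  I * om N * (starRingEnd ℂ (mm N) - 1) / starRingEnd ℂ (mm N)

noncomputable def Vh (N : ℕ) (x : ℂ) : ℂ := x * (-1 + bg N (em N) (ec N) 1 x)

noncomputable def vT (N : ℕ) (x : ℂ) : ℂ := -x + I * om N * (x - 1)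
noncomputable def vT' (N : ℕ) (x : ℂ) : ℂ := -x + qq N - I * om N * (x - qq N)

noncomputable def wa (N : ℕ) : ℂ → ℝ := wall N (tt N) (hh N) (rad N 1) (-1)
noncomputable def wb (N : ℕ) : ℂ → ℝ := wall N (tt N) (hh N) (rad N (qq N)) 2

/-- product of two walls -/
noncomputable def chi2 (N : ℕ) (n1 n2 : ℂ → ℝ) (x : ℂ) : ℝ :=
  wall N (tt N) (hh N) n1 0 x * wall N (tt N) (hh N) n2 0 x

noncomputable def KT (N : ℕ) (x : ℂ) : ℂ :=
  chi2 N (spk N (starRingEnd ℂ (mm N))) (fun y => - spk N (mm N) y) x • (vT N x - Vh N x)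

noncomputable def KT' (N : ℕ) (x : ℂ) : ℂ :=
  chi2 N (spk N (mm N)) (fun y => - spk N (ep N * starRingEnd ℂ (mm N)) y) x •
    (vT' N x - Vh N x)

noncomputable def vv (N : ℕ) (x : ℂ) : ℂ :=
  Vh N x + (1 - wa N x) • (-x - Vh N x) - wb N x • Vh N x +
    (wa N x * (1 - wb N x)) • rotSum N 1 (fun y => KT N y + KT' N y) x

section
variable {N : ℕ} (G : Good N)
include G

lemma om_tt : om N * tt N = 1 := by
  rw [om, tt]; have := G.Nr; field_simp

lemma om_pos : 0 < om N := by rw [om]; have := G.Nr; positivity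

lemma qq_mul : qq N * (1 + I * om N) = I * om N * qt N := by
  have hk := kap_ne N
  rw [qq]
  have e : I * om N * kap N = 1 + I * om N := by
    rw [kap]
    have h1 : (om N : ℂ) * (tt N : ℂ) = 1 := by exact_mod_cast om_tt G
    have hI : I * I = -1 := Complex.I_mul_I
    calc I * om N * (1 - I * tt N) = I * om N - (I * I) * (om N * tt N) := by ring
      _ = _ := by rw [h1, hI]; ring
  rw [← e]
  field_simp

lemma Vh_p {x : ℂ} (hx : x ^ N = 1) : Vh N x = -x := by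
  rw [Vh, G.bg_p hx]; ring

lemma Vh_mm : Vh N (mm N) = vT N (mm N) := by
  have h := G.mm_ne
  rw [Vh, G.bg_m rfl, em, vT]
  field_simp

lemma mc_ne : starRingEnd ℂ (mm N) ≠ 0 := by
  rw [Ne, map_eq_zero]; exact G.mm_ne

lemma Vh_mc : Vh N (starRingEnd ℂ (mm N)) = vT N (starRingEnd ℂ (mm N)) := by
  have h := mc_ne G
  rw [Vh, G.bg_mc rfl, ec, vT]
  field_simp

lemma Vh_q {x : ℂ} (hx : x ^ N = qq N ^ N) : Vh N x = 0 := by
  rw [Vh, G.bg_q hx]; ring

lemma Vh_rot (x : ℂ) (k : ℕ) : Vh N (x / ep N ^ k) = Vh N x / ep N ^ k := by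
  rw [Vh, bg_rot G.N1, Vh]; ring

lemma vT_one : vT N 1 - Vh N 1 = 0 := by
  rw [Vh_p G (by simp), vT]; ring

lemma vT_mm : vT N (mm N) - Vh N (mm N) = 0 := by rw [Vh_mm G]; ring

lemma vT_mc : vT N (starRingEnd ℂ (mm N)) - Vh N (starRingEnd ℂ (mm N)) = 0 := by
  rw [Vh_mc G]; ring

lemma vT'_qq : vT' N (qq N) - Vh N (qq N) = 0 := by
  rw [Vh_q G rfl, vT']; ring

lemma vT'_mm : vT' N (mm N) - Vh N (mm N) = 0 := by
  rw [Vh_mm G, vT', vT]
  have h := qq_mul G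
  have h2 : qt N = 2 * mm N - 1 := by rw [mm]; ring
  rw [h2] at h
  linear_combination h

lemma Vh_emc : Vh N (ep N * starRingEnd ℂ (mm N)) = ep N * vT N (starRingEnd ℂ (mm N)) := by
  have he := ep_ne_zero N
  have := Vh_rot G (ep N * starRingEnd ℂ (mm N)) 1
  rw [pow_one, mul_div_cancel_left₀ _ he, Vh_mc G] at this
  rw [this]
  field_simp

lemma vT'_mc : vT' N (ep N * starRingEnd ℂ (mm N)) - Vh N (ep N * starRingEnd ℂ (mm N)) = 0 := by
  rw [Vh_emc G, vT', vT]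
  have h := qq_mul G
  have he := ea_ne N
  have h2 : qt N = 2 * (ep N * starRingEnd ℂ (mm N)) - ep N := by
    rw [qt, conj_mm, ← ea_sq]; field_simp; ring
  rw [h2] at h
  linear_combination h

lemma norm_em : ‖em N‖ ≤ 5 * N := by
  have h1 := norm_one_sub_qt G
  have h2 := norm_mm_ge G
  have hN := G.Nr
  have e : mm N - 1 = -(1 - qt N) / 2 := by rw [mm]; ring
  rw [em, norm_div, norm_mul, norm_mul, Complex.norm_I, one_mul, Complex.norm_real, Real.norm_eq_abs,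
    abs_of_pos (om_pos G), e, norm_div, norm_neg, Complex.norm_ofNat]
  rw [div_le_iff₀ (by linarith)]
  have h3 : om N * (‖1 - qt N‖ / 2) ≤ 5 * N * 1 := by
    have : om N * (5 * (1 / N)) = 5 * N := by rw [om]; field_simp
    have h4 := mul_le_mul_of_nonneg_left h1 (om_pos G).le
    rw [this] at h4
    have h5 : 0 ≤ om N * ‖1 - qt N‖ := mul_nonneg (om_pos G).le (norm_nonneg _)
    linarith
  exact h3.trans (mul_le_mul_of_nonneg_left h2 (by linarith))

lemma norm_ec : ‖ec N‖ ≤ 5 * N := by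
  have h : ec N = - starRingEnd ℂ (em N) := by
    rw [ec, em, map_div₀, map_mul, map_mul, Complex.conj_I, Complex.conj_ofReal, map_sub, map_one]
    ring
  rw [h, norm_neg, RCLike.norm_conj]
  exact norm_em G

end

lemma bd_id {N : ℕ} (G : Good N) {x : ℂ} (hx : ‖x‖ ≤ 1 + 2 / N) :
    Bd (fun y : ℂ => y) x 2 N := by
  have hN := G.Nr
  have h2 : (2 : ℝ) / N ≤ 1 := by rw [div_le_one (by linarith)]; linarith
  refine Bd.holo (f' := fun _ => 1) (f'' := fun _ => 0) contDiff_id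
    (fun y => hasDerivAt_id y) (fun y => hasDerivAt_const _ _) ?_ ?_ ?_
  · linarith
  · rw [norm_one]; linarith
  · rw [norm_zero]; positivity

lemma contDiff_Vh (N : ℕ) {m : ℕ∞} : ContDiff ℝ m (Vh N) :=
  contDiff_id.mul (contDiff_const.add (contDiff_bg N _ _ _))

/-- size of the background field -/
lemma bd_Vh : ∃ K : ℝ, 1 ≤ K ∧ ∀ (N : ℕ) (x : ℂ), Good N → ‖x‖ ≤ 1 + 2 / N →
    Bd (Vh N) x (K * N) N := by
  obtain ⟨K, hK1, hK⟩ := bd_bg
  refine ⟨8 * (1 + K * 11), by linarith, ?_⟩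
  intro N x G hx
  have hN := G.Nr
  have h1 := (Bd.const (x := x) (L := (N : ℝ)) (A := 1) (-1 : ℂ) (by linarith) (by simp)).add
    (hK N (em N) (ec N) 1 x G hx)
  have h2 := (bd_id G hx).cmul h1 (by linarith)
  refine h2.mono (by linarith) ?_ le_rfl
  have h3 := norm_em G
  have h4 := norm_ec G
  rw [norm_one]
  have h5 : ‖em N‖ + ‖ec N‖ + 1 ≤ 11 * N := by linarith
  have h6 := mul_le_mul_of_nonneg_left h5 (by linarith : 0 ≤ K)
  nlinarith

lemma contDiff_vT (N : ℕ) {m : WithTop ℕ∞} : ContDiff ℝ m (vT N) :=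
  (contDiff_id.neg).add (contDiff_const.mul (contDiff_id.sub contDiff_const))

lemma contDiff_vT' (N : ℕ) {m : WithTop ℕ∞} : ContDiff ℝ m (vT' N) :=
  ((contDiff_id.neg).add contDiff_const).sub (contDiff_const.mul (contDiff_id.sub contDiff_const))

lemma norm_qq_le {N : ℕ} (G : Good N) : ‖qq N‖ ≤ 2 := by
  have h1 := abs_le.1 G.zq_re
  have h2 := abs_le.1 G.zq_im
  have hpi := Real.pi_lt_d2
  have hpi' := Real.pi_gt_three
  have h := mem_Reg G (z := zq N) (by rw [abs_le]; constructor <;> linarith)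
    (by rw [abs_le]; constructor <;> linarith)
  rw [G.exp_zq_div] at h
  have hN := G.Nr
  have h3 : (2 : ℝ) / N ≤ 1 := by rw [div_le_one (by linarith)]; linarith
  linarith [h.2]

lemma vT_aff (N : ℕ) : vT N = aff (-(I * om N)) (-1 + I * om N) 0 := by
  funext x; simp only [vT, aff_apply]; ring

lemma vT'_aff (N : ℕ) : vT' N = aff (qq N + I * om N * qq N) (-1 - I * om N) 0 := by
  funext x; simp only [vT', aff_apply]; ring

lemma fderiv_aff0 (a b x : ℂ) : HasFDerivAt (aff a b 0) (b • (1 : ℂ →L[ℝ] ℂ)) x := by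
  refine (hasFDerivAt_aff a b 0 x).congr_fderiv ?_
  refine ContinuousLinearMap.ext fun y => ?_
  simp

lemma norm_smul_one (b : ℂ) : ‖b • (1 : ℂ →L[ℝ] ℂ)‖ ≤ ‖b‖ := by
  refine ContinuousLinearMap.opNorm_le_bound _ (norm_nonneg _) fun y => ?_
  simp

/-- derivatives of `vT - Vh`, `vT' - Vh` -/
lemma vT_bounds : ∃ K : ℝ, 1 ≤ K ∧ ∀ (N : ℕ) (x : ℂ), Good N → ‖x‖ ≤ 1 + 2 / N →
    (‖fderiv ℝ (fun y => vT N y - Vh N y) x‖ ≤ K * N ^ 2 ∧
      ‖iteratedFDeriv ℝ 2 (fun y => vT N y - Vh N y) x‖ ≤ K * N ^ 3) ∧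
    (‖fderiv ℝ (fun y => vT' N y - Vh N y) x‖ ≤ K * N ^ 2 ∧
      ‖iteratedFDeriv ℝ 2 (fun y => vT' N y - Vh N y) x‖ ≤ K * N ^ 3) ∧
    (‖fderiv ℝ (Vh N) x‖ ≤ K * N ^ 2 ∧ ‖iteratedFDeriv ℝ 2 (Vh N) x‖ ≤ K * N ^ 3) := by
  obtain ⟨K, hK1, hK⟩ := bd_Vh
  refine ⟨K + 20, by linarith, ?_⟩
  intro N x G hx
  have hN := G.Nr
  have hV := hK N x G hx
  have hpos := om_pos G
  have hom : om N = (N : ℝ) ^ 2 := rfl
  have hN2 : (1 : ℝ) ≤ (N : ℝ) ^ 2 := by nlinarith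
  have hN3 : (0 : ℝ) ≤ (N : ℝ) ^ 3 := by positivity
  have hn1 : ‖I * (om N : ℂ)‖ = (N : ℝ) ^ 2 := by
    rw [norm_mul, Complex.norm_I, one_mul, Complex.norm_real, Real.norm_eq_abs, abs_of_pos hpos, hom]
  have b1 := hV.b1
  have b2 := hV.b2
  have e1 : K * N * (N : ℝ) = K * N ^ 2 := by ring
  have e2 : K * N * (N : ℝ) ^ 2 = K * N ^ 3 := by ring
  rw [e1] at b1
  rw [e2] at b2
  have key : ∀ a b : ℂ, ‖b‖ ≤ 2 * (N : ℝ) ^ 2 →
      ‖fderiv ℝ (fun y => aff a b 0 y - Vh N y) x‖ ≤ (K + 20) * N ^ 2 ∧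
      ‖iteratedFDeriv ℝ 2 (fun y => aff a b 0 y - Vh N y) x‖ ≤ (K + 20) * N ^ 3 := by
    intro a b hb
    have h1 := (fderiv_aff0 a b x).sub (ContDiff.one_lt_two' hV.smooth x).hasFDerivAt
    have h2 : iteratedFDeriv ℝ 2 (fun y => aff a b 0 y - Vh N y) x
        = iteratedFDeriv ℝ 2 (aff a b 0) x - iteratedFDeriv ℝ 2 (Vh N) x :=
      iteratedFDeriv_sub_apply (contDiff_aff a b 0).contDiffAt hV.smooth.contDiffAt
    constructor
    · have h3 : fderiv ℝ (fun y => aff a b 0 y - Vh N y) x =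
          b • (1 : ℂ →L[ℝ] ℂ) - fderiv ℝ (Vh N) x := h1.fderiv
      rw [h3]
      have h4 := norm_smul_one b
      refine (norm_sub_le _ _).trans ?_
      nlinarith
    · rw [h2, iter2_aff, zero_sub, norm_neg]
      nlinarith
  refine ⟨?_, ?_, ?_, ?_⟩
  · rw [vT_aff]
    refine key _ _ ?_
    refine (norm_add_le _ _).trans ?_
    rw [hn1, norm_neg, norm_one]; linarith
  · rw [vT'_aff]
    refine key _ _ ?_
    refine (norm_sub_le _ _).trans ?_
    rw [hn1, norm_neg, norm_one]; linarith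
  · nlinarith
  · nlinarith

end Pool.Agent.H24
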