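import Pool.Agent.H24.Div

/-! Lower bound for the effective shear energy by stress fields. -/

open Complex Filter Topology MeasureTheory
open scoped ContDiff Pointwise

namespace Pool.Agent.H24

variable {b : Module.Basis (Fin 2) ℝ ℂ} {Ω S : Set ℂ} {κ μ : ℝ}

/-- Airy potential -/
noncomputable def airy (a : ℂ) (ψ : ℂ → ℂ) (x : ℂ) : ℝ := -(starRingEnd ℂ a * ψ x).re

lemma airy_contDiff {a : ℂ} {ψ : ℂ → ℂ} (h : ContDiff ℝ ∞ ψ) : ContDiff ℝ ∞ (airy a ψ) :=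
  (Complex.reCLM.contDiff.comp (contDiff_const.mul h)).neg

lemma airy_cs {a : ℂ} {ψ : ℂ → ℂ} (hS : IsCompact S) (h0 : ∀ x, x ∉ S → ψ x = 0) :
    HasCompactSupport (airy a ψ) :=
  HasCompactSupport.intro hS fun x hx => by rw [airy, h0 x hx]; simp

lemma airy_fderiv {a : ℂ} {ψ : ℂ → ℂ} (h : Differentiable ℝ ψ) (x e : ℂ) :
    fderiv ℝ (airy a ψ) x e = -(starRingEnd ℂ a * fderiv ℝ ψ x e).re := by
  have h1 := (Complex.reCLM.hasFDerivAt (x := starRingEnd ℂ a * ψ x)).comp x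
    ((h x).hasFDerivAt.const_mul (starRingEnd ℂ a))
  have h2 : HasFDerivAt (airy a ψ) _ x := h1.neg
  rw [h2.fderiv]
  simp

lemma diff2 {ψ : ℂ → ℂ} (h : ContDiff ℝ ∞ ψ) : Differentiable ℝ (fderiv ℝ ψ) :=
  (h.fderiv_right (m := 1) (by norm_cast)).differentiable (by norm_num)

lemma cont2 {ψ : ℂ → ℂ} (h : ContDiff ℝ ∞ ψ) : Continuous (fderiv ℝ (fderiv ℝ ψ)) :=
  (h.fderiv_right (m := ∞) (by norm_cast)).continuous_fderiv (by simp)

lemma cont_norm2 {ψ : ℂ → ℂ} (h : ContDiff ℝ ∞ ψ) :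
    Continuous fun x => ‖fderiv ℝ (fderiv ℝ ψ) x‖ ^ 2 := by
  have e : (fun x => ‖fderiv ℝ (fderiv ℝ ψ) x‖ ^ 2) = fun x => ‖iteratedFDeriv ℝ 2 ψ x‖ ^ 2 := by
    funext x; rw [norm_iter2]
  rw [e]
  exact (h.continuous_iteratedFDeriv (m := 2) (by norm_cast)).norm.pow 2

lemma airy_hs2 {a : ℂ} {ψ : ℂ → ℂ} (h : ContDiff ℝ ∞ ψ) (x e f : ℂ) :
    hs2 (airy a ψ) x e f = -(starRingEnd ℂ a * fderiv ℝ (fderiv ℝ ψ) x f e).re := by
  have hd : Differentiable ℝ ψ := h.differentiable (by simp)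
  unfold hs2
  have e1 : (fun y => fderiv ℝ (airy a ψ) y e) =
      fun y => -(starRingEnd ℂ a * fderiv ℝ ψ y e).re := by
    funext y; exact airy_fderiv hd y e
  rw [e1]
  have h1 := (diff2 h x).hasFDerivAt.clm_apply (hasFDerivAt_const e x)
  have h2 := ((Complex.reCLM.hasFDerivAt (x := starRingEnd ℂ a * fderiv ℝ ψ x e)).comp x
    (h1.const_mul (starRingEnd ℂ a))).neg
  have h3 : HasFDerivAt (fun y => -(starRingEnd ℂ a * fderiv ℝ ψ y e).re) _ x := h2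
  rw [h3.fderiv]
  simp

lemma sq_snd (x e f : ℂ) : fderiv ℝ (fderiv ℝ (fun y : ℂ => y ^ 2 / 2)) x f e = f * e := by
  have h1 : fderiv ℝ (fun y : ℂ => y ^ 2 / 2) = fun y => y • (1 : ℂ →L[ℝ] ℂ) := by
    funext y
    have h := (((hasDerivAt_pow 2 y).div_const 2).complexToReal_fderiv).fderiv
    rw [h]
    congr 1
    norm_num
  rw [h1]
  have h2 : HasFDerivAt (fun y : ℂ => y • (1 : ℂ →L[ℝ] ℂ)) _ x :=
    (hasFDerivAt_id (𝕜 := ℝ) x).smul_const (1 : ℂ →L[ℝ] ℂ)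
  rw [h2.fderiv]
  simp

lemma void_snd {ψ : ℂ → ℂ} (h : ContDiff ℝ ∞ ψ) {x : ℂ}
    (hx : fderiv ℝ (fderiv ℝ (fun y => y ^ 2 / 2 + ψ y)) x = 0) (e f : ℂ) :
    fderiv ℝ (fderiv ℝ ψ) x f e = -(f * e) := by
  have hsq : ContDiff ℝ ∞ (fun y : ℂ => y ^ 2 / 2) := (contDiff_id.pow 2).div_const 2
  have hd : Differentiable ℝ ψ := h.differentiable (by simp)
  have hd' : Differentiable ℝ (fun y : ℂ => y ^ 2 / 2) := hsq.differentiable (by simp)
  have e1 : fderiv ℝ (fun y => y ^ 2 / 2 + ψ y) =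
      fun y => fderiv ℝ (fun y : ℂ => y ^ 2 / 2) y + fderiv ℝ ψ y := by
    funext y
    exact fderiv_fun_add (hd' y) (hd y)
  rw [e1] at hx
  have e2 : fderiv ℝ (fun y => fderiv ℝ (fun y : ℂ => y ^ 2 / 2) y + fderiv ℝ ψ y) x =
    fderiv ℝ (fderiv ℝ (fun y : ℂ => y ^ 2 / 2)) x + fderiv ℝ (fderiv ℝ ψ) x :=
    fderiv_fun_add (diff2 hsq x) (diff2 h x)
  rw [e2] at hx
  have h3 := congrArg (fun T : ℂ →L[ℝ] ℂ →L[ℝ] ℂ => T f e) hx
  simp only [add_apply] at h3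
  rw [sq_snd] at h3
  have h4 : (0 : ℂ →L[ℝ] ℂ →L[ℝ] ℂ) f e = 0 := by simp
  rw [h4] at h3
  linear_combination h3

lemma young_point {κ μ T V1 V2 p s1 s2 : ℝ} (hκ : 0 < κ) (hμ : 0 < μ) :
    4 * (p * T + s1 * V1 + s2 * V2) - p ^ 2 / κ - (s1 ^ 2 + s2 ^ 2) / μ ≤
      4 * κ * T ^ 2 + 4 * μ * (V1 ^ 2 + V2 ^ 2) := by
  have h1 : 4 * κ * T ^ 2 - 4 * (p * T) + p ^ 2 / κ = (2 * κ * T - p) ^ 2 / κ := by
    field_simp; ring
  have h2 : 4 * μ * V1 ^ 2 - 4 * (s1 * V1) + s1 ^ 2 / μ = (2 * μ * V1 - s1) ^ 2 / μ := by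
    field_simp; ring
  have h3 : 4 * μ * V2 ^ 2 - 4 * (s2 * V2) + s2 ^ 2 / μ = (2 * μ * V2 - s2) ^ 2 / μ := by
    field_simp; ring
  have h4 : 0 ≤ (2 * κ * T - p) ^ 2 / κ := by positivity
  have h5 : 0 ≤ (2 * μ * V1 - s1) ^ 2 / μ := by positivity
  have h6 : 0 ≤ (2 * μ * V2 - s2) ^ 2 / μ := by positivity
  have h7 : (s1 ^ 2 + s2 ^ 2) / μ = s1 ^ 2 / μ + s2 ^ 2 / μ := add_div _ _ _
  rw [h7]
  linarith

lemma int_cell_full {g : ℂ → ℝ} (hSY : S ⊆ Yo b) (h0 : ∀ x, x ∉ S → g x = 0) :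
    ∫ x in ZSpan.fundamentalDomain b, g x = ∫ x, g x :=
  setIntegral_eq_integral_of_forall_compl_eq_zero fun x hx =>
    h0 x fun h => hx (Yo_sub b (hSY h))

lemma re_fderiv {u : ℂ → ℂ} (hu : Differentiable ℝ u) (x e : ℂ) :
    fderiv ℝ (fun y => (u y).re) x e = (fderiv ℝ u x e).re := by
  have h1 : HasFDerivAt (fun y => (u y).re) _ x :=
    (Complex.reCLM.hasFDerivAt (x := u x)).comp x (hu x).hasFDerivAt
  rw [h1.fderiv]; simp

lemma im_fderiv {u : ℂ → ℂ} (hu : Differentiable ℝ u) (x e : ℂ) :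
    fderiv ℝ (fun y => (u y).im) x e = (fderiv ℝ u x e).im := by
  have h1 : HasFDerivAt (fun y => (u y).im) _ x :=
    (Complex.imCLM.hasFDerivAt (x := u x)).comp x (hu x).hasFDerivAt
  rw [h1.fderiv]; simp

/-- self-equilibrated stresses do no work on periodic fields -/
lemma int_work {φ : ℂ → ℝ} (hφ : ContDiff ℝ ∞ φ) (hc : HasCompactSupport φ) (u : PF b) :
    ∫ x, (hs2 φ x I I * (fderiv ℝ (u : ℂ → ℂ) x 1).re + hs2 φ x 1 1 * (fderiv ℝ (u : ℂ → ℂ) x I).im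
      - hs2 φ x 1 I * ((fderiv ℝ (u : ℂ → ℂ) x 1).im + (fderiv ℝ (u : ℂ → ℂ) x I).re)) = 0 := by
  have w1 : ContDiff ℝ ∞ (fun y => ((u : ℂ → ℂ) y).re) := Complex.reCLM.contDiff.comp u.2.1
  have w2 : ContDiff ℝ ∞ (fun y => ((u : ℂ → ℂ) y).im) := Complex.imCLM.contDiff.comp u.2.1
  have k1 := int_null hφ hc w1 I 1
  have k2 := int_null hφ hc w2 1 I
  have hd := PF_diff u
  have cD : ∀ e : ℂ, Continuous fun x => fderiv ℝ (u : ℂ → ℂ) x e := fun e =>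
    (PF_cont u).clm_apply continuous_const
  simp only [re_fderiv hd, im_fderiv hd] at k1 k2
  have i1 : Integrable fun x => hs2 φ x I I * (fderiv ℝ (u : ℂ → ℂ) x 1).re -
      hs2 φ x I 1 * (fderiv ℝ (u : ℂ → ℂ) x I).re := by
    refine Continuous.integrable_of_hasCompactSupport ?_ ?_
    · exact ((continuous_hs2 hφ I I).mul (Complex.continuous_re.comp (cD 1))).sub
        ((continuous_hs2 hφ I 1).mul (Complex.continuous_re.comp (cD I)))
    · exact ((cs_hs2 hc I I).mul_right).sub ((cs_hs2 hc I 1).mul_right)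
  have i2 : Integrable fun x => hs2 φ x 1 1 * (fderiv ℝ (u : ℂ → ℂ) x I).im -
      hs2 φ x 1 I * (fderiv ℝ (u : ℂ → ℂ) x 1).im := by
    refine Continuous.integrable_of_hasCompactSupport ?_ ?_
    · exact ((continuous_hs2 hφ 1 1).mul (Complex.continuous_im.comp (cD I))).sub
        ((continuous_hs2 hφ 1 I).mul (Complex.continuous_im.comp (cD 1)))
    · exact ((cs_hs2 hc 1 1).mul_right).sub ((cs_hs2 hc 1 I).mul_right)
  have := integral_add i1 i2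
  rw [k1, k2, add_zero] at this
  rw [← this]
  refine integral_congr_ae (Filter.Eventually.of_forall fun x => ?_)
  show _ = _ + _
  rw [hs2_symm hφ x I 1]
  ring

lemma intOn {F : Type*} [NormedAddCommGroup F] {f : ℂ → F} (hf : Continuous f) :
    IntegrableOn f (ZSpan.fundamentalDomain b) := by
  have := integrableOn_cell b hf Set.univ
  rwa [Set.inter_univ] at this

lemma norm_snd_le (H : ℂ →L[ℝ] ℂ →L[ℝ] ℂ) {e f : ℂ} (he : ‖e‖ = 1) (hf : ‖f‖ = 1) :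
    ‖H f e‖ ≤ ‖H‖ := by
  have h1 := (H f).le_opNorm e
  have h2 := H.le_opNorm f
  rw [he, mul_one] at h1
  rw [hf, mul_one] at h2
  exact h1.trans h2

lemma airy_bound {a : ℂ} {ψ : ℂ → ℂ} (h : ContDiff ℝ ∞ ψ) (x : ℂ) {e f : ℂ} (he : ‖e‖ = 1)
    (hf : ‖f‖ = 1) : hs2 (airy a ψ) x e f ^ 2 ≤ ‖a‖ ^ 2 * ‖fderiv ℝ (fderiv ℝ ψ) x‖ ^ 2 := by
  rw [airy_hs2 h, neg_sq, ← mul_pow, ← sq_abs]
  apply pow_le_pow_left₀ (abs_nonneg _)
  refine (Complex.abs_re_le_norm _).trans ?_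
  rw [norm_mul, RCLike.norm_conj]
  exact mul_le_mul_of_nonneg_left (norm_snd_le _ he hf) (norm_nonneg _)

lemma devD_re (D : ℂ →L[ℝ] ℂ) : (devD D).re = ((D 1).re - (D I).im) / 2 := by
  have : devD D = ((1 / 2 : ℝ) : ℂ) * (D 1 + I * D I) := by rw [devD]; push_cast; ring
  rw [this, Complex.re_ofReal_mul, Complex.add_re, Complex.mul_re, Complex.I_re, Complex.I_im]
  ring

lemma devD_im (D : ℂ →L[ℝ] ℂ) : (devD D).im = ((D 1).im + (D I).re) / 2 := by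
  have : devD D = ((1 / 2 : ℝ) : ℂ) * (D 1 + I * D I) := by rw [devD]; push_cast; ring
  rw [this, Complex.im_ofReal_mul, Complex.add_im, Complex.mul_im, Complex.I_re, Complex.I_im]
  ring

/-- the dual integrand -/
noncomputable def gD (κ μ : ℝ) (a v : ℂ) (φ : ℂ → ℝ) (u : ℂ → ℂ) (x : ℂ) : ℝ :=
  4 * ((hs2 φ x 1 1 + hs2 φ x I I) / 2 * trD (fderiv ℝ u x) +
    (a.re + (hs2 φ x I I - hs2 φ x 1 1) / 2) * (v + devD (fderiv ℝ u x)).re +
    (a.im - hs2 φ x 1 I) * (v + devD (fderiv ℝ u x)).im) -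
  ((hs2 φ x 1 1 + hs2 φ x I I) / 2) ^ 2 / κ -
  ((a.re + (hs2 φ x I I - hs2 φ x 1 1) / 2) ^ 2 + (a.im - hs2 φ x 1 I) ^ 2) / μ

lemma gD_le (hκ : 0 < κ) (hμ : 0 < μ) (a v : ℂ) (φ : ℂ → ℝ) (u : ℂ → ℂ) (x : ℂ) :
    gD κ μ a v φ u x ≤ qf κ μ (0 + trD (fderiv ℝ u x)) (v + devD (fderiv ℝ u x)) := by
  have hn : ∀ z : ℂ, ‖z‖ ^ 2 = z.re ^ 2 + z.im ^ 2 := fun z => by
    rw [← Complex.normSq_eq_norm_sq, Complex.normSq_apply]; ring
  rw [qf, hn, zero_add, gD]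
  exact young_point hκ hμ

/-- the dual integrand, split -/
lemma gD_split (κ μ : ℝ) (a v : ℂ) (φ : ℂ → ℝ) (u : ℂ → ℂ) (x : ℂ) :
    gD κ μ a v φ u x =
      2 * (hs2 φ x I I * (fderiv ℝ u x 1).re + hs2 φ x 1 1 * (fderiv ℝ u x I).im
        - hs2 φ x 1 I * ((fderiv ℝ u x 1).im + (fderiv ℝ u x I).re)) +
      4 * (a.re * (devD (fderiv ℝ u x)).re + a.im * (devD (fderiv ℝ u x)).im) +
      (4 * (a.re * v.re + a.im * v.im) - (a.re ^ 2 + a.im ^ 2) / μ) +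
      ((2 * v.re - a.re / μ) * hs2 φ x I I + (-(2 * v.re - a.re / μ)) * hs2 φ x 1 1 +
        (-(4 * v.im - 2 * a.im / μ)) * hs2 φ x 1 I) -
      (((hs2 φ x 1 1 + hs2 φ x I I) / 2) ^ 2 / κ +
        (((hs2 φ x I I - hs2 φ x 1 1) / 2) ^ 2 + hs2 φ x 1 I ^ 2) / μ) := by
  unfold gD
  rw [Complex.add_re, Complex.add_im, devD_re, devD_im, trD]
  ring

lemma gD_void {ψ : ℂ → ℂ} (h : ContDiff ℝ ∞ ψ) {x : ℂ}
    (hx : fderiv ℝ (fderiv ℝ (fun y => y ^ 2 / 2 + ψ y)) x = 0) (a v : ℂ) (u : ℂ → ℂ) :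
    gD κ μ a v (airy a ψ) u x = 0 := by
  have k := void_snd h hx
  have h11 : hs2 (airy a ψ) x 1 1 = a.re := by
    rw [airy_hs2 h, k]; simp
  have h22 : hs2 (airy a ψ) x I I = -a.re := by
    rw [airy_hs2 h, k]; simp
  have h12 : hs2 (airy a ψ) x 1 I = a.im := by
    rw [airy_hs2 h, k]; simp
  unfold gD
  rw [h11, h22, h12]
  ring

theorem Wef_lower (hκ : 0 < κ) (hμ : 0 < μ) {ψ : ℂ → ℂ} (hψ : ContDiff ℝ ∞ ψ)
    (hS : IsCompact S) (hSY : S ⊆ Yo b) (h0 : ∀ x, x ∉ S → ψ x = 0)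
    (hΩ : ∀ x ∈ ZSpan.fundamentalDomain b, x ∉ Ω →
      fderiv ℝ (fderiv ℝ (fun y => y ^ 2 / 2 + ψ y)) x = 0) (hm : MeasurableSet Ω) {η : ℝ}
    (hη : ∫ x in ZSpan.fundamentalDomain b, ‖fderiv ℝ (fderiv ℝ ψ) x‖ ^ 2 ≤
      η * volume.real (ZSpan.fundamentalDomain b)) (v : ℂ) :
    4 * μ * ‖v‖ ^ 2 * (1 - μ * (1 / κ + 2 / μ) * η) ≤ Wef κ μ b Ω 0 v := by
  refine le_ciInf fun u => ?_
  set Y := ZSpan.fundamentalDomain b with hY
  have hYm : MeasurableSet Y := ZSpan.fundamentalDomain_measurableSet b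
  set A := volume.real Y with hA
  have hA0 : 0 < A := by
    have h1 : volume Y ≠ 0 := ZSpan.measure_fundamentalDomain_ne_zero b
    have h2 : volume Y ≠ ⊤ := (ZSpan.fundamentalDomain_isBounded b).measure_lt_top.ne
    exact ENNReal.toReal_pos h1 h2
  set a : ℂ := ((2 * μ : ℝ) : ℂ) * v with ha
  set φ := airy a ψ with hφd
  have hφ : ContDiff ℝ ∞ φ := airy_contDiff hψ
  have hφc : HasCompactSupport φ := airy_cs hS h0
  have are : a.re = 2 * μ * v.re := by rw [ha, Complex.re_ofReal_mul]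
  have aim : a.im = 2 * μ * v.im := by rw [ha, Complex.im_ofReal_mul]
  have hn : ∀ z : ℂ, ‖z‖ ^ 2 = z.re ^ 2 + z.im ^ 2 := fun z => by
    rw [← Complex.normSq_eq_norm_sq, Complex.normSq_apply]; ring
  have cD : ∀ e : ℂ, Continuous fun x => fderiv ℝ (u : ℂ → ℂ) x e := fun e =>
    (PF_cont u).clm_apply continuous_const
  have cdev : Continuous fun x => devD (fderiv ℝ (u : ℂ → ℂ) x) :=
    continuous_devD.comp (PF_cont u)
  have c11 := continuous_hs2 hφ 1 1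
  have c12 := continuous_hs2 hφ 1 I
  have c22 := continuous_hs2 hφ I I
  -- the pieces
  set P1 : ℂ → ℝ := fun x => hs2 φ x I I * (fderiv ℝ (u : ℂ → ℂ) x 1).re +
    hs2 φ x 1 1 * (fderiv ℝ (u : ℂ → ℂ) x I).im
      - hs2 φ x 1 I * ((fderiv ℝ (u : ℂ → ℂ) x 1).im + (fderiv ℝ (u : ℂ → ℂ) x I).re) with hP1
  set P2 : ℂ → ℝ := fun x => a.re * (devD (fderiv ℝ (u : ℂ → ℂ) x)).re +
    a.im * (devD (fderiv ℝ (u : ℂ → ℂ) x)).im with hP2
  set P4 : ℂ → ℝ := fun x => (2 * v.re - a.re / μ) * hs2 φ x I I +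
    (-(2 * v.re - a.re / μ)) * hs2 φ x 1 1 + (-(4 * v.im - 2 * a.im / μ)) * hs2 φ x 1 I with hP4
  set P5 : ℂ → ℝ := fun x => ((hs2 φ x 1 1 + hs2 φ x I I) / 2) ^ 2 / κ +
        (((hs2 φ x I I - hs2 φ x 1 1) / 2) ^ 2 + hs2 φ x 1 I ^ 2) / μ with hP5
  have cP1 : Continuous P1 :=
    ((c22.mul (Complex.continuous_re.comp (cD 1))).add
      (c11.mul (Complex.continuous_im.comp (cD I)))).sub
      (c12.mul ((Complex.continuous_im.comp (cD 1)).add (Complex.continuous_re.comp (cD I))))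
  have cP2 : Continuous P2 :=
    (continuous_const.mul (Complex.continuous_re.comp cdev)).add
      (continuous_const.mul (Complex.continuous_im.comp cdev))
  have cP4 : Continuous P4 :=
    ((continuous_const.mul c22).add (continuous_const.mul c11)).add (continuous_const.mul c12)
  have cP5 : Continuous P5 :=
    (((c11.add c22).div_const 2).pow 2).div_const κ |>.add
      (((((c22.sub c11).div_const 2).pow 2).add (c12.pow 2)).div_const μ)
  have hout : ∀ x, x ∉ S → ∀ e f, hs2 φ x e f = 0 := by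
    intro x hx e f
    rw [airy_hs2 hψ]
    have e1 : ψ =ᶠ[𝓝 x] fun _ => (0 : ℂ) := by
      filter_upwards [hS.isClosed.isOpen_compl.mem_nhds hx] with y hy
      exact h0 y hy
    have e2 : fderiv ℝ (fderiv ℝ ψ) x = 0 := by
      have h1 : fderiv ℝ ψ =ᶠ[𝓝 x] fderiv ℝ (fun _ => (0 : ℂ)) := e1.fderiv
      rw [h1.fderiv_eq]
      simp
    rw [e2]; simp
  have J1 : ∫ x in Y, P1 x = 0 := by
    rw [hY, int_cell_full hSY (fun x hx => by simp [hP1, hout x hx])]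
    exact int_work hφ hφc u
  have Jh : ∀ e f : ℂ, ∫ x in Y, hs2 φ x e f = 0 := by
    intro e f
    rw [hY, int_cell_full hSY (fun x hx => hout x hx e f)]
    exact int_hs2 hφ hφc e f
  have J4 : ∫ x in Y, P4 x = 0 := by
    have i1 : IntegrableOn (fun x => (2 * v.re - a.re / μ) * hs2 φ x I I) Y :=
      intOn (continuous_const.mul c22)
    have i2 : IntegrableOn (fun x => (-(2 * v.re - a.re / μ)) * hs2 φ x 1 1) Y :=
      intOn (continuous_const.mul c11)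
    have i3 : IntegrableOn (fun x => (-(4 * v.im - 2 * a.im / μ)) * hs2 φ x 1 I) Y :=
      intOn (continuous_const.mul c12)
    have i12 : IntegrableOn (fun x => (2 * v.re - a.re / μ) * hs2 φ x I I +
        (-(2 * v.re - a.re / μ)) * hs2 φ x 1 1) Y := i1.add i2
    show ∫ x in Y, ((2 * v.re - a.re / μ) * hs2 φ x I I +
      (-(2 * v.re - a.re / μ)) * hs2 φ x 1 1 + (-(4 * v.im - 2 * a.im / μ)) * hs2 φ x 1 I) = 0
    rw [integral_add i12 i3, integral_add i1 i2, integral_const_mul,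
      integral_const_mul, integral_const_mul, Jh, Jh, Jh]
    ring
  have J2 : ∫ x in Y, P2 x = 0 := by
    have z1 := int_cell_fderiv u 1
    have z2 := int_cell_fderiv u I
    have d0 : ∫ x in Y, devD (fderiv ℝ (u : ℂ → ℂ) x) = 0 := by
      unfold devD
      have i1 : IntegrableOn (fun x => fderiv ℝ (u : ℂ → ℂ) x 1) Y := intOn (cD 1)
      have i2 : IntegrableOn (fun x => I * fderiv ℝ (u : ℂ → ℂ) x I) Y :=
        intOn (continuous_const.mul (cD I))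
      rw [integral_div, integral_add i1 i2, integral_const_mul, z1, z2]
      simp
    have id : IntegrableOn (fun x => devD (fderiv ℝ (u : ℂ → ℂ) x)) Y := intOn cdev
    have e1 : ∫ x in Y, (devD (fderiv ℝ (u : ℂ → ℂ) x)).re = 0 := by
      have := integral_re (𝕜 := ℂ) id
      have h2 : ∫ x in Y, (devD (fderiv ℝ (u : ℂ → ℂ) x)).re =
        (∫ x in Y, devD (fderiv ℝ (u : ℂ → ℂ) x)).re := this
      rw [h2, d0]; simp
    have e2 : ∫ x in Y, (devD (fderiv ℝ (u : ℂ → ℂ) x)).im = 0 := by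
      have := integral_im (𝕜 := ℂ) id
      have h2 : ∫ x in Y, (devD (fderiv ℝ (u : ℂ → ℂ) x)).im =
        (∫ x in Y, devD (fderiv ℝ (u : ℂ → ℂ) x)).im := this
      rw [h2, d0]; simp
    have i1 : IntegrableOn (fun x => a.re * (devD (fderiv ℝ (u : ℂ → ℂ) x)).re) Y :=
      intOn (continuous_const.mul (Complex.continuous_re.comp cdev))
    have i2 : IntegrableOn (fun x => a.im * (devD (fderiv ℝ (u : ℂ → ℂ) x)).im) Y :=
      intOn (continuous_const.mul (Complex.continuous_im.comp cdev))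
    rw [hP2, integral_add i1 i2, integral_const_mul, integral_const_mul, e1, e2]
    ring
  have J5 : ∫ x in Y, P5 x ≤ (1 / κ + 2 / μ) * ‖a‖ ^ 2 * (η * A) := by
    have hpt : ∀ x, P5 x ≤ (1 / κ + 2 / μ) * ‖a‖ ^ 2 * ‖fderiv ℝ (fderiv ℝ ψ) x‖ ^ 2 := by
      intro x
      have b11 := airy_bound (a := a) hψ x (e := 1) (f := 1) (by simp) (by simp)
      have b22 := airy_bound (a := a) hψ x (e := I) (f := I) (by simp) (by simp)
      have b12 := airy_bound (a := a) hψ x (e := 1) (f := I) (by simp) (by simp)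
      rw [← hφd] at b11 b22 b12
      set H := ‖a‖ ^ 2 * ‖fderiv ℝ (fderiv ℝ ψ) x‖ ^ 2 with hH
      have q1 : ((hs2 φ x 1 1 + hs2 φ x I I) / 2) ^ 2 ≤ H := by
        nlinarith [sq_nonneg (hs2 φ x 1 1 - hs2 φ x I I)]
      have q2 : ((hs2 φ x I I - hs2 φ x 1 1) / 2) ^ 2 ≤ H := by
        nlinarith [sq_nonneg (hs2 φ x 1 1 + hs2 φ x I I)]
      show ((hs2 φ x 1 1 + hs2 φ x I I) / 2) ^ 2 / κ +
        (((hs2 φ x I I - hs2 φ x 1 1) / 2) ^ 2 + hs2 φ x 1 I ^ 2) / μ ≤ _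
      have e : (1 / κ + 2 / μ) * ‖a‖ ^ 2 * ‖fderiv ℝ (fderiv ℝ ψ) x‖ ^ 2 = H / κ + (H + H) / μ := by
        rw [hH]; ring
      rw [e]
      gcongr
    have i5 : IntegrableOn P5 Y := intOn cP5
    have i6 : IntegrableOn (fun x => (1 / κ + 2 / μ) * ‖a‖ ^ 2 * ‖fderiv ℝ (fderiv ℝ ψ) x‖ ^ 2) Y :=
      intOn (continuous_const.mul (cont_norm2 hψ))
    have := setIntegral_mono_on i5 i6 hYm (fun x _ => hpt x)
    rw [integral_const_mul] at this
    refine this.trans ?_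
    gcongr
  -- integral of the dual integrand
  have hsplit : ∀ x, gD κ μ a v φ u x = 2 * P1 x + 4 * P2 x +
      (4 * (a.re * v.re + a.im * v.im) - (a.re ^ 2 + a.im ^ 2) / μ) + P4 x - P5 x :=
    fun x => gD_split κ μ a v φ u x
  have i1 : IntegrableOn (fun x => 2 * P1 x) Y := intOn (continuous_const.mul cP1)
  have i2 : IntegrableOn (fun x => 4 * P2 x) Y := intOn (continuous_const.mul cP2)
  have i3 : IntegrableOn (fun _ : ℂ => (4 * (a.re * v.re + a.im * v.im) -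
    (a.re ^ 2 + a.im ^ 2) / μ)) Y := intOn continuous_const
  have i4 : IntegrableOn P4 Y := intOn cP4
  have i5 : IntegrableOn P5 Y := intOn cP5
  have hgint : ∫ x in Y, gD κ μ a v φ u x =
      (4 * (a.re * v.re + a.im * v.im) - (a.re ^ 2 + a.im ^ 2) / μ) * A - ∫ x in Y, P5 x := by
    rw [integral_congr_ae (Filter.Eventually.of_forall hsplit)]
    have i12 : IntegrableOn (fun x => 2 * P1 x + 4 * P2 x) Y := i1.add i2
    have i123 : IntegrableOn (fun x => 2 * P1 x + 4 * P2 x +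
      (4 * (a.re * v.re + a.im * v.im) - (a.re ^ 2 + a.im ^ 2) / μ)) Y := i12.add i3
    have i1234 : IntegrableOn (fun x => 2 * P1 x + 4 * P2 x +
      (4 * (a.re * v.re + a.im * v.im) - (a.re ^ 2 + a.im ^ 2) / μ) + P4 x) Y := i123.add i4
    rw [integral_sub i1234 i5, integral_add i123 i4,
      integral_add i12 i3, integral_add i1 i2, integral_const_mul, integral_const_mul,
      J1, J2, J4, setIntegral_const, smul_eq_mul]
    ring
  have hgc : Continuous fun x => gD κ μ a v φ u x := by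
    have : (fun x => gD κ μ a v φ u x) = fun x => 2 * P1 x + 4 * P2 x +
      (4 * (a.re * v.re + a.im * v.im) - (a.re ^ 2 + a.im ^ 2) / μ) + P4 x - P5 x := funext hsplit
    rw [this]
    exact ((((continuous_const.mul cP1).add (continuous_const.mul cP2)).add
      continuous_const).add cP4).sub cP5
  have hres : ∫ x in Y, gD κ μ a v φ u x = ∫ x in Y ∩ Ω, gD κ μ a v φ u x := by
    refine (setIntegral_eq_of_subset_of_forall_sdiff_eq_zero hYm Set.inter_subset_left ?_)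
    rintro x ⟨hx1, hx2⟩
    exact gD_void hψ (hΩ x hx1 fun h => hx2 ⟨hx1, h⟩) a v u
  have hqc : Continuous fun x => qf κ μ (0 + trD (fderiv ℝ (u : ℂ → ℂ) x))
      (v + devD (fderiv ℝ (u : ℂ → ℂ) x)) := by
    unfold qf
    exact (continuous_const.mul ((continuous_const.add (continuous_trD.comp (PF_cont u))).pow
      2)).add (continuous_const.mul ((continuous_const.add cdev).norm.pow 2))
  have hle : ∫ x in Y ∩ Ω, gD κ μ a v φ u x ≤
      ∫ x in Y ∩ Ω, qf κ μ (0 + trD (fderiv ℝ (u : ℂ → ℂ) x))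
      (v + devD (fderiv ℝ (u : ℂ → ℂ) x)) :=
    setIntegral_mono_on (integrableOn_cell b hgc Ω) (integrableOn_cell b hqc Ω)
      (hYm.inter hm) (fun x _ => gD_le hκ hμ a v φ u x)
  show _ ≤ A⁻¹ * ∫ x in Y ∩ Ω, qf κ μ (0 + trD (fderiv ℝ (u : ℂ → ℂ) x))
      (v + devD (fderiv ℝ (u : ℂ → ℂ) x))
  rw [le_inv_mul_iff₀ hA0]
  refine le_trans ?_ hle
  rw [← hres, hgint]
  have hna : ‖a‖ ^ 2 = 4 * μ ^ 2 * ‖v‖ ^ 2 := by
    rw [hn a, are, aim, hn v]; ring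
  have e1 : (4 * (a.re * v.re + a.im * v.im) - (a.re ^ 2 + a.im ^ 2) / μ) = 4 * μ * ‖v‖ ^ 2 := by
    rw [hn v, are, aim]; field_simp; ring
  rw [e1]
  rw [hna] at J5
  have e2 : A * (4 * μ * ‖v‖ ^ 2 * (1 - μ * (1 / κ + 2 / μ) * η)) =
    4 * μ * ‖v‖ ^ 2 * A - (1 / κ + 2 / μ) * (4 * μ ^ 2 * ‖v‖ ^ 2) * (η * A) := by ring
  rw [e2]
  linarith

end Pool.Agent.H24
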