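import Pool.Agent.H24.Lower

/-! Packing discs. -/

open Complex Filter Topology MeasureTheory
open scoped ContDiff Pointwise

namespace Pool.Agent.H24

lemma null_line (L : ℂ →ₗ[ℝ] ℝ) (hL : L ≠ 0) (c : ℝ) : volume {x : ℂ | L x = c} = 0 := by
  by_cases h : ∃ x0, L x0 = c
  · obtain ⟨x0, hx0⟩ := h
    have h1 : {x : ℂ | L x = c} = (fun x => x + -x0) ⁻¹' (LinearMap.ker L : Set ℂ) := by
      ext x
      simp [← hx0, sub_eq_zero, ← sub_eq_add_neg]
    rw [h1, measure_preimage_add_right]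
    apply Measure.addHaar_submodule
    intro htop
    apply hL
    exact LinearMap.ker_eq_top.1 htop
  · have : {x : ℂ | L x = c} = ∅ := by
      ext x
      simp only [Set.mem_ofPred_eq, Set.mem_empty_iff_false, iff_false]
      exact fun hx => h ⟨x, hx⟩
    rw [this, measure_empty]

lemma disc_pack {U : Set ℂ} (hU : IsOpen U) (hb : Bornology.IsBounded U) {ε : ℝ} (hε : 0 < ε) :
    ∃ (t : Finset ℂ) (r : ℂ → ℝ), (∀ x ∈ t, 0 < r x ∧ Metric.closedBall x (r x) ⊆ U) ∧
      ((t : Set ℂ).PairwiseDisjoint fun x => Metric.closedBall x (r x)) ∧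
      volume (U \ ⋃ x ∈ t, Metric.closedBall x (r x)) ≤ ENNReal.ofReal ε := by
  obtain ⟨t, r, htc, htU, hr, hnull, hdisj⟩ := Besicovitch.exists_disjoint_closedBall_covering_ae
    (volume : Measure ℂ) (fun x => {ρ | Metric.closedBall x ρ ⊆ U}) U
    (fun x hx δ hδ => by
      obtain ⟨ρ, hρ, hsub⟩ := Metric.isOpen_iff.1 hU x hx
      refine ⟨min (ρ / 2) (δ / 2), ?_, ?_⟩
      · refine (Metric.closedBall_subset_ball ?_).trans hsub
        exact lt_of_le_of_lt (min_le_left _ _) (by linarith)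
      · exact ⟨by positivity, lt_of_le_of_lt (min_le_right _ _) (by linarith)⟩)
    (fun _ => 1) (fun _ _ => one_pos)
  have hfin : volume U ≠ ⊤ := hb.measure_lt_top.ne
  have hmeas : ∀ x ∈ t, MeasurableSet (Metric.closedBall x (r x)) :=
    fun x _ => Metric.isClosed_closedBall.measurableSet
  have hsum : volume U ≤ ∑' x : t, volume (Metric.closedBall (x : ℂ) (r x)) := by
    rw [← measure_biUnion htc hdisj hmeas]
    have h1 : U ⊆ (U \ ⋃ x ∈ t, Metric.closedBall x (r x)) ∪ ⋃ x ∈ t, Metric.closedBall x (r x) := by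
      intro x hx
      by_cases h : x ∈ ⋃ x ∈ t, Metric.closedBall x (r x)
      · exact Or.inr h
      · exact Or.inl ⟨hx, h⟩
    refine (measure_mono h1).trans ((measure_union_le _ _).trans ?_)
    rw [hnull, zero_add]
  have hε' : ENNReal.ofReal ε ≠ 0 := by simpa using hε
  obtain ⟨s, hs⟩ : ∃ s : Finset t, volume U ≤ ∑ x ∈ s, volume (Metric.closedBall (x : ℂ) (r x)) +
      ENNReal.ofReal ε := by
    by_cases h0 : volume U = 0
    · exact ⟨∅, by rw [h0]; exact bot_le⟩
    have h1 : volume U - ENNReal.ofReal ε < ∑' x : t, volume (Metric.closedBall (x : ℂ) (r x)) :=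
      lt_of_lt_of_le (ENNReal.sub_lt_self hfin h0 hε') hsum
    rw [ENNReal.tsum_eq_iSup_sum, lt_iSup_iff] at h1
    obtain ⟨s, hs⟩ := h1
    exact ⟨s, tsub_le_iff_right.1 hs.le⟩
  classical
  refine ⟨s.image (fun x : t => (x : ℂ)), r, ?_, ?_, ?_⟩
  · intro x hx
    obtain ⟨y, hy, rfl⟩ := Finset.mem_image.1 hx
    exact ⟨(hr y y.2).2.1, (hr y y.2).1⟩
  · intro x hx y hy hxy
    rw [Finset.mem_coe, Finset.mem_image] at hx hy
    obtain ⟨x', _, rfl⟩ := hx
    obtain ⟨y', _, rfl⟩ := hy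
    exact hdisj x'.2 y'.2 hxy
  · have hd2 : ((s.image (fun x : t => (x : ℂ)) : Finset ℂ) : Set ℂ).PairwiseDisjoint
        fun x => Metric.closedBall x (r x) := by
      intro x hx y hy hxy
      rw [Finset.mem_coe, Finset.mem_image] at hx hy
      obtain ⟨x', _, rfl⟩ := hx
      obtain ⟨y', _, rfl⟩ := hy
      exact hdisj x'.2 y'.2 hxy
    have hm : MeasurableSet (⋃ x ∈ s.image (fun x : t => (x : ℂ)), Metric.closedBall x (r x)) :=
      Finset.measurableSet_biUnion _ fun x _ => Metric.isClosed_closedBall.measurableSet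
    have hsub : (⋃ x ∈ s.image (fun x : t => (x : ℂ)), Metric.closedBall x (r x)) ⊆ U := by
      intro z hz
      simp only [Set.mem_iUnion] at hz
      obtain ⟨x, hx, hz⟩ := hz
      obtain ⟨y, hy, rfl⟩ := Finset.mem_image.1 hx
      exact (hr y y.2).1 hz
    have hmu : volume (⋃ x ∈ s.image (fun x : t => (x : ℂ)), Metric.closedBall x (r x)) =
        ∑ x ∈ s, volume (Metric.closedBall (x : ℂ) (r x)) := by
      rw [measure_biUnion_finset hd2 fun x _ => Metric.isClosed_closedBall.measurableSet]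
      rw [Finset.sum_image fun x _ y _ h => Subtype.ext h]
    rw [measure_sdiff hsub hm.nullMeasurableSet (ne_top_of_le_ne_top hfin (measure_mono hsub))]
    rw [hmu, tsub_le_iff_left]
    exact hs

end Pool.Agent.H24
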