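import Pool.Agent.H24.HW

/-! Total weight and smooth steps. -/

open scoped ContDiff
open Complex

namespace Pool.Agent.H24

variable {F : Type*} [NormedAddCommGroup F] [NormedSpace ℝ F]

/-- The total weight. -/
noncomputable def EE (N : ℕ) (w : ℝ) (h : Fin 4 → ℂ) (x : ℂ) : ℝ :=
  100 * (1 + ∑ j, gw N w (h j) x)

lemma EE_ge {N : ℕ} {w : ℝ} (hw : 0 < w) (h : Fin 4 → ℂ) (x : ℂ) : 100 ≤ EE N w h x := by
  have : 0 ≤ ∑ j, gw N w (h j) x := Finset.sum_nonneg fun j _ => (gw_pos N hw (h j) x).le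
  unfold EE; linarith

lemma gw_le_EE {N : ℕ} {w : ℝ} (hw : 0 < w) (h : Fin 4 → ℂ) (x : ℂ) (j : Fin 4) :
    100 * gw N w (h j) x ≤ EE N w h x := by
  have : gw N w (h j) x ≤ ∑ j, gw N w (h j) x :=
    Finset.single_le_sum (f := fun j => gw N w (h j) x)
      (fun j _ => (gw_pos N hw (h j) x).le) (Finset.mem_univ j)
  unfold EE; linarith

lemma contDiff_EE (N : ℕ) {w : ℝ} (hw : 0 < w) (h : Fin 4 → ℂ) {n : WithTop ℕ∞} :
    ContDiff ℝ n (EE N w h) :=
  contDiff_const.mul (contDiff_const.add (ContDiff.sum fun j _ => contDiff_gw N hw (h j)))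

lemma bd_EE : ∃ K : ℝ, 1 ≤ K ∧ ∀ (N : ℕ) (w : ℝ) (h : Fin 4 → ℂ) (x : ℂ), 1 ≤ N → 0 < w →
    w ≤ 1 → (∀ j, ‖h j‖ ≤ 4) → ‖x‖ ≤ 1 + 2 / N →
    Bd (EE N w h) x (K * EE N w h x) (N * EE N w h x) := by
  obtain ⟨K, hK1, hK⟩ := bd_gw
  refine ⟨100 * (1 + 4 * K), by linarith, ?_⟩
  intro N w h x hN hw hw1 hh hx
  have hN' : (1 : ℝ) ≤ N := by exact_mod_cast hN
  have hE := EE_ge (N := N) hw h x
  have hL : 0 ≤ (N : ℝ) * EE N w h x := by positivity
  have hj : ∀ j, Bd (gw N w (h j)) x (K * EE N w h x) (N * EE N w h x) := by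
    intro j
    have h1 := gw_le_EE (N := N) hw h x j
    have h2 := gw_pos N hw (h j) x
    refine (hK N w (h j) x hN hw hw1 (hh j) hx).mono (by positivity) ?_ ?_
    · exact mul_le_mul_of_nonneg_left (by linarith) (by linarith)
    · exact mul_le_mul_of_nonneg_left (by linarith) (by linarith)
  have hsum := (((Bd.const (x := x) (A := EE N w h x) (1 : ℝ) hL (by
    rw [norm_one]; linarith)).add (((hj 0).add (hj 1)).add ((hj 2).add (hj 3))))).const_mul 100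
  have hfun : (fun y => (100 : ℝ) * (1 + ((gw N w (h 0) y + gw N w (h 1) y) +
      (gw N w (h 2) y + gw N w (h 3) y)))) = EE N w h := by
    funext y
    simp only [EE, Fin.sum_univ_four]
    ring
  rw [hfun] at hsum
  refine hsum.mono hL ?_ le_rfl
  rw [abs_of_pos (by norm_num : (0 : ℝ) < 100)]
  nlinarith

lemma Bd.exists {f : ℂ → F} (hf : ContDiff ℝ 2 f) (x : ℂ) {L : ℝ} (hL : 0 < L) :
    ∃ A, Bd f x A L := by
  refine ⟨‖f x‖ + ‖fderiv ℝ f x‖ / L + ‖iteratedFDeriv ℝ 2 f x‖ / L ^ 2, hf, ?_, ?_, ?_⟩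
  · have : 0 ≤ ‖fderiv ℝ f x‖ / L := by positivity
    have : 0 ≤ ‖iteratedFDeriv ℝ 2 f x‖ / L ^ 2 := by positivity
    linarith
  · have h1 : (‖f x‖ + ‖fderiv ℝ f x‖ / L + ‖iteratedFDeriv ℝ 2 f x‖ / L ^ 2) * L
      = ‖f x‖ * L + ‖fderiv ℝ f x‖ + ‖iteratedFDeriv ℝ 2 f x‖ / L := by field_simp
    rw [h1]
    have : 0 ≤ ‖f x‖ * L := by positivity
    have : 0 ≤ ‖iteratedFDeriv ℝ 2 f x‖ / L := by positivity
    linarith
  · have h1 : (‖f x‖ + ‖fderiv ℝ f x‖ / L + ‖iteratedFDeriv ℝ 2 f x‖ / L ^ 2) * L ^ 2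
      = ‖f x‖ * L ^ 2 + ‖fderiv ℝ f x‖ * L + ‖iteratedFDeriv ℝ 2 f x‖ := by field_simp
    rw [h1]
    have : 0 ≤ ‖f x‖ * L ^ 2 := by positivity
    have : 0 ≤ ‖fderiv ℝ f x‖ * L := by positivity
    linarith

lemma Bd.slow {f : ℂ → F} {x : ℂ} {C N E : ℝ} (hf : Bd f x C N) (hE : 1 ≤ E)
    (h : ‖f x‖ ≤ C / E) : Bd f x (C / E) (N * E) := by
  have hC := hf.nonneg
  refine ⟨hf.smooth, h, hf.b1.trans (le_of_eq ?_), hf.b2.trans ?_⟩
  · field_simp
  · have : C / E * (N * E) ^ 2 = (C * N ^ 2) * E := by field_simp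
    rw [this]
    exact le_mul_of_one_le_right (by positivity) hE

/-- shorthand for the smooth step -/
noncomputable abbrev sg : ℝ → ℝ := Real.smoothTransition

lemma sg_low {t : ℝ} (h : t ≤ 0) : sg t = 0 := Real.smoothTransition.zero_of_nonpos h
lemma sg_high {t : ℝ} (h : 1 ≤ t) : sg t = 1 := Real.smoothTransition.one_of_one_le h
lemma sg_nonneg (t : ℝ) : 0 ≤ sg t := Real.smoothTransition.nonneg t
lemma sg_le_one (t : ℝ) : sg t ≤ 1 := Real.smoothTransition.le_one t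

lemma sg_smooth {n : ℕ∞} : ContDiff ℝ n sg := Real.smoothTransition.contDiff

lemma deriv_zero_of_const_left {f : ℝ → ℝ} (hf : Differentiable ℝ f) {c a : ℝ}
    (h : ∀ t ≤ a, f t = c) {t : ℝ} (ht : t ≤ a) : deriv f t = 0 := by
  have h1 : HasDerivWithinAt f (deriv f t) (Set.Iic t) t := (hf t).hasDerivAt.hasDerivWithinAt
  have h2 : HasDerivWithinAt f 0 (Set.Iic t) t :=
    (hasDerivWithinAt_const t (Set.Iic t) c).congr (fun s hs => h s (le_trans hs ht)) (h t ht)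
  exact (uniqueDiffWithinAt_Iic t).eq_deriv _ h1 h2

lemma deriv_zero_of_const_right {f : ℝ → ℝ} (hf : Differentiable ℝ f) {c a : ℝ}
    (h : ∀ t, a ≤ t → f t = c) {t : ℝ} (ht : a ≤ t) : deriv f t = 0 := by
  have h1 : HasDerivWithinAt f (deriv f t) (Set.Ici t) t := (hf t).hasDerivAt.hasDerivWithinAt
  have h2 : HasDerivWithinAt f 0 (Set.Ici t) t :=
    (hasDerivWithinAt_const t (Set.Ici t) c).congr (fun s hs => h s (le_trans ht hs)) (h t ht)
  exact (uniqueDiffWithinAt_Ici t).eq_deriv _ h1 h2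

lemma sg_diff : Differentiable ℝ sg := (sg_smooth (n := 1)).differentiable (by norm_num)

lemma dsg_contDiff : ContDiff ℝ 1 (deriv sg) := by
  have : ContDiff ℝ (1 + 1) sg := by
    have := sg_smooth (n := 2)
    exact_mod_cast this
  exact (contDiff_succ_iff_deriv.1 this).2.2

lemma dsg_diff : Differentiable ℝ (deriv sg) := dsg_contDiff.differentiable (by norm_num)

lemma dsg_left {t : ℝ} (ht : t ≤ 0) : deriv sg t = 0 :=
  deriv_zero_of_const_left sg_diff (c := 0) (a := 0)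
    (fun _ hs => Real.smoothTransition.zero_of_nonpos hs) ht

lemma dsg_right {t : ℝ} (ht : 1 ≤ t) : deriv sg t = 0 :=
  deriv_zero_of_const_right sg_diff (c := 1) (a := 1)
    (fun _ hs => Real.smoothTransition.one_of_one_le hs) ht

lemma ddsg_left {t : ℝ} (ht : t ≤ 0) : deriv (deriv sg) t = 0 :=
  deriv_zero_of_const_left dsg_diff (c := 0) (a := 0) (fun _ hs => dsg_left hs) ht

lemma ddsg_right {t : ℝ} (ht : 1 ≤ t) : deriv (deriv sg) t = 0 :=
  deriv_zero_of_const_right dsg_diff (c := 0) (a := 1) (fun _ hs => dsg_right hs) ht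

lemma sg_bounds : ∃ K : ℝ, 1 ≤ K ∧ ∀ t, |deriv sg t| ≤ K ∧ |deriv (deriv sg) t| ≤ K := by
  have c1 : Continuous (deriv sg) := dsg_diff.continuous
  have c2 : Continuous (deriv (deriv sg)) := by
    have : ContDiff ℝ (0 + 1) (deriv sg) := by simpa using dsg_contDiff
    exact (contDiff_succ_iff_deriv.1 this).2.2.continuous
  obtain ⟨K1, h1⟩ := (isCompact_Icc (a := (0 : ℝ)) (b := 1)).exists_bound_of_continuousOn
    c1.continuousOn
  obtain ⟨K2, h2⟩ := (isCompact_Icc (a := (0 : ℝ)) (b := 1)).exists_bound_of_continuousOn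
    c2.continuousOn
  refine ⟨max 1 (max K1 K2), le_max_left _ _, fun t => ?_⟩
  rcases le_total t 0 with ht | ht
  · rw [dsg_left ht, ddsg_left ht, abs_zero]
    exact ⟨zero_le_one.trans (le_max_left _ _), zero_le_one.trans (le_max_left _ _)⟩
  rcases le_total t 1 with ht1 | ht1
  · exact ⟨(h1 t ⟨ht, ht1⟩).trans ((le_max_left _ _).trans (le_max_right _ _)),
      (h2 t ⟨ht, ht1⟩).trans ((le_max_right _ _).trans (le_max_right _ _))⟩
  · rw [dsg_right ht1, ddsg_right ht1, abs_zero]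
    exact ⟨zero_le_one.trans (le_max_left _ _), zero_le_one.trans (le_max_left _ _)⟩

lemma sg_comp_smooth {g : ℂ → ℝ} {n : ℕ∞} (hg : ContDiff ℝ n g) :
    ContDiff ℝ n (fun y => sg (g y)) := sg_smooth.comp hg

lemma bd_step_low {g : ℂ → ℝ} (hg : ContDiff ℝ 2 g) {x : ℂ} (h : g x ≤ 0) {L : ℝ} (hL : 0 < L) :
    Bd (fun y => sg (g y)) x 0 L := by
  obtain ⟨A, hA⟩ := Bd.exists hg x hL
  have := hA.comp (φ := sg) (φ' := deriv sg) (φ'' := deriv (deriv sg)) (B := 0)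
    (sg_comp_smooth (n := 2) hg) (fun y => (sg_diff _).hasDerivAt) (dsg_diff _).hasDerivAt
    (by rw [sg_low h, abs_zero])
    (by rw [dsg_left h, abs_zero, zero_mul]) (by rw [ddsg_left h, abs_zero, zero_mul]) hL.le
  simpa using this

lemma fderiv_step_low {g : ℂ → ℝ} (hg : Differentiable ℝ g) {x : ℂ} (h : g x ≤ 0) :
    HasFDerivAt (fun y => sg (g y)) (0 : ℂ →L[ℝ] ℝ) x := by
  have := (sg_diff (g x)).hasDerivAt.comp_hasFDerivAt x (hg x).hasFDerivAt
  rw [dsg_left h, zero_smul] at this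
  exact this

lemma fderiv_step_high {g : ℂ → ℝ} (hg : Differentiable ℝ g) {x : ℂ} (h : 1 ≤ g x) :
    HasFDerivAt (fun y => sg (g y)) (0 : ℂ →L[ℝ] ℝ) x := by
  have := (sg_diff (g x)).hasDerivAt.comp_hasFDerivAt x (hg x).hasFDerivAt
  rw [dsg_right h, zero_smul] at this
  exact this

/-- The basic step estimate. -/
lemma bd_step : ∃ K : ℝ, 1 ≤ K ∧ ∀ (g : ℂ → ℝ) (x : ℂ) (A L : ℝ), ContDiff ℝ 2 g → 0 < L → 0 ≤ A →
    (0 < g x → g x < 1 → Bd g x A L) →
    Bd (fun y => sg (g y)) x (K * (1 + A + A ^ 2)) L := by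
  obtain ⟨K, hK1, hK⟩ := sg_bounds
  refine ⟨2 * K, by linarith, ?_⟩
  intro g x A L hg hL hA0 hA
  have h0 : |sg (g x)| ≤ 1 := by
    rw [abs_of_nonneg (sg_nonneg _)]
    exact sg_le_one _
  by_cases hx : 0 < g x ∧ g x < 1
  · have hb := hA hx.1 hx.2
    have h1 := (hK (g x)).1
    have h2 := (hK (g x)).2
    have := hb.comp (φ := sg) (φ' := deriv sg) (φ'' := deriv (deriv sg))
      (B := K * (1 + A + A ^ 2))
      (sg_comp_smooth (n := 2) hg) (fun y => (sg_diff _).hasDerivAt) (dsg_diff _).hasDerivAt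
      (by nlinarith) (by nlinarith [mul_le_mul_of_nonneg_right h1 hA0])
      (by nlinarith [mul_le_mul_of_nonneg_right h2 (sq_nonneg A)]) hL.le
    exact this.mono hL.le (by nlinarith) le_rfl
  · obtain ⟨A', hA'⟩ := Bd.exists hg x hL
    have hz : deriv sg (g x) = 0 ∧ deriv (deriv sg) (g x) = 0 := by
      by_cases h1 : g x ≤ 0
      · exact ⟨dsg_left h1, ddsg_left h1⟩
      · have h2 : 1 ≤ g x := by
          by_contra h3
          exact hx ⟨not_le.1 h1, not_le.1 h3⟩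
        exact ⟨dsg_right h2, ddsg_right h2⟩
    have := hA'.comp (φ := sg) (φ' := deriv sg) (φ'' := deriv (deriv sg)) (B := 1)
      (sg_comp_smooth (n := 2) hg) (fun y => (sg_diff _).hasDerivAt) (dsg_diff _).hasDerivAt
      h0 (by rw [hz.1, abs_zero, zero_mul]; norm_num)
      (by rw [hz.2, abs_zero, zero_mul]; norm_num) hL.le
    exact this.mono hL.le (by nlinarith) le_rfl

end Pool.Agent.H24
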