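import Pool.Agent.H24.Geo
import Pool.Agent.H24.Step

/-! Parameters of the ring. -/

open Complex Filter Topology

namespace Pool.Agent.H24

noncomputable def ea (N : ℕ) : ℂ := exp (Real.pi * I / N)
noncomputable def rho (N : ℕ) : ℝ := 1 + 1 / N
noncomputable def tt (N : ℕ) : ℝ := 1 / N ^ 2
noncomputable def kap (N : ℕ) : ℂ := 1 - I * tt N
noncomputable def qt (N : ℕ) : ℂ := rho N * ea N
noncomputable def mm (N : ℕ) : ℂ := (1 + qt N) / 2
noncomputable def qq (N : ℕ) : ℂ := qt N / kap N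
noncomputable def zm (N : ℕ) : ℂ := N * log (mm N)
noncomputable def zq (N : ℕ) : ℂ := N * log (qq N)

lemma tendsto_inv_nat : Tendsto (fun N : ℕ => ((N : ℂ))⁻¹) atTop (𝓝[≠] 0) := by
  apply tendsto_nhdsWithin_of_tendsto_nhds_of_eventually_within
  · have := tendsto_inv_atTop_nhds_zero_nat (𝕜 := ℂ)
    exact this
  · filter_upwards [eventually_ge_atTop 1] with N hN
    have : (N : ℂ) ≠ 0 := by
      have : N ≠ 0 := by omega
      exact_mod_cast this
    exact inv_ne_zero this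

lemma slope_lim {G : ℂ → ℂ} {G' : ℂ} (hG : HasDerivAt G G' 0) (h0 : G 0 = 0) :
    Tendsto (fun N : ℕ => (N : ℂ) * G ((N : ℂ)⁻¹)) atTop (𝓝 G') := by
  have h1 := hG.tendsto_slope_zero
  have h2 := h1.comp tendsto_inv_nat
  refine h2.congr fun N => ?_
  simp [h0]

lemma tendsto_zm : Tendsto zm atTop (𝓝 ((1 + Real.pi * I) / 2)) := by
  have hexp : HasDerivAt (fun t : ℂ => exp (Real.pi * I * t)) (Real.pi * I) 0 := by
    have h1 : HasDerivAt (fun t : ℂ => Real.pi * I * t) (Real.pi * I * 1) 0 :=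
      (hasDerivAt_id (0 : ℂ)).const_mul _
    have := h1.cexp
    simpa using this
  have h2 : HasDerivAt (fun t : ℂ => (1 + t) * exp (Real.pi * I * t)) (1 + Real.pi * I) 0 := by
    exact (((hasDerivAt_id (0 : ℂ)).const_add 1).fun_mul hexp).congr_deriv (by simp)
  have h3 : HasDerivAt (fun t : ℂ => (1 + (1 + t) * exp (Real.pi * I * t)) / 2)
      ((1 + Real.pi * I) / 2) 0 := (h2.const_add 1).div_const 2
  have h4 : HasDerivAt (fun t : ℂ => log ((1 + (1 + t) * exp (Real.pi * I * t)) / 2))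
      ((1 + Real.pi * I) / 2) 0 := by
    have := h3.clog (by simp)
    simpa using this
  have h5 := slope_lim h4 (by simp)
  refine h5.congr fun N => ?_
  simp only [zm, mm, qt, rho, ea]
  congr 4
  push_cast
  rw [one_div, div_eq_mul_inv]

lemma tendsto_zq : Tendsto zq atTop (𝓝 (1 + Real.pi * I)) := by
  have hexp : HasDerivAt (fun t : ℂ => exp (Real.pi * I * t)) (Real.pi * I) 0 := by
    have h1 : HasDerivAt (fun t : ℂ => Real.pi * I * t) (Real.pi * I * 1) 0 :=
      (hasDerivAt_id (0 : ℂ)).const_mul _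
    have := h1.cexp
    simpa using this
  have h2 : HasDerivAt (fun t : ℂ => (1 + t) * exp (Real.pi * I * t)) (1 + Real.pi * I) 0 := by
    exact (((hasDerivAt_id (0 : ℂ)).const_add 1).fun_mul hexp).congr_deriv (by simp)
  have h3 : HasDerivAt (fun t : ℂ => 1 - I * t ^ 2) 0 0 := by
    have := ((hasDerivAt_id (0 : ℂ)).pow 2).const_mul I |>.const_sub 1
    simpa using this
  have h3' : HasDerivAt (fun t : ℂ => (1 + t) * exp (Real.pi * I * t) / (1 - I * t ^ 2))
      (1 + Real.pi * I) 0 := by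
    exact (h2.fun_div h3 (by simp)).congr_deriv (by simp)
  have h4 : HasDerivAt (fun t : ℂ => log ((1 + t) * exp (Real.pi * I * t) / (1 - I * t ^ 2)))
      (1 + Real.pi * I) 0 := by
    have := h3'.clog (by simp)
    simpa using this
  have h5 := slope_lim h4 (by simp)
  refine h5.congr fun N => ?_
  simp only [zq, qq, qt, rho, ea, kap, tt]
  congr 4
  · push_cast
    rw [one_div]
  · push_cast
    rw [one_div, inv_pow]

/-- The asymptotic regime of the parameters. -/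
structure Good (N : ℕ) : Prop where
  hN : 100 ≤ N
  hm : ‖zm N - (1 + Real.pi * I) / 2‖ ≤ 1 / 100
  hq : ‖zq N - (1 + Real.pi * I)‖ ≤ 1 / 100

lemma eventually_good : ∀ᶠ N in atTop, Good N := by
  have h1 := (Metric.tendsto_nhds.1 tendsto_zm) (1 / 100) (by norm_num)
  have h2 := (Metric.tendsto_nhds.1 tendsto_zq) (1 / 100) (by norm_num)
  filter_upwards [h1, h2, eventually_ge_atTop 100] with N a b c
  rw [dist_eq_norm] at a b
  exact ⟨c, a.le, b.le⟩

namespace Good

variable {N : ℕ} (G : Good N)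
include G

lemma N1 : 1 ≤ N := le_trans (by norm_num) G.hN
lemma Nr : (100 : ℝ) ≤ N := by exact_mod_cast G.hN
lemma N0 : (N : ℂ) ≠ 0 := by
  have : N ≠ 0 := by have := G.hN; omega
  exact_mod_cast this

lemma zm_re : |(zm N).re - 1 / 2| ≤ 1 / 100 := by
  have h := (Complex.abs_re_le_norm _).trans G.hm
  have : (zm N - (1 + Real.pi * I) / 2).re = (zm N).re - 1 / 2 := by
    have : (1 + Real.pi * I) / 2 = ((1 / 2 : ℝ) : ℂ) + ((Real.pi / 2 : ℝ) : ℂ) * I := by
      push_cast; ring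
    rw [this]; simp
  rwa [this] at h

lemma zm_im : |(zm N).im - Real.pi / 2| ≤ 1 / 100 := by
  have h := (Complex.abs_im_le_norm _).trans G.hm
  have : (zm N - (1 + Real.pi * I) / 2).im = (zm N).im - Real.pi / 2 := by
    have : (1 + Real.pi * I) / 2 = ((1 / 2 : ℝ) : ℂ) + ((Real.pi / 2 : ℝ) : ℂ) * I := by
      push_cast; ring
    rw [this]; simp
  rwa [this] at h

lemma zq_re : |(zq N).re - 1| ≤ 1 / 100 := by
  have h := (Complex.abs_re_le_norm _).trans G.hq
  have : (zq N - (1 + Real.pi * I)).re = (zq N).re - 1 := by simp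
  rwa [this] at h

lemma zq_im : |(zq N).im - Real.pi| ≤ 1 / 100 := by
  have h := (Complex.abs_im_le_norm _).trans G.hq
  have : (zq N - (1 + Real.pi * I)).im = (zq N).im - Real.pi := by simp
  rwa [this] at h

lemma mm_ne : mm N ≠ 0 := by
  intro h
  have h1 : zm N = 0 := by rw [zm, h, Complex.log_zero, mul_zero]
  have h2 := G.zm_re
  rw [h1] at h2
  norm_num at h2

lemma qq_ne : qq N ≠ 0 := by
  intro h
  have h1 : zq N = 0 := by rw [zq, h, Complex.log_zero, mul_zero]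
  have h2 := G.zq_re
  rw [h1] at h2
  norm_num at h2

lemma exp_zm_div : exp (zm N / N) = mm N := by
  rw [zm, mul_div_cancel_left₀ _ G.N0, Complex.exp_log G.mm_ne]

lemma exp_zq_div : exp (zq N / N) = qq N := by
  rw [zq, mul_div_cancel_left₀ _ G.N0, Complex.exp_log G.qq_ne]

lemma exp_zm : exp (zm N) = mm N ^ N := by
  rw [zm, Complex.exp_nat_mul, Complex.exp_log G.mm_ne]

lemma exp_zq : exp (zq N) = qq N ^ N := by
  rw [zq, Complex.exp_nat_mul, Complex.exp_log G.qq_ne]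

lemma exp_zmc_div : exp (starRingEnd ℂ (zm N) / N) = starRingEnd ℂ (mm N) := by
  have : starRingEnd ℂ (zm N) / N = starRingEnd ℂ (zm N / N) := by
    rw [map_div₀, Complex.conj_natCast]
  rw [this, Complex.exp_conj, G.exp_zm_div]

lemma exp_zmc : exp (starRingEnd ℂ (zm N)) = starRingEnd ℂ (mm N) ^ N := by
  rw [Complex.exp_conj, G.exp_zm, map_pow]

lemma norm_Zm : 1.63 ≤ ‖mm N ^ N‖ ∧ ‖mm N ^ N‖ ≤ 1.67 := by
  rw [← G.exp_zm, Complex.norm_exp]
  have h := abs_le.1 G.zm_re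
  have he := Real.exp_one_lt_d9
  have he2 := Real.exp_one_gt_d9
  constructor
  · have h1 : Real.exp (49 / 100) ≤ Real.exp (zm N).re := Real.exp_le_exp.2 (by linarith)
    refine le_trans ?_ h1
    -- e^{.49} ≥ 1.63 from squaring: e^{.98} ≥ e (1 - .02)
    have h2 : Real.exp (49 / 100) ^ 2 = Real.exp 1 * Real.exp (-(2 / 100)) := by
      rw [← Real.exp_nat_mul, ← Real.exp_add]; norm_num
    have h3 := Real.add_one_le_exp (-(2 / 100) : ℝ)
    have h4 : (1.63 : ℝ) ^ 2 ≤ Real.exp (49 / 100) ^ 2 := by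
      rw [h2]; nlinarith
    exact le_of_sq_le_sq h4 (Real.exp_pos _).le
  · have h1 : Real.exp (zm N).re ≤ Real.exp (51 / 100) := Real.exp_le_exp.2 (by linarith)
    refine h1.trans ?_
    have h2 : Real.exp (51 / 100) ^ 2 * Real.exp (-(2 / 100)) = Real.exp 1 := by
      rw [← Real.exp_nat_mul, ← Real.exp_add]; norm_num
    have h3 := Real.add_one_le_exp (-(2 / 100) : ℝ)
    have h4 : Real.exp (51 / 100) ^ 2 ≤ (1.67 : ℝ) ^ 2 := by
      nlinarith [sq_nonneg (Real.exp (51 / 100))]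
    exact le_of_sq_le_sq h4 (by norm_num)

lemma norm_Zq : 2.69 ≤ ‖qq N ^ N‖ ∧ ‖qq N ^ N‖ ≤ 2.75 := by
  rw [← G.exp_zq, Complex.norm_exp]
  have h := abs_le.1 G.zq_re
  have he := Real.exp_one_lt_d9
  have he2 := Real.exp_one_gt_d9
  constructor
  · have h1 : Real.exp (99 / 100) ≤ Real.exp (zq N).re := Real.exp_le_exp.2 (by linarith)
    refine le_trans ?_ h1
    have h2 : Real.exp (99 / 100) = Real.exp 1 * Real.exp (-(1 / 100)) := by
      rw [← Real.exp_add]; norm_num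
    have h3 := Real.add_one_le_exp (-(1 / 100) : ℝ)
    rw [h2]; nlinarith
  · have h1 : Real.exp (zq N).re ≤ Real.exp (101 / 100) := Real.exp_le_exp.2 (by linarith)
    refine h1.trans ?_
    have h2 : Real.exp (101 / 100) * Real.exp (-(1 / 100)) = Real.exp 1 := by
      rw [← Real.exp_add]; norm_num
    have h3 := Real.add_one_le_exp (-(1 / 100) : ℝ)
    nlinarith [Real.exp_pos (101 / 100)]

end Good

/-- hinges in the `Z`-plane -/
noncomputable def hh (N : ℕ) : Fin 4 → ℂ :=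
  ![1, mm N ^ N, starRingEnd ℂ (mm N) ^ N, qq N ^ N]

namespace Good

variable {N : ℕ} (G : Good N)
include G

lemma norm_Zmc : ‖starRingEnd ℂ (mm N) ^ N‖ = ‖mm N ^ N‖ := by
  rw [← map_pow, RCLike.norm_conj]

lemma hh_le (j : Fin 4) : ‖hh N j‖ ≤ 4 := by
  have h1 := G.norm_Zm
  have h2 := G.norm_Zq
  have h3 := G.norm_Zmc
  fin_cases j
  · change ‖(1 : ℂ)‖ ≤ 4
    rw [norm_one]; norm_num
  · change ‖mm N ^ N‖ ≤ 4
    linarith [h1.2]
  · change ‖starRingEnd ℂ (mm N) ^ N‖ ≤ 4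
    rw [h3]; linarith [h1.2]
  · change ‖qq N ^ N‖ ≤ 4
    linarith [h2.2]

/-- the `m`-hinge is nearly on the imaginary axis -/
lemma Zm_coord : |(mm N ^ N).re| ≤ 1 / 10 ∧ 1.5 ≤ (mm N ^ N).im := by
  have hn := G.norm_Zm
  have h1 := abs_le.1 G.zm_im
  have e1 : (mm N ^ N).re = Real.exp (zm N).re * Real.cos (zm N).im := by
    rw [← G.exp_zm, Complex.exp_re]
  have e2 : (mm N ^ N).im = Real.exp (zm N).re * Real.sin (zm N).im := by
    rw [← G.exp_zm, Complex.exp_im]
  have e3 : ‖mm N ^ N‖ = Real.exp (zm N).re := by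
    rw [← G.exp_zm, Complex.norm_exp]
  rw [e3] at hn
  have hc : |Real.cos (zm N).im| ≤ 1 / 100 := by
    have h4 : Real.cos (zm N).im = - Real.sin ((zm N).im - Real.pi / 2) := by
      rw [Real.sin_sub_pi_div_two, neg_neg]
    rw [h4, abs_neg]
    exact (Real.abs_sin_le_abs).trans (by rw [abs_le]; constructor <;> linarith)
  have hs : 99 / 100 ≤ Real.sin (zm N).im := by
    have h5 := Real.sin_sq_add_cos_sq (zm N).im
    have h6 : Real.cos (zm N).im ^ 2 ≤ 1 / 10000 := by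
      rw [← sq_abs]; nlinarith [abs_nonneg (Real.cos (zm N).im)]
    have h7 : 0 ≤ Real.sin (zm N).im := by
      have hpi := Real.pi_gt_three
      exact Real.sin_nonneg_of_nonneg_of_le_pi (by linarith) (by linarith)
    nlinarith
  constructor
  · rw [e1, abs_mul, abs_of_pos (Real.exp_pos _)]
    nlinarith [abs_nonneg (Real.cos (zm N).im)]
  · rw [e2]; nlinarith

lemma sep_1m : 1.02 ≤ ‖(1 : ℂ) - mm N ^ N‖ := by
  have h := G.Zm_coord.2
  have := Complex.abs_im_le_norm (1 - mm N ^ N)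
  rw [Complex.sub_im, Complex.one_im, zero_sub, abs_neg] at this
  linarith [le_abs_self (mm N ^ N).im]

lemma sep_1mc : 1.02 ≤ ‖(1 : ℂ) - starRingEnd ℂ (mm N) ^ N‖ := by
  have h := G.sep_1m
  have : (1 : ℂ) - starRingEnd ℂ (mm N) ^ N = starRingEnd ℂ (1 - mm N ^ N) := by
    rw [map_sub, map_one, map_pow]
  rw [this, RCLike.norm_conj]
  exact h

lemma sep_1q : 1.02 ≤ ‖(1 : ℂ) - qq N ^ N‖ := by
  have h := G.norm_Zq.1
  have := norm_sub_norm_le (qq N ^ N) 1
  rw [norm_one] at this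
  rw [norm_sub_rev]
  linarith

lemma sep_mq : 1.02 ≤ ‖mm N ^ N - qq N ^ N‖ := by
  have h := G.norm_Zq.1
  have h2 := G.norm_Zm.2
  have := norm_sub_norm_le (qq N ^ N) (mm N ^ N)
  rw [norm_sub_rev]
  linarith

lemma sep_mcq : 1.02 ≤ ‖starRingEnd ℂ (mm N) ^ N - qq N ^ N‖ := by
  have h := G.norm_Zq.1
  have h2 := G.norm_Zm.2
  have h3 := G.norm_Zmc
  have := norm_sub_norm_le (qq N ^ N) (starRingEnd ℂ (mm N) ^ N)
  rw [norm_sub_rev]
  linarith

lemma sep_mmc : 1.02 ≤ ‖mm N ^ N - starRingEnd ℂ (mm N) ^ N‖ := by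
  have h := G.Zm_coord.2
  have := Complex.abs_im_le_norm (mm N ^ N - starRingEnd ℂ (mm N) ^ N)
  rw [← map_pow, Complex.sub_im, Complex.conj_im] at this
  have h2 : (mm N ^ N).im - -(mm N ^ N).im = 2 * (mm N ^ N).im := by ring
  rw [h2] at this
  rw [← map_pow]
  linarith [le_abs_self (2 * (mm N ^ N).im)]

end Good

end Pool.Agent.H24
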