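import Pool.Agent.H24.Rot

/-! Periodic extension of fields supported in the open cell. -/

open Complex Filter Topology MeasureTheory
open scoped ContDiff Pointwise

namespace Pool.Agent.H24

variable (b : Module.Basis (Fin 2) ℝ ℂ)

/-- the open cell -/
def Yo : Set ℂ := {x | ∀ i, b.repr x i ∈ Set.Ioo (0 : ℝ) 1}

lemma isOpen_Yo : IsOpen (Yo b) := by
  have : Yo b = ⋂ i, (fun x => b.repr x i) ⁻¹' Set.Ioo 0 1 := by
    ext x; simp [Yo]
  rw [this]
  refine isOpen_iInter_of_finite fun i => isOpen_Ioo.preimage ?_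
  exact (b.coord i).continuous_of_finiteDimensional

lemma Yo_sub : Yo b ⊆ ZSpan.fundamentalDomain b := fun x hx => by
  rw [ZSpan.mem_fundamentalDomain]
  exact fun i => ⟨(hx i).1.le, (hx i).2⟩

/-- periodic extension -/
noncomputable def perE {F : Type*} (f : ℂ → F) (x : ℂ) : F := f (ZSpan.fract b x)

variable {b} {F : Type*} [NormedAddCommGroup F] [NormedSpace ℝ F] {f : ℂ → F} {S : Set ℂ}

lemma perE_near (hS : IsCompact S) (hSY : S ⊆ Yo b) (hf : ∀ x, x ∉ S → f x = 0) {x : ℂ}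
    (hx : x ∈ ZSpan.fundamentalDomain b) : perE b f =ᶠ[𝓝 x] f := by
  by_cases h : x ∈ Yo b
  · filter_upwards [(isOpen_Yo b).mem_nhds h] with y hy
    rw [perE, ZSpan.fract_eq_self.2 (Yo_sub b hy)]
  · have hxS : x ∉ S := fun h' => h (hSY h')
    have e1 : f =ᶠ[𝓝 x] fun _ => 0 := by
      filter_upwards [hS.isClosed.isOpen_compl.mem_nhds hxS] with y hy
      exact hf y hy
    obtain ⟨δ, hδ, hth⟩ := hS.exists_thickening_subset_open (isOpen_Yo b) hSY
    have e2 : perE b f =ᶠ[𝓝 x] fun _ => 0 := by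
      filter_upwards [Metric.ball_mem_nhds x hδ] with y hy
      rw [perE]
      apply hf
      intro hyS
      apply h
      have h1 : x - ZSpan.floor b y ∈ Yo b := by
        apply hth
        rw [Metric.mem_thickening_iff]
        refine ⟨_, hyS, ?_⟩
        rw [ZSpan.fract_apply, dist_sub_right, dist_comm]
        exact hy
      have h2 : ZSpan.fract b (x - ZSpan.floor b y) = ZSpan.fract b x := by
        rw [ZSpan.fract_eq_fract]
        have : -(x - (ZSpan.floor b y : ℂ)) + x = ZSpan.floor b y := by ring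
        rw [this]
        exact (ZSpan.floor b y).2
      rw [ZSpan.fract_eq_self.2 (Yo_sub b h1), ZSpan.fract_eq_self.2 hx] at h2
      rw [← h2]
      exact h1
    exact e2.trans e1.symm

lemma perE_add (f : ℂ → F) {l : ℂ} (hl : l ∈ Submodule.span ℤ (Set.range b)) (x : ℂ) :
    perE b f (x + l) = perE b f x := by
  rw [perE, perE, ZSpan.fract_add_ZSpan b x hl]

lemma perE_contDiff (hS : IsCompact S) (hSY : S ⊆ Yo b) (hf : ∀ x, x ∉ S → f x = 0)
    (hs : ContDiff ℝ ∞ f) : ContDiff ℝ ∞ (perE b f) := by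
  rw [contDiff_iff_contDiffAt]
  intro x
  set l : ℂ := (ZSpan.floor b x : ℂ) with hl
  have hlm : l ∈ Submodule.span ℤ (Set.range b) := (ZSpan.floor b x).2
  have h1 : perE b f =ᶠ[𝓝 (x - l)] f :=
    perE_near hS hSY hf (ZSpan.fract_mem_fundamentalDomain b x)
  have ht : Tendsto (fun y : ℂ => y - l) (𝓝 x) (𝓝 (x - l)) :=
    (continuous_id.sub continuous_const).tendsto x
  have h2 := ht.eventually h1
  have h3 : perE b f =ᶠ[𝓝 x] fun y => f (y - l) := by
    filter_upwards [h2] with y hy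
    rw [← hy, ← perE_add f hlm (y - l), sub_add_cancel]
  exact ((hs.comp (contDiff_id.sub contDiff_const)).contDiffAt).congr_of_eventuallyEq h3

lemma perE_mem {f : ℂ → ℂ} (hS : IsCompact S) (hSY : S ⊆ Yo b) (hf : ∀ x, x ∉ S → f x = 0)
    (hs : ContDiff ℝ ∞ f) : perE b f ∈ PF b :=
  ⟨perE_contDiff hS hSY hf hs, fun i x => perE_add f (Submodule.subset_span ⟨i, rfl⟩) x⟩

lemma perE_fderiv (hS : IsCompact S) (hSY : S ⊆ Yo b) (hf : ∀ x, x ∉ S → f x = 0) {x : ℂ}
    (hx : x ∈ ZSpan.fundamentalDomain b) : fderiv ℝ (perE b f) x = fderiv ℝ f x :=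
  (perE_near hS hSY hf hx).fderiv_eq

end Pool.Agent.H24
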