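import Pool.Agent.H24.Solid

/-! The kinematic field is rigid on the solid away from the hinge zones. -/

open Complex Filter Topology
open scoped ContDiff

namespace Pool.Agent.H24

/-- the strain density of `D + id` -/
noncomputable def dn (D : ℂ →L[ℝ] ℂ) : ℝ :=
  (1 + ((D 1).re + (D I).im) / 2) ^ 2 + ‖(D 1 + I * D I) / 2‖ ^ 2

lemma dn_rigid (s : ℝ) : dn ((-1 + I * s : ℂ) • (1 : ℂ →L[ℝ] ℂ)) = 0 := by
  have e1 : ((-1 + I * s : ℂ) • (1 : ℂ →L[ℝ] ℂ)) 1 = -1 + I * s := by simp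
  have e2 : ((-1 + I * s : ℂ) • (1 : ℂ →L[ℝ] ℂ)) I = -I - s := by
    simp only [smul_apply, one_apply_eq_self, smul_eq_mul]
    have : I * I = -1 := Complex.I_mul_I
    linear_combination (s : ℂ) * this
  rw [dn, e1, e2]
  have e3 : (-1 + I * (s : ℂ)) + I * (-I - s) = 0 := by
    have : I * I = -1 := Complex.I_mul_I
    linear_combination -this
  rw [e3]
  simp

lemma dn_nonneg (D : ℂ →L[ℝ] ℂ) : 0 ≤ dn D := by unfold dn; positivity

lemma dn_le (D : ℂ →L[ℝ] ℂ) : dn D ≤ 2 * (1 + ‖D‖) ^ 2 := by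
  have h1 : ‖D 1‖ ≤ ‖D‖ := by simpa using D.le_opNorm 1
  have h2 : ‖D I‖ ≤ ‖D‖ := by simpa using D.le_opNorm I
  have h3 := abs_le.1 ((Complex.abs_re_le_norm (D 1)).trans h1)
  have h4 := abs_le.1 ((Complex.abs_im_le_norm (D I)).trans h2)
  have h0 := norm_nonneg D
  have h5 : ‖(D 1 + I * D I) / 2‖ ≤ ‖D‖ := by
    rw [norm_div, Complex.norm_ofNat, div_le_iff₀ (by norm_num)]
    refine (norm_add_le _ _).trans ?_
    rw [norm_mul, Complex.norm_I, one_mul]; linarith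
  have h6 : (1 + ((D 1).re + (D I).im) / 2) ^ 2 ≤ (1 + ‖D‖) ^ 2 := by
    apply sq_le_sq'
    · linarith
    · linarith
  have h7 : ‖(D 1 + I * D I) / 2‖ ^ 2 ≤ (1 + ‖D‖) ^ 2 :=
    pow_le_pow_left₀ (norm_nonneg _) (by linarith) 2
  unfold dn; linarith

lemma Bd.hasFDerivAt_zero {f : ℂ → ℂ} {x : ℂ} {L : ℝ} (h : Bd f x 0 L) :
    f x = 0 ∧ HasFDerivAt f (0 : ℂ →L[ℝ] ℂ) x := by
  constructor
  · exact norm_le_zero_iff.1 h.b0
  · have h1 := h.b1
    rw [zero_mul] at h1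
    have h2 : fderiv ℝ f x = 0 := norm_le_zero_iff.1 h1
    rw [← h2]
    exact (ContDiff.one_lt_two' h.smooth x).hasFDerivAt

lemma rot_aff_deriv {N : ℕ} (a b x : ℂ) (k : ℕ) :
    HasFDerivAt (fun y => ep N ^ k * aff a b 0 (y / ep N ^ k)) (b • (1 : ℂ →L[ℝ] ℂ)) x := by
  have hne : ep N ^ k ≠ 0 := pow_ne_zero _ (ep_ne_zero N)
  have hfun : (fun y => ep N ^ k * aff a b 0 (y / ep N ^ k)) = aff (ep N ^ k * a) b 0 := by
    funext y
    simp only [aff_apply, zero_mul, add_zero]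
    field_simp
  rw [hfun]
  exact fderiv_aff0 _ _ _

/-- derivative of a rotated body term at a point where its cutoff is flat -/
lemma body_deriv {N : ℕ} (G : Good N) {n1 n2 : ℂ → ℝ} (h1 : ContDiff ℝ 2 n1)
    (h2 : ContDiff ℝ 2 n2) {a b x : ℂ} {k : ℕ}
    (f1 : 1 ≤ 2 * (EN N (x / ep N ^ k) * n1 (x / ep N ^ k)))
    (f2 : 1 ≤ 2 * (EN N (x / ep N ^ k) * n2 (x / ep N ^ k))) :
    HasFDerivAt (fun y => ep N ^ k * (chi2 N n1 n2 (y / ep N ^ k) •
      (aff a b 0 (y / ep N ^ k) - Vh N (y / ep N ^ k))))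
      (b • (1 : ℂ →L[ℝ] ℂ) - fderiv ℝ (Vh N) x) x := by
  have hne : ep N ^ k ≠ 0 := pow_ne_zero _ (ep_ne_zero N)
  have hw := tt_pos G
  obtain ⟨v1, d1⟩ := wall_flat1 (h := hh N) (k := 0) hw h1 (by rw [add_zero]; exact f1)
  obtain ⟨v2, d2⟩ := wall_flat1 (h := hh N) (k := 0) hw h2 (by rw [add_zero]; exact f2)
  have dchi : HasFDerivAt (chi2 N n1 n2) (0 : ℂ →L[ℝ] ℝ) (x / ep N ^ k) := by
    refine (d1.mul d2).congr_fderiv ?_
    simp
  have vchi : chi2 N n1 n2 (x / ep N ^ k) = 1 := by rw [chi2, v1, v2, one_mul]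
  have ddiv : HasFDerivAt (fun y : ℂ => y / ep N ^ k)
      ((ep N ^ k)⁻¹ • (1 : ℂ →L[ℝ] ℂ)) x := by
    refine (((hasDerivAt_id x).div_const (ep N ^ k)).complexToReal_fderiv).congr_fderiv ?_
    rw [one_div]
  have dchi2 : HasFDerivAt (fun y => chi2 N n1 n2 (y / ep N ^ k)) (0 : ℂ →L[ℝ] ℝ) x := by
    refine (dchi.comp x ddiv).congr_fderiv ?_
    simp
  have dg : HasFDerivAt (fun y => ep N ^ k * aff a b 0 (y / ep N ^ k) - Vh N y)
      (b • (1 : ℂ →L[ℝ] ℂ) - fderiv ℝ (Vh N) x) x :=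
    (rot_aff_deriv a b x k).sub (ContDiff.one_lt_two' (contDiff_Vh N) x).hasFDerivAt
  have hfun : (fun y => ep N ^ k * (chi2 N n1 n2 (y / ep N ^ k) •
      (aff a b 0 (y / ep N ^ k) - Vh N (y / ep N ^ k)))) =
      fun y => chi2 N n1 n2 (y / ep N ^ k) • (ep N ^ k * aff a b 0 (y / ep N ^ k) - Vh N y) := by
    funext y
    rw [Vh_rot G, Complex.real_smul, Complex.real_smul]
    field_simp
  rw [hfun]
  refine (dchi2.smul dg).congr_fderiv ?_
  rw [vchi]
  simp

/-- assembling the derivative of `vv` -/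
lemma vv_deriv {N : ℕ} (G : Good N) {x : ℂ} {α β : ℝ} {R : ℂ →L[ℝ] ℂ}
    (ha : wa N x = α) (da : HasFDerivAt (wa N) (0 : ℂ →L[ℝ] ℝ) x)
    (hb : wb N x = β) (db : HasFDerivAt (wb N) (0 : ℂ →L[ℝ] ℝ) x)
    (hR : HasFDerivAt (RR N) R x) :
    HasFDerivAt (vv N) (fderiv ℝ (Vh N) x + (1 - α) • (-(1 : ℂ →L[ℝ] ℂ) - fderiv ℝ (Vh N) x)
      - β • fderiv ℝ (Vh N) x + (α * (1 - β)) • R) x := by
  have dV : HasFDerivAt (Vh N) (fderiv ℝ (Vh N) x) x :=
    (ContDiff.one_lt_two' (contDiff_Vh N) x).hasFDerivAt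
  have dI : HasFDerivAt (fun y : ℂ => -y - Vh N y) (-(1 : ℂ →L[ℝ] ℂ) - fderiv ℝ (Vh N) x) x :=
    ((hasFDerivAt_id (𝕜 := ℝ) x).neg).sub dV
  have t1 : HasFDerivAt (fun y => (1 - wa N y) • (-y - Vh N y))
      ((1 - α) • (-(1 : ℂ →L[ℝ] ℂ) - fderiv ℝ (Vh N) x)) x := by
    refine ((da.const_sub 1).smul dI).congr_fderiv ?_
    rw [ha]; simp
  have t2 : HasFDerivAt (fun y => wb N y • Vh N y) (β • fderiv ℝ (Vh N) x) x := by
    refine (db.smul dV).congr_fderiv ?_
    rw [hb]; simp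
  have t3 : HasFDerivAt (fun y => (wa N y * (1 - wb N y)) • RR N y) ((α * (1 - β)) • R) x := by
    refine ((da.mul (db.const_sub 1)).smul hR).congr_fderiv ?_
    simp [ha, hb]
  exact ((dV.add t1).sub t2).add t3

lemma RR_diff {N : ℕ} (G : Good N) (x : ℂ) : HasFDerivAt (RR N) (fderiv ℝ (RR N) x) x :=
  (ContDiff.one_lt_two' (contDiff_rotSum ((contDiff_KT G).add (contDiff_KT' G))) x).hasFDerivAt

lemma hasFDerivAt_rotSum {N k : ℕ} (hk : k < N) {f : ℂ → ℂ} {x : ℂ} {D : ℂ →L[ℝ] ℂ}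
    (hD : HasFDerivAt (fun y => ep N ^ k * f (y / ep N ^ k)) D x)
    (h0 : ∀ l < N, l ≠ k → HasFDerivAt (fun y => ep N ^ l * f (y / ep N ^ l))
      (0 : ℂ →L[ℝ] ℂ) x) : HasFDerivAt (rotSum N 1 f) D x := by
  classical
  have key : HasFDerivAt (fun y => ∑ l ∈ Finset.range N, ep N ^ l * f (y / ep N ^ l))
      (∑ l ∈ Finset.range N, if l = k then D else 0) x := by
    refine HasFDerivAt.fun_sum fun l hl => ?_
    by_cases hlk : l = k
    · subst hlk; simpa using hD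
    · simp only [hlk, if_false]
      exact h0 l (Finset.mem_range.1 hl) hlk
  have e1 : (∑ l ∈ Finset.range N, if l = k then D else 0) = D := by
    rw [Finset.sum_ite_eq' (Finset.range N) k, if_pos (Finset.mem_range.2 hk)]
  rw [e1] at key
  have e2 : rotSum N 1 f = fun y => ∑ l ∈ Finset.range N, ep N ^ l * f (y / ep N ^ l) := by
    funext y; simp [rotSum]
  rw [e2]
  exact key

lemma spk_pos_of {N : ℕ} (G : Good N) {y : ℂ} {t : ℝ} (h : 1 ≤ 2 * (EN N y * t)) : 0 < t := by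
  have h1 := EN_pos G y
  have h2 : 0 < EN N y * t := by linarith
  exact (mul_pos_iff_of_pos_left h1).1 h2

/-- Main rigidity statement. -/
lemma solid_flat {N : ℕ} (G : Good N) {x : ℂ} (hV : x ∉ VN N)
    (hz : ∀ j, tt N < ‖x ^ N - hh N j‖) :
    dn (fderiv ℝ (vv N) x) = 0 ∨
      (-1 ≤ 2 * (EN N x * rad N (qq N) x) ∧ fderiv ℝ (vv N) x = 0) := by
  have hN := G.Nr
  have hw := tt_pos G
  have hE := EE_ge (N := N) hw (hh N) x
  have hE0 : 0 < EN N x := EN_pos G x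
  have hZm := G.norm_Zm
  have hZq := G.norm_Zq
  by_cases hA : 2 * (EN N x * rad N 1 x) ≤ 1
  · -- inner disc
    left
    obtain ⟨a1, a2⟩ := wall_flat0 (h := hh N) (k := -1) (x := x) hw (contDiff_rad N 1)
      (by linarith)
    have hn : ‖x ^ N‖ ≤ 2.6 := by
      rw [rad_one_eq] at hA
      by_contra hcon
      push Not at hcon
      have : 5 ≤ ‖x ^ N‖ ^ 2 - 1 := by nlinarith
      nlinarith [mul_le_mul hE this (by norm_num) hE0.le]
    obtain ⟨b1, b2⟩ := wall_flat0 (h := hh N) (k := 2) (x := x) hw (contDiff_rad N (qq N))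
      (wb_zero G hn)
    have h := vv_deriv G (α := 0) (β := 0) a1 a2 b1 b2 (RR_diff G x)
    rw [h.fderiv]
    have e : fderiv ℝ (Vh N) x + ((1 : ℝ) - 0) • (-(1 : ℂ →L[ℝ] ℂ) - fderiv ℝ (Vh N) x)
      - (0 : ℝ) • fderiv ℝ (Vh N) x + ((0 : ℝ) * (1 - 0)) • fderiv ℝ (RR N) x
      = (-1 + I * ((0 : ℝ) : ℂ) : ℂ) • (1 : ℂ →L[ℝ] ℂ) := by
      refine ContinuousLinearMap.ext fun y => ?_
      simp
    rw [e]
    exact dn_rigid 0
  push Not at hA
  by_cases hB : -1 ≤ 2 * (EN N x * rad N (qq N) x)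
  · right
    refine ⟨hB, ?_⟩
    have hn : 1.01 ≤ ‖x ^ N‖ := by
      by_contra hcon
      push Not at hcon
      have : rad N (qq N) x ≤ -0.5 := by
        rw [rad_eq]
        have h2 : ‖x ^ N‖ / ‖qq N ^ N‖ ≤ 0.5 := by
          rw [div_le_iff₀ (by linarith)]; nlinarith
        have h3 : 0 ≤ ‖x ^ N‖ / ‖qq N ^ N‖ := by positivity
        nlinarith
      have h4 := mul_le_mul_of_nonneg_left this hE0.le
      nlinarith
    obtain ⟨a1, a2⟩ := wa_one G hn
    obtain ⟨b1, b2⟩ := wall_flat1 (h := hh N) (k := 2) (x := x) hw (contDiff_rad N (qq N))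
      (by linarith)
    have h := vv_deriv G (α := 1) (β := 1) a1 a2 b1 b2 (RR_diff G x)
    rw [h.fderiv]
    refine ContinuousLinearMap.ext fun y => ?_
    simp
  push Not at hB
  left
  -- base coordinates
  have hR1 : 0 < rad N 1 x := pos_of_wall G hA
  have hR2 : 0 < - rad N (qq N) x := pos_of_wall G (x := x) (by linarith)
  have hn1 : 1 < ‖x ^ N‖ := by
    have := norm_gt_of_rad_pos (by simp) hR1
    simpa using this
  have hn2 : ‖x ^ N‖ < ‖qq N ^ N‖ := norm_lt_of_rad_neg (pow_ne_zero _ G.qq_ne) hR2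
  have hx0 : x ≠ 0 := by
    rintro rfl
    rw [zero_pow (by have := G.hN; omega), norm_zero] at hn1
    linarith
  obtain ⟨k, hk, z, hzx, im1, im2⟩ := base_coord G hx0
  have hzN : exp z = x ^ N := by rw [← exp_div_pow G z, hzx, pow_ep_mul G.N1]
  have hEz : EN N (exp (z / N)) = EN N x := by rw [hzx, EN_rot G.N1]
  have hradz : ∀ c, rad N c (exp (z / N)) = rad N c x := by
    intro c
    rw [hzx, rad, rad, pow_ep_mul G.N1]
  have hre := re_bounds (t := z.re) (by rw [← Complex.norm_exp, hzN]; linarith)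
    (by rw [← Complex.norm_exp, hzN]; linarith)
  have hep : ep N ≠ 0 := ep_ne_zero N
  have hepk : ep N ^ k ≠ 0 := pow_ne_zero _ hep
  have hxz : x = ep N ^ k * exp (z / N) := by rw [hzx]; field_simp
  have n1 := not_VN G hV k hxz
  have n2 := not_VN G hV (k + (N - 1)) (u := exp ((z + 2 * Real.pi * I) / N)) (by
    rw [add_div, Complex.exp_add, exp_two_div, pow_add]
    have : ep N ^ (N - 1) * ep N = 1 := by
      rw [← pow_succ, Nat.sub_add_cancel G.N1, ep_pow G.N1]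
    calc x = ep N ^ k * exp (z / N) := hxz
      _ = ep N ^ k * exp (z / N) * (ep N ^ (N - 1) * ep N) := by rw [this, mul_one]
      _ = _ := by ring)
  have n3 := not_VN G hV (k + 1) (u := exp ((z - 2 * Real.pi * I) / N)) (by
    rw [sub_div, Complex.exp_sub, exp_two_div, pow_add, pow_one, hxz]
    field_simp)
  have S : SolidPt N z := {
    G := G
    im1 := im1
    im2 := im2
    re1 := hre.1
    re2 := hre.2
    zone := fun j => by rw [hzN]; exact hz j
    nD := n1.1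
    nU := n1.2
    nD' := n2.1
    nU' := n3.2
    r1 := by rw [hEz, hradz]; exact hA
    r2 := by rw [hEz, hradz]; linarith }
  have fa : 2 ≤ 2 * (EN N x * rad N 1 x) := by
    by_contra hcon
    push Not at hcon
    exact S.flat_a (by rw [hEz, hradz]; exact hcon)
  have fb : 2 * (EN N x * rad N (qq N) x) ≤ -2 := by
    by_contra hcon
    push Not at hcon
    exact S.flat_b (by rw [hEz, hradz]; exact hcon)
  obtain ⟨a1, a2⟩ := wall_flat1 (h := hh N) (k := -1) (x := x) hw (contDiff_rad N 1)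
    (by linarith)
  obtain ⟨b1, b2⟩ := wall_flat0 (h := hh N) (k := 2) (x := x) hw (contDiff_rad N (qq N))
    (by linarith)
  have fin : ∀ s : ℝ, HasFDerivAt (RR N)
      ((-1 + I * s : ℂ) • (1 : ℂ →L[ℝ] ℂ) - fderiv ℝ (Vh N) x) x → dn (fderiv ℝ (vv N) x) = 0 := by
    intro s hs
    have h := vv_deriv G (α := 1) (β := 0) a1 a2 b1 b2 hs
    rw [h.fderiv]
    have e : fderiv ℝ (Vh N) x + ((1 : ℝ) - 1) • (-(1 : ℂ →L[ℝ] ℂ) - fderiv ℝ (Vh N) x)
      - (0 : ℝ) • fderiv ℝ (Vh N) x + ((1 : ℝ) * (1 - 0)) •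
        ((-1 + I * s : ℂ) • (1 : ℂ →L[ℝ] ℂ) - fderiv ℝ (Vh N) x)
      = (-1 + I * s : ℂ) • (1 : ℂ →L[ℝ] ℂ) := by
      refine ContinuousLinearMap.ext fun y => ?_
      simp
    rw [e]
    exact dn_rigid s
  have hother : (x / ep N ^ k ∈ SS N) → ∀ l < N, l ≠ k →
      HasFDerivAt (fun y => ep N ^ l * (KT N (y / ep N ^ l) + KT' N (y / ep N ^ l)))
      (0 : ℂ →L[ℝ] ℂ) x := by
    intro hS l hl hlk
    have h1 : x / ep N ^ l ∉ SS N := fun h => hlk (SS_unique G l k hl hk h hS)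
    exact (Bd.rot (norm_ep_pow N l) (ep N ^ l) (norm_ep_pow N l) (KK_out G h1 one_pos)).hasFDerivAt_zero.2
  rcases le_or_gt z.im (zm N).im with hT | hT
  · -- body T
    have g1 : 1 ≤ 2 * (EN N (x / ep N ^ k) * spk N (starRingEnd ℂ (mm N)) (x / ep N ^ k)) := by
      rw [← hzx]
      by_contra hcon
      push Not at hcon
      exact S.flat_T2 hT hcon
    have g2 : 1 ≤ 2 * (EN N (x / ep N ^ k) * - spk N (mm N) (x / ep N ^ k)) := by
      rw [← hzx]
      by_contra hcon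
      push Not at hcon
      exact S.flat_T1 hT hcon
    have hST : x / ep N ^ k ∈ ST N := ⟨spk_pos_of G g1, spk_pos_of G g2⟩
    have hST' : x / ep N ^ k ∉ ST' N := fun h => by
      have := h.1
      have := spk_pos_of G g2
      linarith
    refine fin (om N) ?_
    refine hasFDerivAt_rotSum hk ?_ (hother (ST_sub G hST))
    have d1 := body_deriv G (contDiff_spk N (starRingEnd ℂ (mm N))) (contDiff_spk N (mm N)).neg
      (a := -(I * om N)) (b := -1 + I * om N) (x := x) (k := k) g1 g2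
    have d2 := (Bd.rot (norm_ep_pow N k) (ep N ^ k) (norm_ep_pow N k)
      (KT'_out G hST' one_pos)).hasFDerivAt_zero.2
    have d3 := d1.add d2
    rw [add_zero] at d3
    refine d3.congr_of_eventuallyEq (Filter.Eventually.of_forall fun y => ?_)
    show ep N ^ k * (KT N (y / ep N ^ k) + KT' N (y / ep N ^ k)) = _ + _
    rw [mul_add]
    congr 1
    rw [KT, vT_aff]
  · -- body T'
    have g1 : 1 ≤ 2 * (EN N (x / ep N ^ k) * spk N (mm N) (x / ep N ^ k)) := by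
      rw [← hzx]
      by_contra hcon
      push Not at hcon
      exact S.flat_T'1 hT hcon
    have g2 : 1 ≤ 2 * (EN N (x / ep N ^ k) *
        - spk N (ep N * starRingEnd ℂ (mm N)) (x / ep N ^ k)) := by
      rw [← hzx]
      by_contra hcon
      push Not at hcon
      exact S.flat_T'2 hT hcon
    have hST' : x / ep N ^ k ∈ ST' N := ⟨spk_pos_of G g1, spk_pos_of G g2⟩
    have hST : x / ep N ^ k ∉ ST N := fun h => by
      have := h.2
      have := spk_pos_of G g1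
      linarith
    refine fin (-om N) ?_
    refine hasFDerivAt_rotSum hk ?_ (hother (ST'_sub G hST'))
    have d1 := body_deriv G (contDiff_spk N (mm N))
      (contDiff_spk N (ep N * starRingEnd ℂ (mm N))).neg
      (a := qq N + I * om N * qq N) (b := -1 - I * om N) (x := x) (k := k) g1 g2
    have d2 := (Bd.rot (norm_ep_pow N k) (ep N ^ k) (norm_ep_pow N k)
      (KT_out G hST one_pos)).hasFDerivAt_zero.2
    have d3 := d2.add d1
    rw [zero_add] at d3
    have e : (-1 + I * ((-om N : ℝ) : ℂ) : ℂ) = -1 - I * om N := by push_cast; ring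
    rw [e]
    refine d3.congr_of_eventuallyEq (Filter.Eventually.of_forall fun y => ?_)
    show ep N ^ k * (KT N (y / ep N ^ k) + KT' N (y / ep N ^ k)) = _ + _
    rw [mul_add]
    congr 1
    rw [KT', vT'_aff]

end Pool.Agent.H24
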