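import Pool.Agent.H24.Stat

/-! The global corrector of the Airy functions. -/

open Complex Filter Topology
open scoped ContDiff

namespace Pool.Agent.H24

noncomputable def rotI (c : ℂ) (hc : ‖c‖ = 1) : ℂ ≃ₗᵢ[ℝ] ℂ :=
  rotation ⟨c⁻¹, mem_sphere_zero_iff_norm.2 (by rw [norm_inv, hc, inv_one])⟩

lemma rotI_apply (c : ℂ) (hc : ‖c‖ = 1) (x : ℂ) : rotI c hc x = x / c := by
  rw [div_eq_inv_mul]
  rfl

lemma Bd.rot {f : ℂ → ℂ} {x c : ℂ} {A L : ℝ} (hc : ‖c‖ = 1) (u : ℂ) (hu : ‖u‖ = 1)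
    (h : Bd f (x / c) A L) : Bd (fun y => u * f (y / c)) x A L := by
  have hfun : (fun y => f (y / c)) = f ∘ (rotI c hc) := by
    funext y; simp [rotI_apply]
  have h1 : Bd (fun y => f (y / c)) x A L := by
    refine ⟨?_, ?_, ?_, ?_⟩
    · rw [hfun]; exact h.smooth.comp (rotI c hc).contDiff
    · exact h.b0
    · have := h.b1
      rw [← norm_iteratedFDeriv_one] at this ⊢
      rw [hfun, LinearIsometryEquiv.norm_iteratedFDeriv_comp_right, rotI_apply]
      exact this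
    · rw [hfun, LinearIsometryEquiv.norm_iteratedFDeriv_comp_right, rotI_apply]
      exact h.b2
  have := h1.const_cmul u
  rwa [hu, one_mul] at this

lemma Bd.sum {ι : Type*} {f : ι → ℂ → ℂ} {x : ℂ} {A : ι → ℝ} {L : ℝ} (hL : 0 ≤ L) (s : Finset ι)
    (h : ∀ i ∈ s, Bd (f i) x (A i) L) : Bd (fun y => ∑ i ∈ s, f i y) x (∑ i ∈ s, A i) L := by
  classical
  induction s using Finset.induction_on with
  | empty => simpa using Bd.const (x := x) (A := 0) (0 : ℂ) hL (by simp)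
  | insert a s ha ih =>
    have h1 := h a (Finset.mem_insert_self a s)
    have h2 := ih fun i hi => h i (Finset.mem_insert_of_mem hi)
    have h3 := h1.add h2
    simpa [Finset.sum_insert ha] using h3

/-- the sum of rotated copies -/
noncomputable def rotSum (N : ℕ) (j : ℕ) (f : ℂ → ℂ) (x : ℂ) : ℂ :=
  ∑ k ∈ Finset.range N, (ep N ^ k) ^ j * f (x / ep N ^ k)

lemma contDiff_rotSum {N j : ℕ} {f : ℂ → ℂ} {m : ℕ∞} (hf : ContDiff ℝ m f) :
    ContDiff ℝ m (rotSum N j f) :=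
  ContDiff.sum fun k _ => contDiff_const.mul (hf.comp (contDiff_id.div_const _))

/-- If the supporting sectors are disjoint, at most one copy is active. -/
lemma Bd.rotSum {N : ℕ} {j : ℕ} {f : ℂ → ℂ} {S : Set ℂ} {x : ℂ} {A L : ℝ} (hL : 0 ≤ L) (hA : 0 ≤ A)
    (hS : ∀ k l, k < N → l < N → x / ep N ^ k ∈ S → x / ep N ^ l ∈ S → k = l)
    (h0 : ∀ k, x / ep N ^ k ∉ S → Bd f (x / ep N ^ k) 0 L)
    (h1 : ∀ k, x / ep N ^ k ∈ S → Bd f (x / ep N ^ k) A L) :
    Bd (rotSum N j f) x A L := by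
  classical
  have key := Bd.sum (f := fun k y => (ep N ^ k) ^ j * f (y / ep N ^ k)) (x := x)
    (A := fun k => if x / ep N ^ k ∈ S then A else 0) hL (Finset.range N) (by
    intro k _
    have hc : ‖ep N ^ k‖ = 1 := norm_ep_pow N k
    by_cases hk : x / ep N ^ k ∈ S
    · simp only [hk, if_true]
      exact Bd.rot hc _ (by rw [norm_pow, hc, one_pow]) (h1 k hk)
    · simp only [hk, if_false]
      exact Bd.rot hc _ (by rw [norm_pow, hc, one_pow]) (h0 k hk))
  refine key.mono hL ?_ le_rfl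
  rw [← Finset.sum_filter]
  rw [Finset.sum_const, nsmul_eq_mul]
  have hcard : ((Finset.range N).filter fun k => x / ep N ^ k ∈ S).card ≤ 1 := by
    rw [Finset.card_le_one]
    intro a ha b hb
    rw [Finset.mem_filter, Finset.mem_range] at ha hb
    exact hS a b ha.1 hb.1 ha.2 hb.2
  have : ((((Finset.range N).filter fun k => x / ep N ^ k ∈ S).card : ℕ) : ℝ) ≤ 1 := by
    exact_mod_cast hcard
  nlinarith

lemma SD_unique {N : ℕ} (G : Good N) {x : ℂ} (k l : ℕ) (hk : k < N) (hl : l < N)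
    (h1 : x / ep N ^ k ∈ SD N) (h2 : x / ep N ^ l ∈ SD N) : k = l := by
  obtain ⟨_, _, a3, a4⟩ := h1
  obtain ⟨_, _, b3, b4⟩ := h2
  have a4' : 0 < - spk N (ep N * 1) (x / ep N ^ k) := by rwa [mul_one]
  have b4' : 0 < - spk N (ep N * 1) (x / ep N ^ l) := by rwa [mul_one]
  obtain ⟨c1, c2⟩ := sector_arg G a3 a4'
  obtain ⟨d1, d2⟩ := sector_arg G b3 b4'
  exact sector_unique G.N1 (c := 1) hk hl c1 c2 d1 d2

lemma SU_unique {N : ℕ} (G : Good N) {x : ℂ} (k l : ℕ) (hk : k < N) (hl : l < N)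
    (h1 : x / ep N ^ k ∈ SU N) (h2 : x / ep N ^ l ∈ SU N) : k = l := by
  have hep := ep_ne_zero N
  obtain ⟨_, _, a3, a4⟩ := h1
  obtain ⟨_, _, b3, b4⟩ := h2
  have a4' : 0 < - spk N (ep N * (qq N / ep N)) (x / ep N ^ k) := by
    rwa [mul_div_cancel₀ _ hep]
  have b4' : 0 < - spk N (ep N * (qq N / ep N)) (x / ep N ^ l) := by
    rwa [mul_div_cancel₀ _ hep]
  obtain ⟨c1, c2⟩ := sector_arg G a3 a4'
  obtain ⟨d1, d2⟩ := sector_arg G b3 b4'
  exact sector_unique G.N1 (c := qq N / ep N) hk hl c1 c2 d1 d2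

/-- the Airy corrector -/
noncomputable def psi (N : ℕ) (x : ℂ) : ℂ :=
  x ^ 2 / 2 * bg N (gm N) (starRingEnd ℂ (gm N)) (gq N) x +
    (rotSum N 2 (psiD N) x + rotSum N 2 (psiU N) x)

lemma contDiff_psi {N : ℕ} (G : Good N) {m : ℕ∞} : ContDiff ℝ m (psi N) :=
  ((((contDiff_id.pow 2).div_const 2).mul (contDiff_bg N _ _ _))).add
    ((contDiff_rotSum (contDiff_psiD G)).add (contDiff_rotSum (contDiff_psiU G)))

lemma EN_rot {N : ℕ} (hN : 1 ≤ N) (x : ℂ) (k : ℕ) : EN N (x / ep N ^ k) = EN N x := by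
  simp only [EN, EE, gw, pow_ep_mul hN]

lemma norm_pow_ge {N : ℕ} (G : Good N) {x : ℂ} (hx : 1 + 2 / N ≤ ‖x‖) : 4 ≤ ‖x ^ N‖ := by
  have hN := G.Nr
  rw [norm_pow]
  have h1 : (1 + 2 / N : ℝ) ^ N ≤ ‖x‖ ^ N := pow_le_pow_left₀ (by positivity) hx N
  refine le_trans ?_ h1
  have h2 := one_add_mul_self_le_rpow_one_add (s := (2 / N : ℝ)) (p := (N : ℝ) / 2)
    (by have : (0 : ℝ) ≤ 2 / N := by positivity
        linarith) (by linarith)
  have h3 : (1 : ℝ) + (N : ℝ) / 2 * (2 / N) = 2 := by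
    have : (N : ℝ) ≠ 0 := by linarith
    field_simp; norm_num
  rw [h3] at h2
  have h4 : (1 + 2 / N : ℝ) ^ N = ((1 + 2 / N : ℝ) ^ ((N : ℝ) / 2)) ^ 2 := by
    rw [← Real.rpow_natCast, ← Real.rpow_natCast, ← Real.rpow_mul (by positivity)]
    congr 1
    push_cast
    ring
  rw [h4]
  nlinarith

lemma SD_pow {N : ℕ} (G : Good N) {x : ℂ} (hx : x ∈ SD N) : 1 < ‖x ^ N‖ ∧ ‖x ^ N‖ < ‖mm N ^ N‖ := by
  obtain ⟨h1, h2, _, _⟩ := hx
  have h2' := norm_lt_of_rad_neg (pow_ne_zero _ G.mm_ne) h2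
  have h1' := norm_gt_of_rad_pos (by simp) h1
  rw [one_pow, norm_one] at h1'
  exact ⟨h1', h2'⟩

lemma SU_pow {N : ℕ} (G : Good N) {x : ℂ} (hx : x ∈ SU N) :
    ‖mm N ^ N‖ < ‖x ^ N‖ ∧ ‖x ^ N‖ < ‖qq N ^ N‖ := by
  obtain ⟨h1, h2, _, _⟩ := hx
  exact ⟨norm_gt_of_rad_pos (pow_ne_zero _ G.mm_ne) h1,
    norm_lt_of_rad_neg (pow_ne_zero _ G.qq_ne) h2⟩

/-- outside of the belt everything vanishes -/
lemma psi_bd_zero {N : ℕ} (G : Good N) {x : ℂ} (hx : ‖x ^ N‖ ≤ 1 / 2 ∨ 1 + 2 / N ≤ ‖x‖) {L : ℝ}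
    (hL : 0 < L) : Bd (psi N) x 0 L := by
  have hf : 1 ≤ ‖x ^ N - hh N 1‖ ∧ 1 ≤ ‖x ^ N - hh N 2‖ ∧ 1 ≤ ‖x ^ N - hh N 3‖ := by
    rcases hx with h | h
    · exact G.far_inner h
    · exact G.far_outer (by linarith [norm_pow_ge G h])
  have hb := bg_bd_zero (a := gm N) (b := starRingEnd ℂ (gm N)) (c := gq N) hf.1 hf.2.1 hf.2.2 hL
  obtain ⟨A, hA⟩ := Bd.exists (f := fun y : ℂ => y ^ 2 / 2) ((contDiff_id.pow 2).div_const 2) x hL
  have h1 := hA.cmul hb hL.le
  have hZm := G.norm_Zm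
  have hZq := G.norm_Zq
  have n1 : ∀ k, x / ep N ^ k ∉ SD N := by
    intro k hk
    have := SD_pow G hk
    rw [pow_ep_mul G.N1] at this
    rcases hx with h | h
    · linarith
    · have := norm_pow_ge G h
      linarith
  have n2 : ∀ k, x / ep N ^ k ∉ SU N := by
    intro k hk
    have := SU_pow G hk
    rw [pow_ep_mul G.N1] at this
    rcases hx with h | h
    · linarith
    · have := norm_pow_ge G h
      linarith
  have h2 : Bd (rotSum N 2 (psiD N)) x 0 L :=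
    Bd.rotSum (S := SD N) hL.le le_rfl (fun k l hk hl a b => SD_unique G k l hk hl a b)
      (fun k hk => psiD_zero G hk hL) (fun k hk => absurd hk (n1 k))
  have h3 : Bd (rotSum N 2 (psiU N)) x 0 L :=
    Bd.rotSum (S := SU N) hL.le le_rfl (fun k l hk hl a b => SU_unique G k l hk hl a b)
      (fun k hk => psiU_zero G hk hL) (fun k hk => absurd hk (n2 k))
  exact (h1.add (h2.add h3)).mono hL.le (by simp) le_rfl

/-- pointwise bound of the Hessian in the belt -/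
lemma psi_bd : ∃ K : ℝ, 1 ≤ K ∧ ∀ (N : ℕ) (x : ℂ), Good N → ‖x‖ ≤ 1 + 2 / N →
    ‖iteratedFDeriv ℝ 2 (psi N) x‖ ≤ K * EN N x := by
  obtain ⟨K1, hK1, h1⟩ := bd_corr
  obtain ⟨K2, hK2, h2⟩ := psiD_bd
  obtain ⟨K3, hK3, h3⟩ := psiU_bd
  refine ⟨K1 + K2 + K3, by linarith, ?_⟩
  intro N x G hx
  have hN := G.Nr
  have hw := tt_pos G
  have hE := EE_ge (N := N) hw (hh N) x
  have hE0 : 0 < EN N x := by linarith
  have hL : 0 < (N : ℝ) * EN N x := by positivity
  have hv : (0 : ℝ) ≤ (1 / N) ^ 2 / EN N x := by positivity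
  have a1 := (h1 N x G hx).b2
  have a2 : Bd (rotSum N 2 (psiD N)) x (K2 * ((1 / N) ^ 2 / EN N x)) (N * EN N x) :=
    Bd.rotSum (S := SD N) hL.le (by positivity)
      (fun k l hk hl a b => SD_unique G k l hk hl a b)
      (fun k hk => psiD_zero G hk hL) (fun k hk => by
        have := (h2 N _ G hk).2
        rwa [EN_rot G.N1] at this)
  have a3 : Bd (rotSum N 2 (psiU N)) x (K3 * ((1 / N) ^ 2 / EN N x)) (N * EN N x) :=
    Bd.rotSum (S := SU N) hL.le (by positivity)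
      (fun k l hk hl a b => SU_unique G k l hk hl a b)
      (fun k hk => psiU_zero G hk hL) (fun k hk => by
        have := (h3 N _ G hk).2
        rwa [EN_rot G.N1] at this)
  have a4 := (a2.add a3).b2
  have hs := (h1 N x G hx).smooth
  have hadd : iteratedFDeriv ℝ 2 (psi N) x = _ :=
    iteratedFDeriv_add_apply (f := fun y : ℂ => y ^ 2 / 2 *
      bg N (gm N) (starRingEnd ℂ (gm N)) (gq N) y)
      (g := fun y => rotSum N 2 (psiD N) y + rotSum N 2 (psiU N) y) hs.contDiffAt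
      (a2.add a3).smooth.contDiffAt
  rw [hadd]
  refine (norm_add_le _ _).trans ?_
  have e1 : K1 * (1 / N : ℝ) ^ 2 * N ^ 2 = K1 := by
    have : (N : ℝ) ≠ 0 := by linarith
    field_simp
  have e2 : (K2 * ((1 / N : ℝ) ^ 2 / EN N x) + K3 * ((1 / N) ^ 2 / EN N x)) * (N * EN N x) ^ 2
      = (K2 + K3) * EN N x := by
    have : (N : ℝ) ≠ 0 := by linarith
    field_simp
  rw [e1] at a1
  rw [e2] at a4
  have : K1 ≤ K1 * EN N x := le_mul_of_one_le_right (by linarith) (by linarith)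
  linarith

/-- lower void face -/
def FD (N : ℕ) : Set ℂ := {y | 1 < 2 * (EN N y * rad N 1 y) ∧ 1 < 2 * (EN N y * - rad N (mm N) y) ∧
  1 < 2 * (EN N y * spk N 1 y) ∧ 1 < 2 * (EN N y * - spk N (ep N) y)}

/-- upper void face -/
def FU (N : ℕ) : Set ℂ := {y | 1 < 2 * (EN N y * rad N (mm N) y) ∧
  1 < 2 * (EN N y * - rad N (qq N) y) ∧
  1 < 2 * (EN N y * spk N (qq N / ep N) y) ∧ 1 < 2 * (EN N y * - spk N (qq N) y)}

/-- the void set in the ring -/
def VN (N : ℕ) : Set ℂ := {x | ∃ k < N, x / ep N ^ k ∈ FD N ∨ x / ep N ^ k ∈ FU N}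

lemma cont_EN {N : ℕ} (G : Good N) : Continuous (EN N) :=
  (contDiff_EE N (tt_pos G) (hh N) (n := 0)).continuous

lemma cont_rad (N : ℕ) (c : ℂ) : Continuous (rad N c) := (contDiff_rad N c (m := 0)).continuous
lemma cont_spk (N : ℕ) (c : ℂ) : Continuous (spk N c) := (contDiff_spk N c (m := 0)).continuous

lemma isOpen_FD {N : ℕ} (G : Good N) : IsOpen (FD N) := by
  have hE := cont_EN G
  have h : ∀ n : ℂ → ℝ, Continuous n → IsOpen {y | 1 < 2 * (EN N y * n y)} := fun n hn =>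
    isOpen_lt continuous_const (continuous_const.mul (hE.mul hn))
  exact (h _ (cont_rad N _)).inter ((h _ (cont_rad N _).neg).inter
    ((h _ (cont_spk N _)).inter (h _ (cont_spk N _).neg)))

lemma isOpen_FU {N : ℕ} (G : Good N) : IsOpen (FU N) := by
  have hE := cont_EN G
  have h : ∀ n : ℂ → ℝ, Continuous n → IsOpen {y | 1 < 2 * (EN N y * n y)} := fun n hn =>
    isOpen_lt continuous_const (continuous_const.mul (hE.mul hn))
  exact (h _ (cont_rad N _)).inter ((h _ (cont_rad N _).neg).inter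
    ((h _ (cont_spk N _)).inter (h _ (cont_spk N _).neg)))

lemma isOpen_VN {N : ℕ} (G : Good N) : IsOpen (VN N) := by
  have : VN N = ⋃ k ∈ {k | k < N}, ((fun x => x / ep N ^ k) ⁻¹' (FD N ∪ FU N)) := by
    ext x; simp [VN]
  rw [this]
  refine isOpen_biUnion fun k _ => ((isOpen_FD G).union (isOpen_FU G)).preimage ?_
  exact continuous_id.div_const _

lemma EN_pos {N : ℕ} (G : Good N) (x : ℂ) : 0 < EN N x := by
  have := EE_ge (N := N) (tt_pos G) (hh N) x
  linarith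

lemma pos_of_wall {N : ℕ} (G : Good N) {x : ℂ} {t : ℝ} (h : 1 < 2 * (EN N x * t)) : 0 < t := by
  have h1 := EN_pos G x
  have h2 : 0 < EN N x * t := by linarith
  exact (mul_pos_iff_of_pos_left h1).1 h2

lemma FD_sub {N : ℕ} (G : Good N) {x : ℂ} (h : x ∈ FD N) : x ∈ SD N := by
  obtain ⟨h1, h2, h3, h4⟩ := h
  exact ⟨pos_of_wall G h1, pos_of_wall G h2, pos_of_wall G h3, pos_of_wall G h4⟩

lemma FU_sub {N : ℕ} (G : Good N) {x : ℂ} (h : x ∈ FU N) : x ∈ SU N := by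
  obtain ⟨h1, h2, h3, h4⟩ := h
  exact ⟨pos_of_wall G h1, pos_of_wall G h2, pos_of_wall G h3, pos_of_wall G h4⟩

lemma wall_one {N : ℕ} {n : ℂ → ℝ} {x : ℂ} (h : 1 < 2 * (EN N x * n x)) :
    wall N (tt N) (hh N) n 0 x = 1 := sg_high (by rw [add_zero]; exact h.le)

lemma psiD_FD {N : ℕ} {x : ℂ} (h : x ∈ FD N) : psiD N x = lD N x - Qh N x := by
  obtain ⟨h1, h2, h3, h4⟩ := h
  rw [psiD, faceFn, chi4, wall_one h1, wall_one (n := fun x => - rad N (mm N) x) h2, wall_one h3,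
    wall_one (n := fun x => - spk N (ep N) x) h4]
  simp

lemma psiU_FU {N : ℕ} {x : ℂ} (h : x ∈ FU N) : psiU N x = lU N x - Qh N x := by
  obtain ⟨h1, h2, h3, h4⟩ := h
  rw [psiU, faceFn, chi4, wall_one h1, wall_one (n := fun x => - rad N (qq N) x) h2, wall_one h3,
    wall_one (n := fun x => - spk N (qq N) x) h4]
  simp

lemma psiD_out {N : ℕ} (G : Good N) {x : ℂ} (h : x ∉ SD N) : psiD N x = 0 := by
  have := (psiD_zero G h (L := 1) one_pos).b0
  exact norm_le_zero_iff.1 this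

lemma psiU_out {N : ℕ} (G : Good N) {x : ℂ} (h : x ∉ SU N) : psiU N x = 0 := by
  have := (psiU_zero G h (L := 1) one_pos).b0
  exact norm_le_zero_iff.1 this

lemma aff_rot (a b c u x : ℂ) (hu : ‖u‖ = 1) :
    u ^ 2 * aff a b c (x / u) = aff (u ^ 2 * a) (u * b) (u ^ 3 * c) x := by
  have hu0 : u ≠ 0 := by
    intro h; rw [h, norm_zero] at hu; exact zero_ne_one hu
  have hconj : starRingEnd ℂ u = u⁻¹ := by
    rw [Complex.inv_def, Complex.normSq_eq_norm_sq, hu]; simp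
  simp only [aff_apply, map_div₀, hconj]
  field_simp

lemma sum_single {N : ℕ} {k : ℕ} (hk : k < N) {f : ℂ → ℂ} {x : ℂ} {j : ℕ}
    (h : ∀ l < N, l ≠ k → f (x / ep N ^ l) = 0) :
    rotSum N j f x = (ep N ^ k) ^ j * f (x / ep N ^ k) := by
  rw [rotSum, Finset.sum_eq_single k]
  · intro l hl hlk
    rw [h l (Finset.mem_range.1 hl) hlk, mul_zero]
  · intro h'
    exact absurd (Finset.mem_range.2 hk) h'

/-- On the voids the Airy function is locally affine. -/
lemma psi_affine {N : ℕ} (G : Good N) {x : ℂ} (hx : x ∈ VN N) :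
    iteratedFDeriv ℝ 2 (fun y => y ^ 2 / 2 + psi N y) x = 0 := by
  obtain ⟨k, hk, hx | hx⟩ := hx
  · have hop : IsOpen {y : ℂ | y / ep N ^ k ∈ FD N} :=
      (isOpen_FD G).preimage (continuous_id.div_const _)
    have hev : (fun y => y ^ 2 / 2 + psi N y) =ᶠ[𝓝 x]
        aff ((ep N ^ k) ^ 2 * (ea N ^ 2 * ((rho N) ^ 2 / 2 - rho N * BD N)))
          ((ep N ^ k) * (ea N * (BD N + cs N) / 2))
          ((ep N ^ k) ^ 3 * (ea N ^ 3 * (BD N - cs N) / 2)) := by
      filter_upwards [hop.mem_nhds hx] with y hy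
      have hy' : y / ep N ^ k ∈ SD N := FD_sub G hy
      have h1 : rotSum N 2 (psiD N) y = (ep N ^ k) ^ 2 * psiD N (y / ep N ^ k) :=
        sum_single hk fun l hl hlk => psiD_out G fun h => hlk (SD_unique G l k hl hk h hy')
      have h2 : rotSum N 2 (psiU N) y = (ep N ^ k) ^ 2 * psiU N (y / ep N ^ k) := by
        refine sum_single hk fun l hl hlk => psiU_out G fun h => ?_
        have a := SD_pow G hy'
        have b := SU_pow G h
        rw [pow_ep_mul G.N1] at a b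
        linarith [a.2, b.1]
      have h3 : psiU N (y / ep N ^ k) = 0 := by
        refine psiU_out G fun h => ?_
        have a := SD_pow G hy'
        have b := SU_pow G h
        linarith [a.2, b.1]
      rw [psi, h1, h2, h3, psiD_FD hy, ← aff_rot _ _ _ _ _ (norm_ep_pow N k), Qh_rot G.N1]
      have hne : ep N ^ k ≠ 0 := pow_ne_zero _ (ep_ne_zero N)
      rw [Qh, lD]
      field_simp
      ring
    rw [(hev.iteratedFDeriv ℝ 2).eq_of_nhds]
    exact iter2_aff _ _ _ _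
  · have hop : IsOpen {y : ℂ | y / ep N ^ k ∈ FU N} :=
      (isOpen_FU G).preimage (continuous_id.div_const _)
    have hev : (fun y => y ^ 2 / 2 + psi N y) =ᶠ[𝓝 x]
        aff ((ep N ^ k) ^ 2 * (GU N * c2 N + cU N * rho N * cs N))
          ((ep N ^ k) * (GU N * cs N * kap N / rho N - cU N * kap N / 2))
          ((ep N ^ k) ^ 3 * (-(GU N * cs N * kapc N / rho N) - cU N * kapc N / 2)) := by
      filter_upwards [hop.mem_nhds hx] with y hy
      have hy' : y / ep N ^ k ∈ SU N := FU_sub G hy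
      have h1 : rotSum N 2 (psiU N) y = (ep N ^ k) ^ 2 * psiU N (y / ep N ^ k) :=
        sum_single hk fun l hl hlk => psiU_out G fun h => hlk (SU_unique G l k hl hk h hy')
      have h2 : rotSum N 2 (psiD N) y = (ep N ^ k) ^ 2 * psiD N (y / ep N ^ k) := by
        refine sum_single hk fun l hl hlk => psiD_out G fun h => ?_
        have a := SU_pow G hy'
        have b := SD_pow G h
        rw [pow_ep_mul G.N1] at a b
        linarith [a.1, b.2]
      have h3 : psiD N (y / ep N ^ k) = 0 := by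
        refine psiD_out G fun h => ?_
        have a := SU_pow G hy'
        have b := SD_pow G h
        linarith [a.1, b.2]
      rw [psi, h1, h2, h3, psiU_FU hy, ← aff_rot _ _ _ _ _ (norm_ep_pow N k), Qh_rot G.N1]
      have hne : ep N ^ k ≠ 0 := pow_ne_zero _ (ep_ne_zero N)
      rw [Qh, lU]
      have : (ep N ^ k) ^ 2 * (aff (GU N * c2 N + cU N * rho N * cs N)
          (GU N * cs N * kap N / rho N - cU N * kap N / 2)
          (-(GU N * cs N * kapc N / rho N) - cU N * kapc N / 2) (y / ep N ^ k) -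
        y ^ 2 / 2 * (1 + bg N (gm N) (starRingEnd ℂ (gm N)) (gq N) y) / (ep N ^ k) ^ 2)
        = (ep N ^ k) ^ 2 * aff (GU N * c2 N + cU N * rho N * cs N)
          (GU N * cs N * kap N / rho N - cU N * kap N / 2)
          (-(GU N * cs N * kapc N / rho N) - cU N * kapc N / 2) (y / ep N ^ k) -
          y ^ 2 / 2 * (1 + bg N (gm N) (starRingEnd ℂ (gm N)) (gq N) y) := by
        field_simp
      rw [this]
      ring
    rw [(hev.iteratedFDeriv ℝ 2).eq_of_nhds]
    exact iter2_aff _ _ _ _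

lemma VN_pow {N : ℕ} (G : Good N) {x : ℂ} (hx : x ∈ VN N) : 1 < ‖x ^ N‖ ∧ ‖x ^ N‖ < 2.75 := by
  have h1 := G.norm_Zm
  have h2 := G.norm_Zq
  obtain ⟨k, hk, hx | hx⟩ := hx
  · have := SD_pow G (FD_sub G hx)
    rw [pow_ep_mul G.N1] at this
    constructor <;> linarith
  · have := SU_pow G (FU_sub G hx)
    rw [pow_ep_mul G.N1] at this
    constructor <;> linarith

/-- rotation invariance of the void -/
lemma VN_rot {N : ℕ} (G : Good N) {x : ℂ} (l : ℕ) (hx : x ∈ VN N) : ep N ^ l * x ∈ VN N := by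
  obtain ⟨k, hk, hx⟩ := hx
  have hN : 0 < N := G.N1
  refine ⟨(k + l) % N, Nat.mod_lt _ hN, ?_⟩
  have he : ep N ^ ((k + l) % N) = ep N ^ (k + l) := by
    conv_rhs => rw [← Nat.mod_add_div (k + l) N]
    rw [pow_add, pow_mul, ep_pow G.N1, one_pow, mul_one]
  have h0 : ep N ≠ 0 := ep_ne_zero N
  have e : ep N ^ l * x / ep N ^ ((k + l) % N) = x / ep N ^ k := by
    rw [he, pow_add]
    field_simp
  rw [e]
  exact hx

end Pool.Agent.H24
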