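import Pool.Agent.H24.Ener

/-! Rotation invariance of the effective energy. -/

open Complex Filter Topology MeasureTheory
open scoped ContDiff Pointwise

namespace Pool.Agent.H24

variable {b : Module.Basis (Fin 2) ℝ ℂ} {Ω : Set ℂ} {κ μ : ℝ}

lemma per_lattice {F : Type*} {g : ℂ → F} (hg : ∀ i x, g (x + b i) = g x) {l : ℂ}
    (hl : l ∈ Submodule.span ℤ (Set.range b)) (x : ℂ) : g (x + l) = g x := by
  have key : ∀ x, g (x + l) = g x := by
    induction hl using Submodule.span_induction with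
    | mem y hy =>
      obtain ⟨i, rfl⟩ := hy
      exact hg i
    | zero => intro x; rw [add_zero]
    | add y z _ _ hy hz => intro x; rw [← add_assoc, hz, hy]
    | smul n y _ hy =>
      have hn : ∀ m : ℕ, ∀ x, g (x + (m : ℤ) • y) = g x := by
        intro m
        induction m with
        | zero => intro x; simp
        | succ k ih =>
          intro x
          rw [Nat.cast_succ, add_smul, one_smul, ← add_assoc, hy, ih]
      intro x
      obtain ⟨m, rfl | rfl⟩ := Int.eq_nat_or_neg n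
      · exact hn m x
      · have := hn m (x + (-(m : ℤ)) • y)
        rw [← this]
        congr 1
        simp
  exact key x

lemma int_cell_eq {b' : Module.Basis (Fin 2) ℝ ℂ}
    (h : Submodule.span ℤ (Set.range b') = Submodule.span ℤ (Set.range b)) {G : ℂ → ℝ}
    (hG : ∀ i x, G (x + b i) = G x) :
    ∫ x in ZSpan.fundamentalDomain b', G x = ∫ x in ZSpan.fundamentalDomain b, G x := by
  have h1 := ZSpan.isAddFundamentalDomain' b' volume
  have h2 := ZSpan.isAddFundamentalDomain' b volume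
  rw [h] at h1
  have : Countable (Submodule.span ℤ (Set.range b)).toAddSubgroup :=
    inferInstanceAs (Countable (Submodule.span ℤ (Set.range b)))
  refine h1.setIntegral_eq h2 fun l x => ?_
  show G ((l : ℂ) + x) = G x
  rw [add_comm]
  exact per_lattice hG l.2 x

/-- multiplication by `ω²` as an isometry -/
noncomputable def rot2 : ℂ ≃ₗᵢ[ℝ] ℂ := rotation (Circle.exp (4 * Real.pi / 3))

lemma rot2_apply (x : ℂ) : rot2 x = ep 3 ^ 2 * x := by
  rw [rot2, rotation_apply, Circle.coe_exp]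
  congr 1
  rw [ep, ← Complex.exp_nat_mul]
  congr 1
  push_cast
  ring

lemma ep3_cube : ep 3 ^ 3 = 1 := ep_pow (by norm_num)

lemma span_rot (hb : ∀ i, ep 3 * b i ∈ Submodule.span ℤ (Set.range b)) {l : ℂ}
    (hl : l ∈ Submodule.span ℤ (Set.range b)) : ep 3 * l ∈ Submodule.span ℤ (Set.range b) := by
  induction hl using Submodule.span_induction with
  | mem y hy =>
    obtain ⟨i, rfl⟩ := hy
    exact hb i
  | zero => rw [mul_zero]; exact Submodule.zero_mem _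
  | add y z _ _ hy hz => rw [mul_add]; exact Submodule.add_mem _ hy hz
  | smul n y _ hy => rw [mul_smul_comm]; exact Submodule.smul_mem _ n hy

lemma span_map_rot (hb : ∀ i, ep 3 * b i ∈ Submodule.span ℤ (Set.range b)) :
    Submodule.span ℤ (Set.range (b.map rot2.toLinearEquiv)) = Submodule.span ℤ (Set.range b) := by
  apply le_antisymm
  · rw [Submodule.span_le]
    rintro _ ⟨i, rfl⟩
    show rot2 (b i) ∈ Submodule.span ℤ (Set.range b)
    rw [rot2_apply, pow_two, mul_assoc]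
    exact span_rot hb (hb i)
  · rw [Submodule.span_le]
    rintro _ ⟨i, rfl⟩
    rw [← ZSpan.map]
    refine ⟨ep 3 * b i, hb i, ?_⟩
    show rot2 (ep 3 * b i) = b i
    rw [rot2_apply, ← mul_assoc]
    have : ep 3 ^ 2 * ep 3 = 1 := by rw [← pow_succ]; exact ep3_cube
    rw [this, one_mul]

lemma int_cell_rot (hb : ∀ i, ep 3 * b i ∈ Submodule.span ℤ (Set.range b)) {G : ℂ → ℝ}
    (hG : ∀ i x, G (x + b i) = G x) :
    ∫ x in ZSpan.fundamentalDomain b, G (ep 3 ^ 2 * x) = ∫ x in ZSpan.fundamentalDomain b, G x := by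
  rw [← int_cell_eq (span_map_rot hb) hG, ← ZSpan.map_fundamentalDomain]
  have h1 := (rot2.measurePreserving).setIntegral_preimage_emb
    rot2.toHomeomorph.measurableEmbedding G (rot2 '' ZSpan.fundamentalDomain b)
  rw [Set.preimage_image_eq _ rot2.injective] at h1
  refine Eq.trans ?_ h1
  refine integral_congr_ae (Filter.Eventually.of_forall fun x => ?_)
  show G (ep 3 ^ 2 * x) = G (rot2 x)
  rw [rot2_apply]

/-- complex representation of a real linear map -/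
lemma clm_repr (D : ℂ →L[ℝ] ℂ) (z : ℂ) :
    D z = (D 1 - I * D I) / 2 * z + devD D * starRingEnd ℂ z := by
  have h1 : z = z.re • (1 : ℂ) + z.im • I := by
    apply Complex.ext <;> simp
  have h2 : D z = z.re * D 1 + z.im * D I := by
    conv_lhs => rw [h1]
    rw [map_add, map_smul, map_smul, Complex.real_smul, Complex.real_smul]
  have h3 : starRingEnd ℂ z = z.re - z.im * I := by
    apply Complex.ext <;> simp
  have h4 : z = z.re + z.im * I := (Complex.re_add_im z).symm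
  rw [h2, h3, devD]
  have h5 : (D 1 - I * D I) / 2 * z = (D 1 - I * D I) / 2 * (z.re + z.im * I) := by rw [← h4]
  rw [h5]
  linear_combination ((z.im : ℂ) * D I) * Complex.I_sq

lemma trD_repr (D : ℂ →L[ℝ] ℂ) : trD D = ((D 1 - I * D I) / 2).re := by
  have : (D 1 - I * D I) / 2 = ((1 / 2 : ℝ) : ℂ) * (D 1 - I * D I) := by push_cast; ring
  rw [this, Complex.re_ofReal_mul, Complex.sub_re, Complex.mul_re, Complex.I_re, Complex.I_im, trD]
  ring

/-- the rotated field -/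
noncomputable def rotF (u : ℂ → ℂ) (x : ℂ) : ℂ := ep 3 * u (ep 3 ^ 2 * x)

lemma conj_ep3 : starRingEnd ℂ (ep 3) = ep 3 ^ 2 := by
  have h1 : ep 3 * starRingEnd ℂ (ep 3) = 1 := by
    rw [Complex.mul_conj, Complex.normSq_eq_norm_sq, norm_ep]; simp
  have h2 : ep 3 * ep 3 ^ 2 = 1 := by rw [← pow_succ']; exact ep3_cube
  exact mul_left_cancel₀ (ep_ne_zero 3) (h1.trans h2.symm)

lemma rotF_fderiv {u : ℂ → ℂ} (hu : Differentiable ℝ u) (x z : ℂ) :
    fderiv ℝ (rotF u) x z = ep 3 * fderiv ℝ u (ep 3 ^ 2 * x) (ep 3 ^ 2 * z) := by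
  have h1 : HasFDerivAt (fun y : ℂ => ep 3 ^ 2 * y) ((ep 3 ^ 2) • (1 : ℂ →L[ℝ] ℂ)) x :=
    (hasFDerivAt_id x).const_mul _
  have h2 := ((hu (ep 3 ^ 2 * x)).hasFDerivAt.comp x h1).const_mul (ep 3)
  have h3 : fderiv ℝ (rotF u) x = _ := h2.fderiv
  rw [h3]
  simp

lemma rotF_tr {u : ℂ → ℂ} (hu : Differentiable ℝ u) (x : ℂ) :
    trD (fderiv ℝ (rotF u) x) = trD (fderiv ℝ u (ep 3 ^ 2 * x)) ∧
    devD (fderiv ℝ (rotF u) x) = ep 3 ^ 2 * devD (fderiv ℝ u (ep 3 ^ 2 * x)) := by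
  have e1 := rotF_fderiv hu x 1
  have e2 := rotF_fderiv hu x I
  rw [clm_repr (fderiv ℝ u (ep 3 ^ 2 * x)) (ep 3 ^ 2 * 1)] at e1
  rw [clm_repr (fderiv ℝ u (ep 3 ^ 2 * x)) (ep 3 ^ 2 * I)] at e2
  rw [map_mul, map_pow, conj_ep3] at e1 e2
  have c1 : starRingEnd ℂ (1 : ℂ) = 1 := map_one _
  rw [c1] at e1
  rw [Complex.conj_I] at e2
  rw [trD_repr, trD_repr]
  unfold devD at *
  rw [e1, e2]
  generalize fderiv ℝ u (ep 3 ^ 2 * x) = D
  have h3 := ep3_cube
  generalize ep 3 = w at *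
  have hI : I ^ 2 = -1 := Complex.I_sq
  generalize D 1 = a at *
  generalize D I = c at *
  have key1 : (w * ((a - I * c) / 2 * (w ^ 2 * 1) + (a + I * c) / 2 * ((w ^ 2) ^ 2 * 1)) -
      I * (w * ((a - I * c) / 2 * (w ^ 2 * I) + (a + I * c) / 2 * ((w ^ 2) ^ 2 * -I)))) / 2 =
      (a - I * c) / 2 := by
    linear_combination ((a - I * c) / 2) * h3 +
      (-(w ^ 3 * (a - I * c)) / 4 + w ^ 5 * (a + I * c) / 4) * hI
  have key2 : (w * ((a - I * c) / 2 * (w ^ 2 * 1) + (a + I * c) / 2 * ((w ^ 2) ^ 2 * 1)) +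
      I * (w * ((a - I * c) / 2 * (w ^ 2 * I) + (a + I * c) / 2 * ((w ^ 2) ^ 2 * -I)))) / 2 =
      w ^ 2 * ((a + I * c) / 2) := by
    linear_combination (w ^ 2 * (a + I * c) / 2) * h3 +
      (w ^ 3 * (a - I * c) / 4 - w ^ 5 * (a + I * c) / 4) * hI
  rw [key1, key2]
  exact ⟨rfl, rfl⟩

lemma rotF_mem (hb : ∀ i, ep 3 * b i ∈ Submodule.span ℤ (Set.range b)) (u : PF b) :
    rotF u ∈ PF b := by
  refine ⟨contDiff_const.mul (u.2.1.comp (contDiff_const.mul contDiff_id)), fun i x => ?_⟩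
  show ep 3 * (u : ℂ → ℂ) (ep 3 ^ 2 * (x + b i)) = ep 3 * (u : ℂ → ℂ) (ep 3 ^ 2 * x)
  rw [mul_add]
  congr 1
  refine per_lattice u.2.2 ?_ _
  rw [pow_two, mul_assoc]
  exact span_rot hb (hb i)

lemma norm_rot2 (v : ℂ) : ‖ep 3 ^ 2 * v‖ = ‖v‖ := by
  rw [norm_mul, norm_ep_pow, one_mul]

lemma fderiv_per (u : PF b) (i : Fin 2) (x : ℂ) :
    fderiv ℝ (u : ℂ → ℂ) (x + b i) = fderiv ℝ (u : ℂ → ℂ) x := by
  rw [← fderiv_comp_add_right]
  congr 1
  funext y
  exact u.2.2 i y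

lemma Aen_rot (hb : ∀ i, ep 3 * b i ∈ Submodule.span ℤ (Set.range b)) (hm : MeasurableSet Ω)
    (hp : ∀ i x, x + b i ∈ Ω ↔ x ∈ Ω) (hr : ∀ x, ep 3 * x ∈ Ω ↔ x ∈ Ω) (t : ℝ) (v : ℂ)
    (u : PF b) : Aen κ μ b Ω t (ep 3 ^ 2 * v) (rotF u) = Aen κ μ b Ω t v u := by
  unfold Aen
  congr 1
  rw [← setIntegral_indicator hm, ← setIntegral_indicator hm]
  set g : ℂ → ℝ := fun x => qf κ μ (t + trD (fderiv ℝ (u : ℂ → ℂ) x))
    (v + devD (fderiv ℝ (u : ℂ → ℂ) x)) with hg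
  have hG : ∀ i x, Ω.indicator g (x + b i) = Ω.indicator g x := by
    intro i x
    by_cases h : x ∈ Ω
    · rw [Set.indicator_of_mem h, Set.indicator_of_mem ((hp i x).2 h)]
      simp only [hg, fderiv_per]
    · rw [Set.indicator_of_notMem h, Set.indicator_of_notMem (fun h' => h ((hp i x).1 h'))]
  rw [← int_cell_rot hb hG]
  refine integral_congr_ae (Filter.Eventually.of_forall fun x => ?_)
  have hr2 : ep 3 ^ 2 * x ∈ Ω ↔ x ∈ Ω := by
    rw [pow_two, mul_assoc, hr, hr]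
  show Ω.indicator _ x = Ω.indicator g (ep 3 ^ 2 * x)
  by_cases h : x ∈ Ω
  · rw [Set.indicator_of_mem h, Set.indicator_of_mem (hr2.2 h)]
    obtain ⟨h1, h2⟩ := rotF_tr (PF_diff u) x
    simp only [hg, h1, h2, ← mul_add, qf, norm_rot2]
  · rw [Set.indicator_of_notMem h, Set.indicator_of_notMem (fun h' => h (hr2.1 h'))]

theorem Wef_rot (hκ : 0 ≤ κ) (hμ : 0 ≤ μ)
    (hb : ∀ i, ep 3 * b i ∈ Submodule.span ℤ (Set.range b)) (hm : MeasurableSet Ω)
    (hp : ∀ i x, x + b i ∈ Ω ↔ x ∈ Ω) (hr : ∀ x, ep 3 * x ∈ Ω ↔ x ∈ Ω) (t : ℝ) (v : ℂ) :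
    Wef κ μ b Ω t (ep 3 * v) = Wef κ μ b Ω t v := by
  have key : ∀ v, Wef κ μ b Ω t (ep 3 ^ 2 * v) ≤ Wef κ μ b Ω t v := by
    intro v
    refine le_ciInf fun u => ?_
    rw [← Aen_rot hb hm hp hr t v u]
    exact Wef_le hκ hμ t (ep 3 ^ 2 * v) ⟨rotF u, rotF_mem hb u⟩
  have h3 := ep3_cube
  apply le_antisymm
  · have h1 := key (ep 3 ^ 2 * v)
    have e : ep 3 ^ 2 * (ep 3 ^ 2 * v) = ep 3 * v := by
      linear_combination (ep 3 * v) * h3
    rw [e] at h1
    exact h1.trans (key v)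
  · have h1 := key (ep 3 * v)
    have e : ep 3 ^ 2 * (ep 3 * v) = v := by
      linear_combination v * h3
    rw [e] at h1
    exact h1

end Pool.Agent.H24
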