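import Pool.Agent.H24.Zone

/-! The kinematic field on the solid away from the hinges. -/

open Complex Filter Topology
open scoped ContDiff

namespace Pool.Agent.H24

lemma spk_formula {N : ℕ} (z c : ℂ) : spk N (exp (c / N)) (exp (z / N)) =
    N * (Real.exp ((z - c).re / N) * Real.sin ((z - c).im / N)) := by
  rw [spk, ← Complex.exp_sub, ← sub_div, Complex.exp_im, Complex.div_natCast_re,
    Complex.div_natCast_im]

lemma rad_formula {N : ℕ} (G : Good N) (z c : ℂ) : rad N (exp (c / N)) (exp (z / N)) =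
    Real.exp (2 * (z - c).re) - 1 := by
  rw [rad_eq, exp_div_pow G, exp_div_pow G, Complex.norm_exp, Complex.norm_exp, ← Real.exp_sub,
    ← Real.exp_nat_mul]
  congr 2

lemma exp_small {N : ℕ} (G : Good N) {a : ℝ} (ha : |a| ≤ 1.5) : 0.98 ≤ Real.exp (a / N) := by
  have hN := G.Nr
  have h1 := Real.add_one_le_exp (a / N)
  have h2 : -0.015 ≤ a / N := by
    rw [le_div_iff₀ (by linarith)]
    have := (abs_le.1 ha).1
    nlinarith
  linarith

lemma Nsin_ge {N : ℕ} (G : Good N) {b : ℝ} (h0 : 0 ≤ b) (h1 : b ≤ 10) :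
    0.63 * b ≤ N * Real.sin (b / N) := by
  have hN := G.Nr
  have hpi := Real.pi_gt_three
  have hpi2 := Real.pi_lt_d2
  have h2 : b / N ≤ Real.pi / 2 := by
    rw [div_le_iff₀ (by linarith)]; nlinarith
  have h3 := Real.mul_le_sin (by positivity : 0 ≤ b / N) h2
  have h4 : 0.63 ≤ 2 / Real.pi := by
    rw [le_div_iff₀ (by linarith)]; nlinarith
  have h5 : (N : ℝ) * (2 / Real.pi * (b / N)) = 2 / Real.pi * b := by field_simp
  have h6 := mul_le_mul_of_nonneg_left h3 (by linarith : (0 : ℝ) ≤ N)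
  rw [h5] at h6
  nlinarith

/-- a spoke seen from far away on the positive side -/
lemma far_spoke {N : ℕ} (G : Good N) {z c : ℂ} (h1 : |(z - c).re| ≤ 1.5)
    (h2 : 1.5 ≤ (z - c).im) (h3 : (z - c).im ≤ 10) :
    1 < 2 * (EN N (exp (z / N)) * spk N (exp (c / N)) (exp (z / N))) := by
  have hE := EE_ge (N := N) (tt_pos G) (hh N) (exp (z / N))
  rw [spk_formula]
  have a1 := exp_small G h1
  have a2 := Nsin_ge G (by linarith) h3
  have a3 : 0.9 ≤ (N : ℝ) * Real.sin ((z - c).im / N) := by linarith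
  have a4 : 0.9 * 0.98 ≤ (N : ℝ) * Real.sin ((z - c).im / N) * Real.exp ((z - c).re / N) :=
    mul_le_mul a3 a1 (by norm_num) (by linarith)
  have a5 : (N : ℝ) * (Real.exp ((z - c).re / N) * Real.sin ((z - c).im / N))
    = (N : ℝ) * Real.sin ((z - c).im / N) * Real.exp ((z - c).re / N) := by ring
  rw [a5]
  have a6 := mul_le_mul hE a4 (by norm_num) (by linarith)
  change 1 < 2 * (EE N (tt N) (hh N) (exp (z / N)) *
    ((N : ℝ) * Real.sin ((z - c).im / N) * Real.exp ((z - c).re / N)))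
  linarith

lemma far_spoke_neg {N : ℕ} (G : Good N) {z c : ℂ} (h1 : |(z - c).re| ≤ 1.5)
    (h2 : 1.5 ≤ (c - z).im) (h3 : (c - z).im ≤ 10) :
    1 < 2 * (EN N (exp (z / N)) * - spk N (exp (c / N)) (exp (z / N))) := by
  have hE := EE_ge (N := N) (tt_pos G) (hh N) (exp (z / N))
  rw [spk_formula]
  have e : (z - c).im = -(c - z).im := by simp
  have a1 := exp_small G h1
  have a2 := Nsin_ge G (by linarith) h3
  have a3 : 0.9 ≤ (N : ℝ) * Real.sin ((c - z).im / N) := by linarith
  have a4 : 0.9 * 0.98 ≤ (N : ℝ) * Real.sin ((c - z).im / N) * Real.exp ((z - c).re / N) :=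
    mul_le_mul a3 a1 (by norm_num) (by linarith)
  have a5 : -((N : ℝ) * (Real.exp ((z - c).re / N) * Real.sin ((z - c).im / N)))
    = (N : ℝ) * Real.sin ((c - z).im / N) * Real.exp ((z - c).re / N) := by
    rw [e, neg_div, Real.sin_neg]; ring
  rw [a5]
  have a6 := mul_le_mul hE a4 (by norm_num) (by linarith)
  change 1 < 2 * (EE N (tt N) (hh N) (exp (z / N)) *
    ((N : ℝ) * Real.sin ((c - z).im / N) * Real.exp ((z - c).re / N)))
  linarith

/-- small spoke value means small angle -/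
lemma small_angle {N : ℕ} (G : Good N) {z c : ℂ} (h1 : |(z - c).re| ≤ 1.5)
    (h2 : |(z - c).im| ≤ 5)
    (h3 : |EN N (exp (z / N)) * spk N (exp (c / N)) (exp (z / N))| ≤ 1) :
    |(z - c).im| ≤ 1.7 / EN N (exp (z / N)) := by
  have hE := EE_ge (N := N) (tt_pos G) (hh N) (exp (z / N))
  have hE0 : 0 < EN N (exp (z / N)) := by linarith
  have hN := G.Nr
  rw [le_div_iff₀ hE0]
  rw [spk_formula] at h3
  have a1 := exp_small G h1
  have a2 := Nsin_ge G (abs_nonneg _) (h2.trans (by norm_num))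
  have a3 : |Real.sin ((z - c).im / N)| = Real.sin (|(z - c).im| / N) := by
    rcases le_total 0 (z - c).im with h | h
    · rw [abs_of_nonneg h, abs_of_nonneg]
      have : (0 : ℝ) < N := by linarith
      rw [abs_of_nonneg h] at a2
      have h5 : 0 ≤ (N : ℝ) * Real.sin ((z - c).im / N) := by linarith
      exact (mul_nonneg_iff_of_pos_left this).1 h5
    · rw [abs_of_nonpos h, neg_div, Real.sin_neg, abs_of_nonpos]
      have : (0 : ℝ) < N := by linarith
      rw [abs_of_nonpos h, neg_div, Real.sin_neg] at a2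
      have h5 : 0 ≤ (N : ℝ) * -Real.sin ((z - c).im / N) := by linarith
      have := (mul_nonneg_iff_of_pos_left this).1 h5
      linarith
  have a4 : |EN N (exp (z / N)) * (N * (Real.exp ((z - c).re / N) * Real.sin ((z - c).im / N)))|
      = EN N (exp (z / N)) * Real.exp ((z - c).re / N) * (N * Real.sin (|(z - c).im| / N)) := by
    rw [abs_mul, abs_mul, abs_mul, a3, abs_of_pos hE0, abs_of_pos (by linarith : (0 : ℝ) < N),
      abs_of_pos (Real.exp_pos _)]
    ring
  rw [a4] at h3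
  have a5 : EN N (exp (z / N)) * 0.98 * (0.63 * |(z - c).im|) ≤
      EN N (exp (z / N)) * Real.exp ((z - c).re / N) * (N * Real.sin (|(z - c).im| / N)) :=
    mul_le_mul (mul_le_mul_of_nonneg_left a1 hE0.le) a2 (by positivity) (by positivity)
  have a6 : EN N (exp (z / N)) * 0.98 * (0.63 * |(z - c).im|)
    = 0.6174 * (|(z - c).im| * EN N (exp (z / N))) := by ring
  rw [a6] at a5
  have a7 := a5.trans h3
  have a8 : 0 ≤ |(z - c).im| * EN N (exp (z / N)) := by positivity
  linarith

lemma small_rad {a E : ℝ} (hE : 100 ≤ E) (h : |E * (Real.exp (2 * a) - 1)| ≤ 1) :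
    |a| ≤ 0.6 / E := by
  have hE0 : 0 < E := by linarith
  rw [le_div_iff₀ hE0]
  have h' := abs_le.1 h
  rcases le_total 0 a with h0 | h0
  · rw [abs_of_nonneg h0]
    have := Real.add_one_le_exp (2 * a)
    nlinarith
  · rw [abs_of_nonpos h0]
    have h1 := Real.add_one_le_exp (-(2 * a))
    have h2 : Real.exp (2 * a) * Real.exp (-(2 * a)) = 1 := by rw [← Real.exp_add]; simp
    have h3 : 0.99 ≤ Real.exp (2 * a) := by nlinarith
    have h4 : Real.exp (2 * a) * (-(2 * a) + 1) ≤ 1 := by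
      have := mul_le_mul_of_nonneg_left h1 (Real.exp_pos (2 * a)).le
      rwa [h2] at this
    -- 1 - e ≥ e (-2a) ≥ 0.99 (-2a)
    have h5 : 0.99 * (-(2 * a)) ≤ 1 - Real.exp (2 * a) := by
      nlinarith
    nlinarith

/-- near both coordinate lines of a hinge means in the hinge zone -/
lemma near_zone {N : ℕ} (G : Good N) {z c : ℂ} {j : Fin 4} (hc : exp c = hh N j)
    (h1 : |(z - c).re| ≤ 1.5) (h2 : |(z - c).im| ≤ 5)
    (h3 : |EN N (exp (z / N)) * spk N (exp (c / N)) (exp (z / N))| ≤ 1)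
    (h4 : |EN N (exp (z / N)) * rad N (exp (c / N)) (exp (z / N))| ≤ 1) :
    ‖exp z - hh N j‖ ≤ tt N := by
  have hw := tt_pos G
  have hE := EE_ge (N := N) hw (hh N) (exp (z / N))
  have hE0 : 0 < EN N (exp (z / N)) := by linarith
  have a1 := small_angle G h1 h2 h3
  rw [rad_formula G] at h4
  have a2 := small_rad hE h4
  set E := EN N (exp (z / N)) with hEd
  have a3 : ‖z - c‖ ≤ 2.3 / E := by
    have := Complex.norm_le_abs_re_add_abs_im (z - c)
    have e : 2.3 / E = 0.6 / E + 1.7 / E := by ring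
    rw [e]; linarith
  have a4 : 2.3 / E ≤ 1 := by rw [div_le_one hE0]; linarith
  have a5 := Complex.norm_exp_sub_one_le (a3.trans a4)
  have e2 : exp z - exp c = exp c * (exp (z - c) - 1) := by
    rw [mul_sub, ← Complex.exp_add, mul_one]
    congr 2
    ring
  have hn := (hh_norm G j).2
  set d := ‖exp z - hh N j‖ with hd
  have a6 : d ≤ 13 / E := by
    rw [hd, ← hc, e2, norm_mul, hc]
    have a7 : ‖exp (z - c) - 1‖ ≤ 4.6 / E := by
      have : (4.6 : ℝ) / E = 2 * (2.3 / E) := by ring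
      rw [this]; linarith
    calc ‖hh N j‖ * ‖exp (z - c) - 1‖ ≤ 2.75 * (4.6 / E) :=
          mul_le_mul hn a7 (norm_nonneg _) (by norm_num)
      _ ≤ 13 / E := by
        rw [← mul_div_assoc]
        exact div_le_div_of_nonneg_right (by norm_num) hE0.le
  have hg := gw_le_EE (N := N) hw (hh N) (exp (z / N)) j
  have hgd : gw N (tt N) (hh N j) (exp (z / N)) = (Real.sqrt (d ^ 2 + tt N ^ 2))⁻¹ := by
    rw [gw, real_inner_self_eq_norm_sq, exp_div_pow G]
  have hs : 0 < Real.sqrt (d ^ 2 + tt N ^ 2) := Real.sqrt_pos.2 (by positivity)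
  rw [hgd] at hg
  have a8 : 100 ≤ E * Real.sqrt (d ^ 2 + tt N ^ 2) := by
    have := mul_le_mul_of_nonneg_right hg hs.le
    rw [mul_assoc, inv_mul_cancel₀ hs.ne', mul_one] at this
    exact this
  have a9 : d ≤ 0.13 * Real.sqrt (d ^ 2 + tt N ^ 2) := by
    rw [le_div_iff₀ hE0] at a6
    have hd0 : 0 ≤ d := norm_nonneg _
    by_contra hcon
    push Not at hcon
    have : 0.13 * Real.sqrt (d ^ 2 + tt N ^ 2) * E < d * E := mul_lt_mul_of_pos_right hcon hE0
    nlinarith
  have a10 : d ^ 2 ≤ (0.13 * Real.sqrt (d ^ 2 + tt N ^ 2)) ^ 2 :=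
    pow_le_pow_left₀ (norm_nonneg _) a9 2
  rw [mul_pow, Real.sq_sqrt (by positivity)] at a10
  have : d ^ 2 ≤ tt N ^ 2 := by nlinarith [sq_nonneg (tt N)]
  exact le_of_sq_le_sq this hw.le

lemma radial1 {N : ℕ} (G : Good N) {x : ℂ} (h : 2 * (EN N x * rad N 1 x) < 2) :
    1 < 2 * (EN N x * - rad N (mm N) x) := by
  have hE := EE_ge (N := N) (tt_pos G) (hh N) x
  have hE0 : 0 < EN N x := by linarith
  have hZm := G.norm_Zm
  rw [rad_one_eq] at h
  have h1 : ‖x ^ N‖ ^ 2 < 1.01 := by
    by_contra hcon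
    push Not at hcon
    nlinarith
  have h2 : rad N (mm N) x ≤ -0.6 := by
    rw [rad_eq, div_pow]
    have : ‖x ^ N‖ ^ 2 / ‖mm N ^ N‖ ^ 2 ≤ 0.4 := by
      rw [div_le_iff₀ (by nlinarith)]
      nlinarith
    linarith
  nlinarith

lemma radial2 {N : ℕ} (G : Good N) {x : ℂ} (h : -2 < 2 * (EN N x * rad N (qq N) x)) :
    1 < 2 * (EN N x * rad N (mm N) x) := by
  have hE := EE_ge (N := N) (tt_pos G) (hh N) x
  have hE0 : 0 < EN N x := by linarith
  have hZm := G.norm_Zm
  have hZq := G.norm_Zq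
  have h0 : -0.01 < rad N (qq N) x := by
    by_contra hcon
    push Not at hcon
    nlinarith
  have h1 : 7 ≤ ‖x ^ N‖ ^ 2 := by
    rw [rad_eq, div_pow] at h0
    have h2 : 0.99 < ‖x ^ N‖ ^ 2 / ‖qq N ^ N‖ ^ 2 := by linarith
    rw [lt_div_iff₀ (by nlinarith)] at h2
    nlinarith
  have h2 : 1 ≤ rad N (mm N) x := by
    rw [rad_eq, div_pow]
    have : 2 ≤ ‖x ^ N‖ ^ 2 / ‖mm N ^ N‖ ^ 2 := by
      rw [le_div_iff₀ (by nlinarith)]
      nlinarith
    linarith
  nlinarith

lemma not_VN {N : ℕ} (G : Good N) {x u : ℂ} (hx : x ∉ VN N) (l : ℕ) (h : x = ep N ^ l * u) :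
    u ∉ FD N ∧ u ∉ FU N := by
  constructor
  · intro hu
    apply hx
    rw [h]
    exact VN_rot G l ⟨0, G.N1, by simpa using Or.inl hu⟩
  · intro hu
    apply hx
    rw [h]
    exact VN_rot G l ⟨0, G.N1, by simpa using Or.inr hu⟩

lemma EN_exp {N : ℕ} (G : Good N) {z z' : ℂ} (h : exp z = exp z') :
    EN N (exp (z / N)) = EN N (exp (z' / N)) := by
  simp only [EN, EE, gw, exp_div_pow G, h]

lemma rad_exp {N : ℕ} (G : Good N) {z z' c : ℂ} (h : exp z = exp z') :
    rad N c (exp (z / N)) = rad N c (exp (z' / N)) := by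
  simp only [rad, exp_div_pow G, h]

lemma exp_add_two_pi (z : ℂ) : exp (z + 2 * Real.pi * I) = exp z := by
  rw [Complex.exp_add, Complex.exp_two_pi_mul_I, mul_one]

lemma exp_sub_two_pi (z : ℂ) : exp (z - 2 * Real.pi * I) = exp z := by
  rw [Complex.exp_sub, Complex.exp_two_pi_mul_I, div_one]

/-- the data of a solid point in base coordinates, outside the hinge zones -/
structure SolidPt (N : ℕ) (z : ℂ) : Prop where
  G : Good N
  im1 : -(zm N).im ≤ z.im
  im2 : z.im < 2 * Real.pi - (zm N).im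
  re1 : 0 ≤ z.re
  re2 : z.re ≤ 1.1
  zone : ∀ j, tt N < ‖exp z - hh N j‖
  nD : exp (z / N) ∉ FD N
  nU : exp (z / N) ∉ FU N
  nD' : exp ((z + 2 * Real.pi * I) / N) ∉ FD N
  nU' : exp ((z - 2 * Real.pi * I) / N) ∉ FU N
  r1 : 1 < 2 * (EN N (exp (z / N)) * rad N 1 (exp (z / N)))
  r2 : 1 < 2 * (EN N (exp (z / N)) * - rad N (qq N) (exp (z / N)))

lemma exp_zero_div (N : ℕ) : exp ((0 : ℂ) / N) = 1 := by rw [zero_div, Complex.exp_zero]

lemma exp_two_div (N : ℕ) : exp ((2 * Real.pi * I) / N) = ep N := rfl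

lemma exp_zq' {N : ℕ} (G : Good N) : exp ((zq N - 2 * Real.pi * I) / N) = qq N / ep N := by
  rw [sub_div, Complex.exp_sub, G.exp_zq_div, exp_two_div]

lemma exp_emc {N : ℕ} (G : Good N) :
    exp ((2 * Real.pi * I + starRingEnd ℂ (zm N)) / N) = ep N * starRingEnd ℂ (mm N) := by
  rw [add_div, Complex.exp_add, G.exp_zmc_div, exp_two_div]

lemma abs_le_one_of {t : ℝ} (h1 : 0 ≤ t) (h2 : 2 * t < 2) : |t| ≤ 1 := by
  rw [abs_of_nonneg h1]; linarith

namespace SolidPt

variable {N : ℕ} {z : ℂ} (S : SolidPt N z)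
include S

lemma E100 : 100 ≤ EN N (exp (z / N)) := EE_ge (tt_pos S.G) _ _

lemma E_add : EN N (exp ((z + 2 * Real.pi * I) / N)) = EN N (exp (z / N)) :=
  EN_exp S.G (exp_add_two_pi z)
lemma E_sub : EN N (exp ((z - 2 * Real.pi * I) / N)) = EN N (exp (z / N)) :=
  EN_exp S.G (exp_sub_two_pi z)

/-- membership in the lower face in coordinates -/
lemma mem_FD (h : 1 < 2 * (EN N (exp (z / N)) * - rad N (mm N) (exp (z / N))))
    (h1 : 1.5 ≤ z.im) (h2 : z.im ≤ 4.75) : False := by
  have hpi := Real.pi_gt_d2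
  have hpi2 := Real.pi_lt_d2
  apply S.nD
  refine ⟨S.r1, h, ?_, ?_⟩
  · have := far_spoke S.G (z := z) (c := 0)
      (by rw [sub_zero, abs_of_nonneg S.re1]; linarith [S.re2]) (by rw [sub_zero]; exact h1)
      (by rw [sub_zero]; linarith)
    rwa [exp_zero_div] at this
  · have := far_spoke_neg S.G (z := z) (c := 2 * Real.pi * I)
      (by rw [Complex.sub_re, two_pi_I_im.2, sub_zero, abs_of_nonneg S.re1]; linarith [S.re2])
      (by rw [Complex.sub_im, two_pi_I_im.1]; linarith)
      (by rw [Complex.sub_im, two_pi_I_im.1]; linarith)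
    rwa [exp_two_div] at this

/-- membership of the rotated point -/
lemma mem_FD' (h : 1 < 2 * (EN N (exp (z / N)) * - rad N (mm N) (exp (z / N))))
    (h1 : -4.75 ≤ z.im) (h2 : z.im ≤ -1.5) : False := by
  have hpi := Real.pi_gt_d2
  have hpi2 := Real.pi_lt_d2
  apply S.nD'
  have e1 : (z + 2 * Real.pi * I).im = z.im + 2 * Real.pi := by
    rw [Complex.add_im, two_pi_I_im.1]
  have e2 : (z + 2 * Real.pi * I).re = z.re := by
    rw [Complex.add_re, two_pi_I_im.2, add_zero]
  refine ⟨?_, ?_, ?_, ?_⟩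
  · rw [S.E_add, rad_exp S.G (exp_add_two_pi z)]; exact S.r1
  · rw [S.E_add, rad_exp S.G (exp_add_two_pi z)]; exact h
  · have := far_spoke S.G (z := z + 2 * Real.pi * I) (c := 0)
      (by rw [sub_zero, e2, abs_of_nonneg S.re1]; linarith [S.re2])
      (by rw [sub_zero, e1]; linarith)
      (by rw [sub_zero, e1]; linarith)
    rwa [exp_zero_div] at this
  · have := far_spoke_neg S.G (z := z + 2 * Real.pi * I) (c := 2 * Real.pi * I)
      (by rw [Complex.sub_re, two_pi_I_im.2, sub_zero, e2, abs_of_nonneg S.re1]; linarith [S.re2])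
      (by rw [Complex.sub_im, two_pi_I_im.1, e1]; linarith)
      (by rw [Complex.sub_im, two_pi_I_im.1, e1]; linarith)
    rwa [exp_two_div] at this

lemma mem_FU (h : 1 < 2 * (EN N (exp (z / N)) * rad N (mm N) (exp (z / N))))
    (h1 : -1.6 ≤ z.im) (h2 : z.im ≤ 1.61) : False := by
  have hpi := Real.pi_gt_d2
  have hpi2 := Real.pi_lt_d2
  have hq1 := abs_le.1 S.G.zq_re
  have hq2 := abs_le.1 S.G.zq_im
  have hr1 := S.re1
  have hr2 := S.re2
  apply S.nU
  refine ⟨h, S.r2, ?_, ?_⟩
  · have := far_spoke S.G (z := z) (c := zq N - 2 * Real.pi * I)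
      (by rw [Complex.sub_re, Complex.sub_re, two_pi_I_im.2, abs_le]; constructor <;> linarith)
      (by rw [Complex.sub_im, Complex.sub_im, two_pi_I_im.1]; linarith)
      (by rw [Complex.sub_im, Complex.sub_im, two_pi_I_im.1]; linarith)
    rwa [exp_zq' S.G] at this
  · have := far_spoke_neg S.G (z := z) (c := zq N)
      (by rw [Complex.sub_re, abs_le]; constructor <;> linarith)
      (by rw [Complex.sub_im]; linarith)
      (by rw [Complex.sub_im]; linarith)
    rwa [S.G.exp_zq_div] at this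

lemma mem_FU' (h : 1 < 2 * (EN N (exp (z / N)) * rad N (mm N) (exp (z / N))))
    (h1 : 4.67 ≤ z.im) (h2 : z.im ≤ 4.75) : False := by
  have hpi := Real.pi_gt_d2
  have hpi2 := Real.pi_lt_d2
  have hq1 := abs_le.1 S.G.zq_re
  have hq2 := abs_le.1 S.G.zq_im
  have hr1 := S.re1
  have hr2 := S.re2
  have e1 : (z - 2 * Real.pi * I).im = z.im - 2 * Real.pi := by
    rw [Complex.sub_im, two_pi_I_im.1]
  have e2 : (z - 2 * Real.pi * I).re = z.re := by
    rw [Complex.sub_re, two_pi_I_im.2, sub_zero]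
  apply S.nU'
  refine ⟨?_, ?_, ?_, ?_⟩
  · rw [S.E_sub, rad_exp S.G (exp_sub_two_pi z)]; exact h
  · rw [S.E_sub, rad_exp S.G (exp_sub_two_pi z)]; exact S.r2
  · have := far_spoke S.G (z := z - 2 * Real.pi * I) (c := zq N - 2 * Real.pi * I)
      (by simp only [Complex.sub_re, two_pi_I_im.2]; rw [abs_le]; constructor <;> linarith)
      (by simp only [Complex.sub_im, two_pi_I_im.1]; linarith)
      (by simp only [Complex.sub_im, two_pi_I_im.1]; linarith)
    rwa [exp_zq' S.G] at this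
  · have := far_spoke_neg S.G (z := z - 2 * Real.pi * I) (c := zq N)
      (by rw [Complex.sub_re, e2, abs_le]; constructor <;> linarith)
      (by rw [Complex.sub_im, e1]; linarith)
      (by rw [Complex.sub_im, e1]; linarith)
    rwa [S.G.exp_zq_div] at this

lemma spk_nonneg {c : ℂ} (h1 : 0 ≤ (z - c).im) (h2 : (z - c).im ≤ 10) :
    0 ≤ spk N (exp (c / N)) (exp (z / N)) := by
  rw [spk_formula]
  have hN := S.G.Nr
  have a := Nsin_ge S.G h1 h2
  have e : (N : ℝ) * (Real.exp ((z - c).re / N) * Real.sin ((z - c).im / N))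
    = Real.exp ((z - c).re / N) * (N * Real.sin ((z - c).im / N)) := by ring
  rw [e]
  apply mul_nonneg (Real.exp_pos _).le
  linarith

lemma spk_nonpos {c : ℂ} (h1 : 0 ≤ (c - z).im) (h2 : (c - z).im ≤ 10) :
    spk N (exp (c / N)) (exp (z / N)) ≤ 0 := by
  rw [spk_formula]
  have hN := S.G.Nr
  have a := Nsin_ge S.G h1 h2
  have e : (N : ℝ) * (Real.exp ((z - c).re / N) * Real.sin ((z - c).im / N))
    = - (Real.exp ((z - c).re / N) * (N * Real.sin ((c - z).im / N))) := by
    have : (z - c).im = -(c - z).im := by simp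
    rw [this, neg_div, Real.sin_neg]; ring
  rw [e]
  have : 0 ≤ Real.exp ((z - c).re / N) * (N * Real.sin ((c - z).im / N)) := by
    apply mul_nonneg (Real.exp_pos _).le
    linarith
  linarith

lemma E0 : 0 < EN N (exp (z / N)) := by linarith [S.E100]

lemma rad_mc (x : ℂ) : rad N (starRingEnd ℂ (mm N)) x = rad N (mm N) x := by
  rw [rad, rad, S.G.norm_Zmc]

lemma rad_emc (x : ℂ) : rad N (ep N * starRingEnd ℂ (mm N)) x = rad N (mm N) x := by
  rw [rad, rad, mul_pow, ep_pow S.G.N1, one_mul, S.G.norm_Zmc]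

lemma angle_small {c : ℂ} (h1 : |(z - c).re| ≤ 1.5) (h2 : |(z - c).im| ≤ 5)
    (h3 : |EN N (exp (z / N)) * spk N (exp (c / N)) (exp (z / N))| ≤ 1) :
    |(z - c).im| ≤ 0.017 := by
  refine (small_angle S.G h1 h2 h3).trans ?_
  rw [div_le_iff₀ S.E0]
  linarith [S.E100]

/-- trichotomy at a belt hinge -/
lemma belt {c : ℂ} {j : Fin 4} (hc : exp c = hh N j) (h1 : |(z - c).re| ≤ 1.5)
    (h2 : |(z - c).im| ≤ 5)
    (h3 : |EN N (exp (z / N)) * spk N (exp (c / N)) (exp (z / N))| ≤ 1)
    (hr : rad N (exp (c / N)) (exp (z / N)) = rad N (mm N) (exp (z / N)))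
    (hD : 1 < 2 * (EN N (exp (z / N)) * - rad N (mm N) (exp (z / N))) → False)
    (hU : 1 < 2 * (EN N (exp (z / N)) * rad N (mm N) (exp (z / N))) → False) : False := by
  by_cases h4 : |EN N (exp (z / N)) * rad N (exp (c / N)) (exp (z / N))| ≤ 1
  · have := near_zone S.G hc h1 h2 h3 h4
    linarith [S.zone j]
  · push Not at h4
    rw [hr] at h4
    rcases lt_abs.1 h4 with h | h
    · exact hU (by linarith)
    · exact hD (by linarith)

lemma flat_a (h : 2 * (EN N (exp (z / N)) * rad N 1 (exp (z / N))) < 2) : False := by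
  have hpi := Real.pi_gt_d2
  have hpi2 := Real.pi_lt_d2
  have hm2 := abs_le.1 S.G.zm_im
  have hr1 := S.re1
  have hr2 := S.re2
  have him1 := S.im1
  have him2 := S.im2
  have hrm := radial1 S.G h
  by_cases hT : 1.5 ≤ z.im
  · exact S.mem_FD hrm hT (by linarith)
  push Not at hT
  have hR := S.r1
  have hrad : |EN N (exp (z / N)) * rad N (exp ((0 : ℂ) / N)) (exp (z / N))| ≤ 1 := by
    rw [exp_zero_div]
    exact abs_le_one_of (by linarith) h
  have hz0 : |(z - 0).re| ≤ 1.5 := by rw [sub_zero, abs_of_nonneg hr1]; linarith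
  have hz1 : |(z - 0).im| ≤ 5 := by rw [sub_zero, abs_le]; constructor <;> linarith
  suffices hs : |EN N (exp (z / N)) * spk N (exp ((0 : ℂ) / N)) (exp (z / N))| ≤ 1 by
    have := near_zone S.G (z := z) (c := 0) (j := 0) (by rw [Complex.exp_zero]; rfl) hz0 hz1 hs hrad
    linarith [S.zone 0]
  rcases le_total 0 z.im with h0 | h0
  · have hnn := S.spk_nonneg (c := 0) (by rw [sub_zero]; exact h0) (by rw [sub_zero]; linarith)
    rw [abs_of_nonneg (mul_nonneg S.E0.le hnn)]
    by_contra hcon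
    push Not at hcon
    apply S.nD
    refine ⟨S.r1, hrm, ?_, ?_⟩
    · rw [exp_zero_div] at hcon; linarith
    · have := far_spoke_neg S.G (z := z) (c := 2 * Real.pi * I)
        (by simp only [Complex.sub_re, two_pi_I_im.2]; rw [abs_le]; constructor <;> linarith)
        (by simp only [Complex.sub_im, two_pi_I_im.1]; linarith)
        (by simp only [Complex.sub_im, two_pi_I_im.1]; linarith)
      rwa [exp_two_div] at this
  · have hnp := S.spk_nonpos (c := 0) (by rw [zero_sub, Complex.neg_im]; linarith)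
      (by rw [zero_sub, Complex.neg_im]; linarith)
    rw [abs_of_nonpos (mul_nonpos_of_nonneg_of_nonpos S.E0.le hnp)]
    by_contra hcon
    push Not at hcon
    apply S.nD'
    refine ⟨?_, ?_, ?_, ?_⟩
    · rw [S.E_add, rad_exp S.G (exp_add_two_pi z)]; exact S.r1
    · rw [S.E_add, rad_exp S.G (exp_add_two_pi z)]; exact hrm
    · have := far_spoke S.G (z := z + 2 * Real.pi * I) (c := 0)
        (by simp only [sub_zero, Complex.add_re, two_pi_I_im.2]; rw [abs_le]; constructor <;> linarith)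
        (by simp only [sub_zero, Complex.add_im, two_pi_I_im.1]; linarith)
        (by simp only [sub_zero, Complex.add_im, two_pi_I_im.1]; linarith)
      rwa [exp_zero_div] at this
    · have e : spk N (ep N) (exp ((z + 2 * Real.pi * I) / N))
          = spk N (exp ((0 : ℂ) / N)) (exp (z / N)) := by
        rw [← exp_two_div, spk_formula, spk_formula]
        congr 3 <;> simp
      rw [S.E_add, e]
      linarith

lemma flat_b (h : -2 < 2 * (EN N (exp (z / N)) * rad N (qq N) (exp (z / N)))) : False := by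
  have hpi := Real.pi_gt_d2
  have hpi2 := Real.pi_lt_d2
  have hm2 := abs_le.1 S.G.zm_im
  have hq1 := abs_le.1 S.G.zq_re
  have hq2 := abs_le.1 S.G.zq_im
  have hr1 := S.re1
  have hr2 := S.re2
  have him1 := S.im1
  have him2 := S.im2
  have hrm := radial2 S.G h
  by_cases hT : z.im ≤ 1.6
  · exact S.mem_FU hrm (by linarith) (by linarith)
  push Not at hT
  have hR := S.r2
  have hrad : |EN N (exp (z / N)) * rad N (exp (zq N / N)) (exp (z / N))| ≤ 1 := by
    rw [S.G.exp_zq_div, abs_le]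
    constructor <;> linarith
  have hz0 : |(z - zq N).re| ≤ 1.5 := by rw [Complex.sub_re, abs_le]; constructor <;> linarith
  have hz1 : |(z - zq N).im| ≤ 5 := by rw [Complex.sub_im, abs_le]; constructor <;> linarith
  suffices hs : |EN N (exp (z / N)) * spk N (exp (zq N / N)) (exp (z / N))| ≤ 1 by
    have := near_zone S.G (z := z) (c := zq N) (j := 3) (by rw [S.G.exp_zq]; rfl) hz0 hz1 hs hrad
    linarith [S.zone 3]
  rcases le_total z.im (zq N).im with h0 | h0
  · have hnp := S.spk_nonpos (c := zq N) (by rw [Complex.sub_im]; linarith)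
      (by rw [Complex.sub_im]; linarith)
    rw [abs_of_nonpos (mul_nonpos_of_nonneg_of_nonpos S.E0.le hnp)]
    by_contra hcon
    push Not at hcon
    apply S.nU
    refine ⟨hrm, S.r2, ?_, ?_⟩
    · have := far_spoke S.G (z := z) (c := zq N - 2 * Real.pi * I)
        (by simp only [Complex.sub_re, two_pi_I_im.2]; rw [abs_le]; constructor <;> linarith)
        (by simp only [Complex.sub_im, two_pi_I_im.1]; linarith)
        (by simp only [Complex.sub_im, two_pi_I_im.1]; linarith)
      rwa [exp_zq' S.G] at this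
    · rw [S.G.exp_zq_div] at hcon
      linarith
  · have hnn := S.spk_nonneg (c := zq N) (by rw [Complex.sub_im]; linarith)
      (by rw [Complex.sub_im]; linarith)
    rw [abs_of_nonneg (mul_nonneg S.E0.le hnn)]
    by_contra hcon
    push Not at hcon
    apply S.nU'
    refine ⟨?_, ?_, ?_, ?_⟩
    · rw [S.E_sub, rad_exp S.G (exp_sub_two_pi z)]; exact hrm
    · rw [S.E_sub, rad_exp S.G (exp_sub_two_pi z)]; exact S.r2
    · have e : spk N (qq N / ep N) (exp ((z - 2 * Real.pi * I) / N))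
          = spk N (exp (zq N / N)) (exp (z / N)) := by
        rw [← exp_zq' S.G, spk_formula, spk_formula]
        congr 3 <;> simp
      rw [S.E_sub, e]
      linarith
    · have := far_spoke_neg S.G (z := z - 2 * Real.pi * I) (c := zq N)
        (by simp only [Complex.sub_re, two_pi_I_im.2]; rw [abs_le]; constructor <;> linarith)
        (by simp only [Complex.sub_im, two_pi_I_im.1]; linarith)
        (by simp only [Complex.sub_im, two_pi_I_im.1]; linarith)
      rwa [S.G.exp_zq_div] at this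

lemma flat_T1 (hT : z.im ≤ (zm N).im)
    (h : 2 * (EN N (exp (z / N)) * - spk N (mm N) (exp (z / N))) < 1) : False := by
  have hpi := Real.pi_gt_d2
  have hpi2 := Real.pi_lt_d2
  have hm1 := abs_le.1 S.G.zm_re
  have hm2 := abs_le.1 S.G.zm_im
  have hr1 := S.re1
  have hr2 := S.re2
  have him1 := S.im1
  have him2 := S.im2
  have hnp := S.spk_nonpos (c := zm N) (by rw [Complex.sub_im]; linarith)
    (by rw [Complex.sub_im]; linarith)
  have hz0 : |(z - zm N).re| ≤ 1.5 := by rw [Complex.sub_re, abs_le]; constructor <;> linarith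
  have hz1 : |(z - zm N).im| ≤ 5 := by rw [Complex.sub_im, abs_le]; constructor <;> linarith
  have hs : |EN N (exp (z / N)) * spk N (exp (zm N / N)) (exp (z / N))| ≤ 1 := by
    rw [abs_of_nonpos (mul_nonpos_of_nonneg_of_nonpos S.E0.le hnp), S.G.exp_zm_div]
    linarith
  have hsm := abs_le.1 (S.angle_small hz0 hz1 hs)
  rw [Complex.sub_im] at hsm
  exact S.belt (c := zm N) (j := 1) (by rw [S.G.exp_zm]; rfl) hz0 hz1 hs
    (by rw [S.G.exp_zm_div]) (fun hD => S.mem_FD hD (by linarith) (by linarith))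
    (fun hU => S.mem_FU hU (by linarith) (by linarith))

lemma flat_T2 (hT : z.im ≤ (zm N).im)
    (h : 2 * (EN N (exp (z / N)) * spk N (starRingEnd ℂ (mm N)) (exp (z / N))) < 1) : False := by
  have hpi := Real.pi_gt_d2
  have hpi2 := Real.pi_lt_d2
  have hm1 := abs_le.1 S.G.zm_re
  have hm2 := abs_le.1 S.G.zm_im
  have hr1 := S.re1
  have hr2 := S.re2
  have him1 := S.im1
  have him2 := S.im2
  have hnn := S.spk_nonneg (c := starRingEnd ℂ (zm N))
    (by rw [Complex.sub_im, Complex.conj_im]; linarith)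
    (by rw [Complex.sub_im, Complex.conj_im]; linarith)
  have hz0 : |(z - starRingEnd ℂ (zm N)).re| ≤ 1.5 := by
    rw [Complex.sub_re, Complex.conj_re, abs_le]; constructor <;> linarith
  have hz1 : |(z - starRingEnd ℂ (zm N)).im| ≤ 5 := by
    rw [Complex.sub_im, Complex.conj_im, abs_le]; constructor <;> linarith
  have hs : |EN N (exp (z / N)) * spk N (exp (starRingEnd ℂ (zm N) / N)) (exp (z / N))| ≤ 1 := by
    rw [abs_of_nonneg (mul_nonneg S.E0.le hnn), S.G.exp_zmc_div]
    linarith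
  have hsm := abs_le.1 (S.angle_small hz0 hz1 hs)
  rw [Complex.sub_im, Complex.conj_im] at hsm
  exact S.belt (c := starRingEnd ℂ (zm N)) (j := 2) (by rw [S.G.exp_zmc]; rfl) hz0 hz1 hs
    (by rw [S.G.exp_zmc_div, S.rad_mc]) (fun hD => S.mem_FD' hD (by linarith) (by linarith))
    (fun hU => S.mem_FU hU (by linarith) (by linarith))

lemma flat_T'1 (hT : (zm N).im < z.im)
    (h : 2 * (EN N (exp (z / N)) * spk N (mm N) (exp (z / N))) < 1) : False := by
  have hpi := Real.pi_gt_d2
  have hpi2 := Real.pi_lt_d2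
  have hm1 := abs_le.1 S.G.zm_re
  have hm2 := abs_le.1 S.G.zm_im
  have hr1 := S.re1
  have hr2 := S.re2
  have him1 := S.im1
  have him2 := S.im2
  have hnn := S.spk_nonneg (c := zm N) (by rw [Complex.sub_im]; linarith)
    (by rw [Complex.sub_im]; linarith)
  have hz0 : |(z - zm N).re| ≤ 1.5 := by rw [Complex.sub_re, abs_le]; constructor <;> linarith
  have hz1 : |(z - zm N).im| ≤ 5 := by rw [Complex.sub_im, abs_le]; constructor <;> linarith
  have hs : |EN N (exp (z / N)) * spk N (exp (zm N / N)) (exp (z / N))| ≤ 1 := by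
    rw [abs_of_nonneg (mul_nonneg S.E0.le hnn), S.G.exp_zm_div]
    linarith
  have hsm := abs_le.1 (S.angle_small hz0 hz1 hs)
  rw [Complex.sub_im] at hsm
  exact S.belt (c := zm N) (j := 1) (by rw [S.G.exp_zm]; rfl) hz0 hz1 hs
    (by rw [S.G.exp_zm_div]) (fun hD => S.mem_FD hD (by linarith) (by linarith))
    (fun hU => S.mem_FU hU (by linarith) (by linarith))

lemma flat_T'2 (hT : (zm N).im < z.im)
    (h : 2 * (EN N (exp (z / N)) * - spk N (ep N * starRingEnd ℂ (mm N)) (exp (z / N))) < 1) :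
    False := by
  have hpi := Real.pi_gt_d2
  have hpi2 := Real.pi_lt_d2
  have hm1 := abs_le.1 S.G.zm_re
  have hm2 := abs_le.1 S.G.zm_im
  have hr1 := S.re1
  have hr2 := S.re2
  have him1 := S.im1
  have him2 := S.im2
  set c : ℂ := 2 * Real.pi * I + starRingEnd ℂ (zm N) with hc
  have hcim : c.im = 2 * Real.pi - (zm N).im := by
    rw [hc, Complex.add_im, two_pi_I_im.1, Complex.conj_im]; ring
  have hcre : c.re = (zm N).re := by
    rw [hc, Complex.add_re, two_pi_I_im.2, Complex.conj_re]; ring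
  have hce : exp (c / N) = ep N * starRingEnd ℂ (mm N) := exp_emc S.G
  have hnp := S.spk_nonpos (c := c) (by rw [Complex.sub_im, hcim]; linarith)
    (by rw [Complex.sub_im, hcim]; linarith)
  have hz0 : |(z - c).re| ≤ 1.5 := by rw [Complex.sub_re, hcre, abs_le]; constructor <;> linarith
  have hz1 : |(z - c).im| ≤ 5 := by rw [Complex.sub_im, hcim, abs_le]; constructor <;> linarith
  have hs : |EN N (exp (z / N)) * spk N (exp (c / N)) (exp (z / N))| ≤ 1 := by
    rw [abs_of_nonpos (mul_nonpos_of_nonneg_of_nonpos S.E0.le hnp), hce]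
    linarith
  have hsm := abs_le.1 (S.angle_small hz0 hz1 hs)
  rw [Complex.sub_im, hcim] at hsm
  exact S.belt (c := c) (j := 2) (by
      rw [hc, Complex.exp_add, Complex.exp_two_pi_mul_I, one_mul, S.G.exp_zmc]; rfl) hz0 hz1 hs
    (by rw [hce, S.rad_emc]) (fun hD => S.mem_FD hD (by linarith) (by linarith))
    (fun hU => S.mem_FU' hU (by linarith) (by linarith))

end SolidPt

end Pool.Agent.H24
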