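import Pool.Agent.H24.Face

/-! The two face functions: supports and pointwise estimates. -/

open Complex Filter Topology
open scoped ContDiff

namespace Pool.Agent.H24

/-- product of four walls -/
noncomputable def chi4 (N : ℕ) (n1 n2 n3 n4 : ℂ → ℝ) (x : ℂ) : ℝ :=
  wall N (tt N) (hh N) n1 0 x * wall N (tt N) (hh N) n2 0 x *
    (wall N (tt N) (hh N) n3 0 x * wall N (tt N) (hh N) n4 0 x)

noncomputable def faceFn (N : ℕ) (n1 n2 n3 n4 : ℂ → ℝ) (f : ℂ → ℂ) (x : ℂ) : ℂ :=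
  chi4 N n1 n2 n3 n4 x • f x

lemma contDiff_chi4 {N : ℕ} (G : Good N) {n1 n2 n3 n4 : ℂ → ℝ} {m : ℕ∞}
    (h1 : ContDiff ℝ m n1) (h2 : ContDiff ℝ m n2) (h3 : ContDiff ℝ m n3) (h4 : ContDiff ℝ m n4) :
    ContDiff ℝ m (chi4 N n1 n2 n3 n4) :=
  ((contDiff_wall (tt_pos G) h1).mul (contDiff_wall (tt_pos G) h2)).mul
    ((contDiff_wall (tt_pos G) h3).mul (contDiff_wall (tt_pos G) h4))

lemma contDiff_faceFn {N : ℕ} (G : Good N) {n1 n2 n3 n4 : ℂ → ℝ} {f : ℂ → ℂ} {m : ℕ∞}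
    (h1 : ContDiff ℝ m n1) (h2 : ContDiff ℝ m n2) (h3 : ContDiff ℝ m n3) (h4 : ContDiff ℝ m n4)
    (hf : ContDiff ℝ m f) : ContDiff ℝ m (faceFn N n1 n2 n3 n4 f) :=
  (contDiff_chi4 G h1 h2 h3 h4).smul hf

lemma face_zero {N : ℕ} (G : Good N) {n1 n2 n3 n4 : ℂ → ℝ} {f : ℂ → ℂ}
    (h1 : ContDiff ℝ 2 n1) (h2 : ContDiff ℝ 2 n2) (h3 : ContDiff ℝ 2 n3) (h4 : ContDiff ℝ 2 n4)
    (hf : ContDiff ℝ 2 f) {x : ℂ} (hx : ¬ (0 < n1 x ∧ 0 < n2 x ∧ 0 < n3 x ∧ 0 < n4 x))
    {L : ℝ} (hL : 0 < L) : Bd (faceFn N n1 n2 n3 n4 f) x 0 L := by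
  have hw := tt_pos G
  have hE := EE_ge (N := N) hw (hh N) x
  have key : ∀ n : ℂ → ℝ, ContDiff ℝ 2 n → n x ≤ 0 → Bd (wall N (tt N) (hh N) n 0) x 0 L := by
    intro n hn hnx
    refine wall_low hw hn ?_ hL
    rw [add_zero]
    have : EE N (tt N) (hh N) x * n x ≤ 0 := mul_nonpos_of_nonneg_of_nonpos (by linarith) hnx
    linarith
  have ex : ∀ n : ℂ → ℝ, ContDiff ℝ 2 n → ∃ A, Bd (wall N (tt N) (hh N) n 0) x A L :=
    fun n hn => Bd.exists (contDiff_wall (m := 2) hw hn) x hL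
  obtain ⟨A1, a1⟩ := ex n1 h1
  obtain ⟨A2, a2⟩ := ex n2 h2
  obtain ⟨A3, a3⟩ := ex n3 h3
  obtain ⟨A4, a4⟩ := ex n4 h4
  obtain ⟨Af, af⟩ := Bd.exists hf x hL
  have fin : ∀ A, A = 0 → Bd (faceFn N n1 n2 n3 n4 f) x A L → Bd (faceFn N n1 n2 n3 n4 f) x 0 L := by
    intro A hA h; rwa [hA] at h
  by_cases c1 : n1 x ≤ 0
  · exact fin _ (by ring) ((((key n1 h1 c1).mul a2 hL.le).mul (a3.mul a4 hL.le) hL.le).smul af hL.le)
  by_cases c2 : n2 x ≤ 0
  · exact fin _ (by ring) (((a1.mul (key n2 h2 c2) hL.le).mul (a3.mul a4 hL.le) hL.le).smul af hL.le)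
  by_cases c3 : n3 x ≤ 0
  · exact fin _ (by ring) (((a1.mul a2 hL.le).mul ((key n3 h3 c3).mul a4 hL.le) hL.le).smul af hL.le)
  by_cases c4 : n4 x ≤ 0
  · exact fin _ (by ring) (((a1.mul a2 hL.le).mul (a3.mul (key n4 h4 c4) hL.le) hL.le).smul af hL.le)
  push Not at c1 c2 c3 c4
  exact absurd ⟨c1, c2, c3, c4⟩ hx

lemma face_bd : ∃ K : ℝ, 1 ≤ K ∧ ∀ (N : ℕ) (n1 n2 n3 n4 : ℂ → ℝ) (f : ℂ → ℂ) (x : ℂ) (B : ℝ),
    Good N → ‖x‖ ≤ 1 + 2 / N → Slow n1 x N 300 → Slow n2 x N 300 → Slow n3 x N 300 →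
    Slow n4 x N 300 → Bd f x B (N * EN N x) →
    Bd (faceFn N n1 n2 n3 n4 f) x (K * B) (N * EN N x) := by
  obtain ⟨K, hK1, hK⟩ := bd_wall (C := 300) (by norm_num)
  refine ⟨4 * (4 * ((4 * (K * K)) * (4 * (K * K)))), by nlinarith [mul_nonneg (sub_nonneg.2 hK1) (sub_nonneg.2 hK1), pow_le_pow_left₀ zero_le_one hK1 4, sq_nonneg (K^2 - 1)], ?_⟩
  intro N n1 n2 n3 n4 f x B G hx s1 s2 s3 s4 hf
  have hw := tt_pos G
  have hE := EE_ge (N := N) hw (hh N) x
  have hL : 0 ≤ (N : ℝ) * EN N x := by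
    have : (0 : ℝ) ≤ N := by positivity
    exact mul_nonneg this (by linarith)
  have key : ∀ n : ℂ → ℝ, Slow n x N 300 → Bd (wall N (tt N) (hh N) n 0) x K (N * EN N x) :=
    fun n hn => hK N (tt N) (hh N) x n 0 G.N1 hw (tt_le G) G.hh_le hx hn (by norm_num)
  have := (((key n1 s1).mul (key n2 s2) hL).mul ((key n3 s3).mul (key n4 s4) hL) hL).smul hf hL
  exact this.mono hL (by linarith) le_rfl

/-- lower faces -/
noncomputable def psiD (N : ℕ) : ℂ → ℂ :=
  faceFn N (rad N 1) (fun x => - rad N (mm N) x) (spk N 1) (fun x => - spk N (ep N) x)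
    (fun x => lD N x - Qh N x)

/-- upper faces -/
noncomputable def psiU (N : ℕ) : ℂ → ℂ :=
  faceFn N (rad N (mm N)) (fun x => - rad N (qq N) x) (spk N (qq N / ep N))
    (fun x => - spk N (qq N) x) (fun x => lU N x - Qh N x)

def SD (N : ℕ) : Set ℂ := {x | 0 < rad N 1 x ∧ 0 < - rad N (mm N) x ∧ 0 < spk N 1 x ∧
  0 < - spk N (ep N) x}

def SU (N : ℕ) : Set ℂ := {x | 0 < rad N (mm N) x ∧ 0 < - rad N (qq N) x ∧
  0 < spk N (qq N / ep N) x ∧ 0 < - spk N (qq N) x}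

lemma lD_eq (N : ℕ) : (fun x => lD N x - Qh N x) = ff N (ea N ^ 2 * ((rho N) ^ 2 / 2 - rho N * BD N))
    (ea N * (BD N + cs N) / 2) (ea N ^ 3 * (BD N - cs N) / 2) := rfl

lemma lU_eq (N : ℕ) : (fun x => lU N x - Qh N x) = ff N (GU N * c2 N + cU N * rho N * cs N)
    (GU N * cs N * kap N / rho N - cU N * kap N / 2)
    (-(GU N * cs N * kapc N / rho N) - cU N * kapc N / 2) := rfl

lemma contDiff_lD (N : ℕ) {m : ℕ∞} : ContDiff ℝ m (fun x => lD N x - Qh N x) := contDiff_ff N _ _ _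
lemma contDiff_lU (N : ℕ) {m : ℕ∞} : ContDiff ℝ m (fun x => lU N x - Qh N x) := contDiff_ff N _ _ _

lemma contDiff_psiD {N : ℕ} (G : Good N) {m : ℕ∞} : ContDiff ℝ m (psiD N) :=
  contDiff_faceFn G (contDiff_rad N 1) (contDiff_rad N _).neg (contDiff_spk N _)
    (contDiff_spk N _).neg (contDiff_lD N)

lemma contDiff_psiU {N : ℕ} (G : Good N) {m : ℕ∞} : ContDiff ℝ m (psiU N) :=
  contDiff_faceFn G (contDiff_rad N _) (contDiff_rad N _).neg (contDiff_spk N _)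
    (contDiff_spk N _).neg (contDiff_lU N)

lemma psiD_zero {N : ℕ} (G : Good N) {x : ℂ} (hx : x ∉ SD N) {L : ℝ} (hL : 0 < L) :
    Bd (psiD N) x 0 L :=
  face_zero G (contDiff_rad N 1) (contDiff_rad N _).neg (contDiff_spk N _)
    (contDiff_spk N _).neg (contDiff_lD N) hx hL

lemma psiU_zero {N : ℕ} (G : Good N) {x : ℂ} (hx : x ∉ SU N) {L : ℝ} (hL : 0 < L) :
    Bd (psiU N) x 0 L :=
  face_zero G (contDiff_rad N _) (contDiff_rad N _).neg (contDiff_spk N _)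
    (contDiff_spk N _).neg (contDiff_lU N) hx hL

lemma norm_lt_of_rad_neg {N : ℕ} {c x : ℂ} (hc : c ^ N ≠ 0) (h : 0 < - rad N c x) :
    ‖x ^ N‖ < ‖c ^ N‖ := by
  rw [rad_eq] at h
  have h1 : 0 < ‖c ^ N‖ := norm_pos_iff.2 hc
  have h2 : (‖x ^ N‖ / ‖c ^ N‖) ^ 2 < 1 ^ 2 := by linarith
  have h3 := lt_of_pow_lt_pow_left₀ 2 (by norm_num) h2
  rwa [div_lt_one h1] at h3

lemma norm_gt_of_rad_pos {N : ℕ} {c x : ℂ} (hc : c ^ N ≠ 0) (h : 0 < rad N c x) :
    ‖c ^ N‖ < ‖x ^ N‖ := by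
  rw [rad_eq] at h
  have h1 : 0 < ‖c ^ N‖ := norm_pos_iff.2 hc
  have h2 : 1 ^ 2 < (‖x ^ N‖ / ‖c ^ N‖) ^ 2 := by linarith
  have h3 := lt_of_pow_lt_pow_left₀ 2 (by positivity) h2
  rwa [one_lt_div h1] at h3

lemma ep_inv (N : ℕ) : (ep N)⁻¹ = exp (-((2 * Real.pi / N : ℝ) * I)) := by
  rw [ep, ← Complex.exp_neg]
  congr 1
  push_cast
  ring

lemma theta_lt {N : ℕ} (G : Good N) : 0 < 2 * Real.pi / N ∧ 2 * Real.pi / N < Real.pi := by
  have hN := G.Nr
  have hpi := Real.pi_pos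
  refine ⟨by positivity, ?_⟩
  rw [div_lt_iff₀ (by linarith)]
  nlinarith

/-- sector description of the spokes conditions -/
lemma sector_arg {N : ℕ} (G : Good N) {c x : ℂ} (h1 : 0 < spk N c x)
    (h2 : 0 < - spk N (ep N * c) x) : 0 < arg (x / c) ∧ arg (x / c) < 2 * Real.pi / N := by
  have hN := G.Nr
  have hN0 : (0 : ℝ) < N := by linarith
  have h3 : 0 < (x / c).im := by
    rw [spk] at h1
    exact (mul_pos_iff_of_pos_left hN0).1 h1
  have h4 : (exp (-((2 * Real.pi / N : ℝ) * I)) * (x / c)).im < 0 := by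
    rw [spk, ← mul_neg] at h2
    have h5 := (mul_pos_iff_of_pos_left hN0).1 h2
    have h6 : x / (ep N * c) = exp (-((2 * Real.pi / N : ℝ) * I)) * (x / c) := by
      rw [← ep_inv]
      field_simp
    rw [h6] at h5
    linarith
  exact arg_sector_strict (theta_lt G).1 (theta_lt G).2 h3 h4

lemma log_coord {N : ℕ} (G : Good N) {y : ℂ} (hy : y ≠ 0) :
    exp (N * log y / N) = y ∧ ((N : ℂ) * log y).im = N * arg y := by
  constructor
  · rw [mul_div_cancel_left₀ _ G.N0, Complex.exp_log hy]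
  · have : (N : ℂ) * log y = ((N : ℝ) : ℂ) * log y := by push_cast; rfl
    rw [this, Complex.im_ofReal_mul, Complex.log_im]

lemma re_bounds {t : ℝ} (h1 : 1 ≤ Real.exp t) (h2 : Real.exp t ≤ 2.75) : 0 ≤ t ∧ t ≤ 1.1 := by
  constructor
  · by_contra h
    push Not at h
    have := Real.exp_lt_one_iff.2 h
    linarith
  · by_contra h
    push Not at h
    have h3 := Real.exp_lt_exp.2 h
    have h4 : Real.exp 1.1 = Real.exp 1 * Real.exp 0.1 := by rw [← Real.exp_add]; norm_num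
    have h5 := Real.exp_one_gt_d9
    have h6 := Real.add_one_le_exp (0.1 : ℝ)
    nlinarith

/-- in the lower face -/
lemma SD_coord {N : ℕ} (G : Good N) {x : ℂ} (hx : x ∈ SD N) : ∃ z : ℂ, exp (z / N) = x ∧
    0 ≤ z.re ∧ z.re ≤ 1.1 ∧ 0 < z.im ∧ z.im < 2 * Real.pi ∧ 1 < ‖exp z‖ ∧ ‖exp z‖ < 1.67 := by
  obtain ⟨h1, h2, h3, h4⟩ := hx
  have h2' := norm_lt_of_rad_neg (pow_ne_zero _ G.mm_ne) h2
  have h1' := norm_gt_of_rad_pos (by simp) h1
  rw [one_pow, norm_one] at h1'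
  have h4' : 0 < - spk N (ep N * 1) x := by rwa [mul_one]
  obtain ⟨h5, h6⟩ := sector_arg G h3 h4'
  rw [div_one] at h5 h6
  have hN := G.Nr
  have hx0 : x ≠ 0 := by
    rintro rfl; rw [Complex.arg_zero] at h5; exact lt_irrefl _ h5
  obtain ⟨e1, e2⟩ := log_coord G hx0
  refine ⟨N * log x, e1, ?_⟩
  have e3 : exp (N * log x) = x ^ N := by rw [Complex.exp_nat_mul, Complex.exp_log hx0]
  have e4 : Real.exp ((N : ℂ) * log x).re = ‖x ^ N‖ := by rw [← e3, Complex.norm_exp]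
  have hZ := G.norm_Zm.2
  obtain ⟨a, b⟩ := re_bounds (t := ((N : ℂ) * log x).re) (by rw [e4]; linarith)
    (by rw [e4]; linarith)
  refine ⟨a, b, ?_, ?_, ?_, ?_⟩
  · rw [e2]; positivity
  · rw [e2]
    rw [lt_div_iff₀ (by linarith)] at h6
    linarith
  · rw [e3]; exact h1'
  · rw [e3]; linarith

/-- in the upper face -/
lemma SU_coord {N : ℕ} (G : Good N) {x : ℂ} (hx : x ∈ SU N) : ∃ z : ℂ, exp (z / N) = x ∧
    0 ≤ z.re ∧ z.re ≤ 1.1 ∧ (zq N).im - 2 * Real.pi < z.im ∧ z.im < (zq N).im ∧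
    1.63 < ‖exp z‖ ∧ ‖exp z‖ < 2.75 := by
  obtain ⟨h1, h2, h3, h4⟩ := hx
  have h2' := norm_lt_of_rad_neg (pow_ne_zero _ G.qq_ne) h2
  have h1' := norm_gt_of_rad_pos (pow_ne_zero _ G.mm_ne) h1
  have hep := ep_ne_zero N
  have hc : qq N / ep N ≠ 0 := div_ne_zero G.qq_ne hep
  have h4' : 0 < - spk N (ep N * (qq N / ep N)) x := by
    rwa [mul_div_cancel₀ _ hep]
  obtain ⟨h5, h6⟩ := sector_arg G h3 h4'
  have hN := G.Nr
  set y := x / (qq N / ep N) with hy
  have hy0 : y ≠ 0 := by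
    intro h; rw [h, Complex.arg_zero] at h5; exact lt_irrefl _ h5
  obtain ⟨e1, e2⟩ := log_coord G hy0
  have hxy : x = y * (qq N / ep N) := by rw [hy, div_mul_cancel₀ _ hc]
  have hep' : exp (-(2 * Real.pi * I) / N) = (ep N)⁻¹ := by
    rw [ep, ← Complex.exp_neg]; congr 1; ring
  have e3 : exp ((N * log y + (zq N - 2 * Real.pi * I)) / N) = x := by
    have : (N * log y + (zq N - 2 * Real.pi * I)) / N
      = N * log y / N + (zq N / N + -(2 * Real.pi * I) / N) := by ring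
    rw [this, Complex.exp_add, Complex.exp_add, e1, G.exp_zq_div, hep', hxy]
    rfl
  refine ⟨N * log y + (zq N - 2 * Real.pi * I), e3, ?_⟩
  have e5 : exp (N * log y + (zq N - 2 * Real.pi * I)) = x ^ N := by
    rw [← e3, exp_div_pow G]
  have e4 : Real.exp (N * log y + (zq N - 2 * Real.pi * I)).re = ‖x ^ N‖ := by
    rw [← e5, Complex.norm_exp]
  have hZ := G.norm_Zm
  have hQ := G.norm_Zq
  obtain ⟨a, b⟩ := re_bounds (t := (N * log y + (zq N - 2 * Real.pi * I)).re)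
    (by rw [e4]; linarith) (by rw [e4]; linarith)
  have him : (N * log y + (zq N - 2 * Real.pi * I)).im = N * arg y + ((zq N).im - 2 * Real.pi) := by
    rw [Complex.add_im, e2, Complex.sub_im]
    congr 2
    have : (2 * Real.pi * I : ℂ) = ((2 * Real.pi : ℝ) : ℂ) * I := by push_cast; ring
    rw [this, Complex.im_ofReal_mul, Complex.I_im, mul_one]
  refine ⟨a, b, ?_, ?_, ?_, ?_⟩
  · rw [him]
    have : 0 < (N : ℝ) * arg y := by positivity
    linarith
  · rw [him]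
    rw [lt_div_iff₀ (by linarith)] at h6
    linarith
  · rw [e5]; linarith
  · rw [e5]; linarith

lemma two_pi_I_im : (2 * Real.pi * I : ℂ).im = 2 * Real.pi ∧ (2 * Real.pi * I : ℂ).re = 0 := by
  have : (2 * Real.pi * I : ℂ) = ((2 * Real.pi : ℝ) : ℂ) * I := by push_cast; ring
  constructor
  · rw [this, Complex.im_ofReal_mul, Complex.I_im, mul_one]
  · rw [this, Complex.re_ofReal_mul, Complex.I_re, mul_zero]

lemma bd_of_face {N : ℕ} (G : Good N) {f : ℂ → ℂ} {x : ℂ} {K : ℝ} (hK : 0 ≤ K)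
    (hs : ContDiff ℝ 2 f) (h0 : ‖f x‖ ≤ K * (1 / N) ^ 2 / EN N x)
    (h1 : ‖fderiv ℝ f x‖ ≤ K * (1 / N)) (h2 : ‖iteratedFDeriv ℝ 2 f x‖ ≤ K) :
    Bd f x (K * (1 / N) ^ 2 / EN N x) (N * EN N x) := by
  have hN := G.Nr
  have hE := EE_ge (N := N) (tt_pos G) (hh N) x
  have hE0 : 0 < EN N x := by linarith
  refine ⟨hs, h0, h1.trans (le_of_eq ?_), h2.trans ?_⟩
  · field_simp
  · have : K * (1 / N) ^ 2 / EN N x * (N * EN N x) ^ 2 = K * EN N x := by field_simp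
    rw [this]
    exact le_mul_of_one_le_right hK (by linarith)

lemma slow_spk' {N : ℕ} (G : Good N) {c x : ℂ} (hc : 1 / 2 ≤ ‖c‖) : Slow (spk N c) x N 300 := by
  have h := slow_spk (N := N) (x := x) hc
  have hN : (0 : ℝ) ≤ N := by positivity
  exact ⟨h.smooth, h.b1.trans (by nlinarith), h.b2.trans (by nlinarith [sq_nonneg (N : ℝ)])⟩

lemma norm_qq_ge {N : ℕ} (G : Good N) : 1 ≤ ‖qq N‖ := by
  rw [← G.exp_zq_div, Complex.norm_exp, Complex.div_natCast_re]
  apply Real.one_le_exp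
  have := (abs_le.1 G.zq_re).1
  have hN := G.Nr
  apply div_nonneg <;> linarith

lemma norm_mm_ge {N : ℕ} (G : Good N) : 1 ≤ ‖mm N‖ := by
  rw [← G.exp_zm_div, Complex.norm_exp, Complex.div_natCast_re]
  apply Real.one_le_exp
  have := (abs_le.1 G.zm_re).1
  have hN := G.Nr
  apply div_nonneg <;> linarith

lemma psiD_bd : ∃ K : ℝ, 1 ≤ K ∧ ∀ (N : ℕ) (x : ℂ), Good N → x ∈ SD N → ‖x‖ ≤ 1 + 2 / N ∧
    Bd (psiD N) x (K * ((1 / N) ^ 2 / EN N x)) (N * EN N x) := by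
  obtain ⟨K1, hK1, hK⟩ := ff_bounds
  obtain ⟨K2, hK2, hS⟩ := face_small
  obtain ⟨K3, hK3, hF⟩ := face_bd
  refine ⟨K3 * (K1 + K2), by nlinarith, ?_⟩
  intro N x G hx
  obtain ⟨z, hz, a1, a2, a3, a4, a5, a6⟩ := SD_coord G hx
  have hN := G.Nr
  have hpi := Real.pi_lt_d2
  have hpi' := Real.pi_gt_d2
  have hz1 : |z.re| ≤ 1.1 := by rw [abs_of_nonneg a1]; exact a2
  have hz2 : |z.im| ≤ 7 := by rw [abs_of_pos a3]; linarith
  have hxR : x ∈ Reg N := by rw [← hz]; exact mem_Reg G hz1 hz2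
  refine ⟨hxR.2, ?_⟩
  have hb := norm_bD G
  have hc := norm_cD G
  have hne := rho_cs_ne G
  have e1 := lD_eq N
  have hzm1 := abs_le.1 G.zm_re
  have hzm2 := abs_le.1 G.zm_im
  have v1 : ff N (ea N ^ 2 * ((rho N) ^ 2 / 2 - rho N * BD N))
    (ea N * (BD N + cs N) / 2) (ea N ^ 3 * (BD N - cs N) / 2) 1 = 0 := by
    rw [← e1]
    show lD N 1 - Qh N 1 = 0
    rw [lD_one hne, Qh_p G (by simp)]; ring
  have v2 : ff N (ea N ^ 2 * ((rho N) ^ 2 / 2 - rho N * BD N))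
    (ea N * (BD N + cs N) / 2) (ea N ^ 3 * (BD N - cs N) / 2) (ep N) = 0 := by
    rw [← e1]
    show lD N (ep N) - Qh N (ep N) = 0
    rw [lD_ep hne, Qh_p G (ep_pow G.N1)]; ring
  have v3 : ff N (ea N ^ 2 * ((rho N) ^ 2 / 2 - rho N * BD N))
    (ea N * (BD N + cs N) / 2) (ea N ^ 3 * (BD N - cs N) / 2) (mm N) = 0 := by
    rw [← e1]
    show lD N (mm N) - Qh N (mm N) = 0
    rw [lD_mm hne, Qh_mm G]; ring
  have v4 : ff N (ea N ^ 2 * ((rho N) ^ 2 / 2 - rho N * BD N))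
    (ea N * (BD N + cs N) / 2) (ea N ^ 3 * (BD N - cs N) / 2)
    (ep N * starRingEnd ℂ (mm N)) = 0 := by
    rw [← e1]
    show lD N _ - Qh N _ = 0
    rw [lD_mc hne, Qh_ep_mc G]; ring
  have hsm := hS N _ _ _ z G hb hc hz1 hz2 ⟨0, by norm_num, by norm_num, by
    rw [zero_div, Complex.exp_zero]; exact v1⟩ (by
    intro j
    fin_cases j
    · right
      rcases le_total z.im Real.pi with h | h
      · refine ⟨0, by simp [hh], by simp, by norm_num, by norm_num, ?_, ?_⟩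
        · rw [sub_zero, abs_of_pos a3]; linarith
        · rw [zero_div, Complex.exp_zero]; exact v1
      · refine ⟨2 * Real.pi * I, by simp [hh], by rw [two_pi_I_im.2], ?_, ?_, ?_, ?_⟩
        · rw [two_pi_I_im.2]; norm_num
        · rw [two_pi_I_im.1, abs_of_pos (by positivity)]; linarith
        · rw [Complex.sub_im, two_pi_I_im.1, abs_le]; constructor <;> linarith
        · exact v2
    · right
      refine ⟨zm N, by rw [G.exp_zm]; rfl, by linarith, by linarith, ?_, ?_, ?_⟩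
      · rw [abs_le]; constructor <;> linarith
      · rw [Complex.sub_im, abs_le]; constructor <;> linarith
      · rw [G.exp_zm_div]; exact v3
    · right
      refine ⟨2 * Real.pi * I + starRingEnd ℂ (zm N), ?_, ?_, ?_, ?_, ?_, ?_⟩
      · rw [Complex.exp_add, Complex.exp_two_pi_mul_I, one_mul, G.exp_zmc]; rfl
      · rw [Complex.add_re, two_pi_I_im.2, Complex.conj_re]; linarith
      · rw [Complex.add_re, two_pi_I_im.2, Complex.conj_re]; linarith
      · rw [Complex.add_im, two_pi_I_im.1, Complex.conj_im, abs_le]; constructor <;> linarith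
      · rw [Complex.sub_im, Complex.add_im, two_pi_I_im.1, Complex.conj_im, abs_le]
        constructor <;> linarith
      · rw [add_div, Complex.exp_add, G.exp_zmc_div]; exact v4
    · left
      have h1 := G.norm_Zq.1
      have h2 := norm_sub_norm_le (qq N ^ N) (exp z)
      rw [norm_sub_rev]
      change 1 / 2 ≤ ‖qq N ^ N - exp z‖
      linarith)
  rw [hz] at hsm
  obtain ⟨d1, d2⟩ := hK N (ea N ^ 2 * ((rho N) ^ 2 / 2 - rho N * BD N)) _ _ x G hb hc hxR
  have hE := EE_ge (N := N) (tt_pos G) (hh N) x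
  have hbd := bd_of_face G (K := K1 + K2) (f := fun x => lD N x - Qh N x) (x := x) (by linarith)
    (contDiff_lD N) ?_ ?_ ?_
  · have := hF N (rad N 1) (fun x => - rad N (mm N) x) (spk N 1) (fun x => - spk N (ep N) x)
      (fun x => lD N x - Qh N x) x _ G hxR.2
      (bd_rad G.N1 hxR.2 (by simp)).toSlow
      (bd_rad G.N1 hxR.2 (by linarith [G.norm_Zm.1])).toSlow.neg
      (slow_spk' G (by norm_num)) (slow_spk' G (by rw [norm_ep]; norm_num)).neg hbd
    have e : K3 * (K1 + K2) * ((1 / N) ^ 2 / EN N x) = K3 * ((K1 + K2) * (1 / N) ^ 2 / EN N x) := by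
      ring
    rw [e]
    exact this
  · refine hsm.trans ?_
    apply div_le_div_of_nonneg_right _ (by linarith)
    nlinarith [sq_nonneg (1 / N : ℝ)]
  · refine d1.trans ?_
    have : (0 : ℝ) ≤ 1 / N := by positivity
    nlinarith
  · exact d2.trans (by linarith)

lemma psiU_bd : ∃ K : ℝ, 1 ≤ K ∧ ∀ (N : ℕ) (x : ℂ), Good N → x ∈ SU N → ‖x‖ ≤ 1 + 2 / N ∧
    Bd (psiU N) x (K * ((1 / N) ^ 2 / EN N x)) (N * EN N x) := by
  obtain ⟨K1, hK1, hK⟩ := ff_bounds
  obtain ⟨K2, hK2, hS⟩ := face_small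
  obtain ⟨K3, hK3, hF⟩ := face_bd
  refine ⟨K3 * (K1 + K2), by nlinarith, ?_⟩
  intro N x G hx
  obtain ⟨z, hz, a1, a2, a3, a4, a5, a6⟩ := SU_coord G hx
  have hN := G.Nr
  have hpi := Real.pi_lt_d2
  have hpi' := Real.pi_gt_d2
  have hzm1 := abs_le.1 G.zm_re
  have hzm2 := abs_le.1 G.zm_im
  have hzq1 := abs_le.1 G.zq_re
  have hzq2 := abs_le.1 G.zq_im
  have hz1 : |z.re| ≤ 1.1 := by rw [abs_of_nonneg a1]; exact a2
  have hz2 : |z.im| ≤ 7 := by rw [abs_le]; constructor <;> linarith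
  have hxR : x ∈ Reg N := by rw [← hz]; exact mem_Reg G hz1 hz2
  refine ⟨hxR.2, ?_⟩
  have hb := norm_bU G
  have hc := norm_cU' G
  have hcs := cs_ne G
  have hde := den_ne G
  have e1 := lU_eq N
  have v1 : ff N (GU N * c2 N + cU N * rho N * cs N)
    (GU N * cs N * kap N / rho N - cU N * kap N / 2)
    (-(GU N * cs N * kapc N / rho N) - cU N * kapc N / 2) (mm N) = 0 := by
    rw [← e1]
    show lU N _ - Qh N _ = 0
    rw [lU_mm hcs hde, Qh_mm G]; ring
  have v2 : ff N (GU N * c2 N + cU N * rho N * cs N)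
    (GU N * cs N * kap N / rho N - cU N * kap N / 2)
    (-(GU N * cs N * kapc N / rho N) - cU N * kapc N / 2) (starRingEnd ℂ (mm N)) = 0 := by
    rw [← e1]
    show lU N _ - Qh N _ = 0
    rw [lU_mc hcs hde, Qh_mc G]; ring
  have v3 : ff N (GU N * c2 N + cU N * rho N * cs N)
    (GU N * cs N * kap N / rho N - cU N * kap N / 2)
    (-(GU N * cs N * kapc N / rho N) - cU N * kapc N / 2) (qq N) = 0 := by
    rw [← e1]
    show lU N _ - Qh N _ = 0
    rw [lU_qq, Qh_qq G]; ring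
  have v4 : ff N (GU N * c2 N + cU N * rho N * cs N)
    (GU N * cs N * kap N / rho N - cU N * kap N / 2)
    (-(GU N * cs N * kapc N / rho N) - cU N * kapc N / 2) (qq N / ep N) = 0 := by
    rw [← e1]
    show lU N _ - Qh N _ = 0
    rw [lU_qq', Qh_qq' G]; ring
  have hsm := hS N _ _ _ z G hb hc hz1 hz2 ⟨zm N, by rw [abs_le]; constructor <;> linarith,
    by rw [abs_le]; constructor <;> linarith, by rw [G.exp_zm_div]; exact v1⟩ (by
    intro j
    fin_cases j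
    · left
      have h2 := norm_sub_norm_le (exp z) 1
      rw [norm_one] at h2
      change 1 / 2 ≤ ‖exp z - 1‖
      linarith
    · right
      refine ⟨zm N, by rw [G.exp_zm]; rfl, by linarith, by linarith, ?_, ?_, ?_⟩
      · rw [abs_le]; constructor <;> linarith
      · rw [Complex.sub_im, abs_le]; constructor <;> linarith
      · rw [G.exp_zm_div]; exact v1
    · right
      refine ⟨starRingEnd ℂ (zm N), ?_, ?_, ?_, ?_, ?_, ?_⟩
      · rw [G.exp_zmc]; rfl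
      · rw [Complex.conj_re]; linarith
      · rw [Complex.conj_re]; linarith
      · rw [Complex.conj_im, abs_le]; constructor <;> linarith
      · rw [Complex.sub_im, Complex.conj_im, abs_le]
        constructor <;> linarith
      · rw [G.exp_zmc_div]; exact v2
    · right
      rcases le_total 0 z.im with h | h
      · refine ⟨zq N, by rw [G.exp_zq]; rfl, by linarith, by linarith, ?_, ?_, ?_⟩
        · rw [abs_le]; constructor <;> linarith
        · rw [Complex.sub_im, abs_le]; constructor <;> linarith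
        · rw [G.exp_zq_div]; exact v3
      · refine ⟨zq N - 2 * Real.pi * I, ?_, ?_, ?_, ?_, ?_, ?_⟩
        · rw [Complex.exp_sub, Complex.exp_two_pi_mul_I, div_one, G.exp_zq]; rfl
        · rw [Complex.sub_re, two_pi_I_im.2]; linarith
        · rw [Complex.sub_re, two_pi_I_im.2]; linarith
        · rw [Complex.sub_im, two_pi_I_im.1, abs_le]; constructor <;> linarith
        · rw [Complex.sub_im, Complex.sub_im, two_pi_I_im.1, abs_le]
          constructor <;> linarith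
        · rw [sub_div, Complex.exp_sub, G.exp_zq_div]; exact v4)
  rw [hz] at hsm
  obtain ⟨d1, d2⟩ := hK N (GU N * c2 N + cU N * rho N * cs N) _ _ x G hb hc hxR
  have hE := EE_ge (N := N) (tt_pos G) (hh N) x
  have hbd := bd_of_face G (K := K1 + K2) (f := fun x => lU N x - Qh N x) (x := x) (by linarith)
    (contDiff_lU N) ?_ ?_ ?_
  · have := hF N (rad N (mm N)) (fun x => - rad N (qq N) x) (spk N (qq N / ep N))
      (fun x => - spk N (qq N) x)
      (fun x => lU N x - Qh N x) x _ G hxR.2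
      (bd_rad G.N1 hxR.2 (by linarith [G.norm_Zm.1])).toSlow
      (bd_rad G.N1 hxR.2 (by linarith [G.norm_Zq.1])).toSlow.neg
      (slow_spk' G (by rw [norm_div, norm_ep, div_one]; linarith [norm_qq_ge G]))
      (slow_spk' G (by linarith [norm_qq_ge G])).neg hbd
    have e : K3 * (K1 + K2) * ((1 / N) ^ 2 / EN N x) = K3 * ((K1 + K2) * (1 / N) ^ 2 / EN N x) := by
      ring
    rw [e]
    exact this
  · refine hsm.trans ?_
    apply div_le_div_of_nonneg_right _ (by linarith)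
    nlinarith [sq_nonneg (1 / N : ℝ)]
  · refine d1.trans ?_
    have : (0 : ℝ) ≤ 1 / N := by positivity
    nlinarith
  · exact d2.trans (by linarith)

end Pool.Agent.H24
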