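import Pool.Agent.H24.Hinge

/-! Bound for the gradient of the kinematic field in the hinge zones. -/

open Complex Filter Topology
open scoped ContDiff

namespace Pool.Agent.H24

def SS (N : ℕ) : Set ℂ := {y | 0 < arg (y / starRingEnd ℂ (mm N)) ∧
  arg (y / starRingEnd ℂ (mm N)) < 2 * Real.pi / N}

lemma arg_of_exp {w : ℂ} (h1 : -Real.pi < w.im) (h2 : w.im ≤ Real.pi) : arg (exp w) = w.im := by
  have := Complex.log_exp h1 h2
  have h3 := congrArg Complex.im this
  rwa [Complex.log_im] at h3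

lemma arg_coord {N : ℕ} (G : Good N) {z c : ℂ} (h1 : 0 ≤ (z - c).im)
    (h2 : (z - c).im ≤ 2 * Real.pi) :
    arg (exp (z / N) / exp (c / N)) = (z - c).im / N := by
  have hN := G.Nr
  have hpi := Real.pi_pos
  rw [← Complex.exp_sub, ← sub_div, arg_of_exp]
  · rw [Complex.div_natCast_im]
  · rw [Complex.div_natCast_im]
    have : 0 ≤ (z - c).im / N := by positivity
    linarith
  · rw [Complex.div_natCast_im, div_le_iff₀ (by linarith)]
    nlinarith

lemma ST_sub {N : ℕ} (G : Good N) {y : ℂ} (hy : y ∈ ST N) : y ∈ SS N := by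
  obtain ⟨h1, h2⟩ := ST_arg G hy
  have hN := G.Nr
  have h := abs_le.1 G.zm_im
  have hpi := Real.pi_gt_three
  refine ⟨h1, h2.trans ?_⟩
  apply div_lt_div_of_pos_right _ (by linarith)
  linarith

lemma ST'_sub {N : ℕ} (G : Good N) {y : ℂ} (hy : y ∈ ST' N) : y ∈ SS N := by
  obtain ⟨z, hz, h1, h2⟩ := ST'_coord G hy
  have hN := G.Nr
  have h := abs_le.1 G.zm_im
  have hpi := Real.pi_gt_three
  have e : (z - starRingEnd ℂ (zm N)).im = z.im + (zm N).im := by
    rw [Complex.sub_im, Complex.conj_im]; ring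
  have := arg_coord G (z := z) (c := starRingEnd ℂ (zm N)) (by rw [e]; linarith)
    (by rw [e]; linarith)
  rw [G.exp_zmc_div, hz, e] at this
  constructor
  · rw [this]; apply div_pos <;> linarith
  · rw [this]
    apply div_lt_div_of_pos_right _ (by linarith)
    linarith

lemma SS_unique {N : ℕ} (G : Good N) {x : ℂ} (k l : ℕ) (hk : k < N) (hl : l < N)
    (h1 : x / ep N ^ k ∈ SS N) (h2 : x / ep N ^ l ∈ SS N) : k = l :=
  sector_unique G.N1 hk hl h1.1 h1.2 h2.1 h2.2

lemma KT_out {N : ℕ} (G : Good N) {y : ℂ} (hy : y ∉ ST N) {L : ℝ} (hL : 0 < L) :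
    Bd (KT N) y 0 L :=
  chi2_zero G (f := fun y => vT N y - Vh N y)
    (contDiff_spk N (starRingEnd ℂ (mm N))) (contDiff_spk N (mm N)).neg
    ((contDiff_vT N).sub (contDiff_Vh N)) (x := y) hy hL

lemma KT'_out {N : ℕ} (G : Good N) {y : ℂ} (hy : y ∉ ST' N) {L : ℝ} (hL : 0 < L) :
    Bd (KT' N) y 0 L :=
  chi2_zero G (f := fun y => vT' N y - Vh N y)
    (contDiff_spk N (mm N)) (contDiff_spk N (ep N * starRingEnd ℂ (mm N))).neg
    ((contDiff_vT' N).sub (contDiff_Vh N)) (x := y) hy hL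

lemma KK_out {N : ℕ} (G : Good N) {y : ℂ} (hy : y ∉ SS N) {L : ℝ} (hL : 0 < L) :
    Bd (fun y => KT N y + KT' N y) y 0 L := by
  have h1 := KT_out G (fun h => hy (ST_sub G h)) hL
  have h2 := KT'_out G (fun h => hy (ST'_sub G h)) hL
  exact (h1.add h2).mono hL.le (by simp) le_rfl

noncomputable def RR (N : ℕ) : ℂ → ℂ := rotSum N 1 (fun y => KT N y + KT' N y)

lemma RR_zone : ∃ K : ℝ, 1 ≤ K ∧ ∀ (N : ℕ) (x : ℂ) (j : Fin 4), Good N → ‖x‖ ≤ 1 + 2 / N →
    ‖x ^ N - hh N j‖ ≤ tt N → Bd (RR N) x (K / N) (N * EN N x) := by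
  obtain ⟨K1, hK1, h1⟩ := KT_zone
  obtain ⟨K2, hK2, h2⟩ := KT'_zone
  refine ⟨K1 + K2, by linarith, ?_⟩
  intro N x j G hx hj
  have hN := G.Nr
  have hL : 0 < (N : ℝ) * EN N x := by have := EN_pos G x; positivity
  refine Bd.rotSum (S := SS N) hL.le (by positivity) (fun k l hk hl a b => SS_unique G k l hk hl a b)
    (fun k hk => KK_out G hk hL) (fun k _ => ?_)
  have hn : ‖x / ep N ^ k‖ ≤ 1 + 2 / N := by rw [norm_div, norm_ep_pow, div_one]; exact hx
  have hj' : ‖(x / ep N ^ k) ^ N - hh N j‖ ≤ tt N := by rw [pow_ep_mul G.N1]; exact hj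
  have a1 := h1 N _ j G hn hj'
  have a2 := h2 N _ j G hn hj'
  rw [EN_rot G.N1] at a1 a2
  rw [add_div]
  exact a1.add a2

lemma Bd.fderiv_le {f : ℂ → ℂ} {N : ℕ} (G : Good N) {x : ℂ} {C : ℝ} (hC : 0 ≤ C)
    (h : Bd f x (C / N) (N * EN N x)) : ‖fderiv ℝ f x‖ ≤ 500 * C * (N : ℝ) ^ 2 := by
  have hN := G.Nr
  refine h.b1.trans ?_
  have e : C / N * (N * EN N x) = C * EN N x := by field_simp
  rw [e]
  have := EN_le G x
  nlinarith

lemma rad_one_eq (N : ℕ) (x : ℂ) : rad N 1 x = ‖x ^ N‖ ^ 2 - 1 := by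
  rw [rad_eq]; simp

/-- `wa` is flat far outside -/
lemma wa_one {N : ℕ} (G : Good N) {x : ℂ} (h : 1.01 ≤ ‖x ^ N‖) :
    wa N x = 1 ∧ HasFDerivAt (wa N) (0 : ℂ →L[ℝ] ℝ) x := by
  refine wall_flat1 (tt_pos G) (contDiff_rad N 1) ?_
  rw [rad_one_eq]
  have hE := EE_ge (N := N) (tt_pos G) (hh N) x
  have h1 : 0.02 ≤ ‖x ^ N‖ ^ 2 - 1 := by nlinarith
  have h2 := mul_le_mul hE h1 (by norm_num) (by linarith)
  linarith

lemma wb_zero {N : ℕ} (G : Good N) {x : ℂ} (h : ‖x ^ N‖ ≤ 2.6) :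
    2 * (EE N (tt N) (hh N) x * rad N (qq N) x) + 2 ≤ 0 := by
  have hE := EE_ge (N := N) (tt_pos G) (hh N) x
  have hq := G.norm_Zq
  have h1 : rad N (qq N) x ≤ -0.01 := by
    rw [rad_eq]
    have h2 : ‖x ^ N‖ / ‖qq N ^ N‖ ≤ 0.99 := by
      rw [div_le_iff₀ (by linarith)]
      nlinarith
    have h3 : 0 ≤ ‖x ^ N‖ / ‖qq N ^ N‖ := by positivity
    nlinarith
  nlinarith

/-- every point can be rotated into the base sector -/
lemma sector_exists {N : ℕ} (hN : 2 ≤ N) {c x : ℂ} (hc : c ≠ 0) (hx : x ≠ 0) :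
    ∃ k < N, 0 ≤ arg (x / ep N ^ k / c) ∧ arg (x / ep N ^ k / c) < 2 * Real.pi / N := by
  have hN' : (2 : ℝ) ≤ N := by exact_mod_cast hN
  have hN0 : (N : ℂ) ≠ 0 := by
    have : N ≠ 0 := by omega
    exact_mod_cast this
  have hpi := Real.pi_pos
  set θ := arg (x / c) with hθ
  set m : ℤ := ⌊θ * N / (2 * Real.pi)⌋ with hm
  have hNz : (0 : ℤ) < N := by exact_mod_cast (by omega : 0 < N)
  set k : ℕ := (m % N).toNat with hk
  have hk0 : 0 ≤ m % (N : ℤ) := Int.emod_nonneg _ hNz.ne'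
  have hk1 : m % (N : ℤ) < N := Int.emod_lt_of_pos _ hNz
  have hkz : (k : ℤ) = m % N := Int.toNat_of_nonneg hk0
  have hkN : k < N := by omega
  refine ⟨k, hkN, ?_⟩
  have hxc : x / c ≠ 0 := div_ne_zero hx hc
  have hq : m = k + N * (m / N) := by
    rw [hkz]; exact (Int.emod_add_mul_ediv m N).symm
  have he : exp (-(m * (2 * Real.pi * I / N))) = (ep N ^ k)⁻¹ := by
    rw [ep, ← Complex.exp_nat_mul, ← Complex.exp_neg]
    rw [Complex.exp_eq_exp_iff_exists_int]
    refine ⟨-(m / N), ?_⟩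
    have : (m : ℂ) = (k : ℂ) + N * ((m / N : ℤ) : ℂ) := by
      have := congrArg (fun t : ℤ => (t : ℂ)) hq
      push_cast at this
      exact this
    rw [this]
    push_cast
    field_simp
    ring
  have e1 : x / ep N ^ k / c = exp (log (x / c) + -(m * (2 * Real.pi * I / N))) := by
    rw [Complex.exp_add, Complex.exp_log hxc, he]
    field_simp
  have e2 : (log (x / c) + -(m * (2 * Real.pi * I / N))).im = θ - m * (2 * Real.pi / N) := by
    rw [Complex.add_im, Complex.log_im]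
    have : -((m : ℂ) * (2 * Real.pi * I / N)) = ((-(m * (2 * Real.pi / N)) : ℝ) : ℂ) * I := by
      push_cast; ring
    rw [this, Complex.im_ofReal_mul, Complex.I_im]
    ring
  have h1 : (m : ℝ) ≤ θ * N / (2 * Real.pi) := Int.floor_le _
  have h2 : θ * N / (2 * Real.pi) < m + 1 := Int.lt_floor_add_one _
  have e3 : θ = (θ * N / (2 * Real.pi)) * (2 * Real.pi / N) := by field_simp
  have hp : 0 < 2 * Real.pi / N := by positivity
  have h3 : 0 ≤ θ - m * (2 * Real.pi / N) := by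
    have := mul_le_mul_of_nonneg_right h1 hp.le
    rw [← e3] at this
    linarith
  have h4 : θ - m * (2 * Real.pi / N) < 2 * Real.pi / N := by
    have := mul_lt_mul_of_pos_right h2 hp
    rw [← e3] at this
    linarith
  have h5 : 2 * Real.pi / N ≤ Real.pi := by
    rw [div_le_iff₀ (by linarith)]; nlinarith
  rw [e1, arg_of_exp (by rw [e2]; linarith) (by rw [e2]; linarith), e2]
  exact ⟨h3, h4⟩

/-- base coordinates: `x = ep^k * exp (z/N)` with `im z` in a period -/
lemma base_coord {N : ℕ} (G : Good N) {x : ℂ} (hx : x ≠ 0) : ∃ k < N, ∃ z : ℂ,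
    exp (z / N) = x / ep N ^ k ∧ -(zm N).im ≤ z.im ∧ z.im < 2 * Real.pi - (zm N).im := by
  obtain ⟨k, hk, h1, h2⟩ := sector_exists (N := N) (le_trans (by norm_num) G.hN) (mc_ne G) hx
  have hN := G.Nr
  have hne : x / ep N ^ k / starRingEnd ℂ (mm N) ≠ 0 :=
    div_ne_zero (div_ne_zero hx (pow_ne_zero _ (ep_ne_zero N))) (mc_ne G)
  obtain ⟨z, e1, e2⟩ := coord_of_arg G G.exp_zmc_div hne
  refine ⟨k, hk, z, e1, ?_, ?_⟩
  · rw [e2, Complex.conj_im]
    have : 0 ≤ (N : ℝ) * arg (x / ep N ^ k / starRingEnd ℂ (mm N)) := by positivity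
    linarith
  · rw [e2, Complex.conj_im]
    rw [lt_div_iff₀ (by linarith)] at h2
    linarith

lemma zone_bound : ∃ K : ℝ, 1 ≤ K ∧ ∀ (N : ℕ) (x : ℂ) (j : Fin 4), Good N → ‖x‖ ≤ 1 + 2 / N →
    ‖x ^ N - hh N j‖ ≤ tt N → ‖fderiv ℝ (vv N) x‖ ≤ K * (N : ℝ) ^ 2 := by
  obtain ⟨K1, hK1, h1⟩ := RR_zone
  obtain ⟨K2, hK2, h2⟩ := bd_wall (C := 300) (by norm_num)
  obtain ⟨K3, hK3, h3⟩ := vT_bounds
  refine ⟨K3 + 500 * (4 * (K2 * (600 * K3))) + 500 * (4 * (4 * (K2 * (1 + K2)) * K1)),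
    by nlinarith [mul_pos (by linarith : 0 < K2) (by linarith : 0 < K3), mul_pos (mul_pos (by linarith : 0 < K2) (by linarith : 0 < 1 + K2)) (by linarith : 0 < K1)], ?_⟩
  intro N x j G hx hj
  have hN := G.Nr
  have hw := tt_pos G
  have hws := tt_small G
  have hL : 0 < (N : ℝ) * EN N x := by have := EN_pos G x; positivity
  have hZm := G.norm_Zm
  have hZq := G.norm_Zq
  have hZc := G.norm_Zmc
  obtain ⟨_, _, hV1, hV2⟩ := h3 N x G hx
  have hwa : Bd (wa N) x K2 (N * EN N x) :=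
    h2 N (tt N) (hh N) x (rad N 1) (-1) G.N1 hw (tt_le G) G.hh_le hx
      (bd_rad G.N1 hx (by simp)).toSlow (by norm_num)
  have hwb : Bd (wb N) x K2 (N * EN N x) :=
    h2 N (tt N) (hh N) x (rad N (qq N)) 2 G.N1 hw (tt_le G) G.hh_le hx
      (bd_rad G.N1 hx (by linarith)).toSlow (by norm_num)
  have hR := h1 N x j G hx hj
  -- piece 2
  have P2 : ‖fderiv ℝ (fun y => (1 - wa N y) • (-y - Vh N y)) x‖ = 0 := by
    by_cases hj0 : j = 0
    · subst hj0
      have hx1 : ‖x ^ N - 1‖ ≤ tt N := hj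
      have far : ∀ h : ℂ, 1.02 ≤ ‖(1 : ℂ) - h‖ → 1 ≤ ‖x ^ N - h‖ := by
        intro h hh1
        have e : (1 : ℂ) - h = (x ^ N - h) - (x ^ N - 1) := by ring
        have := norm_sub_le (x ^ N - h) (x ^ N - 1)
        rw [← e] at this
        linarith
      have hb := bg_bd_zero (N := N) (a := em N) (b := ec N) (c := 1) (x := x)
        (far _ G.sep_1m) (far _ G.sep_1mc) (far _ G.sep_1q) hL
      have hbi := (bd_id G hx).mono (by linarith) le_rfl
        (le_mul_of_one_le_right (by linarith) (by have := EE_ge (N := N) hw (hh N) x; linarith) :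
          (N : ℝ) ≤ N * EN N x)
      have hprod := (hbi.cmul hb hL.le).neg
      have hfun : (fun y => -(y * bg N (em N) (ec N) 1 y)) = fun y => -y - Vh N y := by
        funext y; rw [Vh]; ring
      rw [hfun] at hprod
      have hb3 := ((Bd.const (x := x) (A := 1) (1 : ℝ) hL.le (by norm_num)).sub hwa).smul hprod hL.le
      have := hb3.b1
      simp only [mul_zero, zero_mul] at this
      exact le_antisymm this (norm_nonneg _)
    · have hbig : 1.01 ≤ ‖x ^ N‖ := by
        have h4 := norm_sub_norm_le (hh N j) (x ^ N)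
        rw [norm_sub_rev] at h4
        have h5 : 1.63 ≤ ‖hh N j‖ := by
          fin_cases j
          · exact absurd rfl hj0
          · exact hZm.1
          · change 1.63 ≤ ‖starRingEnd ℂ (mm N) ^ N‖
            rw [hZc]; exact hZm.1
          · change 1.63 ≤ ‖qq N ^ N‖
            linarith
        linarith
      obtain ⟨w1, w2⟩ := wa_one G hbig
      have hd : DifferentiableAt ℝ (fun y => -y - Vh N y) x :=
        (ContDiff.one_lt_two' (contDiff_id.neg.sub (contDiff_Vh N)) x)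
      have h8 : fderiv ℝ (fun y => (1 - wa N y) • (-y - Vh N y)) x = _ :=
        ((w2.const_sub 1).smul hd.hasFDerivAt).fderiv
      rw [h8, w1]
      simp
  -- piece 3
  have P3 : ‖fderiv ℝ (fun y => wb N y • Vh N y) x‖ ≤ 500 * (4 * (K2 * (600 * K3))) * (N : ℝ) ^ 2 := by
    by_cases hj3 : j = 3
    · subst hj3
      have hjq : ‖x ^ N - qq N ^ N‖ ≤ tt N := hj
      have hx0 : x ≠ 0 := by
        rintro rfl
        rw [zero_pow (by have := G.hN; omega), zero_sub, norm_neg] at hjq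
        linarith
      obtain ⟨k, hk, z, hz, hz1, hz2⟩ := base_coord G hx0
      have hzN : exp z = x ^ N := by rw [← exp_div_pow G z, hz, pow_ep_mul G.N1]
      rw [← hzN] at hj
      obtain ⟨r1, r2⟩ := zone_re G hj
      have hpi := Real.pi_gt_d2
      have hpi2 := Real.pi_lt_d2
      have hm2 := abs_le.1 G.zm_im
      have hq1 := abs_le.1 G.zq_re
      have hq2 := abs_le.1 G.zq_im
      have hcl := close_of_pow G (z := z) (c := zq N) (j := 3) (by rw [G.exp_zq]; rfl)
        (by rw [Complex.sub_re, abs_le]; constructor <;> linarith)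
        (by rw [Complex.sub_im, abs_le]; constructor <;> linarith) (by linarith) (by linarith) hj
      rw [G.exp_zq_div, hz] at hcl
      have hne : ep N ^ k ≠ 0 := pow_ne_zero _ (ep_ne_zero N)
      have hcl2 : N * ‖x - ep N ^ k * qq N‖ ≤ 600 * tt N := by
        have e : x - ep N ^ k * qq N = ep N ^ k * (x / ep N ^ k - qq N) := by field_simp
        rw [e, norm_mul, norm_ep_pow, one_mul]
        exact hcl
      have hb := near_hinge G (by linarith : 0 ≤ K3) (f := Vh N) (contDiff_Vh N)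
        (fun u hu => (h3 N u G hu).2.2.1) hV2 hx (c := ep N ^ k * qq N)
        (by show ‖ep N ^ k * qq N‖ ≤ _
            rw [norm_mul, norm_ep_pow, one_mul]; exact qq_mem_BN G)
        (Vh_q G (by rw [mul_pow, ← pow_mul, mul_comm k N, pow_mul, ep_pow G.N1, one_pow, one_mul]))
        hcl2 (j := 3) (by rw [← hzN]; exact hj)
      have h6 := hwb.smul hb hL.le
      have e : 4 * (K2 * (600 * K3 / N)) = (4 * (K2 * (600 * K3))) / N := by ring
      rw [e] at h6
      exact Bd.fderiv_le G (by positivity) h6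
    · have hsm : ‖x ^ N‖ ≤ 2.6 := by
        have h5 : ‖hh N j‖ ≤ 1.67 := by
          fin_cases j
          · change ‖(1 : ℂ)‖ ≤ 1.67
            rw [norm_one]; norm_num
          · exact hZm.2
          · change ‖starRingEnd ℂ (mm N) ^ N‖ ≤ 1.67
            rw [hZc]; exact hZm.2
          · exact absurd rfl hj3
        have : x ^ N = (x ^ N - hh N j) + hh N j := by ring
        rw [this]
        refine (norm_add_le _ _).trans ?_
        linarith
      have h6 := wall_low hw (contDiff_rad N (qq N)) (wb_zero G hsm) hL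
      obtain ⟨A, hA⟩ := Bd.exists (contDiff_Vh N (m := 2)) x hL
      have h7 := (h6.smul hA hL.le).b1
      simp only [zero_mul, mul_zero] at h7
      refine h7.trans (by positivity)
  have P4 : ‖fderiv ℝ (fun y => (wa N y * (1 - wb N y)) • RR N y) x‖
      ≤ 500 * (4 * (4 * (K2 * (1 + K2)) * K1)) * (N : ℝ) ^ 2 := by
    have h5 := (hwa.mul ((Bd.const (x := x) (A := 1) (1 : ℝ) hL.le (by norm_num)).sub hwb) hL.le).smul
      hR hL.le
    have e : 4 * (4 * (K2 * (1 + K2)) * (K1 / N)) = (4 * (4 * (K2 * (1 + K2)) * K1)) / N := by ring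
    rw [e] at h5
    exact Bd.fderiv_le G (by positivity) h5
  have D1 : DifferentiableAt ℝ (Vh N) x := ContDiff.one_lt_two' (contDiff_Vh N) x
  have D2 : DifferentiableAt ℝ (fun y => (1 - wa N y) • (-y - Vh N y)) x :=
    ContDiff.one_lt_two' ((contDiff_const.sub (contDiff_wa G)).smul
      (contDiff_id.neg.sub (contDiff_Vh N))) x
  have D3 : DifferentiableAt ℝ (fun y => wb N y • Vh N y) x :=
    ContDiff.one_lt_two' ((contDiff_wb G).smul (contDiff_Vh N)) x
  have D4 : DifferentiableAt ℝ (fun y => (wa N y * (1 - wb N y)) • RR N y) x :=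
    ContDiff.one_lt_two' (((contDiff_wa G).mul (contDiff_const.sub (contDiff_wb G))).smul
      (contDiff_rotSum ((contDiff_KT G).add (contDiff_KT' G)))) x
  have hsum : fderiv ℝ (vv N) x = fderiv ℝ (Vh N) x
      + fderiv ℝ (fun y => (1 - wa N y) • (-y - Vh N y)) x
      - fderiv ℝ (fun y => wb N y • Vh N y) x
      + fderiv ℝ (fun y => (wa N y * (1 - wb N y)) • RR N y) x :=
    (((D1.hasFDerivAt.add D2.hasFDerivAt).sub D3.hasFDerivAt).add D4.hasFDerivAt).fderiv
  rw [hsum]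
  have n1 := norm_add_le (fderiv ℝ (Vh N) x + fderiv ℝ (fun y => (1 - wa N y) • (-y - Vh N y)) x
      - fderiv ℝ (fun y => wb N y • Vh N y) x) (fderiv ℝ (fun y => (wa N y * (1 - wb N y)) • RR N y) x)
  have n2 := norm_sub_le (fderiv ℝ (Vh N) x + fderiv ℝ (fun y => (1 - wa N y) • (-y - Vh N y)) x)
      (fderiv ℝ (fun y => wb N y • Vh N y) x)
  have n3 := norm_add_le (fderiv ℝ (Vh N) x) (fderiv ℝ (fun y => (1 - wa N y) • (-y - Vh N y)) x)
  rw [P2] at n3
  have : (K3 + 500 * (4 * (K2 * (600 * K3))) + 500 * (4 * (4 * (K2 * (1 + K2)) * K1))) * (N : ℝ) ^ 2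
    = K3 * N ^ 2 + 500 * (4 * (K2 * (600 * K3))) * N ^ 2
      + 500 * (4 * (4 * (K2 * (1 + K2)) * K1)) * N ^ 2 := by ring
  rw [this]
  linarith

end Pool.Agent.H24
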